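import Mathlib

/-!
# The combinatorics of the tame characters at the branch points
-/

universe u

namespace Pool.Agent.Helper91.SE

section

variable {T C : Type*} [DecidableEq T] [Field C] {R : Finset T} {n : ℕ} (hn : n.Prime)
  {z : T → C} {ω : C} (hω : IsPrimitiveRoot ω n) (hzn : ∀ r ∈ R, z r ^ n = 1)
  (hcore : ∀ (t : ℕ) (r : Fin (t + 1) → T), Function.Injective r → (∀ i, r i ∈ R) →
    ∀ m : Fin (t + 1) → ℕ, (∀ i, 0 < m i) → (∀ i, m i < n) → n ∣ ∑ i, m i →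
      ∏ i, z (r i) ^ m i = 1 → ∀ i : Fin t, z (r i.succ) = z (r 0))

omit [DecidableEq T] in
include hn hcore hzn in
theorem no_four {r₀ r₁ r₂ r₃ : T} (h₀ : r₀ ∈ R) (h₁ : r₁ ∈ R) (h₂ : r₂ ∈ R) (h₃ : r₃ ∈ R)
    (h01 : r₀ ≠ r₁) (h23 : r₂ ≠ r₃) (hz01 : z r₀ = z r₁) (hz23 : z r₂ = z r₃) :
    z r₀ = z r₂ := by
  by_contra hne
  have h02 : r₀ ≠ r₂ := fun h => hne (by rw [h])
  have h03 : r₀ ≠ r₃ := fun h => hne (by rw [h, hz23])
  have h12 : r₁ ≠ r₂ := fun h => hne (by rw [hz01, h])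
  have h13 : r₁ ≠ r₃ := fun h => hne (by rw [hz01, h, hz23])
  have hinj : Function.Injective ![r₀, r₁, r₂, r₃] := by
    intro i j hij
    fin_cases i <;> fin_cases j <;> simp_all
  have h1 := hn.one_lt
  have h := hcore 3 ![r₀, r₁, r₂, r₃] hinj
    (by intro i; fin_cases i <;> simp [h₀, h₁, h₂, h₃]) ![1, n - 1, 1, n - 1]
    (by intro i; fin_cases i <;> simp <;> omega) (by intro i; fin_cases i <;> simp <;> omega)
    (by
      rw [Fin.sum_univ_four]
      refine ⟨2, ?_⟩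
      simp
      omega)
    (by
      rw [Fin.prod_univ_four]
      simp only [Matrix.cons_val_zero, Matrix.cons_val_one, Matrix.cons_val]
      have e1 : z r₁ * z r₁ ^ (n - 1) = 1 := by
        rw [← pow_succ', Nat.sub_add_cancel h1.le, hzn _ h₁]
      have e3 : z r₃ * z r₃ ^ (n - 1) = 1 := by
        rw [← pow_succ', Nat.sub_add_cancel h1.le, hzn _ h₃]
      rw [pow_one, pow_one, hz01, hz23, e1, one_mul, e3]) 1
  exact hne h.symm

omit [DecidableEq T] in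
include hn hω hcore hzn in
theorem no_three {r₀ r₁ r₂ : T} (h₀ : r₀ ∈ R) (h₁ : r₁ ∈ R) (h₂ : r₂ ∈ R)
    (h01 : z r₀ ≠ z r₁) (h02 : z r₀ ≠ z r₂) (h12 : z r₁ ≠ z r₂) : False := by
  have : NeZero n := ⟨hn.ne_zero⟩
  have hn0 := hn.pos
  obtain ⟨a₀, ha₀, hz₀⟩ := hω.eq_pow_of_pow_eq_one (hzn _ h₀)
  obtain ⟨a₁, ha₁, hz₁⟩ := hω.eq_pow_of_pow_eq_one (hzn _ h₁)
  obtain ⟨a₂, ha₂, hz₂⟩ := hω.eq_pow_of_pow_eq_one (hzn _ h₂)
  have hr01 : r₀ ≠ r₁ := fun h => h01 (by rw [h])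
  have hr02 : r₀ ≠ r₂ := fun h => h02 (by rw [h])
  have hr12 : r₁ ≠ r₂ := fun h => h12 (by rw [h])
  have hinj : Function.Injective ![r₀, r₁, r₂] := by
    intro i j hij
    fin_cases i <;> fin_cases j <;> simp_all
  have hne01 : a₀ ≠ a₁ := fun h => h01 (by rw [← hz₀, ← hz₁, h])
  have hne02 : a₀ ≠ a₂ := fun h => h02 (by rw [← hz₀, ← hz₂, h])
  have hne12 : a₁ ≠ a₂ := fun h => h12 (by rw [← hz₁, ← hz₂, h])
  have hmod : ∀ a b : ℕ, a < n → b < n → a ≠ b → 0 < (a + (n - b)) % n := by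
    intro a b ha hb hab
    rcases lt_or_gt_of_ne hab with h | h
    · rw [Nat.mod_eq_of_lt (by omega)]; omega
    · rw [Nat.mod_eq_sub_mod (by omega), Nat.mod_eq_of_lt (by omega)]; omega
  have hlt : ∀ a : ℕ, a % n < n := fun a => Nat.mod_lt _ hn0
  have h := hcore 2 ![r₀, r₁, r₂] hinj
    (by intro i; fin_cases i <;> simp [h₀, h₁, h₂])
    ![(a₁ + (n - a₂)) % n, (a₂ + (n - a₀)) % n, (a₀ + (n - a₁)) % n]
    (by
      intro i
      fin_cases i
      · exact hmod _ _ ha₁ ha₂ hne12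
      · exact hmod _ _ ha₂ ha₀ hne02.symm
      · exact hmod _ _ ha₀ ha₁ hne01)
    (by intro i; fin_cases i <;> exact hlt _)
    (by
      rw [Fin.sum_univ_three]
      simp only [Matrix.cons_val_zero, Matrix.cons_val_one, Matrix.cons_val]
      rw [← Nat.modEq_zero_iff_dvd]
      refine (((Nat.mod_modEq _ _).add (Nat.mod_modEq _ _)).add (Nat.mod_modEq _ _)).trans ?_
      rw [Nat.modEq_zero_iff_dvd]
      exact ⟨3, by omega⟩)
    (by
      rw [Fin.prod_univ_three]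
      simp only [Matrix.cons_val_zero, Matrix.cons_val_one, Matrix.cons_val]
      rw [← hz₀, ← hz₁, ← hz₂, ← pow_mul, ← pow_mul, ← pow_mul, ← pow_add, ← pow_add,
        hω.pow_eq_one_iff_dvd, ← (Nat.modEq_zero_iff_dvd)]
      have e : ∀ a b c : ℕ, a * ((b + (n - c)) % n) ≡ a * (b + (n - c)) [MOD n] := fun a b c =>
        (Nat.mod_modEq _ _).mul_left _
      refine (((e a₀ a₁ a₂).add (e a₁ a₂ a₀)).add (e a₂ a₀ a₁)).trans ?_
      rw [Nat.modEq_zero_iff_dvd]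
      refine ⟨a₀ + a₁ + a₂, ?_⟩
      zify [ha₀.le, ha₁.le, ha₂.le]
      ring) 0
  exact h01 h.symm

include hn hω hcore hzn

/-- all characters but one are equal, and the exceptional branch point is fixed by every symmetry
preserving the ratios of the characters -/
theorem exists_fixed_pt (hR3 : 3 ≤ R.card) (hRn : n ∣ R.card) (hprod : ∏ r ∈ R, z r ≠ 1) :
    ∃ r₀ ∈ R, ∀ γ : T → T, Function.Injective γ → (∀ r ∈ R, γ r ∈ R) →
      (∀ r ∈ R, ∀ r' ∈ R, z (γ r) * z r' = z (γ r') * z r) → γ r₀ = r₀ := by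
  have hz0 : ∀ r ∈ R, z r ≠ 0 := by
    intro r hr h0
    have h1 := hzn r hr
    rw [h0, zero_pow hn.ne_zero] at h1
    exact zero_ne_one h1
  have hne : R.Nonempty := Finset.card_pos.1 (by omega)
  obtain ⟨a, ha⟩ := hne
  -- not all the characters are equal
  obtain ⟨b, hb, hab⟩ : ∃ b ∈ R, z b ≠ z a := by
    by_contra hcon
    push Not at hcon
    apply hprod
    rw [Finset.prod_congr rfl hcon, Finset.prod_const]
    obtain ⟨d, hd⟩ := hRn
    rw [hd, pow_mul, hzn a ha, one_pow]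
  have htwo : ∀ r ∈ R, z r = z a ∨ z r = z b := by
    intro r hr
    by_contra hcon
    push Not at hcon
    exact no_three hn hω hzn hcore hr ha hb hcon.1 hcon.2 hab.symm
  -- the exceptional point
  obtain ⟨r₀, hr₀, hexc⟩ : ∃ r₀ ∈ R, ∀ r ∈ R, r ≠ r₀ → z r ≠ z r₀ := by
    by_cases h1 : ∃ a' ∈ R, a' ≠ a ∧ z a' = z a
    · obtain ⟨a', ha', haa', hza'⟩ := h1
      refine ⟨b, hb, fun r hr hrb hzr => ?_⟩
      exact hab (no_four hn hzn hcore hb hr ha' ha (Ne.symm hrb) haa' hzr.symm hza' |>.trans hza')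
    · push Not at h1
      exact ⟨a, ha, h1⟩
  have hrest : ∀ r ∈ R, ∀ r' ∈ R, r ≠ r₀ → r' ≠ r₀ → z r = z r' := by
    intro r hr r' hr' hne hne'
    by_contra hcon
    exact no_three hn hω hzn hcore hr hr' hr₀ hcon (hexc r hr hne) (hexc r' hr' hne')
  refine ⟨r₀, hr₀, fun γ hγ hγR hrel => ?_⟩
  by_contra hfix
  -- `γ` is surjective on `R`
  obtain ⟨r', hr', hγr'⟩ : ∃ r' ∈ R, γ r' = r₀ := by
    have h1 : R.image γ = R := by
      refine Finset.eq_of_subset_of_card_le ?_ ?_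
      · intro x hx
        obtain ⟨y, hy, rfl⟩ := Finset.mem_image.1 hx
        exact hγR y hy
      · rw [Finset.card_image_of_injective _ hγ]
    rw [← h1] at hr₀
    obtain ⟨y, hy, h2⟩ := Finset.mem_image.1 hr₀
    exact ⟨y, hy, h2⟩
  have hr'0 : r' ≠ r₀ := fun h => hfix (by rw [← h, hγr', h])
  obtain ⟨r, hr, hr0, hrr'⟩ : ∃ r ∈ R, r ≠ r₀ ∧ r ≠ r' := by
    by_contra hcon
    push Not at hcon
    have h1 : R ⊆ {r₀, r'} := by
      intro x hx
      rw [Finset.mem_insert, Finset.mem_singleton]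
      by_cases h2 : x = r₀
      · exact Or.inl h2
      · exact Or.inr (hcon x hx h2)
    have h2 := Finset.card_le_card h1
    have h3 : ({r₀, r'} : Finset T).card ≤ 2 := Finset.card_le_two
    omega
  have h1 := hrel r hr r' hr'
  rw [hrest r hr r' hr' hr0 hr'0, hγr'] at h1
  have h2 := mul_right_cancel₀ (hz0 r' hr') h1
  exact hexc (γ r) (hγR r hr) (fun h => hrr' (hγ (by rw [h, hγr']))) h2

end

end Pool.Agent.Helper91.SE
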