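import Pool.Agent.Helper91.Section.Tame2

/-!
# Inertia elements moving an `n`-th root of an element of value not divisible by `n`
-/

universe u

namespace Pool.Agent.Helper91.SE

open Polynomial Pool.Agent.Helper91.Sect IntermediateField

section

variable {k C : Type u} [Field k] [Field C] [Algebra k C] [IsGalois k C]
  {O : ValuationSubring k} (Q : Ideal (integralClosure O C)) [hQ : Q.IsPrime]

/-- An automorphism acting trivially modulo `Q` on the integral elements of an intermediate field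
`M` agrees on `M` with an element of the inertia group. -/
theorem exists_inertia_of (M : IntermediateField k C) (τ0 : C ≃ₐ[k] C)
    (hM : ∀ b : integralClosure O C, (b : C) ∈ M → τ0 • b - b ∈ Q) :
    ∃ τ : C ≃ₐ[k] C, InI Q τ ∧ ∀ z ∈ M, τ z = τ0 z := by
  classical
  set H : Subgroup (C ≃ₐ[k] C) := M.fixingSubgroup with hHdef
  have hH : IsClosed (H : Set (C ≃ₐ[k] C)) := InfiniteGalois.fixingSubgroup_isClosed _
  have hHM : ∀ σ ∈ H, ∀ z ∈ M, σ z = z := fun σ hσ z hz =>
    (mem_fixingSubgroup_iff (C ≃ₐ[k] C)).1 hσ z hz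
  have hfixed : ∀ b : integralClosure O C, (∀ σ ∈ H, σ • b = b) → (b : C) ∈ M := by
    intro b hb
    rw [← InfiniteGalois.fixedField_fixingSubgroup M, IntermediateField.mem_fixedField_iff]
    intro σ hσ
    exact congrArg Subtype.val (hb σ hσ)
  have hiff : ∀ b : integralClosure O C, (b : C) ∈ M → (τ0 • b ∈ Q ↔ b ∈ Q) := by
    intro b hb
    have h1 := hM b hb
    constructor
    · intro h2
      have h3 := Q.sub_mem h2 h1
      rwa [sub_sub_cancel] at h3
    · intro h2
      have h3 := Q.add_mem h1 h2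
      rwa [sub_add_cancel] at h3
  -- first step
  let P : Ideal (integralClosure O C) :=
    Q.comap (MulSemiringAction.toRingHom (C ≃ₐ[k] C) (integralClosure O C) τ0)
  have hP : ∀ b, b ∈ P ↔ τ0 • b ∈ Q := fun b => Iff.rfl
  have hPprime : P.IsPrime := Ideal.comap_isPrime _ _
  obtain ⟨δ, hδH, hδ⟩ := exists_conj H hH P Q (fun b hb => by
    rw [hP]; exact hiff b (hfixed b hb))
  set τ1 : C ≃ₐ[k] C := τ0 * δ⁻¹ with hτ1
  have hτ1D : InD Q τ1 := by
    intro b
    have h1 := hδ (δ⁻¹ • b)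
    rw [smul_inv_smul, hP, ← mul_smul] at h1
    exact h1.symm
  have hτ1M : ∀ z ∈ M, τ1 z = τ0 z := by
    intro z hz
    have : δ⁻¹ z = z := hHM _ (H.inv_mem hδH) z hz
    rw [hτ1, AlgEquiv.mul_apply, this]
  -- the automorphism of the residue ring
  let e : integralClosure O C ≃+* integralClosure O C :=
    MulSemiringAction.toRingEquiv (C ≃ₐ[k] C) (integralClosure O C) τ1
  let φ : (integralClosure O C ⧸ Q) ≃+* (integralClosure O C ⧸ Q) :=
    Ideal.quotientEquiv Q Q e (by
      ext b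
      rw [Ideal.map_comap_of_equiv]
      change b ∈ Q ↔ τ1⁻¹ • b ∈ Q
      rw [hτ1D.inv b])
  have hφ : ∀ b, φ (Ideal.Quotient.mk Q b) = Ideal.Quotient.mk Q (τ1 • b) := fun b => rfl
  obtain ⟨ε, hεH, hεD, hε⟩ := exists_lift H hH Q φ (by
    intro b hb
    have hbM := hfixed b hb
    rw [hφ, Ideal.Quotient.eq]
    have h1 : τ1 • b = τ0 • b := Subtype.ext (hτ1M _ hbM)
    rw [h1]
    exact hM b hbM)
  refine ⟨τ1 * ε⁻¹, ⟨hτ1D.mul (InD.inv hεD), fun b => ?_⟩, fun z hz => ?_⟩
  · have h1 : Ideal.Quotient.mk Q (τ1 • (ε⁻¹ • b)) = Ideal.Quotient.mk Q b := by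
      rw [← hφ, ← hε, smul_inv_smul]
    rw [← Ideal.Quotient.eq, mul_smul, h1]
  · rw [AlgEquiv.mul_apply, hHM _ (H.inv_mem hεH) z hz, hτ1M z hz]

end

section Vals

variable {k C : Type u} [Field k] [Field C] [Algebra k C] {Γ : Type*}
  [LinearOrderedCommGroupWithZero Γ] (v : Valuation C Γ) {n : ℕ} (hn : n.Prime)
  (F : IntermediateField k C)

theorem exists_val_of_coprime {n d : ℕ} (hcop : Nat.Coprime n d) {u : C} (hu : u ≠ 0) {x y : C}
    (hx : x ∈ F) (hy : y ∈ F) (hxd : v u ^ d = v x) (hyn : v u ^ n = v y) :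
    ∃ z ∈ F, v u = v z := by
  have hu0 : v u ≠ 0 := (_root_.map_ne_zero v).2 hu
  refine ⟨y ^ Nat.gcdA n d * x ^ Nat.gcdB n d, mul_mem (zpow_mem hy _) (zpow_mem hx _), ?_⟩
  rw [map_mul, map_zpow₀, map_zpow₀, ← hxd, ← hyn, ← zpow_natCast, ← zpow_natCast, ← zpow_mul,
    ← zpow_mul, ← zpow_add₀ hu0, ← Nat.gcd_eq_gcd_ab, hcop, Nat.cast_one, zpow_one]

variable {w : C} (hwF : w ^ n ∈ F) (hv : ∀ α ∈ F, v α ^ n ≠ v (w ^ n))

include hn hwF hv

theorem val_term_ne_aux {α β : C} (hα : α ∈ F) (hβ : β ∈ F) (hβ0 : β ≠ 0) {i j : ℕ} (hij : i < j)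
    (hj : j < n) : v (α * w ^ i) ≠ v (β * w ^ j) := by
  intro h
  have hw0 : w ≠ 0 := by
    rintro rfl
    apply hv 0 F.zero_mem
    rw [map_zero, zero_pow hn.ne_zero, zero_pow hn.ne_zero, map_zero]
  have hw0' : v w ≠ 0 := (_root_.map_ne_zero v).2 hw0
  have hβ0' : v β ≠ 0 := (_root_.map_ne_zero v).2 hβ0
  have h1 : v w ^ (j - i) = v (α / β) := by
    rw [map_mul, map_mul, map_pow, map_pow] at h
    rw [map_div₀, eq_div_iff hβ0']
    have h2 : v w ^ j = v w ^ (j - i) * v w ^ i := by rw [← pow_add]; congr 1; omega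
    rw [h2] at h
    have h3 : v w ^ i ≠ 0 := pow_ne_zero _ hw0'
    apply mul_right_cancel₀ h3
    rw [h]; ac_rfl
  have hcop : Nat.Coprime n (j - i) := Nat.coprime_of_lt_prime (by omega) (by omega) hn
  obtain ⟨z, hz, hzw⟩ := exists_val_of_coprime v F hcop hw0 (div_mem hα hβ) hwF h1
    (by rw [map_pow])
  exact hv z hz (by rw [← hzw, map_pow])

/-- the value of a polynomial in `w` of degree less than `n` is the largest of the values of the
terms -/
theorem val_sum_aux {α : ℕ → C} (hα : ∀ j, α j ∈ F) (hle : v (∑ j ∈ Finset.range n, α j * w ^ j) ≤ 1)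
    {j : ℕ} (hj : j < n) : v (α j * w ^ j) ≤ 1 ∧ (j ≠ 0 → v (α j * w ^ j) < 1) := by
  classical
  have hw0 : w ≠ 0 := by
    rintro rfl
    apply hv 0 F.zero_mem
    rw [map_zero, zero_pow hn.ne_zero, zero_pow hn.ne_zero, map_zero]
  have hdist : ∀ i < n, ∀ j < n, i ≠ j → α i ≠ 0 → α j ≠ 0 → v (α i * w ^ i) ≠ v (α j * w ^ j) := by
    intro i hi j hj hij hi0 hj0
    rcases lt_or_gt_of_ne hij with h | h
    · exact val_term_ne_aux v hn F hwF hv (hα i) (hα j) hj0 h hj
    · exact (val_term_ne_aux v hn F hwF hv (hα j) (hα i) hi0 h hi).symm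
  have hn0 : (Finset.range n).Nonempty := ⟨0, Finset.mem_range.2 hn.pos⟩
  obtain ⟨l, hl, hmax⟩ := Finset.exists_max_image (Finset.range n) (fun j => v (α j * w ^ j)) hn0
  have hall : ∀ j < n, v (α j * w ^ j) ≤ 1 := by
    by_cases hl0 : α l = 0
    · intro j hj
      refine (hmax j (Finset.mem_range.2 hj)).trans ?_
      rw [hl0, zero_mul, map_zero]; exact zero_le_one
    · have h1 : v (∑ j ∈ Finset.range n, α j * w ^ j) = v (α l * w ^ l) := by
        refine Valuation.map_sum_eq_of_lt v hl fun i hi => ?_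
        rw [Finset.mem_sdiff, Finset.mem_singleton, Finset.mem_range] at hi
        by_cases hi0 : α i = 0
        · rw [hi0, zero_mul, map_zero, zero_lt_iff, Ne, map_eq_zero]
          exact mul_ne_zero hl0 (pow_ne_zero _ hw0)
        · exact lt_of_le_of_ne (hmax i (Finset.mem_range.2 hi.1))
            (hdist i hi.1 l (Finset.mem_range.1 hl) hi.2 hi0 hl0)
      intro j hj
      rw [h1] at hle
      exact (hmax j (Finset.mem_range.2 hj)).trans hle
  refine ⟨hall j hj, fun hj0 => lt_of_le_of_ne (hall j hj) fun h => ?_⟩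
  by_cases hαj : α j = 0
  · rw [hαj, zero_mul, map_zero] at h
    exact zero_ne_one h
  · refine val_term_ne_aux v hn F hwF hv F.one_mem (hα j) hαj (Nat.pos_of_ne_zero hj0) hj ?_
    rw [h, pow_zero, mul_one, map_one]

end Vals

section Deg

variable {k C : Type u} [Field k] [Field C] [Algebra k C] {Γ : Type*}
  [LinearOrderedCommGroupWithZero Γ] (v : Valuation C Γ) {n : ℕ} (hn : n.Prime)

include hn in
/-- values not divisible by `n` remain so in extensions of degree less than `n` -/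
theorem val_ne_of_deg {c : k} (hv : ∀ d : k, v (algebraMap k C d) ^ n ≠ v (algebraMap k C c))
    {α : C} (hα : IsIntegral k α) (hdeg : (minpoly k α).natDegree < n) :
    v α ^ n ≠ v (algebraMap k C c) := by
  intro h
  by_cases hα0 : α = 0
  · apply hv 0
    rw [map_zero, ← h, hα0]
  have hα0' : v α ≠ 0 := (_root_.map_ne_zero v).2 hα0
  obtain ⟨i, j, hij, hj, hi0, hj0, hval⟩ :=
    exists_pair v (minpoly.ne_zero hα) hα0 (minpoly.aeval k α)
  set p := minpoly k α
  have hj0' : v (algebraMap k C (p.coeff j)) ≠ 0 := by simpa using hj0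
  have h1 : v α ^ (j - i) = v (algebraMap k C (p.coeff i) / algebraMap k C (p.coeff j)) := by
    rw [map_mul, map_mul, map_pow, map_pow] at hval
    rw [map_div₀, eq_div_iff hj0']
    have h2 : v α ^ j = v α ^ (j - i) * v α ^ i := by rw [← pow_add]; congr 1; omega
    rw [h2] at hval
    have h3 : v α ^ i ≠ 0 := pow_ne_zero _ hα0'
    apply mul_right_cancel₀ h3
    rw [hval]; ac_rfl
  have hcop : Nat.Coprime n (j - i) := Nat.coprime_of_lt_prime (by omega) (by omega) hn
  obtain ⟨z, hz, hzα⟩ := exists_val_of_coprime v (⊥ : IntermediateField k C) hcop hα0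
    (div_mem (IntermediateField.algebraMap_mem ⊥ (p.coeff i))
      (IntermediateField.algebraMap_mem ⊥ (p.coeff j)))
    (IntermediateField.algebraMap_mem ⊥ c) h1 h
  obtain ⟨d, rfl⟩ := IntermediateField.mem_bot.1 hz
  exact hv d (by rw [← hzα, h])

end Deg

section Main

variable {k C : Type u} [Field k] [Field C] [Algebra k C] [IsGalois k C]
  {O : ValuationSubring k} (Q : Ideal (integralClosure O C)) [hQ : Q.IsPrime]
  (hA : Above Q) {n : ℕ} (hn : n.Prime) {c : k}
  (hodd : ∀ d : k, O.valuation c ≠ O.valuation d ^ n)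
  {w : C} (hw : w ^ n = algebraMap k C c) {ζ : C} (hζ : IsPrimitiveRoot ζ n)

include hn hw in
omit [IsGalois k C] in
theorem exists_expansion (F : IntermediateField k C) {z : C}
    (hz : z ∈ (F⟮w⟯.restrictScalars k : IntermediateField k C)) :
    ∃ α : ℕ → C, (∀ j, α j ∈ F) ∧ z = ∑ j ∈ Finset.range n, α j * w ^ j := by
  have hz' : z ∈ F⟮w⟯ := hz
  set c' : F := algebraMap k F c with hc'
  have hcw : algebraMap F C c' = w ^ n := by
    rw [hw, hc']; exact (IsScalarTower.algebraMap_apply k F C c).symm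
  have hmonic : (X ^ n - Polynomial.C c' : F[X]).Monic := monic_X_pow_sub_C c' hn.ne_zero
  have hroot : aeval w (X ^ n - Polynomial.C c' : F[X]) = 0 := by
    rw [map_sub, map_pow, aeval_X, aeval_C, hcw, sub_self]
  have hint : IsIntegral F w := ⟨X ^ n - Polynomial.C c', hmonic, hroot⟩
  have h1 : z ∈ Algebra.adjoin F {w} := by
    rw [← IntermediateField.adjoin_simple_toSubalgebra_of_isAlgebraic hint.isAlgebraic]
    exact hz'
  rw [Algebra.adjoin_singleton_eq_range_aeval] at h1
  obtain ⟨p, rfl⟩ := h1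
  have h2 := modByMonic_add_div p (X ^ n - Polynomial.C c' : F[X])
  have hne1 : (X ^ n - Polynomial.C c' : F[X]) ≠ 1 := by
    intro h1
    have h3 := congrArg natDegree h1
    rw [natDegree_X_pow_sub_C, natDegree_one] at h3
    exact hn.ne_zero h3
  have h3 : (p %ₘ (X ^ n - Polynomial.C c')).natDegree < n := by
    have := natDegree_modByMonic_lt p hmonic hne1
    rwa [natDegree_X_pow_sub_C] at this
  refine ⟨fun j => ((p %ₘ (X ^ n - Polynomial.C c')).coeff j : F), fun j => SetLike.coe_mem _, ?_⟩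
  have h4 : (aeval w : F[X] →ₐ[F] C) p = aeval w (p %ₘ (X ^ n - Polynomial.C c')) := by
    conv_lhs => rw [← h2]
    rw [map_add, map_mul, hroot, zero_mul, add_zero]
  refine h4.trans ?_
  rw [aeval_eq_sum_range' h3]
  refine Finset.sum_congr rfl fun j _ => ?_
  rw [Algebra.smul_def]; rfl

include hn hζ in
omit [IsGalois k C] in
theorem natDegree_lt_of_mem [CharZero k] {α : C} (hα : α ∈ k⟮ζ⟯) :
    IsIntegral k α ∧ (minpoly k α).natDegree < n := by
  have hζn : ζ ^ n = 1 := hζ.pow_eq_one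
  have hint : IsIntegral k ζ := IsIntegral.of_pow hn.pos (by rw [hζn]; exact isIntegral_one)
  have hfd : FiniteDimensional k k⟮ζ⟯ := IntermediateField.adjoin.finiteDimensional hint
  have h1 : (minpoly k ζ).natDegree < n := by
    have h2 : aeval ζ (∑ i ∈ Finset.range n, (X : k[X]) ^ i) = 0 := by
      rw [map_sum]
      simp only [map_pow, aeval_X]
      exact hζ.geom_sum_eq_zero hn.one_lt
    have h3 : (∑ i ∈ Finset.range n, (X : k[X]) ^ i).natDegree ≤ n - 1 := by
      refine natDegree_sum_le_of_forall_le _ _ fun i hi => ?_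
      rw [Finset.mem_range] at hi
      rw [natDegree_X_pow]
      omega
    have h4 : (∑ i ∈ Finset.range n, (X : k[X]) ^ i) ≠ 0 := by
      intro h0
      have h5 := congrArg (eval 1) h0
      rw [eval_finsetSum] at h5
      simp only [eval_pow, eval_X, one_pow, Finset.sum_const, Finset.card_range, eval_zero,
        nsmul_eq_mul, mul_one] at h5
      exact hn.ne_zero (by exact_mod_cast h5)
    have h5 := natDegree_le_of_dvd (minpoly.dvd k ζ h2) h4
    have h6 := hn.pos
    omega
  set α' : k⟮ζ⟯ := ⟨α, hα⟩ with hα'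
  have h2 : IsIntegral k α' := Algebra.IsIntegral.isIntegral α'
  have h3 : minpoly k α = minpoly k α' := by
    have h4 := minpoly.algebraMap_eq (algebraMap k⟮ζ⟯ C).injective α' (A := k)
    exact h4
  refine ⟨h2.map (IsScalarTower.toAlgHom k k⟮ζ⟯ C), ?_⟩
  rw [h3]
  have h4 := minpoly.natDegree_le (A := k) α'
  rw [IntermediateField.adjoin.finrank hint] at h4
  omega

include hA hn hodd hw hζ in
/-- An element of the inertia group moving the `n`-th root of an element whose value is not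
divisible by `n`. -/
theorem exists_inertia_ne [CharZero k] : ∃ τ : C ≃ₐ[k] C, InI Q τ ∧ τ w ≠ w := by
  classical
  set v := (locW Q).valuation with hv
  set F : IntermediateField k C := k⟮ζ⟯ with hF
  have hbase : ∀ d : k, v (algebraMap k C d) ^ n ≠ v (algebraMap k C c) := by
    intro d h
    have hc : c ≠ 0 := by
      rintro rfl
      exact hodd 0 (by rw [map_zero, zero_pow hn.ne_zero])
    rw [← map_pow, ← map_pow, locW_eq_iff Q hA hc, map_pow] at h
    exact hodd d h.symm
  have hwF : w ^ n ∈ F := by rw [hw]; exact F.algebraMap_mem c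
  have hvF : ∀ α ∈ F, v α ^ n ≠ v (w ^ n) := by
    intro α hα
    rw [hw]
    obtain ⟨h1, h2⟩ := natDegree_lt_of_mem hn hζ hα
    exact val_ne_of_deg v hn hbase h1 h2
  have hwnF : w ∉ F := fun h => hvF w h (by rw [map_pow])
  -- an automorphism over `F` moving `w`
  obtain ⟨τ0, hτ0F, hτ0w⟩ : ∃ τ0 ∈ F.fixingSubgroup, τ0 w ≠ w := by
    by_contra hcon
    push Not at hcon
    apply hwnF
    rw [← InfiniteGalois.fixedField_fixingSubgroup F, IntermediateField.mem_fixedField_iff]
    exact hcon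
  have hτ0 : ∀ z ∈ F, τ0 z = z := fun z hz =>
    (mem_fixingSubgroup_iff (C ≃ₐ[k] C)).1 hτ0F z hz
  have hw0 : w ≠ 0 := fun h0 => hwnF (by rw [h0]; exact F.zero_mem)
  set η := τ0 w / w with hη
  have hτ0w' : τ0 w = η * w := by rw [hη, div_mul_cancel₀ _ hw0]
  have hηn : η ^ n = 1 := by
    rw [hη, div_pow, ← map_pow, hw, AlgEquiv.commutes, ← hw]
    exact div_self (pow_ne_zero _ hw0)
  have hvη : v η = 1 := by
    have h1 : v η ^ n = 1 := by rw [← map_pow, hηn, map_one]
    exact (pow_eq_one_iff_of_nonneg zero_le hn.ne_zero).1 h1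
  obtain ⟨τ, hτ, hτM⟩ := exists_inertia_of Q (F⟮w⟯.restrictScalars k) τ0 (by
    intro b hb
    obtain ⟨α, hα, hαb⟩ := exists_expansion hn hw F hb
    have hle : v (∑ j ∈ Finset.range n, α j * w ^ j) ≤ 1 := by rw [← hαb]; exact coeB_le Q b
    rw [← val_coe_lt_one_iff Q]
    have h1 : ((τ0 • b - b : integralClosure O C) : C) =
        ∑ j ∈ Finset.range n, (η ^ j - 1) * (α j * w ^ j) := by
      push_cast
      rw [coe_smulB, hαb, map_sum, ← Finset.sum_sub_distrib]
      refine Finset.sum_congr rfl fun j _ => ?_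
      rw [map_mul, map_pow, hτ0w', hτ0 _ (hα j)]
      ring
    rw [h1]
    refine Valuation.map_sum_lt' _ zero_lt_one fun j hj => ?_
    rw [Finset.mem_range] at hj
    obtain ⟨h2, h3⟩ := val_sum_aux v hn F hwF hvF hα hle hj
    by_cases hj0 : j = 0
    · rw [hj0, pow_zero, sub_self, zero_mul, map_zero]; exact zero_lt_one
    · rw [map_mul]
      have h4 : v (η ^ j - 1) ≤ 1 := by
        refine (Valuation.map_sub _ _ _).trans (max_le ?_ ?_)
        · rw [map_pow, hvη, one_pow]
        · rw [map_one]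
      calc v (η ^ j - 1) * v (α j * w ^ j) ≤ 1 * v (α j * w ^ j) := mul_le_mul_left h4 _
        _ < 1 := by rw [one_mul]; exact h3 hj0)
  refine ⟨τ, hτ, ?_⟩
  rw [hτM w (IntermediateField.mem_adjoin_simple_self F w)]
  exact hτ0w

end Main

end Pool.Agent.Helper91.SE
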