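import Pool.Agent.Helper91.Section.NoFour2

/-!
# Inertia and roots, for general exponents prime to the residue characteristic
-/

universe u

namespace Pool.Agent.Helper91.SE

open Polynomial Pool.Agent.Helper91.Sect

section Aux

variable {k K : Type u} [Field k] [Field K] [Algebra k K] [CharZero k]
  {O : ValuationSubring k} (Q : IC O (kbar k K)) [hQ : Q.IsPrime] {p : ℕ}
  (hres : ∀ n : ℕ, n ≠ 0 → n.Coprime p → (locW Q).valuation (n : kbar k K) = 1)

include hres

omit [CharZero k] in
/-- a root of unity congruent to one, of order prime to the residue characteristic, is one -/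
theorem one_of_cong {η : kbar k K} {N : ℕ} (hN : N ≠ 0) (hNp : N.Coprime p) (hηN : η ^ N = 1)
    (h1 : Cg (locW Q).valuation η 1) : η = 1 := by
  by_contra hη1
  set d := orderOf η with hd
  have hdN : d ∣ N := orderOf_dvd_of_pow_eq_one hηN
  have hd0 : d ≠ 0 := fun h0 => hN (Nat.eq_zero_of_zero_dvd (h0 ▸ hdN))
  have hsum : ∑ i ∈ Finset.range d, η ^ i = 0 := by
    have h2 := geom_sum_mul η d
    rw [hd, pow_orderOf_eq_one, sub_self, ← hd] at h2
    exact (mul_eq_zero.1 h2).resolve_right (sub_ne_zero.2 hη1)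
  have h3 : ∑ i ∈ Finset.range d, (η ^ i - 1) = -(d : kbar k K) := by
    rw [Finset.sum_sub_distrib, hsum]; simp
  have h4 : (locW Q).valuation (∑ i ∈ Finset.range d, (η ^ i - 1)) < 1 :=
    Valuation.map_sum_lt' _ zero_lt_one fun i _ => by
      have := h1.pow i
      rw [one_pow] at this
      exact this.2.2
  rw [h3, Valuation.map_neg, hres d hd0 (Nat.Coprime.coprime_dvd_left hdN hNp)] at h4
  exact lt_irrefl _ h4

/-- inertia fixes the roots of fixed units, of order prime to the residue characteristic -/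
theorem inertia_nth {N : ℕ} (hN : N ≠ 0) (hNp : N.Coprime p) {σ : Gk k K} (hσ : InI Q σ)
    {z : kbar k K} (hz : (locW Q).valuation z = 1) (hzN : σ (z ^ N) = z ^ N) : σ z = z := by
  have hz0 : z ≠ 0 := by
    rintro rfl
    rw [map_zero] at hz
    exact zero_ne_one hz
  have h1 : Cg (locW Q).valuation (σ z / z) 1 := by
    have := (cg_inertia Q hσ hz.le).div (Cg.refl hz.le) hz
    rwa [div_self hz0] at this
  have h2 : (σ z / z) ^ N = 1 := by
    rw [div_pow, ← map_pow, hzN]
    exact div_self (pow_ne_zero _ hz0)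
  have h3 := one_of_cong Q hres hN hNp h2 h1
  rwa [div_eq_one_iff_eq hz0] at h3

/-- An element some power of which, prime to the residue characteristic, is fixed by `s σ`, and
which is fixed by a `p`-power power of `s σ`, is fixed. -/
theorem section_fix_coprime (s : GaloisSection k K) {σ : Gk k K} (hσ : InI Q σ) {w : Kur k K}
    (hw0 : w ≠ 0) {N j : ℕ} (hN : N ≠ 0) (hNp : N.Coprime p)
    (h : s.toHom σ (w ^ N) = w ^ N) (hfix : s.toHom (σ ^ (p ^ j)) w = w) : s.toHom σ w = w := by
  have hwc0 : (w : AlgebraicClosure K) ≠ 0 := fun h0 => hw0 (Subtype.ext h0)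
  obtain ⟨ξ', hξ'⟩ := exists_ext s σ
  set z := (w : AlgebraicClosure K) with hz
  have hζn : (ξ' z / z) ^ N = 1 := by
    have h1 : ξ' (z ^ N) = z ^ N := by
      have h2 := hξ' (w ^ N)
      rw [h] at h2
      exact h2
    rw [div_pow, ← map_pow, h1]
    exact div_self (pow_ne_zero _ hwc0)
  have hζalg : IsAlgebraic k (ξ' z / z) :=
    (IsIntegral.of_pow (Nat.pos_of_ne_zero hN) (by rw [hζn]; exact isIntegral_one)).isAlgebraic
  set ζ : kbar k K := ⟨ξ' z / z, mem_algebraicClosure_iff.2 hζalg⟩ with hζ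
  have hζn' : ζ ^ N = 1 := Subtype.ext hζn
  have hact : s.toHom σ w = toKur k K ζ * w := by
    apply Subtype.ext
    rw [← hξ']
    change ξ' z = ξ' z / z * z
    rw [div_mul_cancel₀ _ hwc0]
  have hσζ : σ ζ = ζ := inertia_root Q hres hσ hN hNp hζn'
  rw [section_pow_char s hσζ hact] at hfix
  have h1 : ζ ^ (p ^ j) = 1 := by
    apply (toKur k K).injective
    apply mul_right_cancel₀ hw0
    rw [hfix, map_one, one_mul]
  have h2 : orderOf ζ ∣ 1 := by
    have h3 : Nat.gcd N (p ^ j) = 1 := Nat.Coprime.pow_right j hNp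
    rw [← h3]
    exact Nat.dvd_gcd (orderOf_dvd_of_pow_eq_one hζn') (orderOf_dvd_of_pow_eq_one h1)
  have h4 : ζ = 1 := orderOf_eq_one_iff.1 (Nat.dvd_one.1 h2)
  rw [hact, h4, map_one, one_mul]

end Aux

end Pool.Agent.Helper91.SE
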