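import Pool.Agent.Helper91.Section.SE.Gal
import Pool.Agent.Helper91.Section.SE.Aux1

/-!
# The tame characters attached to the branch points
-/

universe u

namespace Pool.Agent.Helper91.SE

open Polynomial Pool.Agent.Helper91.Sect

section

variable {k K : Type u} [Field k] [Field K] [Algebra k K] [CharZero k]
  {n : ℕ} (hn : n ≠ 0)
  {O : ValuationSubring k} (Q : IC O (kbar k K)) [hQ : Q.IsPrime]
  {p : ℕ} (hp : p = 1 ∨ p.Prime) (hpn : Nat.Coprime n p)
  (hres : ∀ n : ℕ, n ≠ 0 → n.Coprime p → (locW Q).valuation (n : kbar k K) = 1)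
  {x y : K}
  {a₀ c₀ : kbar k K} (ha₀ : a₀ ≠ 0) (hc₀ : c₀ ≠ 0) {R : Finset (kbar k K)}
  (heq : (c₀ : AlgebraicClosure K) * (algebraMap K (AlgebraicClosure K) y) ^ n =
    a₀ * ∏ r ∈ R, (algebraMap K (AlgebraicClosure K) x - (r : AlgebraicClosure K)))
  {v : kbar k K → AlgebraicClosure K}
  (hv : ∀ r : kbar k K, v r ^ n = algebraMap K (AlgebraicClosure K) x - (r : AlgebraicClosure K))
  (hv0 : ∀ r : kbar k K, v r ≠ 0)
  (s : GaloisSection k K)
  {τ : Gk k K} (hτ : InI Q τ)
  {ξ : AlgebraicClosure K ≃ₐ[K] AlgebraicClosure K}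
  (hξ : ∀ w : Kur k K, ξ w = s.toHom τ w)
  (hIR : ∀ σ : Gk k K, InI Q σ → ∀ r ∈ R, σ r = r)

omit [CharZero k] hQ in
include hn hv hv0 hξ hIR hτ in
/-- the characters -/
theorem exists_char : ∃ z : kbar k K → kbar k K, (∀ r ∈ R, z r ^ n = 1) ∧
    ∀ r ∈ R, ξ (v r) = (z r : AlgebraicClosure K) * v r := by
  have key : ∀ r : kbar k K, ∃ zr : kbar k K, r ∈ R → zr ^ n = 1 ∧
      ξ (v r) = (zr : AlgebraicClosure K) * v r := by
    intro r
    by_cases hr : r ∈ R
    · have h1 : (ξ (v r) / v r) ^ n = 1 := by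
        rw [div_pow, ← map_pow, hv, map_sub, ext_const s hξ, hIR τ hτ r hr]
        have h2 : ξ (algebraMap K (AlgebraicClosure K) x) = algebraMap K (AlgebraicClosure K) x :=
          ξ.commutes x
        rw [h2, ← hv]
        exact div_self (pow_ne_zero _ (hv0 r))
      have halg : IsAlgebraic k (ξ (v r) / v r) :=
        (IsIntegral.of_pow (Nat.pos_of_ne_zero hn) (by rw [h1]; exact isIntegral_one)).isAlgebraic
      refine ⟨⟨ξ (v r) / v r, mem_algebraicClosure_iff.2 halg⟩, fun _ => ⟨Subtype.ext h1, ?_⟩⟩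
      change ξ (v r) = ξ (v r) / v r * v r
      rw [div_mul_cancel₀ _ (hv0 r)]
    · exact ⟨1, fun h => absurd h hr⟩
  choose z hz using key
  exact ⟨z, fun r hr => (hz r hr).1, fun r hr => (hz r hr).2⟩

variable {z : kbar k K → kbar k K} (hzn : ∀ r ∈ R, z r ^ n = 1)
  (hz : ∀ r ∈ R, ξ (v r) = (z r : AlgebraicClosure K) * v r)

include hn hpn hres ha₀ heq hv hv0 hτ hξ hz in
/-- the product of the characters is the ramified character of the constant `c₀` -/
theorem prod_char (ha₀1 : (locW Q).valuation a₀ = 1) (hτa₀ : τ a₀ = a₀)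
    {w : kbar k K} (hw : w ^ n = c₀) (hτw : τ w ≠ w) : ∏ r ∈ R, z r ≠ 1 := by
  classical
  obtain ⟨ℓ, hℓ⟩ := IsAlgClosed.exists_pow_nat_eq a₀ (Nat.pos_of_ne_zero hn)
  have hτℓ : τ ℓ = ℓ := by
    refine inertia_nth Q hres hn hpn hτ ?_ ?_
    · have h1 : (locW Q).valuation (ℓ ^ n) = 1 := by rw [hℓ, ha₀1]
      rw [map_pow] at h1
      exact (pow_eq_one_iff_of_nonneg zero_le hn).1 h1
    · rw [hℓ, hτa₀]
  set Y₀ := algebraMap K (AlgebraicClosure K) y with hY₀
  set pv := ∏ r ∈ R, v r with hpv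
  have hpv0 : pv ≠ 0 := Finset.prod_ne_zero_iff.2 fun r _ => hv0 r
  have hℓ0 : (ℓ : AlgebraicClosure K) ≠ 0 := by
    intro h0
    have h1 : ℓ = 0 := Subtype.ext h0
    rw [h1, zero_pow hn] at hℓ
    exact ha₀ hℓ.symm
  have h1 : ((w : AlgebraicClosure K) * Y₀) ^ n = ((ℓ : AlgebraicClosure K) * pv) ^ n := by
    rw [mul_pow, mul_pow]
    have h3 : (w : AlgebraicClosure K) ^ n = c₀ := congrArg Subtype.val hw
    have h4 : (ℓ : AlgebraicClosure K) ^ n = a₀ := congrArg Subtype.val hℓ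
    rw [h3, h4, heq, hpv, ← Finset.prod_pow]
    congr 1
    exact Finset.prod_congr rfl fun r _ => (hv r).symm
  have hℓpv : (ℓ : AlgebraicClosure K) * pv ≠ 0 := mul_ne_zero hℓ0 hpv0
  -- the ratio is a root of unity
  have hε : ((w : AlgebraicClosure K) * Y₀ / ((ℓ : AlgebraicClosure K) * pv)) ^ n = 1 := by
    rw [div_pow, h1]
    exact div_self (pow_ne_zero _ hℓpv)
  have hεalg : IsAlgebraic k ((w : AlgebraicClosure K) * Y₀ / ((ℓ : AlgebraicClosure K) * pv)) :=
    (IsIntegral.of_pow (Nat.pos_of_ne_zero hn) (by rw [hε]; exact isIntegral_one)).isAlgebraic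
  set ε : kbar k K := ⟨_, mem_algebraicClosure_iff.2 hεalg⟩ with hεdef
  have hεn : ε ^ n = 1 := Subtype.ext hε
  have hτε : τ ε = ε := inertia_root Q hres hτ hn hpn hεn
  have hwY : (w : AlgebraicClosure K) * Y₀ =
      (ε : AlgebraicClosure K) * ((ℓ : AlgebraicClosure K) * pv) := by
    change _ = (w : AlgebraicClosure K) * Y₀ / ((ℓ : AlgebraicClosure K) * pv) *
      ((ℓ : AlgebraicClosure K) * pv)
    rw [div_mul_cancel₀ _ hℓpv]
  have h2 := congrArg ξ hwY
  have hξY : ξ Y₀ = Y₀ := ξ.commutes y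
  have hξpv : ξ pv = ((∏ r ∈ R, z r : kbar k K) : AlgebraicClosure K) * pv := by
    have h3 := map_prod (algebraMap (kbar k K) (AlgebraicClosure K)) z R
    have h4 : ((∏ r ∈ R, z r : kbar k K) : AlgebraicClosure K) =
        ∏ r ∈ R, (z r : AlgebraicClosure K) := h3
    rw [h4, hpv, map_prod, ← Finset.prod_mul_distrib]
    exact Finset.prod_congr rfl fun r hr => hz r hr
  rw [map_mul, map_mul, map_mul, ext_const s hξ, ext_const s hξ, ext_const s hξ, hτℓ, hτε, hξY,
    hξpv] at h2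
  intro hprod
  rw [hprod] at h2
  have h3 : ((1 : kbar k K) : AlgebraicClosure K) = 1 := rfl
  rw [h3, one_mul, ← hwY] at h2
  have hY0 : Y₀ ≠ 0 := by
    intro h0
    rw [h0, mul_zero] at hwY
    exact mul_ne_zero (fun h4 => by
      have h5 : ε = 0 := Subtype.ext h4
      rw [h5, zero_pow hn] at hεn
      exact zero_ne_one hεn) hℓpv hwY.symm
  exact hτw (Subtype.ext (mul_right_cancel₀ hY0 h2))

include hn hp hpn hres ha₀ hc₀ heq hv hv0 hτ hξ hz hIR hzn

/-- the ratios of the characters are invariant under the decomposition group -/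
theorem char_inv {γ : Gk k K} (hγ : InD Q γ) {r r' : kbar k K} (hr : r ∈ R) (hr' : r' ∈ R)
    (hγr : γ r ∈ R) (hγr' : γ r' ∈ R) : z (γ r) * z r' = z (γ r') * z r := by
  have hz0 : ∀ r ∈ R, z r ≠ 0 := by
    intro r hr h0
    have h1 := hzn r hr
    rw [h0, zero_pow hn] at h1
    exact zero_ne_one h1
  set X₀ := algebraMap K (AlgebraicClosure K) x with hX₀
  have hXr : ∀ r : kbar k K, X₀ - (r : AlgebraicClosure K) ≠ 0 := by
    intro r
    rw [← hv]
    exact pow_ne_zero _ (hv0 _)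
  obtain ⟨u, hu⟩ : ∃ u : Kur k K, (u : AlgebraicClosure K) = v r / v r' :=
    ⟨⟨_, pairn_mem_Kur hn ha₀ hc₀ heq hv hr hr'⟩, rfl⟩
  obtain ⟨u', hu'⟩ : ∃ u : Kur k K, (u : AlgebraicClosure K) = v (γ r) / v (γ r') :=
    ⟨⟨_, pairn_mem_Kur hn ha₀ hc₀ heq hv hγr hγr'⟩, rfl⟩
  have hpow : ∀ (t t' : kbar k K) (u : Kur k K), (u : AlgebraicClosure K) = v t / v t' →
      u ^ n = (algebraMap K (Kur k K) x - toKur k K t) /
        (algebraMap K (Kur k K) x - toKur k K t') := by
    intro t t' u hu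
    apply Subtype.ext
    change (u : AlgebraicClosure K) ^ n = (algebraMap K (AlgebraicClosure K) x - t) /
      (algebraMap K (AlgebraicClosure K) x - t')
    rw [hu, div_pow, hv, hv]
  have hu0 : u ≠ 0 := by
    intro h0
    have h6 : v r / v r' = 0 := by rw [← hu, h0]; rfl
    exact div_ne_zero (hv0 _) (hv0 _) h6
  have hu'0 : u' ≠ 0 := by
    intro h0
    have h6 : v (γ r) / v (γ r') = 0 := by rw [← hu', h0]; rfl
    exact div_ne_zero (hv0 _) (hv0 _) h6
  have hact : ∀ (t t' : kbar k K), t ∈ R → t' ∈ R → ∀ (u : Kur k K),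
      (u : AlgebraicClosure K) = v t / v t' → s.toHom τ u = toKur k K (z t / z t') * u := by
    intro t t' ht ht' u hu
    apply Subtype.ext
    rw [← hξ, hu, map_div₀, hz t ht, hz t' ht']
    change _ = ((z t / z t' : kbar k K) : AlgebraicClosure K) * (u : AlgebraicClosure K)
    rw [hu]
    have h1 : ((z t / z t' : kbar k K) : AlgebraicClosure K) =
        (z t : AlgebraicClosure K) / (z t' : AlgebraicClosure K) := rfl
    rw [h1]
    ring
  have hζn : (z r / z r') ^ n = 1 := by rw [div_pow, hzn r hr, hzn r' hr', div_one]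
  have hτζ : τ (z r / z r') = z r / z r' := inertia_root Q hres hτ hn hpn hζn
  have h2 := section_inv_wild s Q hp hres hγ hτ hn hζn hτζ (hact r r' hr hr' u hu) {u} (by
    intro σ j hσ hfix
    refine section_fix_coprime Q hres s hσ hu0 hn hpn ?_ (hfix u (Finset.mem_singleton_self u))
    rw [hpow r r' u hu, map_div₀, map_sub, map_sub, AlgEquiv.commutes, section_toKur,
      section_toKur, hIR σ hσ r hr, hIR σ hσ r' hr'])
  -- `s γ u = ε u'`
  have h3 : (s.toHom γ u) ^ n = u' ^ n := by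
    rw [← map_pow, hpow r r' u hu, hpow (γ r) (γ r') u' hu', map_div₀, map_sub, map_sub,
      AlgEquiv.commutes, section_toKur, section_toKur]
  have h4 : (((s.toHom γ u : Kur k K) : AlgebraicClosure K) / (u' : AlgebraicClosure K)) ^ n = 1 := by
    have h5 := congrArg Subtype.val h3
    have h6 : ((s.toHom γ u : Kur k K) : AlgebraicClosure K) ^ n =
        (u' : AlgebraicClosure K) ^ n := h5
    rw [div_pow, h6]
    exact div_self (pow_ne_zero _ (fun h0 => hu'0 (Subtype.ext h0)))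
  have h5 : IsAlgebraic k (((s.toHom γ u : Kur k K) : AlgebraicClosure K) /
      (u' : AlgebraicClosure K)) :=
    (IsIntegral.of_pow (Nat.pos_of_ne_zero hn) (by rw [h4]; exact isIntegral_one)).isAlgebraic
  set ε : kbar k K := ⟨_, mem_algebraicClosure_iff.2 h5⟩ with hε
  have hεn : ε ^ n = 1 := Subtype.ext h4
  have hτε : τ ε = ε := inertia_root Q hres hτ hn hpn hεn
  have h6 : s.toHom γ u = toKur k K ε * u' := by
    apply Subtype.ext
    change ((s.toHom γ u : Kur k K) : AlgebraicClosure K) =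
      ((s.toHom γ u : Kur k K) : AlgebraicClosure K) / (u' : AlgebraicClosure K) *
        (u' : AlgebraicClosure K)
    rw [div_mul_cancel₀]
    exact fun h0 => hu'0 (Subtype.ext h0)
  rw [h6, map_mul, section_toKur, hτε, hact (γ r) (γ r') hγr hγr' u' hu'] at h2
  have hε0 : toKur k K ε ≠ 0 := by
    rw [Ne, map_eq_zero]
    intro h0
    rw [h0, zero_pow hn] at hεn
    exact zero_ne_one hεn
  have h7 : toKur k K (z (γ r) / z (γ r')) = toKur k K (z r / z r') := by
    have h8 : (toKur k K ε * u') * toKur k K (z (γ r) / z (γ r')) =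
        (toKur k K ε * u') * toKur k K (z r / z r') := by
      calc (toKur k K ε * u') * toKur k K (z (γ r) / z (γ r')) =
          toKur k K ε * (toKur k K (z (γ r) / z (γ r')) * u') := by ring
        _ = toKur k K (z r / z r') * (toKur k K ε * u') := h2
        _ = _ := by ring
    exact mul_left_cancel₀ (mul_ne_zero hε0 hu'0) h8
  have h8 := (toKur k K).injective h7
  rwa [div_eq_div_iff (hz0 _ hγr') (hz0 _ hr'), mul_comm (z r)] at h8

end

end Pool.Agent.Helper91.SE
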