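import Pool.Agent.Helper91.Section.SE.Core
import Pool.Agent.Helper91.Section.SE.Sgn
import Pool.Agent.Helper91.Section.SE.Iner
import Pool.Agent.Helper91.Section.SE.Comb

/-!
# Sections of ramified superelliptic twists with good reduction give roots in the residue field
-/

universe u

namespace Pool.Agent.Helper91.SE

open Polynomial Pool.Agent.Helper91.Sect

section Expchar

variable {k : Type u} [Field k] {O : ValuationSubring k}

/-- the characteristic exponent of the residue field -/
theorem exists_expChar_n {n : ℕ} (hn : n.Prime) (hnκ : (n : IsLocalRing.ResidueField O) ≠ 0) :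
    ∃ p : ℕ, (p = 1 ∨ p.Prime) ∧ Nat.Coprime n p ∧
      ∀ n : ℕ, n ≠ 0 → n.Coprime p → O.valuation (n : k) = 1 := by
  obtain ⟨p, hp⟩ := ExpChar.exists (IsLocalRing.ResidueField O)
  have key : ∀ n : ℕ, (n : IsLocalRing.ResidueField O) ≠ 0 → O.valuation (n : k) = 1 := by
    intro n hn
    have h1 : IsLocalRing.residue O (n : O) ≠ 0 := by rwa [map_natCast]
    rw [Ne, IsLocalRing.residue_eq_zero_iff, O.valuation_lt_one_iff] at h1
    refine le_antisymm ((O.valuation_le_one_iff _).2 (natCast_mem O n)) ?_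
    have h3 : (((n : O) : O) : k) = (n : k) := by simp
    rw [h3] at h1
    exact not_lt.1 h1
  cases hp with
  | zero =>
    exact ⟨1, Or.inl rfl, Nat.coprime_one_right n,
      fun n hn _ => key n (Nat.cast_ne_zero.2 hn)⟩
  | prime hprime =>
    refine ⟨p, Or.inr hprime, ?_, fun n hn hnp => key n ?_⟩
    · rw [Nat.coprime_primes hn hprime]
      rintro rfl
      apply hnκ
      exact CharP.cast_eq_zero (IsLocalRing.ResidueField O) n
    · rw [Ne, CharP.cast_eq_zero_iff (IsLocalRing.ResidueField O) p]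
      intro hdvd
      have h4 := Nat.eq_one_of_dvd_coprimes hnp hdvd dvd_rfl
      exact hprime.one_lt.ne' h4

end Expchar

section

variable {k K : Type u} [Field k] [Field K] [Algebra k K] [CharZero k]

theorem section_root_n {O : ValuationSubring k} (hκ : HasPlaces (IsLocalRing.ResidueField O))
    {n : ℕ} (hn : n.Prime) (hnκ : (n : IsLocalRing.ResidueField O) ≠ 0)
    {c : k} (hodd : ∀ d : k, O.valuation c ≠ O.valuation d ^ n)
    {f : O[X]} (hlu : IsUnit f.leadingCoeff) (hsep : (f.map (IsLocalRing.residue O)).Separable)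
    (hdvd : n ∣ f.natDegree) (hdeg : 3 ≤ f.natDegree)
    {x y : K} (hx : Transcendental k x)
    (hxy : algebraMap k K c * y ^ n = aeval x (f.map (algebraMap O k)))
    (s : GaloisSection k K) :
    ∃ a : IsLocalRing.ResidueField O, (f.map (IsLocalRing.residue O)).eval a = 0 := by
  classical
  have hn0 : n ≠ 0 := hn.ne_zero
  have hlc : O.valuation (f.leadingCoeff : k) = 1 := (O.valuation_eq_one_iff _).1 hlu
  -- Bezout
  obtain ⟨ab, bb, hab⟩ := hsep
  obtain ⟨a, rfl⟩ := map_surjective _ (IsLocalRing.residue_surjective (R := O)) ab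
  obtain ⟨b, rfl⟩ := map_surjective _ (IsLocalRing.residue_surjective (R := O)) bb
  have hm : ∀ n, O.valuation (((a * f + b * derivative f - 1).coeff n : O) : k) < 1 := by
    intro n
    rw [← O.valuation_lt_one_iff, ← IsLocalRing.residue_eq_zero_iff, ← coeff_map,
      Polynomial.map_sub, Polynomial.map_add, Polynomial.map_mul, Polynomial.map_mul,
      Polynomial.map_one, ← derivative_map, hab, sub_self, coeff_zero]
  -- the finite place of the residue field
  set κ := IsLocalRing.ResidueField O with hκdef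
  set fb := f.map (IsLocalRing.residue O) with hfb
  have hcne : ∀ {g : κ[X]} {z : κ}, z ∈ g.coeffs → z ≠ 0 := by
    intro g z hz
    obtain ⟨n, hn, rfl⟩ := mem_coeffs_iff.1 hz
    exact mem_support_iff.1 hn
  obtain ⟨pp, ff, hpp, hff, Ob, hOb1, hOb2, hOb3⟩ := hκ ({(n : κ)} ∪ (fb.coeffs ∪
    ((a.map (IsLocalRing.residue O)).coeffs ∪ (b.map (IsLocalRing.residue O)).coeffs))) (by
      intro z hz
      rw [Finset.mem_union, Finset.mem_singleton, Finset.mem_union, Finset.mem_union] at hz
      rcases hz with rfl | hz | hz | hz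
      · exact hnκ
      · exact hcne hz
      · exact hcne hz
      · exact hcne hz)
  set O' := compO O Ob with hO'
  have hle : O' ≤ O := compO_le O Ob
  have hcoeff : ∀ g : O[X], (∀ z ∈ (g.map (IsLocalRing.residue O)).coeffs, Ob.valuation z = 1) →
      ∃ g' : O'[X], g'.map (O'.inclusion O hle) = g := by
    intro g hg
    refine exists_lift_poly hle fun n => ⟨(g.coeff n).2, ?_⟩
    have h1 : IsLocalRing.residue O (g.coeff n) = (g.map (IsLocalRing.residue O)).coeff n :=
      (coeff_map _ _).symm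
    change IsLocalRing.residue O (g.coeff n) ∈ Ob
    rw [h1]
    by_cases h0 : (g.map (IsLocalRing.residue O)).coeff n = 0
    · rw [h0]; exact zero_mem _
    · exact (Ob.valuation_le_one_iff _).1 (hg _ (coeff_mem_coeffs h0)).le
  obtain ⟨f', hf'⟩ := hcoeff f fun z hz => hOb3 z (by
    rw [Finset.mem_union, Finset.mem_union]; exact Or.inr (Or.inl hz))
  obtain ⟨a', ha'⟩ := hcoeff a fun z hz => hOb3 z (by
    rw [Finset.mem_union, Finset.mem_union, Finset.mem_union]; exact Or.inr (Or.inr (Or.inl hz)))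
  obtain ⟨b', hb'⟩ := hcoeff b fun z hz => hOb3 z (by
    rw [Finset.mem_union, Finset.mem_union, Finset.mem_union]; exact Or.inr (Or.inr (Or.inr hz)))
  have hinj : Function.Injective (O'.inclusion O hle) := fun z z' h =>
    Subtype.ext (congrArg (fun t : O => (t : k)) h)
  have hcoe' : ∀ z : O', ((O'.inclusion O hle z : O) : k) = (z : k) := fun z => rfl
  have hm' : ∀ n, O'.valuation (((a' * f' + b' * derivative f' - 1).coeff n : O') : k) < 1 := by
    intro n
    have h1 : (a' * f' + b' * derivative f' - 1).map (O'.inclusion O hle) =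
        a * f + b * derivative f - 1 := by
      rw [Polynomial.map_sub, Polynomial.map_add, Polynomial.map_mul, Polynomial.map_mul,
        Polynomial.map_one, ← derivative_map, hf', ha', hb']
    refine val_lt_of_le hle ?_
    rw [← hcoe', ← coeff_map, h1]
    exact hm n
  have hlc' : O'.valuation (f'.leadingCoeff : k) = 1 := by
    have h1 : f.leadingCoeff = O'.inclusion O hle f'.leadingCoeff := by
      rw [← hf', leadingCoeff_map_of_injective hinj]
    have h3 : ((f'.leadingCoeff : O') : k) = (f.leadingCoeff : k) := by rw [h1, hcoe']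
    rw [h3]
    refine compO_eq_one f.leadingCoeff.2 (hOb3 _ ?_)
    have h4 : IsLocalRing.residue O f.leadingCoeff ≠ 0 := by
      rw [Ne, IsLocalRing.residue_eq_zero_iff, O.valuation_lt_one_iff, hlc]
      exact lt_irrefl _
    rw [Finset.mem_union, Finset.mem_union]
    refine Or.inr (Or.inl ?_)
    change IsLocalRing.residue O (f.coeff f.natDegree) ∈ _
    rw [← coeff_map]
    exact coeff_mem_coeffs (by rw [coeff_map]; exact h4)
  have hroot' : ∀ r : kbar k K, aeval r f' = 0 ↔ aeval r f = 0 := by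
    intro r
    rw [← hf', aeval_def, aeval_def, eval₂_map]
    rfl
  -- Frobenius
  have hppf : Fact pp.Prime := ⟨hpp⟩
  obtain ⟨Q', hQ', γ₀, hA', hγ₀D, hγ₀⟩ := exists_frob (S := k) (C := kbar k K) O' pp ff (by
      refine compO_lt (natCast_mem O pp) ?_
      have h1 : (⟨(pp : k), natCast_mem O pp⟩ : O) = (pp : O) := Subtype.ext (by simp)
      rw [h1, map_natCast]
      exact hOb1)
    (fun z hz => compO_sub_pow hOb2 hz)
  set Q := coarse hle Q' hA' with hQdef
  have hQ : Q.IsPrime := coarse_prime hle Q' hA'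
  have hA : Above Q := coarse_above hle Q' hA'
  have hγ₀D2 : InD Q γ₀ := coarse_InD hle Q' hA' hγ₀D
  obtain ⟨p, hp, hpn, hresO⟩ := exists_expChar_n hn hnκ
  have hres : ∀ n : ℕ, n ≠ 0 → n.Coprime p → (locW Q).valuation (n : kbar k K) = 1 := by
    intro n hn hnp
    have h1 := (locW_algebraMap_eq_one Q hA).2 (hresO n hn hnp)
    rwa [map_natCast] at h1
  have hVn : (locW Q').valuation (n : kbar k K) = 1 := by
    have h1 : O'.valuation (n : k) = 1 := by
      refine compO_eq_one (natCast_mem O n) ?_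
      have h3 : (⟨(n : k), natCast_mem O n⟩ : O) = (n : O) := Subtype.ext (by simp)
      rw [h3, map_natCast]
      exact hOb3 _ (Finset.mem_union_left _ (Finset.mem_singleton_self _))
    have h3 := (locW_algebraMap_eq_one Q' hA').2 h1
    rwa [map_natCast] at h3
  have hcz : CharZero (AlgebraicClosure K) :=
    charZero_of_injective_algebraMap (algebraMap k (AlgebraicClosure K)).injective
  have hneZ : NeZero ((n : ℕ) : kbar k K) := ⟨by exact_mod_cast hn0⟩
  have hneZn : NeZero n := ⟨hn0⟩
  obtain ⟨ω, hω⟩ := HasEnoughRootsOfUnity.exists_primitiveRoot (kbar k K) n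
  obtain ⟨w, hw⟩ := IsAlgClosed.exists_pow_nat_eq (algebraMap k (kbar k K) c) hn.pos
  obtain ⟨τ, hτ, hτw⟩ := exists_inertia_ne Q hA hn hodd hw hω
  obtain ⟨ξ, hξ⟩ := exists_ext s τ
  have hf0 : f ≠ 0 := by
    rintro rfl
    rw [natDegree_zero] at hdeg
    omega
  -- roots
  have hinjC : Function.Injective (algebraMap O (kbar k K)) := by
    intro z z' h
    exact Subtype.ext ((algebraMap k (kbar k K)).injective h)
  set R : Finset (kbar k K) := (f.aroots (kbar k K)).toFinset with hR
  have hmemR : ∀ r : kbar k K, r ∈ R ↔ aeval r f = 0 := by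
    intro r
    rw [hR, Multiset.mem_toFinset, aroots_def, mem_roots ((Polynomial.map_ne_zero_iff hinjC).2 hf0),
      IsRoot.def, eval_map_algebraMap]
  have hsplits : (f.map (algebraMap O (kbar k K))).Splits := IsAlgClosed.splits _
  have hnodup : (f.aroots (kbar k K)).Nodup := by
    rw [Multiset.nodup_iff_count_le_one]
    intro r
    by_contra hcon
    push Not at hcon
    rw [aroots_def, count_roots, one_lt_rootMultiplicity_iff_isRoot
      ((Polynomial.map_ne_zero_iff hinjC).2 hf0)] at hcon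
    obtain ⟨h3, h4⟩ := hcon
    rw [IsRoot.def, eval_map_algebraMap] at h3
    rw [derivative_map, IsRoot.def, eval_map_algebraMap] at h4
    exact aeval_derivative_ne_zero Q hA hlc hm h3 h4
  have hRval : R.val = f.aroots (kbar k K) := by
    rw [hR, Multiset.toFinset_val, hnodup.dedup]
  have hRcard : R.card = f.natDegree := by
    rw [Finset.card_def, hRval, aroots_def, ← hsplits.natDegree_eq_card_roots,
      natDegree_map_eq_of_injective hinjC]
  set X₀ := algebraMap K (AlgebraicClosure K) x with hX₀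
  set Y₀ := algebraMap K (AlgebraicClosure K) y with hY₀
  set a₀ : kbar k K := algebraMap O (kbar k K) f.leadingCoeff with ha₀
  set c₀ : kbar k K := algebraMap k (kbar k K) c with hc₀
  have ha₀1 : (locW Q).valuation a₀ = 1 := (locW_algebraMap_eq_one Q hA).2 hlc
  have ha₀0 : a₀ ≠ 0 := by
    intro h0
    rw [h0, map_zero] at ha₀1
    exact zero_ne_one ha₀1
  have hc0 : c ≠ 0 := by
    rintro rfl
    exact hodd 0 (by simp [hn0])
  have hc₀0 : c₀ ≠ 0 := (_root_.map_ne_zero _).2 hc0
  have heq : (c₀ : AlgebraicClosure K) * Y₀ ^ n =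
      a₀ * ∏ r ∈ R, (X₀ - (r : AlgebraicClosure K)) := by
    have h1 : f.map (algebraMap O (kbar k K)) = C a₀ * ∏ r ∈ R, (X - C r) := by
      have h3 := hsplits.eq_prod_roots
      rw [leadingCoeff_map_of_injective hinjC] at h3
      rw [h3]
      congr 1
      rw [Finset.prod_eq_multiset_prod, hRval, aroots_def]
    have h3 : eval₂ (algebraMap (kbar k K) (AlgebraicClosure K)) X₀
        (f.map (algebraMap O (kbar k K))) = a₀ * ∏ r ∈ R, (X₀ - (r : AlgebraicClosure K)) := by
      rw [h1, eval₂_mul, eval₂_C, eval₂_finsetProd]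
      congr 1
      refine Finset.prod_congr rfl fun r _ => ?_
      rw [eval₂_sub, eval₂_X, eval₂_C]; rfl
    rw [← h3, eval₂_map]
    have h4 := congrArg (algebraMap K (AlgebraicClosure K)) hxy
    rw [map_mul, map_pow, aeval_def, eval₂_map, hom_eval₂] at h4
    have h5 : (algebraMap K (AlgebraicClosure K)) (algebraMap k K c) =
        (c₀ : AlgebraicClosure K) := by
      rw [← IsScalarTower.algebraMap_apply k K (AlgebraicClosure K)]; rfl
    rw [h5] at h4
    rw [h4]
    congr 1
  -- the action of inertia on the roots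
  have hIR : ∀ σ : Gk k K, InI Q σ → ∀ r ∈ R, σ r = r := fun σ hσ r hr =>
    inertia_fix_root Q hA hlc hm ((hmemR r).1 hr) hσ
  have hperm : ∀ σ : Gk k K, ∀ r ∈ R, σ r ∈ R := by
    intro σ r hr
    rw [hmemR] at hr ⊢
    have h1 := aeval_algHom_apply ((σ : kbar k K →ₐ[k] kbar k K).restrictScalars O) r f
    rw [hr, map_zero] at h1
    exact h1
  have hQ1 : ∀ r ∈ R, ∀ r' ∈ R, r ≠ r' → (locW Q).valuation (r - r') = 1 := fun r hr r' hr' hne =>
    root_sep Q hA hlc hm ((hmemR r).1 hr) ((hmemR r').1 hr') hne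
  have hV1 : ∀ r ∈ R, ∀ r' ∈ R, r ≠ r' → (locW Q').valuation (r - r') = 1 :=
    fun r hr r' hr' hne =>
      root_sep Q' hA' hlc' hm' ((hroot' r).2 ((hmemR r).1 hr)) ((hroot' r').2 ((hmemR r').1 hr')) hne
  -- a power of Frobenius fixing the roots and the roots of unity
  have hmemμ : ∀ ζ : kbar k K, ζ ∈ nthRootsFinset n (1 : kbar k K) ↔ ζ ^ n = 1 := fun ζ =>
    mem_nthRootsFinset hn.pos 1
  obtain ⟨N, hN0, hN⟩ := exists_pow_fix (γ := γ₀) (R := R ∪ nthRootsFinset n (1 : kbar k K)) (by
    intro r hr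
    rw [Finset.mem_union] at hr ⊢
    rcases hr with hr | hr
    · exact Or.inl (hperm γ₀ r hr)
    · right
      rw [hmemμ] at hr ⊢
      rw [← map_pow, hr, map_one])
  have hm1 : 1 < (pp ^ ff) ^ N :=
    Nat.one_lt_pow hN0.ne' (Nat.one_lt_pow hff.ne' hpp.one_lt)
  -- `n`-th roots
  have hsqrt : ∀ r : kbar k K, ∃ v : AlgebraicClosure K, v ^ n = X₀ - (r : AlgebraicClosure K) :=
    fun r => IsAlgClosed.exists_pow_nat_eq _ hn.pos
  choose v hv using hsqrt
  have hX₀tr : Transcendental k X₀ := by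
    intro h
    exact hx ((isAlgebraic_algebraMap_iff (algebraMap K (AlgebraicClosure K)).injective).1 h)
  have hv0 : ∀ r : kbar k K, v r ≠ 0 := by
    intro r h0
    apply hX₀tr
    have h1 := hv r
    rw [h0, zero_pow hn0, eq_comm, sub_eq_zero] at h1
    rw [h1]
    exact (mem_algebraicClosure_iff).1 r.2
  obtain ⟨z, hzn, hz⟩ := exists_char hn0 Q hv hv0 s hτ hξ hIR
  have hprod : ∏ r ∈ R, z r ≠ 1 := prod_char hn0 Q hpn hres ha₀0 heq hv hv0 s hτ hξ hz ha₀1
    (τ.commutes (f.leadingCoeff : k)) hw hτw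
  have hcore : ∀ (t : ℕ) (r : Fin (t + 1) → kbar k K), Function.Injective r → (∀ i, r i ∈ R) →
      ∀ m : Fin (t + 1) → ℕ, (∀ i, 0 < m i) → (∀ i, m i < n) → n ∣ ∑ i, m i →
        ∏ i, z (r i) ^ m i = 1 → ∀ i : Fin t, z (r i.succ) = z (r 0) := by
    intro t r hrinj hr m hpos hlt hsum hprod' i
    exact core hn Q hp hpn hres hx ha₀0 hc₀0 heq hv hv0 s hτ hξ hzn hz hIR hQ1 hVn hV1
      (InD.pow hγ₀D2 N) (fun r hr => hN r (Finset.mem_union_left _ hr))
      (fun ζ hζ => hN ζ (Finset.mem_union_right _ ((hmemμ ζ).2 hζ))) hm1 (frob_pow hγ₀ N)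
      r hrinj hr m hpos hlt hsum hprod' i
  obtain ⟨r₀, hr₀, hfix⟩ := exists_fixed_pt hn hω hzn hcore (by rw [hRcard]; exact hdeg)
    (by rw [hRcard]; exact hdvd) hprod
  refine exists_residue_root Q hA hlc ⟨_, _, hab⟩ ((hmemR r₀).1 hr₀) fun γ hγ => ?_
  exact hfix γ γ.injective (hperm γ) fun r hr r' hr' =>
    char_inv hn0 Q hp hpn hres ha₀0 hc₀0 heq hv hv0 s hτ hξ hIR hzn hz hγ hr hr'
      (hperm γ r hr) (hperm γ r' hr')

end

end Pool.Agent.Helper91.SE
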