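import Pool.Agent.Helper91.Section.SE.RedDefs

/-!
# Existence of the reduction of a cyclic cover
-/

universe u

namespace Pool.Agent.Helper91.SE

open Polynomial IsLocalRing

section

variable {E L : Type u} [Field E] [Field L] [Algebra E[X] L] (O : ValuationSubring E)

/-- polynomials over `O` as elements of `L` -/
noncomputable def psi (L : Type u) [Field L] [Algebra E[X] L] (O : ValuationSubring E) : O[X] →+* L :=
  (algebraMap E[X] L).comp (mapRingHom O.subtype)

theorem psi_apply (p : O[X]) : psi L O p = algebraMap E[X] L (p.map O.subtype) := rfl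

/-- fractions with a denominator of nonzero reduction -/
def gaussRing : Subring L where
  carrier := {z | ∃ a b : O[X], b.map (residue O) ≠ 0 ∧ z * psi L O b = psi L O a}
  mul_mem' := by
    rintro z z' ⟨a, b, hb, h⟩ ⟨a', b', hb', h'⟩
    refine ⟨a * a', b * b', ?_, ?_⟩
    · rw [Polynomial.map_mul]; exact mul_ne_zero hb hb'
    · rw [map_mul, map_mul, ← h, ← h']; ring
  one_mem' := ⟨1, 1, by rw [Polynomial.map_one]; exact one_ne_zero, by rw [one_mul]⟩
  add_mem' := by
    rintro z z' ⟨a, b, hb, h⟩ ⟨a', b', hb', h'⟩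
    refine ⟨a * b' + a' * b, b * b', ?_, ?_⟩
    · rw [Polynomial.map_mul]; exact mul_ne_zero hb hb'
    · rw [map_mul, map_add, map_mul, map_mul, ← h, ← h']; ring
  zero_mem' := ⟨0, 1, by rw [Polynomial.map_one]; exact one_ne_zero, by rw [zero_mul, map_zero]⟩
  neg_mem' := by
    rintro z ⟨a, b, hb, h⟩
    exact ⟨-a, b, hb, by rw [map_neg, ← h]; ring⟩

theorem mem_gaussRing {z : L} : z ∈ gaussRing (L := L) O ↔
    ∃ a b : O[X], b.map (residue O) ≠ 0 ∧ z * psi L O b = psi L O a := Iff.rfl

/-- fractions of zero reduction -/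
def gaussIdeal : Ideal (gaussRing (L := L) O) where
  carrier := {z | ∃ a b : O[X], b.map (residue O) ≠ 0 ∧ a.map (residue O) = 0 ∧
    (z : L) * psi L O b = psi L O a}
  add_mem' := by
    rintro z z' ⟨a, b, hb, ha, h⟩ ⟨a', b', hb', ha', h'⟩
    refine ⟨a * b' + a' * b, b * b', ?_, ?_, ?_⟩
    · rw [Polynomial.map_mul]; exact mul_ne_zero hb hb'
    · rw [Polynomial.map_add, Polynomial.map_mul, Polynomial.map_mul, ha, ha']; simp
    · rw [map_mul, map_add, map_mul, map_mul, ← h, ← h', Subring.coe_add]; ring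
  zero_mem' := ⟨0, 1, by rw [Polynomial.map_one]; exact one_ne_zero, Polynomial.map_zero _,
    by rw [Subring.coe_zero, zero_mul, map_zero]⟩
  smul_mem' := by
    rintro ⟨c, hc⟩ z ⟨a, b, hb, ha, h⟩
    obtain ⟨a', b', hb', h'⟩ := (mem_gaussRing O).1 hc
    refine ⟨a' * a, b' * b, ?_, ?_, ?_⟩
    · rw [Polynomial.map_mul]; exact mul_ne_zero hb' hb
    · rw [Polynomial.map_mul, ha, mul_zero]
    · rw [map_mul, map_mul, ← h, ← h', smul_eq_mul, Subring.coe_mul]; ring

variable (hinj : Function.Injective (algebraMap E[X] L))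

include hinj

theorem psi_inj : Function.Injective (psi L O) := by
  intro a b hab
  exact Polynomial.map_injective _ Subtype.coe_injective (hinj hab)

theorem exists_gauss : ∃ VL : ValuationSubring L,
    (∀ p : O[X], psi L O p ∈ VL) ∧
    (∀ p : O[X], p.map (residue O) ≠ 0 → VL.valuation (psi L O p) = 1) ∧
    ∀ p : O[X], p.map (residue O) = 0 → VL.valuation (psi L O p) < 1 := by
  have hne : gaussIdeal (L := L) O ≠ ⊤ := by
    intro h0
    rw [Ideal.eq_top_iff_one] at h0
    obtain ⟨a, b, hb, ha, h⟩ := h0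
    rw [Subring.coe_one, one_mul] at h
    rw [psi_inj O hinj h] at hb
    exact hb ha
  obtain ⟨VL, h1, h2⟩ := Ideal.image_subset_nonunits_valuationSubring _ hne
  have hmem : ∀ p : O[X], psi L O p ∈ gaussRing (L := L) O := fun p =>
    ⟨p, 1, by rw [Polynomial.map_one]; exact one_ne_zero, by rw [map_one, mul_one]⟩
  refine ⟨VL, fun p => h1 (hmem p), fun p hp => ?_, fun p hp => ?_⟩
  · have hp0 : psi L O p ≠ 0 := by
      rw [Ne, map_eq_zero_iff _ (psi_inj O hinj)]
      rintro rfl
      exact hp (Polynomial.map_zero _)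
    have h3 : (psi L O p)⁻¹ ∈ gaussRing (L := L) O :=
      ⟨1, p, hp, by rw [inv_mul_cancel₀ hp0, map_one]⟩
    apply le_antisymm
    · rw [VL.valuation_le_one_iff]; exact h1 (hmem p)
    · have h4 : VL.valuation (psi L O p)⁻¹ ≤ 1 := by
        rw [VL.valuation_le_one_iff]; exact h1 h3
      rw [map_inv₀] at h4
      have h5 : 0 < VL.valuation (psi L O p) := by
        rw [zero_lt_iff, Ne, Valuation.zero_iff]; exact hp0
      exact (inv_le_one₀ h5).1 h4
  · have h3 : psi L O p ∈ VL.nonunits := h2 ⟨⟨_, hmem p⟩,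
      ⟨p, 1, by rw [Polynomial.map_one]; exact one_ne_zero, hp, by rw [map_one, mul_one]⟩, rfl⟩
    rwa [VL.mem_nonunits_iff] at h3

end

end Pool.Agent.Helper91.SE
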