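import Pool.Agent.Helper91.Section.SE.Cyc

/-!
# Existence of cyclic covers
-/

universe u

namespace Pool.Agent.Helper91.SE

open Polynomial

theorem exists_cyc {K : Type u} [Field K] [IsAlgClosed K] {n : ℕ} (hn : n.Prime)
    (hn0 : (n : K) ≠ 0) {s : ℕ} {e : Fin s → K} (he : Function.Injective e) {m : Fin s → ℕ}
    (hpos : ∀ i, 0 < m i) (hlt : ∀ i, m i < n) (htot : ¬ n ∣ ∑ i, m i) :
    ∃ (L : Type u) (_ : Field L) (_ : Algebra K[X] L) (_ : Algebra (RatFunc K) L)
      (_ : IsScalarTower K[X] (RatFunc K) L) (w : L), IsCyc K L n e m w := by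
  have hirr : Irreducible (X ^ n - C (algebraMap K[X] (RatFunc K) (gpoly e m))) :=
    X_pow_sub_C_irreducible_of_prime hn (not_pow hn htot)
  have : Fact (Irreducible (X ^ n - C (algebraMap K[X] (RatFunc K) (gpoly e m)))) := ⟨hirr⟩
  have hne : NeZero (n : K) := ⟨hn0⟩
  refine ⟨AdjoinRoot (X ^ n - C (algebraMap K[X] (RatFunc K) (gpoly e m))), inferInstance,
    inferInstance, inferInstance, inferInstance, AdjoinRoot.root _, hn, hn0, ?_, he, hpos, hlt,
    htot, ?_, ?_⟩
  · exact HasEnoughRootsOfUnity.exists_primitiveRoot K n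
  · have h1 := AdjoinRoot.eval₂_root (X ^ n - C (algebraMap K[X] (RatFunc K) (gpoly e m)))
    rw [eval₂_sub, eval₂_X_pow, eval₂_C, sub_eq_zero] at h1
    exact h1
  · exact AdjoinRoot.adjoinRoot_eq_top

end Pool.Agent.Helper91.SE
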