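import Pool.Agent.Helper91.Section.SE.Canon
import Pool.Agent.Helper91.Section.Basic

/-!
# An ideal is locally principal at every place
-/

universe u

namespace Pool.Agent.Helper91.SE

open Polynomial

section

theorem comap_val_le {L Ω : Type*} [Field L] [Field Ω] {W : ValuationSubring Ω} {ι : L →+* Ω}
    {z z' : L} : (W.comap ι).valuation z ≤ (W.comap ι).valuation z' ↔
      W.valuation (ι z) ≤ W.valuation (ι z') := by
  by_cases h0 : z' = 0
  · subst h0
    simp
  have h1 : ∀ {M : Type _} [Field M] (W : ValuationSubring M) (a b : M), b ≠ 0 →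
      (W.valuation a ≤ W.valuation b ↔ a / b ∈ W) := by
    intro M _ W a b hb
    have hb' : W.valuation b ≠ 0 := (_root_.map_ne_zero _).2 hb
    rw [← W.valuation_le_one_iff, map_div₀, div_le_one₀ (zero_lt_iff.2 hb')]
  have h2 : ∀ (W : ValuationSubring Ω) (a b : Ω), b ≠ 0 →
      (W.valuation a ≤ W.valuation b ↔ a / b ∈ W) := by
    intro W a b hb
    have hb' : W.valuation b ≠ 0 := (_root_.map_ne_zero _).2 hb
    rw [← W.valuation_le_one_iff, map_div₀, div_le_one₀ (zero_lt_iff.2 hb')]
  rw [h1 _ _ _ h0, h2 _ _ _ ((map_ne_zero ι).2 h0), ValuationSubring.mem_comap, map_div₀]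

theorem comap_val_eq {L Ω : Type*} [Field L] [Field Ω] {W : ValuationSubring Ω} {ι : L →+* Ω}
    {z z' : L} : (W.comap ι).valuation z = (W.comap ι).valuation z' ↔
      W.valuation (ι z) = W.valuation (ι z') := by
  rw [le_antisymm_iff, comap_val_le, comap_val_le, ← le_antisymm_iff]

variable {K L : Type u} [Field K] [Field L] [Algebra K[X] L] [Algebra (RatFunc K) L]
    [IsScalarTower K[X] (RatFunc K) L]
    {n : ℕ} {s : ℕ} {e : Fin s → K} {m : Fin s → ℕ} {w : L} (h : IsCyc K L n e m w)

include h

/-- an ideal is locally principal at every place of the function field -/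
theorem exists_val_aux (V : ValuationSubring L)
    (hV : ∀ c : K, algebraMap K[X] L (C c) ∈ V) {I : Ideal (integralClosure K[X] L)} (hI : I ≠ ⊥)
    {N : ℕ} {r : integralClosure K[X] L} (hr : I ^ N = Ideal.span {r}) :
    ∃ b : L, V.valuation (b ^ N) = V.valuation (r : L) := by
  have := h.isDedekindDomain
  have hr0 : r ≠ 0 := by
    rintro rfl
    rw [Ideal.span_singleton_eq_bot.2 rfl] at hr
    exact pow_ne_zero _ hI hr
  have hr0' : (r : L) ≠ 0 := fun h0 => hr0 (Subtype.ext h0)
  have hconst : ∀ c : K, c ≠ 0 → V.valuation (algebraMap K[X] L (C c)) = 1 := by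
    intro c hc
    have h1 := (V.valuation_le_one_iff _).2 (hV c)
    have h2 := (V.valuation_le_one_iff _).2 (hV c⁻¹)
    have h3 : V.valuation (algebraMap K[X] L (C c)) * V.valuation (algebraMap K[X] L (C c⁻¹)) = 1 := by
      rw [← map_mul, ← map_mul, ← C_mul, mul_inv_cancel₀ hc, C_1, map_one, map_one]
    refine le_antisymm h1 ?_
    calc (1 : V.ValueGroup) = _ := h3.symm
      _ ≤ V.valuation (algebraMap K[X] L (C c)) * 1 := mul_le_mul_right h2 _
      _ = _ := mul_one _
  rcases lt_or_ge 1 (V.valuation (algebraMap K[X] L X)) with hx | hx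
  · -- the place at infinity
    have hinf : IsInf K V := ⟨hconst, hx⟩
    set δ := h.gdeg I with hδ
    have hg := h.gcd_eq
    refine ⟨algebraMap K[X] L X ^ (δ * Int.gcdA n (∑ i, m i : ℕ)) *
      w ^ (δ * Int.gcdB n (∑ i, m i : ℕ)), ?_⟩
    set b := algebraMap K[X] L X ^ (δ * Int.gcdA n (∑ i, m i : ℕ)) *
      w ^ (δ * Int.gcdB n (∑ i, m i : ℕ)) with hb
    have hx0 := h.x_ne
    have hb0 : b ≠ 0 := mul_ne_zero (zpow_ne_zero _ hx0) (zpow_ne_zero _ h.w_ne)
    have hDb : D K b = δ := by
      rw [hb, D_mul h (zpow_ne_zero _ hx0) (zpow_ne_zero _ h.w_ne), D_zpow h hx0,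
        D_zpow h h.w_ne, D_X h, D_w h]
      linear_combination (δ : ℤ) * hg
    have hDr : D K (r : L) = N * δ := by
      rw [← h.gdeg_span, ← hr, h.gdeg_pow hI]
      push_cast; ring
    have h1 := hinf.val_pow_eq h (pow_ne_zero N hb0)
    have h2 := hinf.val_pow_eq h hr0'
    rw [D_pow h hb0, hDb, ← hDr, ← h2] at h1
    exact (pow_left_inj₀ zero_le zero_le h.prime.ne_zero).1 h1
  · -- finite places
    have hR : ∀ z : integralClosure K[X] L, V.valuation (z : L) ≤ 1 := by
      intro z
      have hp : ∀ p : K[X], algebraMap K[X] L p ∈ V := by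
        intro p
        induction p using Polynomial.induction_on' with
        | add p q hp hq => rw [map_add]; exact add_mem hp hq
        | monomial j c =>
          rw [← C_mul_X_pow_eq_monomial, map_mul, map_pow]
          exact mul_mem (hV c) (pow_mem ((V.valuation_le_one_iff _).1 hx) _)
      let f : K[X] →+* V := (algebraMap K[X] L).codRestrict V.toSubring hp
      obtain ⟨p, hpm, hpz⟩ := z.2
      have h1 : IsIntegral V (z : L) := by
        refine ⟨p.map f, hpm.map f, ?_⟩
        rw [Polynomial.eval₂_map]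
        exact hpz
      obtain ⟨v, hv⟩ := IsIntegrallyClosed.algebraMap_eq_of_integral h1
      rw [V.valuation_le_one_iff, ← hv]
      exact v.2
    -- the centre
    let P : Ideal (integralClosure K[X] L) :=
      { carrier := {z | V.valuation (z : L) < 1}
        add_mem' := fun {a b} ha hb => V.valuation.map_add_lt ha hb
        zero_mem' := by
          change V.valuation ((0 : integralClosure K[X] L) : L) < 1
          rw [ZeroMemClass.coe_zero, map_zero]; exact zero_lt_one
        smul_mem' := fun c a ha => by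
          change V.valuation ((c : L) * (a : L)) < 1
          rw [map_mul]
          exact (mul_le_of_le_one_left' (hR c)).trans_lt ha }
    have hPmem : ∀ z : integralClosure K[X] L, z ∈ P ↔ V.valuation (z : L) < 1 := fun z => Iff.rfl
    have hP1 : ∀ z : integralClosure K[X] L, z ∉ P → V.valuation (z : L) = 1 := fun z hz =>
      le_antisymm (hR z) (not_lt.1 hz)
    by_cases hP0 : P = ⊥
    · refine ⟨1, ?_⟩
      rw [one_pow, map_one, eq_comm]
      apply hP1
      rw [hP0, Ideal.mem_bot]
      exact hr0
    have hPp : P.IsPrime := by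
      refine ⟨?_, ?_⟩
      · rw [Ne, Ideal.eq_top_iff_one, hPmem, OneMemClass.coe_one, map_one]
        exact lt_irrefl _
      · intro a b hab
        by_contra hcon
        push Not at hcon
        have h1 := hP1 a hcon.1
        have h2 := hP1 b hcon.2
        have h3 : V.valuation ((a : L) * (b : L)) < 1 := hab
        rw [map_mul, h1, h2, mul_one] at h3
        exact lt_irrefl _ h3
    have hPprime : Prime P := Ideal.prime_of_isPrime hP0 hPp
    -- an element of `I` outside `P * I`
    have hlt : ¬ I ≤ P * I := by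
      intro hle
      have h1 : P * I = I := le_antisymm Ideal.mul_le_right hle
      have h2 : P * I = 1 * I := by rw [one_mul]; exact h1
      exact hPprime.not_isUnit (by rw [mul_right_cancel₀ hI h2]; exact isUnit_one)
    obtain ⟨b, hbI, hbP⟩ := Set.not_subset.1 hlt
    obtain ⟨J, hJ⟩ := Ideal.dvd_span_singleton.2 hbI
    have hPJ : ¬ P ∣ J := by
      rintro ⟨J', rfl⟩
      apply hbP
      have h1 : Ideal.span {b} ≤ P * I := by
        rw [hJ]
        calc I * (P * J') = (P * I) * J' := by ring
          _ ≤ P * I := Ideal.mul_le_left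
      exact h1 (Ideal.mem_span_singleton_self b)
    have h1 : Ideal.span {b ^ N} = Ideal.span {r} * J ^ N := by
      rw [← Ideal.span_singleton_pow, hJ, mul_pow, hr]
    have h2 : b ^ N ∈ Ideal.span {r} := by
      have h3 : Ideal.span {b ^ N} ≤ Ideal.span {r} := by rw [h1]; exact Ideal.mul_le_left
      exact h3 (Ideal.mem_span_singleton_self _)
    obtain ⟨c, hc⟩ := Ideal.mem_span_singleton.1 h2
    have h3 : Ideal.span {c} = J ^ N := by
      have h4 : Ideal.span {r} * Ideal.span {c} = Ideal.span {r} * J ^ N := by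
        rw [← h1, hc, Ideal.span_singleton_mul_span_singleton]
      exact mul_left_cancel₀ (by rwa [Ne, Ideal.zero_eq_bot, Ideal.span_singleton_eq_bot]) h4
    have h4 : c ∉ P := by
      intro hcP
      apply hPJ
      refine hPprime.dvd_of_dvd_pow (n := N) ?_
      rw [← h3]
      exact Ideal.dvd_span_singleton.2 hcP
    refine ⟨b, ?_⟩
    have h5 : (b : L) ^ N = (r : L) * c := congrArg Subtype.val hc
    rw [h5, map_mul, hP1 c h4, mul_one]

theorem exists_val {Ω : Type u} [Field Ω] (W : ValuationSubring Ω) (ι : L →+* Ω)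
    (hW : ∀ c : K, ι (algebraMap K[X] L (C c)) ∈ W) {I : Ideal (integralClosure K[X] L)}
    (hI : I ≠ ⊥) {N : ℕ} (hN : N ≠ 0) {r : integralClosure K[X] L}
    (hr : I ^ N = Ideal.span {r}) {g : Ω} (hg : g ^ N = ι r) :
    ∃ b : L, W.valuation g = W.valuation (ι b) := by
  obtain ⟨b, hb⟩ := exists_val_aux h (W.comap ι) hW hI hr
  refine ⟨b, ?_⟩
  rw [comap_val_eq, map_pow, map_pow, ← hg, map_pow] at hb
  exact ((pow_left_inj₀ zero_le zero_le hN).1 hb).symm

end

end Pool.Agent.Helper91.SE
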