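import Pool.Agent.Helper91.Section.SE.Rig
import Pool.Agent.Helper91.Section.SE.Unr
import Pool.Agent.Helper91.Section.SE.ExCyc
import Pool.Agent.Helper91.Section.SecWild

/-!
# Kummer roots are unramified
-/

universe u

namespace Pool.Agent.Helper91.SE

open Polynomial Pool.Agent.Helper91.Sect

section KurRoot

variable {k K : Type u} [Field k] [Field K] [Algebra k K]
    {L : Type u} [Field L] [Algebra (kbar k K)[X] L] [Algebra (RatFunc (kbar k K)) L]
    [IsScalarTower (kbar k K)[X] (RatFunc (kbar k K)) L]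
    {n : ℕ} {s : ℕ} {e : Fin s → kbar k K} {m : Fin s → ℕ} {w : L}
    (h : IsCyc (kbar k K) L n e m w) {ι : L →+* AlgebraicClosure K}
    (hι : ∀ c : kbar k K, ι (algebraMap (kbar k K)[X] L (C c)) = c)

include h hι

/-- an automorphism fixing the constants, `x` and `w` fixes all functions -/
theorem fix_of_gen {σ : AlgebraicClosure K →+* AlgebraicClosure K}
    (hσ : ∀ c : kbar k K, σ c = c)
    (hx : σ (ι (algebraMap (kbar k K)[X] L X)) = ι (algebraMap (kbar k K)[X] L X))
    (hw : σ (ι w) = ι w) (z : L) : σ (ι z) = ι z := by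
  have h1 : σ.comp ι = ι := by
    refine h.hom_ext (fun p => ?_) hw
    have h2 : (σ.comp ι).comp (algebraMap (kbar k K)[X] L) = ι.comp (algebraMap (kbar k K)[X] L) := by
      refine Polynomial.ringHom_ext (fun c => ?_) hx
      change σ (ι (algebraMap (kbar k K)[X] L (C c))) = ι (algebraMap (kbar k K)[X] L (C c))
      rw [hι, hσ]
    exact RingHom.congr_fun h2 p
  exact RingHom.congr_fun h1 z

/-- an automorphism acting by `τ` on the constants and fixing `x` and `w` is `φ` on functions -/
theorem eq_semi_of_gen {σ : AlgebraicClosure K →+* AlgebraicClosure K} {τ : kbar k K ≃+* kbar k K}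
    {φ : L ≃+* L} (hφ : IsSemi τ w φ) (hσ : ∀ c : kbar k K, σ c = τ c)
    (hx : σ (ι (algebraMap (kbar k K)[X] L X)) = ι (algebraMap (kbar k K)[X] L X))
    (hw : σ (ι w) = ι w) (z : L) : σ (ι z) = ι (φ z) := by
  have h1 : σ.comp ι = ι.comp (φ : L →+* L) := by
    refine h.hom_ext (fun p => ?_) ?_
    · have h2 : (σ.comp ι).comp (algebraMap (kbar k K)[X] L) =
          (ι.comp (φ : L →+* L)).comp (algebraMap (kbar k K)[X] L) := by
        refine Polynomial.ringHom_ext (fun c => ?_) ?_
        · change σ (ι (algebraMap (kbar k K)[X] L (C c))) =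
            ι (φ (algebraMap (kbar k K)[X] L (C c)))
          rw [hι, hσ, hφ.poly, map_C, hι]
          rfl
        · change σ (ι (algebraMap (kbar k K)[X] L X)) = ι (φ (algebraMap (kbar k K)[X] L X))
          rw [hφ.x, hx]
      exact RingHom.congr_fun h2 p
    · change σ (ι w) = ι (φ w)
      rw [hφ.w, hw]
  exact RingHom.congr_fun h1 z

theorem kRoot_mem_Kur (hx : ι (algebraMap (kbar k K)[X] L X) ∈ Kur k K) (hw : ι w ∈ Kur k K)
    {I : Ideal (integralClosure (kbar k K)[X] L)} {g : AlgebraicClosure K}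
    (hg : KRoot n (∑ i, m i) w ι I g) : g ∈ Kur k K := by
  intro W hW σ hσ
  have halg : ∀ c : kbar k K, IsAlgebraic k (c : AlgebraicClosure K) := fun c =>
    (mem_algebraicClosure_iff).1 c.2
  have hfix : ∀ z, σ (ι z) = ι z := fix_of_gen h hι
    (σ := (σ : AlgebraicClosure K →+* AlgebraicClosure K))
    (fun c => inertia_const hW hσ (halg c)) (hx W hW σ hσ) (hw W hW σ hσ)
  obtain ⟨hI, j, r, h1, h2, h3⟩ := hg
  have hN : n ^ j ≠ 0 := pow_ne_zero _ h.prime.ne_zero
  obtain ⟨b, hb⟩ := exists_val h W ι (fun c => by rw [hι]; exact const_mem hW (halg c)) hI hN h1 h3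
  refine unit_crit hW hσ (hfix b) hb (Nat.pos_of_ne_zero hN) ?_
  rw [h3, hfix]

end KurRoot

section Pair

variable {k K : Type u} [Field k] [Field K] [Algebra k K]

theorem pairn_mem_Kur {n : ℕ} (hn : n ≠ 0) {x y : K} {a₀ c₀ : kbar k K} (ha₀ : a₀ ≠ 0)
    (hc₀ : c₀ ≠ 0) {R : Finset (kbar k K)}
    (heq : (c₀ : AlgebraicClosure K) * (algebraMap K (AlgebraicClosure K) y) ^ n =
      a₀ * ∏ r ∈ R, (algebraMap K (AlgebraicClosure K) x - (r : AlgebraicClosure K)))
    {v : kbar k K → AlgebraicClosure K}
    (hv : ∀ r : kbar k K, v r ^ n = algebraMap K (AlgebraicClosure K) x - (r : AlgebraicClosure K))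
    {r r' : kbar k K} (hr : r ∈ R) (hr' : r' ∈ R) : v r / v r' ∈ Kur k K := by
  classical
  intro W hW σ hσ
  have halg : ∀ z : kbar k K, IsAlgebraic k (z : AlgebraicClosure K) := fun z =>
    (mem_algebraicClosure_iff).1 z.2
  set X := algebraMap K (AlgebraicClosure K) x with hX
  set Y := algebraMap K (AlgebraicClosure K) y with hY
  have hσX : σ X = X := σ.commutes x
  have hσY : σ Y = Y := σ.commutes y
  have hσu : σ ((v r / v r') ^ n) = (v r / v r') ^ n := by
    rw [div_pow, hv, hv, map_div₀, map_sub, map_sub, hσX, inertia_const hW hσ (halg r),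
      inertia_const hW hσ (halg r')]
  have hsq : ∀ {a b : AlgebraicClosure K}, W.valuation a ^ n = W.valuation b ^ n →
      W.valuation a = W.valuation b := fun {a b} h => (pow_left_inj₀ zero_le zero_le hn).1 h
  have hvv : ∀ r, W.valuation (v r) ^ n = W.valuation (X - r) := fun r => by rw [← map_pow, hv]
  have hn0 : 0 < n := Nat.pos_of_ne_zero hn
  rcases lt_or_ge 1 (W.valuation X) with hx | hx
  · have h1 : ∀ r : kbar k K, W.valuation (X - (r : AlgebraicClosure K)) = W.valuation X :=
      fun r => Valuation.map_sub_eq_of_lt_left _ ((const_val_le hW (halg r)).trans_lt hx)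
    have h2 : W.valuation (v r) = W.valuation (v r') := hsq (by rw [hvv, hvv, h1, h1])
    have h3 : W.valuation (v r') ≠ 0 := by
      intro h0
      have h4 := hvv r'
      rw [h0, zero_pow hn, h1] at h4
      rw [← h4] at hx
      exact absurd hx (not_lt.2 zero_le_one)
    refine unit_crit hW hσ (map_one σ) ?_ hn0 hσu
    rw [map_div₀, h2, div_self h3, map_one]
  have hle : ∀ r : kbar k K, W.valuation (X - (r : AlgebraicClosure K)) ≤ 1 :=
    fun r => (Valuation.map_sub _ _ _).trans (max_le hx (const_val_le hW (halg r)))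
  by_cases hne : r' = r
  · subst hne
    by_cases h0 : v r' = 0
    · rw [h0, div_zero, map_zero]
    · rw [div_self h0, map_one]
  have hcoe : ∀ s t : kbar k K, t ≠ s → (t : AlgebraicClosure K) ≠ s := fun s t hst h =>
    hst (Subtype.ext h)
  -- the value of `Y` when one form is small
  have hvY : ∀ s ∈ R, W.valuation (X - s) < 1 → W.valuation Y ^ n = W.valuation (X - s) := by
    intro s hs hlt
    have h1 := congrArg W.valuation heq
    rw [map_mul, map_mul, map_pow, const_val_eq_one hW (halg c₀) (by simpa using hc₀),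
      const_val_eq_one hW (halg a₀) (by simpa using ha₀),
      one_mul, one_mul, map_prod, ← Finset.mul_prod_erase R _ hs] at h1
    rw [h1, Finset.prod_eq_one, mul_one]
    intro s' hs'
    exact val_other hW (halg s) (halg s') (hcoe s s' (Finset.ne_of_mem_erase hs')) hlt
  rcases (hle r).lt_or_eq with h1 | h1
  · have h2 := val_other hW (halg r) (halg r') (hcoe r r' hne) h1
    refine unit_crit hW hσ hσY (hsq ?_) hn0 hσu
    rw [map_div₀, div_pow, hvv, hvv, h2, div_one, hvY r hr h1]
  · rcases (hle r').lt_or_eq with h2 | h2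
    · refine unit_crit hW hσ (b := Y⁻¹) (by rw [map_inv₀, hσY]) (hsq ?_) hn0 hσu
      rw [map_div₀, div_pow, hvv, hvv, h1, map_inv₀, inv_pow, hvY r' hr' h2, one_div]
    · refine unit_crit hW hσ (map_one σ) (hsq ?_) hn0 hσu
      rw [map_div₀, div_pow, hvv, hvv, h1, h2, map_one, one_pow, one_div_one]

end Pair

end Pool.Agent.Helper91.SE
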