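import Pool.Agent.Helper91.Section.SE.Points

/-!
# Degrees of ideals, over an algebraically closed field
-/

universe u

namespace Pool.Agent.Helper91.SE

open Polynomial nonZeroDivisors UniqueFactorizationMonoid

section Deg

variable {K L : Type u} [Field K] [Field L] [Algebra K[X] L] [Algebra (RatFunc K) L]
    [IsScalarTower K[X] (RatFunc K) L] [IsAlgClosed K]
    {n : ℕ} {s : ℕ} {e : Fin s → K} {m : Fin s → ℕ} {w : L} (h : IsCyc K L n e m w)

omit [IsAlgClosed K] [Algebra (RatFunc K) L] [IsScalarTower K[X] (RatFunc K) L] in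
theorem IsPt.ker_ne_bot [FaithfulSMul K[X] L] {φ : integralClosure K[X] L →+* K} (hφ : IsPt φ) :
    RingHom.ker φ ≠ ⊥ := by
  intro h0
  have h1 : algebraMap K[X] (integralClosure K[X] L)
      (X - C (φ (algebraMap K[X] (integralClosure K[X] L) X))) ∈ RingHom.ker φ := by
    rw [RingHom.mem_ker, hφ.poly]; simp
  rw [h0, Ideal.mem_bot] at h1
  have h2 := congrArg Subtype.val h1
  have h3 : algebraMap K[X] L (X - C (φ (algebraMap K[X] (integralClosure K[X] L) X))) = 0 := h2
  rw [FaithfulSMul.algebraMap_eq_zero_iff] at h3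
  exact X_sub_C_ne_zero _ h3

include h

omit [IsAlgClosed K] in
theorem IsCyc.torsionFree : Module.IsTorsionFree K[X] (integralClosure K[X] L) := by
  have h1 : FaithfulSMul K[X] (integralClosure K[X] L) := by
    rw [faithfulSMul_iff_algebraMap_injective]
    intro p q hpq
    exact algebraMap_inj (K := K) (L := L) (congrArg Subtype.val hpq)
  infer_instance

omit [IsAlgClosed K] in
/-- the relative norm of an ideal -/
noncomputable def IsCyc.nrm (I : Ideal (integralClosure K[X] L)) : Ideal K[X] :=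
  haveI := h.torsionFree
  haveI := h.isDedekindDomain
  haveI := h.moduleFinite
  Ideal.relNorm K[X] I

omit [IsAlgClosed K] in
theorem IsCyc.nrm_mul (I J : Ideal (integralClosure K[X] L)) :
    h.nrm (I * J) = h.nrm I * h.nrm J := by
  have := h.torsionFree
  have := h.isDedekindDomain
  have := h.moduleFinite
  exact map_mul (Ideal.relNorm K[X]) I J

omit [IsAlgClosed K] in
theorem IsCyc.nrm_top : h.nrm (⊤ : Ideal (integralClosure K[X] L)) = ⊤ := by
  have := h.torsionFree
  have := h.isDedekindDomain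
  have := h.moduleFinite
  exact Ideal.relNorm_top K[X]

omit [IsAlgClosed K] in
theorem IsCyc.nrm_le (I : Ideal (integralClosure K[X] L)) :
    h.nrm I ≤ I.comap (algebraMap K[X] (integralClosure K[X] L)) := by
  have := h.torsionFree
  have := h.isDedekindDomain
  have := h.moduleFinite
  exact Ideal.relNorm_le_comap K[X] I

omit [IsAlgClosed K] in
theorem IsCyc.nrm_span (f : integralClosure K[X] L) : ∃ p : K[X],
    h.nrm (Ideal.span {f}) = Ideal.span {p} ∧
    Algebra.norm (RatFunc K) (f : L) = algebraMap K[X] (RatFunc K) p := by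
  have := h.torsionFree
  have := h.isDedekindDomain
  have := h.moduleFinite
  have := h.finiteDimensional
  have := h.isSeparable
  have := h.isFractionRing
  refine ⟨Algebra.intNorm K[X] (integralClosure K[X] L) f, Ideal.relNorm_singleton K[X] f, ?_⟩
  exact (Algebra.algebraMap_intNorm (A := K[X]) (K := RatFunc K) (L := L)
    (B := integralClosure K[X] L) f).symm

omit [IsAlgClosed K] in
theorem IsCyc.nrm_eq_bot {I : Ideal (integralClosure K[X] L)} : h.nrm I = ⊥ ↔ I = ⊥ := by
  have := h.torsionFree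
  have := h.isDedekindDomain
  have := h.moduleFinite
  exact Ideal.relNorm_eq_bot_iff

omit [IsAlgClosed K] in
/-- the degree of the norm of an ideal -/
noncomputable def IsCyc.gdeg (I : Ideal (integralClosure K[X] L)) : ℕ :=
  (Submodule.IsPrincipal.generator (h.nrm I)).natDegree

omit [IsAlgClosed K] in
theorem IsCyc.gdeg_eq {I : Ideal (integralClosure K[X] L)} {p : K[X]}
    (hp : h.nrm I = Ideal.span {p}) : h.gdeg I = p.natDegree := by
  have h1 : Associated (Submodule.IsPrincipal.generator (h.nrm I)) p := by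
    rw [← Ideal.span_singleton_eq_span_singleton, Ideal.span_singleton_generator, hp]
  exact natDegree_eq_of_degree_eq (degree_eq_degree_of_associated h1)

omit [IsAlgClosed K] in
theorem IsCyc.gdeg_mul {I J : Ideal (integralClosure K[X] L)} (hI : I ≠ ⊥) (hJ : J ≠ ⊥) :
    h.gdeg (I * J) = h.gdeg I + h.gdeg J := by
  have h1 : h.nrm (I * J) = Ideal.span {Submodule.IsPrincipal.generator (h.nrm I) *
      Submodule.IsPrincipal.generator (h.nrm J)} := by
    rw [h.nrm_mul, ← Ideal.span_singleton_mul_span_singleton, Ideal.span_singleton_generator,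
      Ideal.span_singleton_generator]
  rw [h.gdeg_eq h1, natDegree_mul]
  · rfl
  · rw [Ne, ← Submodule.IsPrincipal.eq_bot_iff_generator_eq_zero, h.nrm_eq_bot]; exact hI
  · rw [Ne, ← Submodule.IsPrincipal.eq_bot_iff_generator_eq_zero, h.nrm_eq_bot]; exact hJ

omit [IsAlgClosed K] in
theorem IsCyc.gdeg_top : h.gdeg (⊤ : Ideal (integralClosure K[X] L)) = 0 := by
  have h1 : h.nrm (⊤ : Ideal (integralClosure K[X] L)) = Ideal.span {1} := by
    rw [h.nrm_top, Ideal.span_singleton_one]
  rw [h.gdeg_eq h1, natDegree_one]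

omit [IsAlgClosed K] in
theorem IsCyc.eq_top_of_gdeg {I : Ideal (integralClosure K[X] L)} (hI : I ≠ ⊥)
    (h0 : h.gdeg I = 0) : I = ⊤ := by
  have h1 : Submodule.IsPrincipal.generator (h.nrm I) ≠ 0 := by
    rw [Ne, ← Submodule.IsPrincipal.eq_bot_iff_generator_eq_zero, h.nrm_eq_bot]; exact hI
  have h2 : IsUnit (Submodule.IsPrincipal.generator (h.nrm I)) := by
    rw [isUnit_iff_degree_eq_zero, degree_eq_natDegree h1]
    exact_mod_cast h0
  have h3 : h.nrm I = ⊤ := by
    rw [← Ideal.span_singleton_generator (h.nrm I)]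
    exact Ideal.span_singleton_eq_top.2 h2
  have h4 := h.nrm_le I
  rw [h3, top_le_iff] at h4
  rw [Ideal.eq_top_iff_one]
  have h5 : (1 : K[X]) ∈ I.comap (algebraMap K[X] (integralClosure K[X] L)) := by
    rw [h4]; trivial
  rw [Ideal.mem_comap, map_one] at h5
  exact h5

omit [IsAlgClosed K] in
theorem IsCyc.gdeg_span {f : integralClosure K[X] L} :
    (h.gdeg (Ideal.span {f}) : ℤ) = D K (f : L) := by
  obtain ⟨p, hp1, hp2⟩ := h.nrm_span f
  rw [h.gdeg_eq hp1, h.D_eq_natDegree hp2]

omit [IsAlgClosed K] in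
theorem IsCyc.gdeg_pow {I : Ideal (integralClosure K[X] L)} (hI : I ≠ ⊥) (k : ℕ) :
    h.gdeg (I ^ k) = k * h.gdeg I := by
  induction k with
  | zero => rw [pow_zero, Ideal.one_eq_top, h.gdeg_top, zero_mul]
  | succ k ih => rw [pow_succ, h.gdeg_mul (pow_ne_zero k hI) hI, ih]; ring

omit [IsAlgClosed K] in
theorem IsCyc.gdeg_prod {ι : Type*} (S : Finset ι) (I : ι → Ideal (integralClosure K[X] L))
    (hI : ∀ i ∈ S, I i ≠ ⊥) : h.gdeg (∏ i ∈ S, I i) = ∑ i ∈ S, h.gdeg (I i) := by
  classical
  induction S using Finset.induction_on with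
  | empty => rw [Finset.prod_empty, Ideal.one_eq_top, h.gdeg_top, Finset.sum_empty]
  | insert a S ha ih =>
    rw [Finset.prod_insert ha, Finset.sum_insert ha, h.gdeg_mul (hI a (Finset.mem_insert_self a S)),
      ih fun i hi => hI i (Finset.mem_insert_of_mem hi)]
    rw [← Ideal.zero_eq_bot, Finset.prod_ne_zero_iff]
    exact fun i hi => hI i (Finset.mem_insert_of_mem hi)

omit [IsAlgClosed K] in
theorem IsCyc.gdeg_pos {P : Ideal (integralClosure K[X] L)} (hP0 : P ≠ ⊥) (hP : P ≠ ⊤) :
    1 ≤ h.gdeg P := by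
  rw [Nat.one_le_iff_ne_zero]
  exact fun h0 => hP (h.eq_top_of_gdeg hP0 h0)

omit [IsAlgClosed K] in
theorem IsCyc.gdeg_sub_C (a : K) : h.gdeg (Ideal.span
    {algebraMap K[X] (integralClosure K[X] L) (X - C a)}) = n := by
  have h1 := h.gdeg_span (f := algebraMap K[X] (integralClosure K[X] L) (X - C a))
  have h2 : D K (((algebraMap K[X] (integralClosure K[X] L) (X - C a)) :
    integralClosure K[X] L) : L) = _ := D_algebraMap h (X_sub_C_ne_zero a)
  rw [h2, natDegree_X_sub_C] at h1
  simpa using h1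

omit [IsAlgClosed K] in
theorem IsCyc.faithful : FaithfulSMul K[X] L := by
  rw [faithfulSMul_iff_algebraMap_injective]
  exact algebraMap_inj

end Deg

section Res

variable {K L : Type u} [Field K] [Field L] [Algebra K[X] L]

/-- restriction of an automorphism to the ring of functions -/
def resR (σ : L ≃+* L) (h1 : ∀ z, IsIntegral K[X] z → IsIntegral K[X] (σ z))
    (h2 : ∀ z, IsIntegral K[X] z → IsIntegral K[X] (σ.symm z)) :
    integralClosure K[X] L ≃+* integralClosure K[X] L where
  toFun z := ⟨σ z, h1 z z.2⟩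
  invFun z := ⟨σ.symm z, h2 z z.2⟩
  left_inv z := Subtype.ext (σ.symm_apply_apply z)
  right_inv z := Subtype.ext (σ.apply_symm_apply z)
  map_mul' _ _ := Subtype.ext (map_mul σ _ _)
  map_add' _ _ := Subtype.ext (map_add σ _ _)

end Res

section Primes

variable {K L : Type u} [Field K] [Field L] [Algebra K[X] L] [Algebra (RatFunc K) L]
    [IsScalarTower K[X] (RatFunc K) L]

/-- restriction of a Galois automorphism to the ring of functions -/
noncomputable def galR (σ : L ≃ₐ[RatFunc K] L) :
    integralClosure K[X] L ≃+* integralClosure K[X] L :=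
  resR (σ : L ≃+* L) (fun _ hz => hz.map ((σ : L →ₐ[RatFunc K] L).restrictScalars K[X]))
    (fun _ hz => hz.map ((σ.symm : L →ₐ[RatFunc K] L).restrictScalars K[X]))

theorem coe_galR (σ : L ≃ₐ[RatFunc K] L) (z : integralClosure K[X] L) :
    (galR σ z : L) = σ z := rfl

theorem galR_algebraMap (σ : L ≃ₐ[RatFunc K] L) (p : K[X]) :
    galR σ (algebraMap K[X] (integralClosure K[X] L) p) =
      algebraMap K[X] (integralClosure K[X] L) p := by
  apply Subtype.ext
  rw [coe_galR]
  change σ (algebraMap K[X] L p) = algebraMap K[X] L p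
  rw [algebraMap_eq, AlgEquiv.commutes]

variable [IsAlgClosed K]
    {n : ℕ} {s : ℕ} {e : Fin s → K} {m : Fin s → ℕ} {w : L} (h : IsCyc K L n e m w)

omit [IsAlgClosed K] in
theorem IsPt.comp_galR {φ : integralClosure K[X] L →+* K} (hφ : IsPt φ)
    (σ : L ≃ₐ[RatFunc K] L) :
    IsPt (φ.comp (galR σ : integralClosure K[X] L →+* integralClosure K[X] L)) :=
  ⟨fun c => by
    rw [RingHom.comp_apply, RingHom.coe_coe, Cst_apply, galR_algebraMap]
    exact hφ.const c⟩

omit [Algebra (RatFunc K) L] [IsScalarTower K[X] (RatFunc K) L] [IsAlgClosed K] in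
theorem IsPt.sub_mem {φ : integralClosure K[X] L →+* K} (hφ : IsPt φ)
    (z : integralClosure K[X] L) : z - Cst K L (φ z) ∈ RingHom.ker φ := by
  rw [RingHom.mem_ker, map_sub, hφ.const, sub_self]

omit [Algebra (RatFunc K) L] [IsScalarTower K[X] (RatFunc K) L] [IsAlgClosed K] in
theorem IsPt.ext_ker {φ ψ : integralClosure K[X] L →+* K} (hφ : IsPt φ) (hψ : IsPt ψ)
    (hk : RingHom.ker φ = RingHom.ker ψ) : φ = ψ := by
  ext z
  have h1 := hφ.sub_mem z
  rw [hk, RingHom.mem_ker, map_sub, hψ.const, sub_eq_zero] at h1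
  exact h1.symm

include h

omit [IsAlgClosed K] in
theorem IsPt.w_pow {φ : integralClosure K[X] L →+* K} (hφ : IsPt φ) :
    φ h.wR ^ n = (gpoly e m).eval (φ (algebraMap K[X] (integralClosure K[X] L) X)) := by
  rw [← map_pow, h.wR_pow, hφ.poly]

omit [IsAlgClosed K] in
theorem IsPt.prime {φ : integralClosure K[X] L →+* K} (hφ : IsPt φ) :
    Prime (RingHom.ker φ) := by
  have := h.faithful
  have := h.isDedekindDomain
  exact Ideal.prime_of_isPrime hφ.ker_ne_bot (RingHom.ker_isPrime φ)

omit [IsAlgClosed K] in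
theorem IsPt.sub_C_mem {φ : integralClosure K[X] L →+* K} (hφ : IsPt φ) :
    algebraMap K[X] (integralClosure K[X] L)
      (X - C (φ (algebraMap K[X] (integralClosure K[X] L) X))) ∈ RingHom.ker φ := by
  rw [RingHom.mem_ker, hφ.poly]; simp

omit [IsAlgClosed K] in
/-- away from the branch points there are `n` distinct primes -/
theorem IsCyc.fac_unram {φ : integralClosure K[X] L →+* K} (hφ : IsPt φ)
    (h0 : φ h.wR ≠ 0) {ζ : K} (hζ : IsPrimitiveRoot ζ n)
    {σ : ℕ → L ≃ₐ[RatFunc K] L}
    (hσ : ∀ j, σ j w = algebraMap K[X] L (C (ζ ^ j)) * w) :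
    Ideal.span {algebraMap K[X] (integralClosure K[X] L)
      (X - C (φ (algebraMap K[X] (integralClosure K[X] L) X)))} =
      ∏ j ∈ Finset.range n,
        RingHom.ker (φ.comp (galR (σ j) : integralClosure K[X] L →+* integralClosure K[X] L)) ∧
    h.gdeg (RingHom.ker φ) = 1 ∧
    ∀ i < n, ∀ j < n,
      RingHom.ker (φ.comp (galR (σ i) : integralClosure K[X] L →+* integralClosure K[X] L)) =
      RingHom.ker (φ.comp (galR (σ j) : integralClosure K[X] L →+* integralClosure K[X] L)) →
      i = j := by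
  classical
  have := h.isDedekindDomain
  set a := φ (algebraMap K[X] (integralClosure K[X] L) X) with ha
  let φj : ℕ → (integralClosure K[X] L →+* K) := fun j =>
    φ.comp (galR (σ j) : integralClosure K[X] L →+* integralClosure K[X] L)
  have hφj : ∀ j, IsPt (φj j) := fun j => hφ.comp_galR (σ j)
  have hφw : ∀ j, φj j h.wR = ζ ^ j * φ h.wR := by
    intro j
    have h1 : galR (σ j) h.wR = Cst K L (ζ ^ j) * h.wR := Subtype.ext (hσ j)
    change φ (galR (σ j) h.wR) = _
    rw [h1, map_mul, hφ.const]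
  have hφX : ∀ j, φj j (algebraMap K[X] (integralClosure K[X] L) X) = a := by
    intro j
    change φ (galR (σ j) _) = _
    rw [galR_algebraMap]
  have hinj : ∀ i < n, ∀ j < n, RingHom.ker (φj i) = RingHom.ker (φj j) → i = j := by
    intro i hi j hj hij
    have h1 := (hφj i).ext_ker (hφj j) hij
    have h2 := hφw i
    rw [h1, hφw j] at h2
    have h3 := mul_right_cancel₀ h0 h2
    exact (hζ.pow_inj hj hi h3).symm
  have hn0 := h.prime.ne_zero
  -- the product of the primes divides
  have hdvd : ∏ j ∈ Finset.range n, RingHom.ker (φj j) ∣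
      Ideal.span {algebraMap K[X] (integralClosure K[X] L) (X - C a)} := by
    have h1 : ∏ j ∈ Finset.range n, RingHom.ker (φj j) =
        ∏ P ∈ (Finset.range n).image (fun j => RingHom.ker (φj j)), P := by
      rw [Finset.prod_image]
      intro i hi j hj hij
      exact hinj i (Finset.mem_range.1 hi) j (Finset.mem_range.1 hj) hij
    rw [h1]
    refine Finset.prod_primes_dvd _ ?_ ?_
    · intro P hP
      obtain ⟨j, -, rfl⟩ := Finset.mem_image.1 hP
      exact (hφj j).prime h
    · intro P hP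
      obtain ⟨j, -, rfl⟩ := Finset.mem_image.1 hP
      rw [Ideal.dvd_span_singleton]
      have h2 := (hφj j).sub_C_mem h
      rwa [hφX j] at h2
  obtain ⟨I, hI⟩ := hdvd
  have hne : Ideal.span {algebraMap K[X] (integralClosure K[X] L) (X - C a)} ≠ ⊥ := by
    rw [Ne, Ideal.span_singleton_eq_bot]
    intro h3
    have h4 := congrArg Subtype.val h3
    have h5 : algebraMap K[X] L (X - C a) = 0 := h4
    rw [map_eq_zero_iff _ (algebraMap_inj (K := K) (L := L))] at h5
    exact X_sub_C_ne_zero a h5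
  have hP0 : ∀ j ∈ Finset.range n, RingHom.ker (φj j) ≠ ⊥ := fun j _ => ((hφj j).prime h).ne_zero
  have hprod0 : ∏ j ∈ Finset.range n, RingHom.ker (φj j) ≠ ⊥ := by
    intro h3
    rw [h3, Ideal.bot_mul] at hI
    exact hne hI
  have hI0 : I ≠ ⊥ := by
    rintro rfl
    rw [Ideal.mul_bot] at hI
    exact hne hI
  have hdeg := congrArg h.gdeg hI
  rw [h.gdeg_sub_C, h.gdeg_mul hprod0 hI0, h.gdeg_prod _ _ hP0] at hdeg
  have hge : ∀ j ∈ Finset.range n, 1 ≤ h.gdeg (RingHom.ker (φj j)) := fun j hj =>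
    h.gdeg_pos (hP0 j hj) (RingHom.ker_ne_top _)
  have hsum : n ≤ ∑ j ∈ Finset.range n, h.gdeg (RingHom.ker (φj j)) := by
    calc n = ∑ j ∈ Finset.range n, 1 := by simp
      _ ≤ _ := Finset.sum_le_sum hge
  have hI1 : h.gdeg I = 0 := by omega
  have hItop := h.eq_top_of_gdeg hI0 hI1
  refine ⟨by rw [hI, hItop, Ideal.mul_top], ?_, hinj⟩
  -- the degree of the kernel of `φ`
  have hsum1 : ∑ j ∈ Finset.range n, h.gdeg (RingHom.ker (φj j)) = ∑ j ∈ Finset.range n, 1 := by
    rw [Finset.sum_const, Finset.card_range, smul_eq_mul, mul_one]; omega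
  have hall := (Finset.sum_eq_sum_iff_of_le hge).1 hsum1.symm
  have h6 := hall 0 (Finset.mem_range.2 h.prime.pos)
  have h7 : φj 0 = φ := by
    apply (hφj 0).ext_ker hφ
    have h8 : σ 0 = AlgEquiv.refl := by
      apply AlgEquiv.coe_toAlgHom_injective
      refine AlgHom.ext_of_adjoin_eq_top h.gen fun z hz => ?_
      have hz' : z = w := hz
      rw [hz']
      change σ 0 w = w
      rw [hσ, pow_zero, C_1, map_one, one_mul]
    have h9 : (galR (σ 0) : integralClosure K[X] L →+* integralClosure K[X] L) = RingHom.id _ := by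
      apply RingHom.ext
      intro z
      apply Subtype.ext
      change σ 0 (z : L) = z
      rw [h8]; rfl
    change RingHom.ker (φ.comp _) = _
    rw [h9, RingHom.comp_id]
  rw [h7] at h6
  exact h6.symm

omit [IsAlgClosed K] in
/-- above a branch point there is one prime -/
theorem IsCyc.fac_ram {φ : integralClosure K[X] L →+* K} (hφ : IsPt φ) {i : Fin s}
    (hi : φ (algebraMap K[X] (integralClosure K[X] L) X) = e i) :
    Ideal.span {algebraMap K[X] (integralClosure K[X] L) (X - C (e i))} = RingHom.ker φ ^ n ∧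
    h.gdeg (RingHom.ker φ) = 1 := by
  classical
  have := h.isDedekindDomain
  obtain ⟨t, r, j, -, ht⟩ := h.exists_param i
  have hP := hφ.prime h
  have hn0 := h.prime.ne_zero
  have htP : t ∈ RingHom.ker φ := by
    have h1 : φ t ^ n = 0 := by
      rw [← map_pow, ht, hφ.poly, hi]
      simp
    exact pow_eq_zero_iff hn0 |>.1 h1
  have hdvd : RingHom.ker φ ^ n ∣ Ideal.span
      {algebraMap K[X] (integralClosure K[X] L) (X - C (e i))} := by
    have h1 : RingHom.ker φ ^ n ∣ Ideal.span
      {algebraMap K[X] (integralClosure K[X] L) (X - C (e i))} * Ideal.span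
      {algebraMap K[X] (integralClosure K[X] L)
        (∏ l ∈ Finset.univ.erase i, (X - C (e l)) ^ r l)} := by
      rw [Ideal.span_singleton_mul_span_singleton, ← map_mul, ← ht, ← Ideal.span_singleton_pow]
      exact pow_dvd_pow_of_dvd ((Ideal.dvd_span_singleton).2 htP) n
    refine hP.pow_dvd_of_dvd_mul_right n ?_ h1
    rw [Ideal.dvd_span_singleton, RingHom.mem_ker, hφ.poly, hi, eval_prod,
      Finset.prod_eq_zero_iff]
    rintro ⟨l, hl, h2⟩
    rw [eval_pow, eval_sub, eval_X, eval_C] at h2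
    have h4 : e i - e l ≠ 0 := sub_ne_zero.2 fun h5 => (Finset.ne_of_mem_erase hl) (h.inj h5).symm
    exact pow_ne_zero _ h4 h2
  obtain ⟨I, hI⟩ := hdvd
  have hne : Ideal.span {algebraMap K[X] (integralClosure K[X] L) (X - C (e i))} ≠ ⊥ := by
    rw [Ne, Ideal.span_singleton_eq_bot]
    intro h3
    have h4 := congrArg Subtype.val h3
    have h5 : algebraMap K[X] L (X - C (e i)) = 0 := h4
    rw [map_eq_zero_iff _ (algebraMap_inj (K := K) (L := L))] at h5
    exact X_sub_C_ne_zero _ h5
  have hP0 : RingHom.ker φ ≠ ⊥ := hP.ne_zero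
  have hI0 : I ≠ ⊥ := by
    rintro rfl
    rw [Ideal.mul_bot] at hI
    exact hne hI
  have hdeg := congrArg h.gdeg hI
  rw [h.gdeg_sub_C, h.gdeg_mul (pow_ne_zero n hP0) hI0, h.gdeg_pow hP0] at hdeg
  have h1 := h.gdeg_pos hP0 (RingHom.ker_ne_top _)
  have h2 : n * 1 ≤ n * h.gdeg (RingHom.ker φ) := Nat.mul_le_mul_left n h1
  have hI1 : h.gdeg I = 0 := by omega
  refine ⟨by rw [hI, h.eq_top_of_gdeg hI0 hI1, Ideal.mul_top], ?_⟩
  have h3 : n * h.gdeg (RingHom.ker φ) = n * 1 := by omega
  exact Nat.eq_of_mul_eq_mul_left h.prime.pos h3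

end Primes

end Pool.Agent.Helper91.SE
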