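import Pool.Agent.Helper91.Section.SE.Fin

/-!
# Class groups: action of automorphisms, and finiteness of the Frobenius-invariant classes
-/

universe u

namespace Pool.Agent.Helper91.SE

open Polynomial nonZeroDivisors

set_option backward.isDefEq.respectTransparency.types false in
theorem mulEquiv_mk0 {R : Type*} [CommRing R] [IsDedekindDomain R] (g : R ≃+* R) (I : (Ideal R)⁰)
    (hI : (I : Ideal R).map g ∈ (Ideal R)⁰) :
    ClassGroup.mulEquiv g (ClassGroup.mk0 I) = ClassGroup.mk0 ⟨(I : Ideal R).map g, hI⟩ := by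
  apply (ClassGroup.equiv (FractionRing R)).injective
  rw [ClassGroup.equiv_mk0]
  simp only [ClassGroup.mulEquiv, MulEquiv.trans_apply, MulEquiv.apply_symm_apply,
    ClassGroup.equiv_mk0]
  have key : Units.mapEquiv (FractionalIdeal.ringEquivOfRingEquiv (FractionRing R)
      (FractionRing R) g :
      FractionalIdeal R⁰ (FractionRing R) ≃* FractionalIdeal R⁰ (FractionRing R))
      (FractionalIdeal.mk0 (FractionRing R) I) =
      FractionalIdeal.mk0 (FractionRing R) ⟨(I : Ideal R).map g, hI⟩ := by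
    apply Units.ext
    rw [FractionalIdeal.coe_mk0]
    change FractionalIdeal.ringEquivOfRingEquiv (FractionRing R) (FractionRing R) g
      (FractionalIdeal.mk0 (FractionRing R) I : FractionalIdeal R⁰ (FractionRing R)) = _
    rw [FractionalIdeal.coe_mk0, FractionalIdeal.ringEquivOfRingEquiv_apply]
    apply FractionalIdeal.coeToSubmodule_injective
    ext z
    constructor
    · rintro ⟨x, hx, rfl⟩
      obtain ⟨r, hr, rfl⟩ := hx
      exact ⟨g r, Ideal.mem_map_of_mem g hr,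
        (IsFractionRing.ringEquivOfRingEquiv_algebraMap g r).symm⟩
    · rintro ⟨r, hr, rfl⟩
      obtain ⟨r', hr', rfl⟩ := (Ideal.mem_map_of_equiv g r).1 hr
      refine ⟨algebraMap R (FractionRing R) r', ⟨r', hr', rfl⟩, ?_⟩
      exact IsFractionRing.ringEquivOfRingEquiv_algebraMap g r'
  rw [← key]
  rfl

theorem map_mem_nzd {R : Type*} [CommRing R] [IsDedekindDomain R] (g : R ≃+* R) {I : Ideal R}
    (hI : I ≠ ⊥) : I.map g ∈ (Ideal R)⁰ := by
  rw [mem_nonZeroDivisors_iff_ne_zero]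
  exact fun h0 => hI ((Ideal.map_eq_bot_iff_of_injective g.injective).1 h0)

theorem exists_ideal_rep {R : Type*} [CommRing R] [IsDedekindDomain R] (c : ClassGroup R) :
    ∃ (I : Ideal R) (hI : I ∈ (Ideal R)⁰), ClassGroup.mk0 ⟨I, hI⟩ = c := by
  obtain ⟨⟨I, hI⟩, h⟩ := ClassGroup.mk0_surjective c
  exact ⟨I, hI, h⟩

section

variable {K L : Type u} [Field K] [Field L] [Algebra K[X] L] [Algebra (RatFunc K) L]
    [IsScalarTower K[X] (RatFunc K) L] [IsAlgClosed K]
    {n : ℕ} {s : ℕ} {e : Fin s → K} {m : Fin s → ℕ} {w : L} (h : IsCyc K L n e m w)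

include h

/-- There are only finitely many Frobenius-invariant classes. -/
theorem IsCyc.finite_fixed (φ : integralClosure K[X] L ≃+* integralClosure K[X] L) {q : ℕ}
    (hq : 1 < q) (hφ : ∀ c, φ (Cst K L c) = Cst K L (c ^ q))
    (hx : φ (algebraMap K[X] (integralClosure K[X] L) X) =
      algebraMap K[X] (integralClosure K[X] L) X) :
    {c : ClassGroup (integralClosure K[X] L) | ClassGroup.mulEquiv φ c = c}.Finite := by
  have := h.isDedekindDomain
  have hex : ∀ c : ClassGroup (integralClosure K[X] L), ∃ J : Ideal (integralClosure K[X] L),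
      h.IsLeast J ∧ ∃ hJ : J ∈ (Ideal (integralClosure K[X] L))⁰, ClassGroup.mk0 ⟨J, hJ⟩ = c := by
    intro c
    obtain ⟨I, hI, hc⟩ := exists_ideal_rep c
    have hI0 : I ≠ ⊥ := nonZeroDivisors.ne_zero hI
    obtain ⟨J, hJ, x, y, hx, hy, hxy⟩ := h.exists_isLeast hI0
    refine ⟨J, hJ, mem_nonZeroDivisors_iff_ne_zero.2 hJ.1, ?_⟩
    rw [← hc, eq_comm]
    exact ClassGroup.mk0_eq_mk0_iff.2 ⟨x, y, hx, hy, hxy⟩
  choose J hJ hJ0 hJc using hex
  refine Set.Finite.of_finite_image ((h.finite_invariant φ hq hφ hx (n * ∑ i, m i)).subset ?_) ?_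
    (f := J)
  · rintro _ ⟨c, hc, rfl⟩
    refine ⟨(hJ c).1, h.isLeast_bound (hJ c), ?_⟩
    refine h.isLeast_unique (h.isLeast_map φ (hJ c)) (hJ c) ?_
    have h1 : ClassGroup.mk0 ⟨(J c).map φ, map_mem_nzd φ (hJ c).1⟩ =
        ClassGroup.mk0 ⟨J c, hJ0 c⟩ := by
      rw [← mulEquiv_mk0 φ ⟨J c, hJ0 c⟩, hJc]
      exact hc
    obtain ⟨x, y, hx, hy, hxy⟩ := ClassGroup.mk0_eq_mk0_iff.1 h1
    exact ⟨x, y, hx, hy, hxy⟩
  · intro c _ c' _ hcc
    rw [← hJc c, ← hJc c']
    congr 1
    exact Subtype.ext hcc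

end

end Pool.Agent.Helper91.SE
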