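import Pool.Agent.Helper91.Section.SE.RedDefs

/-!
# The Gauss valuation of a cyclic cover: scaling by constants
-/

universe u

namespace Pool.Agent.Helper91.SE

open Polynomial

section

variable {E L κ Lb : Type u} [Field E] [Field L] [Field κ] [Field Lb] [Algebra E[X] L]
    [Algebra (RatFunc E) L] [IsScalarTower E[X] (RatFunc E) L]
    [Algebra κ[X] Lb] [Algebra (RatFunc κ) Lb] [IsScalarTower κ[X] (RatFunc κ) Lb]
    {O : ValuationSubring E} {VL : ValuationSubring L} {π : O →+* κ} {ρ : VL →+* Lb}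
    (hr : IsRed O VL π ρ)

include hr

omit [Algebra (RatFunc E) L] [IsScalarTower E[X] (RatFunc E) L] [Algebra (RatFunc κ) Lb]
  [IsScalarTower κ[X] (RatFunc κ) Lb] in
theorem IsRed.val_eq_one (z : VL) : VL.valuation (z : L) = 1 ↔ ρ z ≠ 0 := by
  rw [Ne, hr.ρ_ker, not_lt]
  exact ⟨fun h => h.ge, fun h => le_antisymm ((VL.valuation_le_one_iff _).2 z.2) h⟩

omit [Algebra (RatFunc E) L] [IsScalarTower E[X] (RatFunc E) L] [Algebra (RatFunc κ) Lb]
  [IsScalarTower κ[X] (RatFunc κ) Lb] in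
/-- constants of value at most one -/
theorem IsRed.C_mem {c : E} : algebraMap E[X] L (C c) ∈ VL ↔ c ∈ O := by
  rw [hr.mem_poly]
  constructor
  · intro h; simpa using h 0
  · intro h i
    rw [coeff_C]
    split_ifs
    · exact h
    · exact O.zero_mem

omit [Algebra (RatFunc E) L] [IsScalarTower E[X] (RatFunc E) L] in
/-- a polynomial with coefficients in `O`, not all in the maximal ideal, has value one -/
theorem IsRed.val_poly_eq_one {p : O[X]} (hp : p.map π ≠ 0) :
    VL.valuation (algebraMap E[X] L (p.map O.subtype)) = 1 := by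
  have h1 : algebraMap E[X] L (p.map O.subtype) ∈ VL := by
    rw [hr.mem_poly]
    intro i
    rw [coeff_map]
    exact (p.coeff i).2
  rw [← Subtype.coe_mk _ h1, hr.val_eq_one, hr.ρ_poly p h1,
    Ne, map_eq_zero_iff _ (algebraMap_inj (K := κ) (L := Lb))]
  exact hp

omit [Algebra (RatFunc E) L] [IsScalarTower E[X] (RatFunc E) L] [Algebra (RatFunc κ) Lb]
  [IsScalarTower κ[X] (RatFunc κ) Lb] in
set_option linter.unusedSectionVars false in
/-- scaling a polynomial -/
theorem IsRed.exists_poly {p : E[X]} (hp : p ≠ 0) : ∃ (c : E) (p' : O[X]), c ≠ 0 ∧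
    C c * p = p'.map O.subtype ∧ p'.map π ≠ 0 := by
  classical
  have hne : p.support.Nonempty := by rwa [nonempty_support_iff]
  obtain ⟨j, hj, hmax⟩ := p.support.exists_max_image (fun i => O.valuation (p.coeff i)) hne
  have hj0 : p.coeff j ≠ 0 := by rwa [mem_support_iff] at hj
  have hvj : O.valuation (p.coeff j) ≠ 0 := by simpa using hj0
  have hlift : Polynomial.C (p.coeff j)⁻¹ * p ∈ lifts O.subtype := by
    rw [lifts_iff_coeff_lifts]
    intro i
    rw [coeff_C_mul]
    have h1 : O.valuation ((p.coeff j)⁻¹ * p.coeff i) ≤ 1 := by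
      rw [map_mul, map_inv₀]
      by_cases hn : i ∈ p.support
      · have := hmax i hn
        calc (O.valuation (p.coeff j))⁻¹ * O.valuation (p.coeff i)
            ≤ (O.valuation (p.coeff j))⁻¹ * O.valuation (p.coeff j) := by gcongr
          _ = 1 := inv_mul_cancel₀ hvj
      · rw [notMem_support_iff] at hn
        rw [hn]; simp
    exact ⟨⟨_, (O.valuation_le_one_iff _).1 h1⟩, rfl⟩
  rw [mem_lifts] at hlift
  obtain ⟨q, hq⟩ := hlift
  refine ⟨(p.coeff j)⁻¹, q, inv_ne_zero hj0, hq.symm, ?_⟩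
  intro h0
  have h1 := congrArg (fun p => p.coeff j) hq
  simp only [coeff_map, coeff_C_mul, inv_mul_cancel₀ hj0] at h1
  have h2 : q.coeff j = 1 := Subtype.ext h1
  have h3 := congrArg (fun p => p.coeff j) h0
  simp only [coeff_map, h2, map_one, coeff_zero] at h3
  exact one_ne_zero h3

omit [Algebra (RatFunc E) L] [IsScalarTower E[X] (RatFunc E) L] in
theorem IsRed.exists_scale_poly {p : E[X]} (hp : p ≠ 0) : ∃ c : E, c ≠ 0 ∧
    VL.valuation (algebraMap E[X] L (C c * p)) = 1 := by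
  obtain ⟨c, p', hc, hcp, hp'⟩ := hr.exists_poly hp
  exact ⟨c, hc, by rw [hcp]; exact hr.val_poly_eq_one hp'⟩

theorem IsRed.exists_scale_ratFunc {q : RatFunc E} (hq : q ≠ 0) : ∃ c : E, c ≠ 0 ∧
    VL.valuation (algebraMap E[X] L (C c) * algebraMap (RatFunc E) L q) = 1 := by
  obtain ⟨c, hc, h1⟩ := hr.exists_scale_poly (RatFunc.num_ne_zero hq)
  obtain ⟨d, hd, h2⟩ := hr.exists_scale_poly q.denom_ne_zero
  have h3 : algebraMap (RatFunc E) L q =
      algebraMap E[X] L q.num / algebraMap E[X] L q.denom := by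
    conv_lhs => rw [← RatFunc.num_div_denom q]
    rw [map_div₀, ← algebraMap_eq, ← algebraMap_eq]
  have hCd : algebraMap E[X] L (C d) ≠ 0 := by
    rwa [Ne, map_eq_zero_iff _ (algebraMap_inj (K := E) (L := L)), C_eq_zero]
  refine ⟨c / d, div_ne_zero hc hd, ?_⟩
  have h4 : algebraMap E[X] L (C (c / d)) * algebraMap (RatFunc E) L q =
      algebraMap E[X] L (C c * q.num) / algebraMap E[X] L (C d * q.denom) := by
    have h5 : algebraMap E[X] L (C (c / d)) = algebraMap E[X] L (C c) / algebraMap E[X] L (C d) := by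
      rw [eq_div_iff hCd, ← map_mul, ← C_mul, div_mul_cancel₀ _ hd]
    have h6 : algebraMap E[X] L q.denom ≠ 0 := by
      rw [Ne, map_eq_zero_iff _ (algebraMap_inj (K := E) (L := L))]
      exact q.denom_ne_zero
    rw [h3, h5, map_mul, map_mul]
    field_simp
  rw [h4, map_div₀, h1, h2, div_one]

/-- rational functions of value at most one are quotients of polynomials over `O`, with denominator
of nonzero reduction -/
theorem IsRed.exists_frac {q : RatFunc E} (hq : algebraMap (RatFunc E) L q ∈ VL) :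
    ∃ p r : O[X], r.map π ≠ 0 ∧ algebraMap (RatFunc E) L q * algebraMap E[X] L (r.map O.subtype) =
      algebraMap E[X] L (p.map O.subtype) := by
  by_cases hq0 : q = 0
  · subst hq0
    refine ⟨0, 1, ?_, ?_⟩
    · rw [Polynomial.map_one]; exact one_ne_zero
    · rw [map_zero, zero_mul, Polynomial.map_zero, map_zero]
  obtain ⟨c, p, hc, hcp, hp⟩ := hr.exists_poly (RatFunc.num_ne_zero hq0)
  obtain ⟨d, r, hd, hdr, hr'⟩ := hr.exists_poly q.denom_ne_zero
  have hvp := hr.val_poly_eq_one hp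
  have hvr := hr.val_poly_eq_one hr'
  have h3 : algebraMap (RatFunc E) L q =
      algebraMap E[X] L q.num / algebraMap E[X] L q.denom := by
    conv_lhs => rw [← RatFunc.num_div_denom q]
    rw [map_div₀, ← algebraMap_eq, ← algebraMap_eq]
  have hCc : algebraMap E[X] L (C c) ≠ 0 := by
    rwa [Ne, map_eq_zero_iff _ (algebraMap_inj (K := E) (L := L)), C_eq_zero]
  have hCd : algebraMap E[X] L (C d) ≠ 0 := by
    rwa [Ne, map_eq_zero_iff _ (algebraMap_inj (K := E) (L := L)), C_eq_zero]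
  have h6 : algebraMap E[X] L q.denom ≠ 0 := by
    rw [Ne, map_eq_zero_iff _ (algebraMap_inj (K := E) (L := L))]
    exact q.denom_ne_zero
  -- `q * r = (d / c) * p`
  have h4 : algebraMap (RatFunc E) L q * algebraMap E[X] L (r.map O.subtype) =
      algebraMap E[X] L (C (d / c)) * algebraMap E[X] L (p.map O.subtype) := by
    have h5 : algebraMap E[X] L (C (d / c)) = algebraMap E[X] L (C d) / algebraMap E[X] L (C c) := by
      rw [eq_div_iff hCc, ← map_mul, ← C_mul, div_mul_cancel₀ _ hc]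
    rw [← hdr, ← hcp, h3, h5, map_mul, map_mul]
    field_simp
  have h7 : VL.valuation (algebraMap E[X] L (C (d / c))) ≤ 1 := by
    have h8 := congrArg VL.valuation h4
    rw [map_mul, map_mul, hvp, hvr, mul_one, mul_one] at h8
    rw [← h8]
    exact (VL.valuation_le_one_iff _).2 hq
  have h8 : d / c ∈ O := hr.C_mem.1 ((VL.valuation_le_one_iff _).1 h7)
  refine ⟨C ⟨d / c, h8⟩ * p, r, hr', ?_⟩
  rw [h4, Polynomial.map_mul, map_C, map_mul]
  rfl

/-- rational functions of value at most one reduce to rational functions -/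
theorem IsRed.red_ratFunc {q : RatFunc E} (hq : algebraMap (RatFunc E) L q ∈ VL) :
    ∃ qb : RatFunc κ, ρ ⟨_, hq⟩ = algebraMap (RatFunc κ) Lb qb := by
  obtain ⟨p, r, hr', h4⟩ := hr.exists_frac hq
  have hrV : algebraMap E[X] L (r.map O.subtype) ∈ VL := by
    rw [hr.mem_poly]; intro i; rw [coeff_map]; exact (r.coeff i).2
  have hpV : algebraMap E[X] L (p.map O.subtype) ∈ VL := by
    rw [hr.mem_poly]; intro i; rw [coeff_map]; exact (p.coeff i).2
  have h9 : (⟨_, hq⟩ : VL) * ⟨_, hrV⟩ = ⟨_, hpV⟩ := Subtype.ext h4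
  have h10 := congrArg ρ h9
  rw [map_mul, hr.ρ_poly, hr.ρ_poly] at h10
  have h11 : algebraMap κ[X] Lb (r.map π) ≠ 0 := by
    rwa [Ne, map_eq_zero_iff _ (algebraMap_inj (K := κ) (L := Lb))]
  refine ⟨algebraMap κ[X] (RatFunc κ) (p.map π) / algebraMap κ[X] (RatFunc κ) (r.map π), ?_⟩
  rw [map_div₀, ← algebraMap_eq, ← algebraMap_eq, eq_div_iff h11]
  exact h10

variable {n : ℕ} {s : ℕ} {e : Fin s → E} {m : Fin s → ℕ} {w : L} (h : IsCyc E L n e m w)
    (he : ∀ i, e i ∈ O) (hw : w ∈ VL)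
    (hb : IsCyc κ Lb n (fun i => π ⟨e i, he i⟩) m (ρ ⟨w, hw⟩))

include h hb

omit h in
/-- The Gauss valuation of `∑ q j * w ^ j` is the largest of the values of the `q j`. -/
theorem IsRed.exists_scale_rep {q : Fin n → RatFunc E} (hq0 : q ≠ 0) : ∃ c : E, c ≠ 0 ∧
    (∀ j, algebraMap (RatFunc E) L (algebraMap E[X] (RatFunc E) (C c) * q j) ∈ VL) ∧
    VL.valuation (algebraMap E[X] L (C c) *
      ∑ j : Fin n, algebraMap (RatFunc E) L (q j) * w ^ (j : ℕ)) = 1 := by
  classical
  obtain ⟨j₁, hj₁⟩ := Function.ne_iff.1 hq0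
  obtain ⟨j₀, -, hmax⟩ := Finset.exists_max_image (Finset.univ : Finset (Fin n))
    (fun j => VL.valuation (algebraMap (RatFunc E) L (q j))) ⟨j₁, Finset.mem_univ _⟩
  have hj₀ : q j₀ ≠ 0 := by
    intro h0
    have h1 := hmax j₁ (Finset.mem_univ _)
    rw [h0, map_zero, map_zero, le_zero_iff, Valuation.zero_iff] at h1
    exact hj₁ ((map_eq_zero_iff _ (algebraMap (RatFunc E) L).injective).1 h1)
  obtain ⟨c, hc, h1⟩ := hr.exists_scale_ratFunc hj₀
  have hcq : ∀ j, algebraMap (RatFunc E) L (algebraMap E[X] (RatFunc E) (C c) * q j) ∈ VL := by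
    intro j
    rw [← VL.valuation_le_one_iff, map_mul, ← algebraMap_eq, map_mul, ← h1, map_mul]
    exact mul_le_mul_right (hmax j (Finset.mem_univ _)) _
  refine ⟨c, hc, hcq, ?_⟩
  have hsum : algebraMap E[X] L (C c) * (∑ j : Fin n, algebraMap (RatFunc E) L (q j) *
      w ^ (j : ℕ)) = ((∑ j : Fin n, (⟨_, hcq j⟩ : VL) * ⟨w, hw⟩ ^ (j : ℕ) :
      VL) : L) := by
    rw [Finset.mul_sum, AddSubmonoidClass.coe_finsetSum]
    refine Finset.sum_congr rfl fun j _ => ?_
    change _ = algebraMap (RatFunc E) L (algebraMap E[X] (RatFunc E) (C c) * q j) * w ^ (j : ℕ)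
    rw [map_mul (algebraMap (RatFunc E) L), ← algebraMap_eq]
    ring
  rw [hsum, hr.val_eq_one, map_sum]
  choose qb hqb using fun j => hr.red_ratFunc (hcq j)
  intro h0
  have h2 : ∑ j : Fin n, algebraMap (RatFunc κ) Lb (qb j) * ρ ⟨w, hw⟩ ^ (j : ℕ) =
      ∑ j : Fin n, algebraMap (RatFunc κ) Lb ((fun _ => 0 : Fin n → RatFunc κ) j) *
        ρ ⟨w, hw⟩ ^ (j : ℕ) := by
    have h3 : ∑ j : Fin n, algebraMap (RatFunc κ) Lb ((fun _ => 0 : Fin n → RatFunc κ) j) *
        ρ ⟨w, hw⟩ ^ (j : ℕ) = 0 := by simp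
    rw [h3, ← h0]
    refine Finset.sum_congr rfl fun j _ => ?_
    rw [map_mul, map_pow, hqb]
  have h4 := congrFun (hb.rep_unique h2) j₀
  have h5 : ρ ⟨_, hcq j₀⟩ = 0 := by rw [hqb, h4, map_zero]
  rw [hr.ρ_ker] at h5
  have h6 : VL.valuation (algebraMap (RatFunc E) L (algebraMap E[X] (RatFunc E) (C c) * q j₀)) = 1 := by
    rw [map_mul, ← algebraMap_eq]; exact h1
  exact absurd h5 (by rw [Subtype.coe_mk, h6]; exact lt_irrefl _)

/-- The Gauss valuation has the same value group as `O`. -/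
theorem IsRed.exists_scale {z : L} (hz : z ≠ 0) : ∃ c : E, c ≠ 0 ∧
    VL.valuation (algebraMap E[X] L (C c) * z) = 1 := by
  obtain ⟨q, hq⟩ := h.exists_rep z
  have hq0 : q ≠ 0 := by
    rintro rfl
    apply hz
    rw [hq]; simp
  obtain ⟨c, hc, -, h1⟩ := hr.exists_scale_rep he hw hb hq0
  exact ⟨c, hc, by rw [hq]; exact h1⟩

omit h in
/-- the elements of the Gauss valuation ring -/
theorem IsRed.rep_mem {q : Fin n → RatFunc E}
    (hq : ∑ j : Fin n, algebraMap (RatFunc E) L (q j) * w ^ (j : ℕ) ∈ VL) (j : Fin n) :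
    algebraMap (RatFunc E) L (q j) ∈ VL := by
  by_cases hq0 : q = 0
  · rw [hq0, Pi.zero_apply, map_zero]; exact zero_mem _
  obtain ⟨c, hc, h1, h2⟩ := hr.exists_scale_rep he hw hb hq0
  have hCc : algebraMap E[X] L (C c) ≠ 0 := by
    rwa [Ne, map_eq_zero_iff _ (algebraMap_inj (K := E) (L := L)), C_eq_zero]
  have hv0 : VL.valuation (algebraMap E[X] L (C c)) ≠ 0 := (_root_.map_ne_zero _).2 hCc
  have h3 : 1 ≤ VL.valuation (algebraMap E[X] L (C c)) := by
    rw [← h2, map_mul]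
    calc _ ≤ VL.valuation (algebraMap E[X] L (C c)) * 1 :=
          mul_le_mul_right ((VL.valuation_le_one_iff _).2 hq) _
      _ = _ := mul_one _
  have h4 := (VL.valuation_le_one_iff _).2 (h1 j)
  rw [map_mul, ← algebraMap_eq, map_mul] at h4
  rw [← VL.valuation_le_one_iff]
  calc VL.valuation (algebraMap (RatFunc E) L (q j))
      = 1 * VL.valuation (algebraMap (RatFunc E) L (q j)) := (one_mul _).symm
    _ ≤ VL.valuation (algebraMap E[X] L (C c)) * VL.valuation (algebraMap (RatFunc E) L (q j)) :=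
        mul_le_mul_left h3 _
    _ ≤ 1 := h4

end

end Pool.Agent.Helper91.SE
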