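import Pool.Agent.Helper91.Section.SE.Gauss
import Pool.Agent.Helper91.Section.SE.Scale

/-!
# Existence of the reduction of a cyclic cover
-/

universe u

namespace Pool.Agent.Helper91.SE

open Polynomial IsLocalRing

/-- linear independence of the powers of `w`, without the assumption that `w` generates -/
theorem rep_zero {K L : Type u} [Field K] [Field L] [Algebra K[X] L] [Algebra (RatFunc K) L]
    [IsScalarTower K[X] (RatFunc K) L] {n : ℕ} {s : ℕ} {e : Fin s → K} {m : Fin s → ℕ} {w : L}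
    (hn : n.Prime) (htot : ¬ n ∣ ∑ i, m i)
    (heqn : w ^ n = algebraMap K[X] L (gpoly e m)) (q : Fin n → RatFunc K)
    (hq : ∑ j : Fin n, algebraMap (RatFunc K) L (q j) * w ^ (j : ℕ) = 0) : q = 0 := by
  have hmin : minpoly (RatFunc K) w = X ^ n - C (algebraMap K[X] (RatFunc K) (gpoly e m)) := by
    symm
    refine minpoly.eq_of_irreducible_of_monic ?_ ?_ (monic_X_pow_sub_C _ hn.ne_zero)
    · exact X_pow_sub_C_irreducible_of_prime hn (not_pow hn htot)
    · rw [map_sub, map_pow, aeval_X, aeval_C, heqn, algebraMap_eq, sub_self]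
  have hdeg : (minpoly (RatFunc K) w).natDegree = n := by rw [hmin, natDegree_X_pow_sub_C]
  have hli := linearIndependent_pow (K := RatFunc K) w
  rw [hdeg] at hli
  have h4 := Fintype.linearIndependent_iff.1 hli q (by
    rw [← hq]
    exact Finset.sum_congr rfl fun j _ => Algebra.smul_def _ _)
  funext j
  exact h4 j

section

variable {E L κ Lb : Type u} [Field E] [Field L] [Field κ] [Field Lb] [Algebra E[X] L]
    [Algebra (RatFunc E) L] [IsScalarTower E[X] (RatFunc E) L]
    [Algebra κ[X] Lb] [Algebra (RatFunc κ) Lb] [IsScalarTower κ[X] (RatFunc κ) Lb]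
    {O : ValuationSubring E} {VL : ValuationSubring L} {π : O →+* κ} {ρ : VL →+* Lb}
    (hr : IsRed O VL π ρ) {n : ℕ} {w : L} (hw : w ∈ VL)
    (hli : ∀ q : Fin n → RatFunc κ,
      ∑ j : Fin n, algebraMap (RatFunc κ) Lb (q j) * ρ ⟨w, hw⟩ ^ (j : ℕ) = 0 → q = 0)

include hr hli

/-- The Gauss valuation of `∑ q j * w ^ j` is the largest of the values of the `q j`. -/
theorem IsRed.exists_scale_rep' {q : Fin n → RatFunc E} (hq0 : q ≠ 0) : ∃ c : E, c ≠ 0 ∧
    (∀ j, algebraMap (RatFunc E) L (algebraMap E[X] (RatFunc E) (C c) * q j) ∈ VL) ∧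
    VL.valuation (algebraMap E[X] L (C c) *
      ∑ j : Fin n, algebraMap (RatFunc E) L (q j) * w ^ (j : ℕ)) = 1 := by
  classical
  obtain ⟨j₁, hj₁⟩ := Function.ne_iff.1 hq0
  obtain ⟨j₀, -, hmax⟩ := Finset.exists_max_image (Finset.univ : Finset (Fin n))
    (fun j => VL.valuation (algebraMap (RatFunc E) L (q j))) ⟨j₁, Finset.mem_univ _⟩
  have hj₀ : q j₀ ≠ 0 := by
    intro h0
    have h1 := hmax j₁ (Finset.mem_univ _)
    rw [h0, map_zero, map_zero, le_zero_iff, Valuation.zero_iff] at h1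
    exact hj₁ ((map_eq_zero_iff _ (algebraMap (RatFunc E) L).injective).1 h1)
  obtain ⟨c, hc, h1⟩ := hr.exists_scale_ratFunc hj₀
  have hcq : ∀ j, algebraMap (RatFunc E) L (algebraMap E[X] (RatFunc E) (C c) * q j) ∈ VL := by
    intro j
    rw [← VL.valuation_le_one_iff, map_mul, ← algebraMap_eq, map_mul, ← h1, map_mul]
    exact mul_le_mul_right (hmax j (Finset.mem_univ _)) _
  refine ⟨c, hc, hcq, ?_⟩
  have hsum : algebraMap E[X] L (C c) * (∑ j : Fin n, algebraMap (RatFunc E) L (q j) *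
      w ^ (j : ℕ)) = ((∑ j : Fin n, (⟨_, hcq j⟩ : VL) * ⟨w, hw⟩ ^ (j : ℕ) :
      VL) : L) := by
    rw [Finset.mul_sum, AddSubmonoidClass.coe_finsetSum]
    refine Finset.sum_congr rfl fun j _ => ?_
    change _ = algebraMap (RatFunc E) L (algebraMap E[X] (RatFunc E) (C c) * q j) * w ^ (j : ℕ)
    rw [map_mul (algebraMap (RatFunc E) L), ← algebraMap_eq]
    ring
  rw [hsum, hr.val_eq_one, map_sum]
  choose qb hqb using fun j => hr.red_ratFunc (hcq j)
  intro h0
  have h2 : ∑ j : Fin n, algebraMap (RatFunc κ) Lb (qb j) * ρ ⟨w, hw⟩ ^ (j : ℕ) = 0 := by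
    rw [← h0]
    refine Finset.sum_congr rfl fun j _ => ?_
    rw [map_mul, map_pow, hqb]
  have h4 := congrFun (hli _ h2) j₀
  have h5 : ρ ⟨_, hcq j₀⟩ = 0 := by rw [hqb, h4, Pi.zero_apply, map_zero]
  rw [hr.ρ_ker] at h5
  have h6 : VL.valuation (algebraMap (RatFunc E) L (algebraMap E[X] (RatFunc E) (C c) * q j₀)) = 1 := by
    rw [map_mul, ← algebraMap_eq]; exact h1
  exact absurd h5 (by rw [Subtype.coe_mk, h6]; exact lt_irrefl _)

/-- the elements of the Gauss valuation ring -/
theorem IsRed.rep_mem' {q : Fin n → RatFunc E}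
    (hq : ∑ j : Fin n, algebraMap (RatFunc E) L (q j) * w ^ (j : ℕ) ∈ VL) (j : Fin n) :
    algebraMap (RatFunc E) L (q j) ∈ VL := by
  by_cases hq0 : q = 0
  · rw [hq0, Pi.zero_apply, map_zero]; exact zero_mem _
  obtain ⟨c, hc, h1, h2⟩ := hr.exists_scale_rep' hw hli hq0
  have hCc : algebraMap E[X] L (C c) ≠ 0 := by
    rwa [Ne, map_eq_zero_iff _ (algebraMap_inj (K := E) (L := L)), C_eq_zero]
  have hv0 : VL.valuation (algebraMap E[X] L (C c)) ≠ 0 := (_root_.map_ne_zero _).2 hCc
  have h3 : 1 ≤ VL.valuation (algebraMap E[X] L (C c)) := by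
    rw [← h2, map_mul]
    calc _ ≤ VL.valuation (algebraMap E[X] L (C c)) * 1 :=
          mul_le_mul_right ((VL.valuation_le_one_iff _).2 hq) _
      _ = _ := mul_one _
  have h4 := (VL.valuation_le_one_iff _).2 (h1 j)
  rw [map_mul, ← algebraMap_eq, map_mul] at h4
  rw [← VL.valuation_le_one_iff]
  calc VL.valuation (algebraMap (RatFunc E) L (q j))
      = 1 * VL.valuation (algebraMap (RatFunc E) L (q j)) := (one_mul _).symm
    _ ≤ VL.valuation (algebraMap E[X] L (C c)) * VL.valuation (algebraMap (RatFunc E) L (q j)) :=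
        mul_le_mul_left h3 _
    _ ≤ 1 := h4

/-- `ρ w` generates the residue field -/
theorem IsRed.gen_of_rep (hrep : ∀ z : L, ∃ q : Fin n → RatFunc E,
    z = ∑ j : Fin n, algebraMap (RatFunc E) L (q j) * w ^ (j : ℕ)) :
    Algebra.adjoin (RatFunc κ) {ρ ⟨w, hw⟩} = ⊤ := by
  rw [eq_top_iff]
  rintro y -
  obtain ⟨⟨z, hz⟩, rfl⟩ := hr.ρ_surj y
  obtain ⟨q, hq⟩ := hrep z
  have h1 := hr.rep_mem' hw hli (q := q) (by rw [← hq]; exact hz)
  have h2 : (⟨z, hz⟩ : VL) = ∑ j : Fin n, (⟨_, h1 j⟩ : VL) * ⟨w, hw⟩ ^ (j : ℕ) := by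
    apply Subtype.ext
    rw [AddSubmonoidClass.coe_finsetSum]
    exact hq
  rw [h2, map_sum]
  refine Subalgebra.sum_mem _ fun j _ => ?_
  obtain ⟨qb, hqb⟩ := hr.red_ratFunc (h1 j)
  rw [map_mul, map_pow, hqb]
  exact Subalgebra.mul_mem _ (Subalgebra.algebraMap_mem _ _)
    (Subalgebra.pow_mem _ (Algebra.self_mem_adjoin_singleton _ _) _)

end

/-- the reduction is a cyclic cover -/
theorem isCyc_red {E L κ Lb : Type u} [Field E] [Field L] [Field κ] [Field Lb] [Algebra E[X] L]
    [Algebra (RatFunc E) L] [IsScalarTower E[X] (RatFunc E) L]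
    [Algebra κ[X] Lb] [Algebra (RatFunc κ) Lb] [IsScalarTower κ[X] (RatFunc κ) Lb]
    {O : ValuationSubring E} {VL : ValuationSubring L} {π : O →+* κ} {ρ : VL →+* Lb}
    (hr : IsRed O VL π ρ)
    {n : ℕ} {s : ℕ} {e : Fin s → E} {m : Fin s → ℕ} {w : L} (h : IsCyc E L n e m w)
    (hn : O.valuation (n : E) = 1) (he : ∀ i, e i ∈ O)
    (hee : ∀ i j, i ≠ j → O.valuation (e i - e j) = 1) (hw : w ∈ VL) :
    IsCyc κ Lb n (fun i => π ⟨e i, he i⟩) m (ρ ⟨w, hw⟩) := by
  have hπ1 : ∀ c : O, O.valuation (c : E) = 1 → π c ≠ 0 := by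
    intro c hc h0
    rw [hr.π_ker, hc] at h0
    exact lt_irrefl _ h0
  have hnκ : (n : κ) ≠ 0 := by
    have h1 := hπ1 (n : O) (by simpa using hn)
    rwa [map_natCast] at h1
  have heqn : ρ ⟨w, hw⟩ ^ n = algebraMap κ[X] Lb (gpoly (fun i => π ⟨e i, he i⟩) m) := by
    have hg : (∏ i, (X - C (⟨e i, he i⟩ : O)) ^ m i : O[X]).map O.subtype = gpoly e m := by
      rw [Polynomial.map_prod, gpoly]
      refine Finset.prod_congr rfl fun i _ => ?_
      rw [Polynomial.map_pow, Polynomial.map_sub, map_X, map_C]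
      rfl
    have hg' : (∏ i, (X - C (⟨e i, he i⟩ : O)) ^ m i : O[X]).map π =
        gpoly (fun i => π ⟨e i, he i⟩) m := by
      rw [Polynomial.map_prod, gpoly]
      refine Finset.prod_congr rfl fun i _ => ?_
      rw [Polynomial.map_pow, Polynomial.map_sub, map_X, map_C]
    have hV : algebraMap E[X] L ((∏ i, (X - C (⟨e i, he i⟩ : O)) ^ m i : O[X]).map O.subtype) ∈ VL := by
      rw [hr.mem_poly]
      intro i
      rw [coeff_map]
      exact Subtype.coe_prop _
    rw [← hg', ← hr.ρ_poly _ hV, ← map_pow]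
    congr 1
    apply Subtype.ext
    exact h.eqn.trans (congrArg _ hg.symm)
  refine ⟨h.prime, hnκ, ?_, ?_, h.pos, h.lt, h.tot, heqn, ?_⟩
  · obtain ⟨ζ, hζ⟩ := h.root
    have hζO : ζ ∈ O := by
      rw [← O.valuation_le_one_iff]
      have h1 : O.valuation ζ ^ n = 1 := by rw [← map_pow, hζ.pow_eq_one, map_one]
      exact (pow_le_one_iff_of_nonneg zero_le h.prime.ne_zero).1 h1.le
    refine ⟨π ⟨ζ, hζO⟩, ?_⟩
    have hpow : π ⟨ζ, hζO⟩ ^ n = 1 := by
      rw [← map_pow]
      have : (⟨ζ, hζO⟩ : O) ^ n = 1 := Subtype.ext hζ.pow_eq_one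
      rw [this, map_one]
    have hne1 : π ⟨ζ, hζO⟩ ≠ 1 := by
      intro h1
      -- otherwise `n = 0` in `κ`
      have h2 : ∑ i ∈ Finset.range n, ζ ^ i = 0 := hζ.geom_sum_eq_zero h.prime.one_lt
      have h3 : ∑ i ∈ Finset.range n, (⟨ζ, hζO⟩ : O) ^ i = 0 := by
        apply Subtype.ext
        rw [AddSubmonoidClass.coe_finsetSum]
        exact h2
      have h4 := congrArg π h3
      rw [map_sum, map_zero] at h4
      simp_rw [map_pow, h1, one_pow] at h4
      rw [Finset.sum_const, Finset.card_range, nsmul_eq_mul, mul_one] at h4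
      exact hnκ h4
    have h5 : orderOf (π ⟨ζ, hζO⟩) = n := by
      have : Fact n.Prime := ⟨h.prime⟩
      exact orderOf_eq_prime hpow hne1
    rw [← h5]
    exact IsPrimitiveRoot.orderOf _
  · intro i j hij
    by_contra hne
    have h1 := hπ1 (⟨e i, he i⟩ - ⟨e j, he j⟩) (hee i j hne)
    rw [map_sub] at h1
    exact h1 (sub_eq_zero.2 hij)
  · exact hr.gen_of_rep hw (rep_zero h.prime h.tot heqn) h.exists_rep

/-- scaling a polynomial -/
theorem exists_poly' {E κ : Type u} [Field E] [Field κ] {O : ValuationSubring E} {π : O →+* κ}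
    {p : E[X]} (hp : p ≠ 0) : ∃ (c : E) (p' : O[X]), c ≠ 0 ∧
    C c * p = p'.map O.subtype ∧ p'.map π ≠ 0 := by
  classical
  have hne : p.support.Nonempty := by rwa [nonempty_support_iff]
  obtain ⟨j, hj, hmax⟩ := p.support.exists_max_image (fun i => O.valuation (p.coeff i)) hne
  have hj0 : p.coeff j ≠ 0 := by rwa [mem_support_iff] at hj
  have hvj : O.valuation (p.coeff j) ≠ 0 := by simpa using hj0
  have hlift : Polynomial.C (p.coeff j)⁻¹ * p ∈ lifts O.subtype := by
    rw [lifts_iff_coeff_lifts]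
    intro i
    rw [coeff_C_mul]
    have h1 : O.valuation ((p.coeff j)⁻¹ * p.coeff i) ≤ 1 := by
      rw [map_mul, map_inv₀]
      by_cases hn : i ∈ p.support
      · have := hmax i hn
        calc (O.valuation (p.coeff j))⁻¹ * O.valuation (p.coeff i)
            ≤ (O.valuation (p.coeff j))⁻¹ * O.valuation (p.coeff j) := by gcongr
          _ = 1 := inv_mul_cancel₀ hvj
      · rw [notMem_support_iff] at hn
        rw [hn]; simp
    exact ⟨⟨_, (O.valuation_le_one_iff _).1 h1⟩, rfl⟩
  rw [mem_lifts] at hlift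
  obtain ⟨q, hq⟩ := hlift
  refine ⟨(p.coeff j)⁻¹, q, inv_ne_zero hj0, hq.symm, ?_⟩
  intro h0
  have h1 := congrArg (fun p => p.coeff j) hq
  simp only [coeff_map, coeff_C_mul, inv_mul_cancel₀ hj0] at h1
  have h2 : q.coeff j = 1 := Subtype.ext h1
  have h3 := congrArg (fun p => p.coeff j) h0
  simp only [coeff_map, h2, map_one, coeff_zero] at h3
  exact one_ne_zero h3

theorem exists_red {E L : Type u} [Field E] [Field L] [Algebra E[X] L] [Algebra (RatFunc E) L]
    [IsScalarTower E[X] (RatFunc E) L]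
    {n : ℕ} {s : ℕ} {e : Fin s → E} {m : Fin s → ℕ} {w : L} (h : IsCyc E L n e m w)
    (O : ValuationSubring E) (hn : O.valuation (n : E) = 1) (he : ∀ i, e i ∈ O)
    (hee : ∀ i j, i ≠ j → O.valuation (e i - e j) = 1) :
    ∃ (VL : ValuationSubring L) (hw : w ∈ VL)
      (_ : Algebra (IsLocalRing.ResidueField O)[X] (IsLocalRing.ResidueField VL))
      (_ : Algebra (RatFunc (IsLocalRing.ResidueField O)) (IsLocalRing.ResidueField VL))
      (_ : IsScalarTower (IsLocalRing.ResidueField O)[X] (RatFunc (IsLocalRing.ResidueField O))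
        (IsLocalRing.ResidueField VL)),
      IsRed O VL (IsLocalRing.residue O) (IsLocalRing.residue VL) ∧
      IsCyc (IsLocalRing.ResidueField O) (IsLocalRing.ResidueField VL) n
        (fun i => IsLocalRing.residue O ⟨e i, he i⟩) m (IsLocalRing.residue VL ⟨w, hw⟩) := by
  obtain ⟨VL, hV1, hV2, hV3⟩ := exists_gauss O (algebraMap_inj (K := E) (L := L))
  have hker : ∀ z : VL, residue VL z = 0 ↔ VL.valuation (z : L) < 1 := by
    intro z
    rw [residue_eq_zero_iff, ← ValuationSubring.valuation_lt_one_iff]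
  have hkerO : ∀ z : O, residue O z = 0 ↔ O.valuation (z : E) < 1 := by
    intro z
    rw [residue_eq_zero_iff, ← ValuationSubring.valuation_lt_one_iff]
  -- `w` has value one
  have hw : w ∈ VL := by
    rw [← VL.valuation_le_one_iff]
    have hg : (∏ i, (X - C (⟨e i, he i⟩ : O)) ^ m i : O[X]).map O.subtype = gpoly e m := by
      rw [Polynomial.map_prod, gpoly]
      refine Finset.prod_congr rfl fun i _ => ?_
      rw [Polynomial.map_pow, Polynomial.map_sub, map_X, map_C]
      rfl
    have h1 : VL.valuation w ^ n ≤ 1 := by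
      rw [← map_pow, h.eqn, VL.valuation_le_one_iff]
      have h2 := hV1 (∏ i, (X - C (⟨e i, he i⟩ : O)) ^ m i : O[X])
      rw [psi_apply, hg] at h2
      exact h2
    exact (pow_le_one_iff_of_nonneg zero_le h.prime.ne_zero).1 h1
  -- the embedding of polynomials
  let Ψ : O[X] →+* ResidueField VL :=
    (residue VL).comp ((psi L O).codRestrict VL.toSubring hV1)
  have hΨ : ∀ p, Ψ p = residue VL ⟨psi L O p, hV1 p⟩ := fun p => rfl
  have hsurj : Function.Surjective (mapRingHom (residue O)) := by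
    intro p
    obtain ⟨q, hq⟩ := Polynomial.map_surjective (residue O) residue_surjective p
    exact ⟨q, hq⟩
  have hle : RingHom.ker (mapRingHom (residue O)) ≤ RingHom.ker Ψ := by
    intro p hp
    rw [RingHom.mem_ker] at hp ⊢
    rw [hΨ, hker]
    exact hV3 p hp
  let Φ : (ResidueField O)[X] →+* ResidueField VL :=
    (RingHom.liftOfSurjective (mapRingHom (residue O)) hsurj) ⟨Ψ, hle⟩
  have hΦ : ∀ p : O[X], Φ (p.map (residue O)) = residue VL ⟨psi L O p, hV1 p⟩ := by
    intro p
    have h1 := RingHom.liftOfRightInverse_comp_apply (mapRingHom (residue O)) _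
      (Function.rightInverse_surjInv hsurj) ⟨Ψ, hle⟩ p
    exact h1
  have hΦinj : Function.Injective Φ := by
    rw [injective_iff_map_eq_zero]
    intro p hp
    obtain ⟨q, rfl⟩ := hsurj p
    by_contra hne
    have h1 := hV2 q hne
    have h2 : residue VL ⟨psi L O q, hV1 q⟩ = 0 := by rw [← hΦ]; exact hp
    rw [hker, h1] at h2
    exact lt_irrefl _ h2
  let a1 : Algebra (ResidueField O)[X] (ResidueField VL) := Φ.toAlgebra
  let a2 : Algebra (RatFunc (ResidueField O)) (ResidueField VL) :=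
    (IsFractionRing.lift (K := RatFunc (ResidueField O)) hΦinj).toAlgebra
  have a3 : IsScalarTower (ResidueField O)[X] (RatFunc (ResidueField O)) (ResidueField VL) :=
    IsScalarTower.of_algebraMap_eq fun p => (IsFractionRing.lift_algebraMap hΦinj p).symm
  have hr : IsRed O VL (residue O) (residue VL) := by
    refine ⟨residue_surjective, hkerO, residue_surjective, hker, ?_, ?_⟩
    · intro p
      constructor
      · intro hp
        by_cases hp0 : p = 0
        · intro i; rw [hp0, coeff_zero]; exact O.zero_mem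
        obtain ⟨c, p', hc, hcp, hp'⟩ := exists_poly' (π := residue O) hp0
        have h1 := hV2 p' hp'
        rw [psi_apply, ← hcp, map_mul, map_mul] at h1
        -- `c` is not in the maximal ideal
        have h2 : 1 ≤ O.valuation c := by
          by_contra hlt
          rw [not_le] at hlt
          have hcO : c ∈ O := (O.valuation_le_one_iff _).1 hlt.le
          have h3 := hV3 (C ⟨c, hcO⟩) (by rw [map_C, (hkerO ⟨c, hcO⟩).2 hlt, C_0])
          rw [psi_apply, map_C] at h3
          have h4 : VL.valuation (algebraMap E[X] L (C c)) < 1 := h3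
          have h5 : VL.valuation (algebraMap E[X] L p) ≤ 1 := (VL.valuation_le_one_iff _).2 hp
          have h6 : VL.valuation (algebraMap E[X] L (C c)) * VL.valuation (algebraMap E[X] L p) < 1 :=
            mul_lt_one_of_lt_of_le h4 h5
          rw [h1] at h6
          exact lt_irrefl _ h6
        intro i
        have h3 : O.valuation (c * p.coeff i) ≤ 1 := by
          rw [O.valuation_le_one_iff]
          have h4 := congrArg (fun q => coeff q i) hcp
          simp only [coeff_C_mul, coeff_map] at h4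
          rw [h4]
          exact (p'.coeff i).2
        rw [← O.valuation_le_one_iff]
        rw [map_mul] at h3
        calc O.valuation (p.coeff i) = 1 * O.valuation (p.coeff i) := (one_mul _).symm
          _ ≤ O.valuation c * O.valuation (p.coeff i) := mul_le_mul_left h2 _
          _ ≤ 1 := h3
      · intro hp
        have h1 : p ∈ lifts O.subtype := by
          rw [lifts_iff_coeff_lifts]
          exact fun i => ⟨⟨_, hp i⟩, rfl⟩
        rw [mem_lifts] at h1
        obtain ⟨q, rfl⟩ := h1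
        exact hV1 q
    · intro p hp
      exact (hΦ p).symm
  exact ⟨VL, hw, a1, a2, a3, hr, isCyc_red hr h hn he hee hw⟩

end Pool.Agent.Helper91.SE
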