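import Pool.Agent.Helper91.Section.SE.Deg

/-!
# Functions of small degree in ideals; ideals of least degree in their class
-/

universe u

namespace Pool.Agent.Helper91.SE

open Polynomial nonZeroDivisors UniqueFactorizationMonoid

section Prime

variable {K L : Type u} [Field K] [Field L] [Algebra K[X] L] [Algebra (RatFunc K) L]
    [IsScalarTower K[X] (RatFunc K) L] [IsAlgClosed K]
    {n : ℕ} {s : ℕ} {e : Fin s → K} {m : Fin s → ℕ} {w : L} (h : IsCyc K L n e m w)

include h

omit [IsAlgClosed K] in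
theorem IsCyc.exists_auts : ∃ (ζ : K) (σ : ℕ → L ≃ₐ[RatFunc K] L), IsPrimitiveRoot ζ n ∧
    ∀ j, σ j w = algebraMap K[X] L (C (ζ ^ j)) * w := by
  obtain ⟨ζ, hζ⟩ := h.root
  choose σ hσ using fun j : ℕ => h.exists_aut (ζ := ζ ^ j)
    (by rw [← pow_mul, mul_comm, pow_mul, hζ.pow_eq_one, one_pow])
  exact ⟨ζ, σ, hζ, hσ⟩

omit [IsAlgClosed K] in
theorem IsPt.w_eq_zero_iff {φ : integralClosure K[X] L →+* K} (hφ : IsPt φ) :
    φ h.wR = 0 ↔ ∃ i, φ (algebraMap K[X] (integralClosure K[X] L) X) = e i := by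
  have h1 := hφ.w_pow h
  constructor
  · intro h0
    rw [h0, zero_pow h.prime.ne_zero, gpoly, eval_prod, eq_comm, Finset.prod_eq_zero_iff] at h1
    obtain ⟨i, -, hi⟩ := h1
    rw [eval_pow, eval_sub, eval_X, eval_C] at hi
    exact ⟨i, sub_eq_zero.1 ((pow_eq_zero_iff (h.pos i).ne').1 hi)⟩
  · rintro ⟨i, hi⟩
    rw [hi, gpoly, eval_prod, Finset.prod_eq_zero (Finset.mem_univ i)] at h1
    · exact (pow_eq_zero_iff h.prime.ne_zero).1 h1
    · rw [eval_pow, eval_sub, eval_X, eval_C, sub_self, zero_pow (h.pos i).ne']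

theorem IsCyc.gdeg_prime {P : Ideal (integralClosure K[X] L)} (hP : Prime P) :
    h.gdeg P = 1 := by
  have := h.isDedekindDomain
  have hPp : P.IsPrime := Ideal.isPrime_of_prime hP
  obtain ⟨φ, hφ, rfl⟩ := h.exists_pt P hP.ne_zero
  by_cases h0 : φ h.wR = 0
  · obtain ⟨i, hi⟩ := (hφ.w_eq_zero_iff h).1 h0
    exact (h.fac_ram hφ hi).2
  · obtain ⟨ζ, σ, hζ, hσ⟩ := h.exists_auts
    exact (h.fac_unram hφ h0 hζ hσ).2.1

theorem IsCyc.gdeg_card {I : Ideal (integralClosure K[X] L)} (hI : I ≠ ⊥) :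
    haveI := h.isDedekindDomain
    h.gdeg I = Multiset.card (normalizedFactors I) := by
  have := h.isDedekindDomain
  revert hI
  refine induction_on_prime (P := fun I : Ideal (integralClosure K[X] L) =>
    I ≠ ⊥ → h.gdeg I = Multiset.card (normalizedFactors I)) I ?_ ?_ ?_
  · intro h0; exact absurd rfl h0
  · intro I hI _
    rw [Ideal.isUnit_iff] at hI
    rw [hI, h.gdeg_top, ← Ideal.one_eq_top, normalizedFactors_one, Multiset.card_zero]
  · intro I P hI hP ih _
    rw [h.gdeg_mul hP.ne_zero hI, ih hI, normalizedFactors_mul hP.ne_zero hI,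
      normalizedFactors_irreducible hP.irreducible, Multiset.card_add, Multiset.card_singleton,
      h.gdeg_prime hP]

/-- `u ∈ I`, `u ∉ P I`: then every element of `I` is a multiple of `u` by a constant modulo `P I` -/
theorem IsCyc.exists_const_mul {P I : Ideal (integralClosure K[X] L)} (hP : Prime P)
    (hI : I ≠ ⊥) {u v : integralClosure K[X] L} (hu : u ∈ I) (hu' : u ∉ P * I) (hv : v ∈ I) :
    ∃ c : K, v - Cst K L c * u ∈ P * I := by
  have := h.isDedekindDomain
  have hPp : P.IsPrime := Ideal.isPrime_of_prime hP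
  have hmax : P.IsMaximal := hPp.isMaximal hP.ne_zero
  obtain ⟨φ, hφ, hker⟩ := h.exists_pt P hP.ne_zero
  have h1 : I ∣ Ideal.span {u} ⊔ P * I := by
    rw [Ideal.dvd_iff_le, sup_le_iff, Ideal.span_singleton_le_iff_mem]
    exact ⟨hu, Ideal.mul_le_right⟩
  obtain ⟨Q, hQ⟩ := h1
  have h2 : P ≤ Q := by
    have h3 : P * I ≤ Q * I := by
      rw [mul_comm Q I, ← hQ]; exact le_sup_right
    rw [← Ideal.dvd_iff_le] at h3 ⊢
    exact (mul_dvd_mul_iff_right hI).1 h3
  have h4 : Q = ⊤ := by
    by_contra hne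
    have h5 := hmax.eq_of_le hne h2
    apply hu'
    have h6 : u ∈ I * Q := by
      rw [← hQ]; exact Ideal.mem_sup_left (Ideal.mem_span_singleton_self u)
    rwa [← h5, mul_comm] at h6
  rw [h4, Ideal.mul_top] at hQ
  have hv' : v ∈ Ideal.span {u} ⊔ P * I := by rw [hQ]; exact hv
  obtain ⟨a, ha, b, hb, hab⟩ := Submodule.mem_sup.1 hv'
  obtain ⟨r, rfl⟩ := Ideal.mem_span_singleton'.1 ha
  refine ⟨φ r, ?_⟩
  have h7 : v - Cst K L (φ r) * u = (r - Cst K L (φ r)) * u + b := by
    rw [← hab]; ring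
  rw [h7]
  refine Ideal.add_mem _ (Ideal.mul_mem_mul ?_ hu) hb
  rw [← hker]
  exact hφ.sub_mem r

/-- the codimension of the elements of an ideal is at most its degree -/
theorem IsCyc.codim {N : ℕ} (Λ : (Fin N → K) → integralClosure K[X] L)
    (hadd : ∀ v v', Λ (v + v') = Λ v + Λ v') (hsmul : ∀ (c : K) v, Λ (c • v) = Cst K L c * Λ v)
    {I : Ideal (integralClosure K[X] L)} (hI : I ≠ ⊥) (hN : h.gdeg I < N) :
    ∃ v : Fin N → K, v ≠ 0 ∧ Λ v ∈ I := by
  have := h.isDedekindDomain
  have h0 : Λ 0 = 0 := by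
    have := hsmul 0 0
    rw [smul_zero, map_zero, zero_mul] at this
    exact this
  let W : Ideal (integralClosure K[X] L) → Submodule K (Fin N → K) := fun I =>
    { carrier := {v | Λ v ∈ I}
      add_mem' := by
        intro a b ha hb
        change Λ (a + b) ∈ I
        rw [hadd]; exact I.add_mem ha hb
      zero_mem' := by
        change Λ 0 ∈ I
        rw [h0]; exact I.zero_mem
      smul_mem' := by
        intro c v hv
        change Λ (c • v) ∈ I
        rw [hsmul]; exact I.mul_mem_left _ hv }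
  have key : N ≤ Module.finrank K (W I) + h.gdeg I := by
    revert hI
    clear hN
    refine induction_on_prime (P := fun I : Ideal (integralClosure K[X] L) =>
      I ≠ ⊥ → N ≤ Module.finrank K (W I) + h.gdeg I) I ?_ ?_ ?_
    · intro h0; exact absurd rfl h0
    · intro I hI _
      rw [Ideal.isUnit_iff] at hI
      have h1 : W I = ⊤ := by
        rw [eq_top_iff]
        intro v _
        change Λ v ∈ I
        rw [hI]; trivial
      rw [h1, finrank_top, Module.finrank_fin_fun]
      omega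
    · intro I P hI hP ih _
      rw [h.gdeg_mul hP.ne_zero hI, h.gdeg_prime hP]
      have h1 := ih hI
      by_cases hex : ∃ u, u ∈ W I ∧ u ∉ W (P * I)
      · obtain ⟨u, hu, hu'⟩ := hex
        have h2 : W I ≤ W (P * I) ⊔ Submodule.span K {u} := by
          intro v hv
          obtain ⟨c, hc⟩ := h.exists_const_mul hP hI hu hu' hv
          rw [Submodule.mem_sup]
          refine ⟨v - c • u, ?_, c • u, Submodule.smul_mem _ _ (Submodule.mem_span_singleton_self u),
            by rw [sub_add_cancel]⟩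
          change Λ (v - c • u) ∈ P * I
          have h3 : v - c • u = v + (-c) • u := by rw [neg_smul, sub_eq_add_neg]
          rw [h3, hadd, hsmul, map_neg]
          have h6 : Λ v + -Cst K L c * Λ u = Λ v - Cst K L c * Λ u := by ring
          rw [h6]
          exact hc
        have h3 := Submodule.finrank_mono h2
        have h4 := Submodule.finrank_add_le_finrank_add_finrank (W (P * I)) (Submodule.span K {u})
        have h5 := finrank_span_singleton (K := K) (v := u) (by
          rintro rfl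
          exact hu' (W (P * I)).zero_mem)
        omega
      · push Not at hex
        have h2 : W I ≤ W (P * I) := fun v hv => hex v hv
        have h3 := Submodule.finrank_mono h2
        omega
  have hpos : 0 < Module.finrank K (W I) := by omega
  obtain ⟨⟨v, hv⟩, hv0⟩ := (Module.finrank_pos_iff_exists_ne_zero).1 hpos
  exact ⟨v, fun h0 => hv0 (Subtype.ext h0), hv⟩

omit [IsAlgClosed K] in
theorem D_le_of_val {V : ValuationSubring L} (hV : IsInf K V) {z : L} (hz : z ≠ 0) {M : ℤ}
    (hM : V.valuation z ^ n ≤ V.valuation (algebraMap K[X] L X) ^ M) : D K z ≤ M := by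
  rw [hV.val_pow_eq h hz] at hM
  exact (zpow_le_zpow_iff_right₀ hV.big).1 hM

/-- every ideal contains a function of small degree -/
theorem IsCyc.exists_small {I : Ideal (integralClosure K[X] L)} (hI : I ≠ ⊥) :
    ∃ f ∈ I, f ≠ 0 ∧ D K (f : L) ≤ h.gdeg I + n * ∑ i, m i := by
  classical
  obtain ⟨V, hV⟩ := exists_isInf (K := K) (L := L)
  set δ := h.gdeg I with hδ
  set d := ∑ i, m i with hd
  have hn := h.prime.pos
  set k := δ / n + 1 with hk
  have hk1 : δ < n * k := by
    rw [hk, mul_add, mul_one]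
    have := Nat.div_add_mod δ n
    have := Nat.mod_lt δ hn
    omega
  have hk2 : n * (k - 1) ≤ δ := by
    rw [hk, Nat.add_sub_cancel]
    exact Nat.mul_div_le δ n
  let Λ : (Fin (n * k) → K) → integralClosure K[X] L := fun v =>
    ∑ j : Fin n, (algebraMap K[X] (integralClosure K[X] L)
      (∑ i : Fin k, C (v (finProdFinEquiv (j, i))) * X ^ (i : ℕ))) * h.wR ^ (j : ℕ)
  obtain ⟨v, hv0, hv⟩ := h.codim Λ (by
      intro v v'
      simp only [Λ]
      rw [← Finset.sum_add_distrib]
      refine Finset.sum_congr rfl fun j _ => ?_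
      rw [← add_mul, ← map_add, ← Finset.sum_add_distrib]
      congr 2
      refine Finset.sum_congr rfl fun i _ => ?_
      rw [Pi.add_apply, C_add, add_mul])
    (by
      intro c v
      simp only [Λ]
      rw [Finset.mul_sum]
      refine Finset.sum_congr rfl fun j _ => ?_
      rw [← mul_assoc, Cst_apply, ← map_mul, Finset.mul_sum]
      congr 2
      refine Finset.sum_congr rfl fun i _ => ?_
      rw [Pi.smul_apply, smul_eq_mul, C_mul, mul_assoc])
    hI hk1
  have hcoe : ((Λ v : integralClosure K[X] L) : L) = ∑ j : Fin n, algebraMap (RatFunc K) L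
      (algebraMap K[X] (RatFunc K) (∑ i : Fin k, C (v (finProdFinEquiv (j, i))) * X ^ (i : ℕ))) *
      w ^ (j : ℕ) := by
    simp only [Λ]
    rw [AddSubmonoidClass.coe_finsetSum]
    refine Finset.sum_congr rfl fun j _ => ?_
    rw [← algebraMap_eq]
    rfl
  have hne : Λ v ≠ 0 := by
    intro h0
    have h1 : ((Λ v : integralClosure K[X] L) : L) = 0 := by rw [h0]; rfl
    rw [hcoe] at h1
    have h2 := h.rep_unique (q := fun j => algebraMap K[X] (RatFunc K)
      (∑ i : Fin k, C (v (finProdFinEquiv (j, i))) * X ^ (i : ℕ))) (q' := fun _ => 0)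
      (by rw [h1]; simp)
    apply hv0
    funext a
    obtain ⟨⟨j, i⟩, rfl⟩ := finProdFinEquiv.surjective a
    have h3 := congrFun h2 j
    rw [map_eq_zero_iff _ (RatFunc.algebraMap_injective K)] at h3
    have h4 := congrArg (fun p => p.coeff (i : ℕ)) h3
    simp only [finsetSum_coeff, coeff_C_mul, coeff_X_pow, coeff_zero] at h4
    rw [Finset.sum_eq_single i] at h4
    · simpa using h4
    · intro b _ hb
      rw [if_neg (fun h5 => hb (Fin.ext h5.symm)), mul_zero]
    · intro h5; exact absurd (Finset.mem_univ i) h5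
  refine ⟨Λ v, hv, hne, ?_⟩
  have hne' : ((Λ v : integralClosure K[X] L) : L) ≠ 0 := fun h0 => hne (Subtype.ext h0)
  refine D_le_of_val h hV hne' ?_
  have hbig := hV.big
  -- the bound for each term
  have hterm : ∀ j : Fin n, V.valuation (algebraMap (RatFunc K) L (algebraMap K[X] (RatFunc K)
      (∑ i : Fin k, C (v (finProdFinEquiv (j, i))) * X ^ (i : ℕ))) * w ^ (j : ℕ)) ^ n ≤
      V.valuation (algebraMap K[X] L X) ^ ((δ : ℤ) + n * d) := by
    intro j
    rw [← algebraMap_eq, map_mul, mul_pow, map_pow, ← pow_mul, mul_comm (j : ℕ) n, pow_mul,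
      hV.val_w h]
    have h1 : V.valuation (algebraMap K[X] L
        (∑ i : Fin k, C (v (finProdFinEquiv (j, i))) * X ^ (i : ℕ))) ≤
        V.valuation (algebraMap K[X] L X) ^ (k - 1) := by
      refine hV.val_le_of_natDegree_le (natDegree_sum_le_of_forall_le _ _ fun i _ => ?_)
      refine (natDegree_C_mul_X_pow_le _ _).trans ?_
      have := i.2
      omega
    calc _ ≤ (V.valuation (algebraMap K[X] L X) ^ (k - 1)) ^ n *
          (V.valuation (algebraMap K[X] L X) ^ d) ^ (j : ℕ) := by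
          exact mul_le_mul' (pow_le_pow_left' h1 n) le_rfl
      _ = V.valuation (algebraMap K[X] L X) ^ ((k - 1) * n + d * j) := by
          rw [← pow_mul, ← pow_mul, pow_add]
      _ ≤ V.valuation (algebraMap K[X] L X) ^ (δ + n * d) := by
          refine pow_le_pow_right₀ hbig.le ?_
          have hj := j.2
          have h2 : d * j ≤ n * d := by
            rw [mul_comm n d]
            exact Nat.mul_le_mul_left d hj.le
          have h3 : (k - 1) * n ≤ δ := by rw [mul_comm]; exact hk2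
          omega
      _ = _ := by rw [← zpow_natCast]; push_cast; rfl
  -- the sum
  rw [hcoe]
  obtain ⟨j, -, hj⟩ := Finset.exists_max_image (Finset.univ : Finset (Fin n))
    (fun j => V.valuation (algebraMap (RatFunc K) L (algebraMap K[X] (RatFunc K)
      (∑ i : Fin k, C (v (finProdFinEquiv (j, i))) * X ^ (i : ℕ))) * w ^ (j : ℕ)))
    ⟨⟨0, hn⟩, Finset.mem_univ _⟩
  exact (pow_le_pow_left' (Valuation.map_sum_le _ fun i _ => hj i (Finset.mem_univ i)) n).trans
    (hterm j)

end Prime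

section Least

variable {K L : Type u} [Field K] [Field L] [Algebra K[X] L] [Algebra (RatFunc K) L]
    [IsScalarTower K[X] (RatFunc K) L] [IsAlgClosed K]
    {n : ℕ} {s : ℕ} {e : Fin s → K} {m : Fin s → ℕ} {w : L} (h : IsCyc K L n e m w)

/-- `J` is nonzero, and of least degree among the ideals in its class -/
def IsCyc.IsLeast (J : Ideal (integralClosure K[X] L)) : Prop :=
  J ≠ ⊥ ∧ ∀ J' : Ideal (integralClosure K[X] L), J' ≠ ⊥ →
    (∃ x y : integralClosure K[X] L, x ≠ 0 ∧ y ≠ 0 ∧
      Ideal.span {x} * J = Ideal.span {y} * J') → h.gdeg J ≤ h.gdeg J'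

include h

omit [IsAlgClosed K] in
/-- every class contains an ideal of least degree -/
theorem IsCyc.exists_isLeast {I : Ideal (integralClosure K[X] L)} (hI : I ≠ ⊥) :
    ∃ J, h.IsLeast J ∧ ∃ x y : integralClosure K[X] L, x ≠ 0 ∧ y ≠ 0 ∧
      Ideal.span {x} * I = Ideal.span {y} * J := by
  classical
  have hex : ∃ k : ℕ, ∃ J : Ideal (integralClosure K[X] L), J ≠ ⊥ ∧ h.gdeg J = k ∧
      ∃ x y : integralClosure K[X] L, x ≠ 0 ∧ y ≠ 0 ∧
        Ideal.span {x} * I = Ideal.span {y} * J :=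
    ⟨h.gdeg I, I, hI, rfl, 1, 1, one_ne_zero, one_ne_zero, rfl⟩
  obtain ⟨J, hJ, hJk, x, y, hx, hy, hxy⟩ := Nat.find_spec hex
  refine ⟨J, ⟨hJ, fun J' hJ' hJJ' => ?_⟩, x, y, hx, hy, hxy⟩
  obtain ⟨x', y', hx', hy', hxy'⟩ := hJJ'
  rw [hJk]
  refine Nat.find_min' hex ⟨J', hJ', rfl, x * x', y * y', mul_ne_zero hx hx',
    mul_ne_zero hy hy', ?_⟩
  rw [← Ideal.span_singleton_mul_span_singleton, ← Ideal.span_singleton_mul_span_singleton,
    mul_assoc (Ideal.span {y}), ← hxy', mul_comm (Ideal.span {x}), mul_assoc, hxy]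
  ring

omit [IsAlgClosed K] in
theorem IsCyc.span_ne_bot {x : integralClosure K[X] L} (hx : x ≠ 0) :
    (Ideal.span {x} : Ideal (integralClosure K[X] L)) ≠ ⊥ := by
  rwa [Ne, Ideal.span_singleton_eq_bot]

omit [IsAlgClosed K] in
/-- a complementary ideal -/
theorem IsCyc.exists_compl {J : Ideal (integralClosure K[X] L)} (hJ : J ≠ ⊥) :
    ∃ (I : Ideal (integralClosure K[X] L)) (f : integralClosure K[X] L), I ≠ ⊥ ∧ f ≠ 0 ∧
      I * J = Ideal.span {f} := by
  have := h.isDedekindDomain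
  obtain ⟨f, hf, hf0⟩ := Submodule.exists_mem_ne_zero_of_ne_bot hJ
  obtain ⟨I, hI⟩ := (Ideal.dvd_span_singleton).2 hf
  refine ⟨I, f, ?_, hf0, by rw [hI, mul_comm]⟩
  rintro rfl
  rw [Ideal.mul_bot, Ideal.span_singleton_eq_bot] at hI
  exact hf0 hI

omit [IsAlgClosed K] in
theorem IsCyc.isCan_of_isLeast {J I : Ideal (integralClosure K[X] L)} (hJ : h.IsLeast J)
    (hI : I ≠ ⊥) {f : integralClosure K[X] L} (hf0 : f ≠ 0) (hIJ : I * J = Ideal.span {f}) :
    ∀ g ∈ I, g ≠ 0 → D K (f : L) ≤ D K (g : L) := by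
  have := h.isDedekindDomain
  intro g hg hg0
  obtain ⟨J', hJ'⟩ := (Ideal.dvd_span_singleton).2 hg
  have hJ'0 : J' ≠ ⊥ := by
    rintro rfl
    rw [Ideal.mul_bot, Ideal.span_singleton_eq_bot] at hJ'
    exact hg0 hJ'
  have h1 := hJ.2 J' hJ'0 ⟨g, f, hg0, hf0, by rw [hJ', ← hIJ]; ring⟩
  rw [← h.gdeg_span, ← h.gdeg_span, hJ', ← hIJ, h.gdeg_mul hI hJ.1, h.gdeg_mul hI hJ'0]
  push_cast
  linarith [(Nat.cast_le (α := ℤ)).2 h1]

omit [IsAlgClosed K] in
/-- the ideal of least degree of a class is unique -/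
theorem IsCyc.isLeast_unique {J J' : Ideal (integralClosure K[X] L)} (hJ : h.IsLeast J)
    (hJ' : h.IsLeast J') (hcl : ∃ x y : integralClosure K[X] L, x ≠ 0 ∧ y ≠ 0 ∧
      Ideal.span {x} * J = Ideal.span {y} * J') : J = J' := by
  have := h.isDedekindDomain
  obtain ⟨x, y, hx, hy, hxy⟩ := hcl
  obtain ⟨I, f, hI, hf0, hIJ⟩ := h.exists_compl hJ.1
  have h1 : Ideal.span {y} * (I * J') = Ideal.span {x * f} := by
    rw [← Ideal.span_singleton_mul_span_singleton, ← hIJ]
    calc Ideal.span {y} * (I * J') = I * (Ideal.span {y} * J') := by ring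
      _ = I * (Ideal.span {x} * J) := by rw [hxy]
      _ = _ := by ring
  obtain ⟨f', hf'⟩ : y ∣ x * f := by
    rw [← Ideal.mem_span_singleton, ← Ideal.span_singleton_le_iff_mem, ← h1]
    exact Ideal.mul_le_left
  have hIJ' : I * J' = Ideal.span {f'} := by
    rw [hf', ← Ideal.span_singleton_mul_span_singleton] at h1
    exact mul_left_cancel₀ (h.span_ne_bot hy) h1
  have hf'0 : f' ≠ 0 := by
    rintro rfl
    rw [mul_zero] at hf'
    exact mul_ne_zero hx hf0 hf'
  have hf1 : (f : L) ≠ 0 := fun h0 => hf0 (Subtype.ext h0)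
  have hf1' : (f' : L) ≠ 0 := fun h0 => hf'0 (Subtype.ext h0)
  -- normalise
  obtain ⟨c, hc, hmon⟩ := Mon.exists_mul h hf1
  obtain ⟨c', hc', hmon'⟩ := Mon.exists_mul h hf1'
  have hspan : ∀ (c : K) (f : integralClosure K[X] L), c ≠ 0 →
      Ideal.span {Cst K L c * f} = Ideal.span {f} := by
    intro c f hc
    rw [Ideal.span_singleton_eq_span_singleton, mul_comm]
    exact associated_mul_unit_left f (Cst K L c) ((isUnit_iff_ne_zero.2 hc).map (Cst K L))
  have hcan : ∀ (c : K) (f : integralClosure K[X] L) (J : Ideal (integralClosure K[X] L)),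
      c ≠ 0 → f ≠ 0 → h.IsLeast J → I * J = Ideal.span {f} →
      Mon K n (∑ i, m i) w (algebraMap K[X] L (C c) * (f : L)) →
      IsCan K n (∑ i, m i) w I (Cst K L c * f) := by
    intro c f J hc hf0 hJ hIJ hmon
    have h2 : I * J = Ideal.span {Cst K L c * f} := by rw [hspan c f hc, hIJ]
    have h3 : Cst K L c * f ∈ I := by
      rw [← Ideal.span_singleton_le_iff_mem, ← h2]; exact Ideal.mul_le_left
    refine ⟨h3, hmon, ?_⟩
    refine h.isCan_of_isLeast hJ hI ?_ h2
    intro h4
    apply Mon.ne h hmon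
    exact congrArg Subtype.val h4
  have h5 := isCan_unique h (hcan c f J hc hf0 hJ hIJ hmon) (hcan c' f' J' hc' hf'0 hJ' hIJ' hmon')
  have h6 : I * J = I * J' := by
    rw [hIJ, hIJ', ← hspan c f hc, ← hspan c' f' hc', h5]
  exact mul_left_cancel₀ hI h6

/-- the degree of the least ideals is bounded -/
theorem IsCyc.isLeast_bound {J : Ideal (integralClosure K[X] L)} (hJ : h.IsLeast J) :
    h.gdeg J ≤ n * ∑ i, m i := by
  have := h.isDedekindDomain
  obtain ⟨I, f, hI, hf0, hIJ⟩ := h.exists_compl hJ.1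
  obtain ⟨g, hg, hg0, hgD⟩ := h.exists_small hI
  have h1 := h.isCan_of_isLeast hJ hI hf0 hIJ g hg hg0
  have h2 : D K (f : L) = h.gdeg I + h.gdeg J := by
    rw [← h.gdeg_span, ← hIJ, h.gdeg_mul hI hJ.1]; push_cast; rfl
  have h3 : (h.gdeg J : ℤ) ≤ (n * ∑ i, m i : ℕ) := by push_cast; push_cast at hgD; linarith
  exact_mod_cast h3

omit [IsAlgClosed K] in
theorem map_prime {P : Ideal (integralClosure K[X] L)} (hP : Prime P)
    (φ : integralClosure K[X] L ≃+* integralClosure K[X] L) : Prime (P.map φ) := by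
  have := h.isDedekindDomain
  have hPp : P.IsPrime := Ideal.isPrime_of_prime hP
  have h1 : (P.map φ).IsPrime := Ideal.map_isPrime_of_equiv φ
  refine Ideal.prime_of_isPrime ?_ h1
  intro h0
  exact hP.ne_zero ((Ideal.map_eq_bot_iff_of_injective φ.injective).1 h0)

theorem IsCyc.gdeg_map (φ : integralClosure K[X] L ≃+* integralClosure K[X] L)
    {I : Ideal (integralClosure K[X] L)} (hI : I ≠ ⊥) : h.gdeg (I.map φ) = h.gdeg I := by
  have := h.isDedekindDomain
  revert hI
  refine induction_on_prime (P := fun I : Ideal (integralClosure K[X] L) =>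
    I ≠ ⊥ → h.gdeg (I.map φ) = h.gdeg I) I ?_ ?_ ?_
  · intro h0; exact absurd rfl h0
  · intro I hI _
    rw [Ideal.isUnit_iff] at hI
    rw [hI, Ideal.map_top]
  · intro I P hI hP ih _
    have h1 : I.map φ ≠ ⊥ := fun h0 =>
      hI ((Ideal.map_eq_bot_iff_of_injective φ.injective).1 h0)
    rw [Ideal.map_mul, h.gdeg_mul (map_prime h hP φ).ne_zero h1, h.gdeg_mul hP.ne_zero hI, ih hI,
      h.gdeg_prime hP, h.gdeg_prime (map_prime h hP φ)]

theorem IsCyc.isLeast_map (φ : integralClosure K[X] L ≃+* integralClosure K[X] L)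
    {J : Ideal (integralClosure K[X] L)} (hJ : h.IsLeast J) : h.IsLeast (J.map φ) := by
  have hmap0 : ∀ (ψ : integralClosure K[X] L ≃+* integralClosure K[X] L)
      (I : Ideal (integralClosure K[X] L)), I ≠ ⊥ → I.map ψ ≠ ⊥ := fun ψ I hI h0 =>
    hI ((Ideal.map_eq_bot_iff_of_injective ψ.injective).1 h0)
  refine ⟨hmap0 φ J hJ.1, fun J' hJ' hcl => ?_⟩
  obtain ⟨x, y, hx, hy, hxy⟩ := hcl
  have h1 := hJ.2 (J'.map φ.symm) (hmap0 φ.symm J' hJ')
    ⟨φ.symm x, φ.symm y, fun h0 => hx (by simpa using h0), fun h0 => hy (by simpa using h0), ?_⟩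
  · rwa [h.gdeg_map φ hJ.1, h.gdeg_map φ.symm hJ'] at *
  · have h2 := congrArg (Ideal.map φ.symm) hxy
    rw [Ideal.map_mul, Ideal.map_mul, Ideal.map_span, Ideal.map_span, Set.image_singleton,
      Set.image_singleton] at h2
    have h3 : Ideal.map φ.symm (Ideal.map φ J) = J := Ideal.map_of_equiv φ
    rw [h3] at h2
    exact h2

end Least

end Pool.Agent.Helper91.SE
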