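import Pool.Agent.Helper91.Section.SE.Gal
import Pool.Agent.Helper91.Section.SE.Aux1
import Pool.Agent.Helper91.Section.Main2

/-!
# The core lemma: a relation between the tame characters forces them to be equal
-/

universe u

namespace Pool.Agent.Helper91.SE

open Polynomial Pool.Agent.Helper91.Sect

section

variable {k K : Type u} [Field k] [Field K] [Algebra k K] [CharZero k]
  {n : ℕ} (hn : n.Prime)
  {O : ValuationSubring k} (Q : IC O (kbar k K)) [hQ : Q.IsPrime]
  {p : ℕ} (hp : p = 1 ∨ p.Prime) (hpn : Nat.Coprime n p)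
  (hres : ∀ n : ℕ, n ≠ 0 → n.Coprime p → (locW Q).valuation (n : kbar k K) = 1)
  {x y : K} (hx : Transcendental k x)
  {a₀ c₀ : kbar k K} (ha₀ : a₀ ≠ 0) (hc₀ : c₀ ≠ 0) {R : Finset (kbar k K)}
  (heq : (c₀ : AlgebraicClosure K) * (algebraMap K (AlgebraicClosure K) y) ^ n =
    a₀ * ∏ r ∈ R, (algebraMap K (AlgebraicClosure K) x - (r : AlgebraicClosure K)))
  {v : kbar k K → AlgebraicClosure K}
  (hv : ∀ r : kbar k K, v r ^ n = algebraMap K (AlgebraicClosure K) x - (r : AlgebraicClosure K))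
  (hv0 : ∀ r : kbar k K, v r ≠ 0)
  (s : GaloisSection k K)
  {τ : Gk k K} (hτ : InI Q τ)
  {ξ : AlgebraicClosure K ≃ₐ[K] AlgebraicClosure K}
  (hξ : ∀ w : Kur k K, ξ w = s.toHom τ w)
  {z : kbar k K → kbar k K} (hzn : ∀ r ∈ R, z r ^ n = 1)
  (hz : ∀ r ∈ R, ξ (v r) = (z r : AlgebraicClosure K) * v r)
  (hIR : ∀ σ : Gk k K, InI Q σ → ∀ r ∈ R, σ r = r)
  (hQ1 : ∀ r ∈ R, ∀ r' ∈ R, r ≠ r' → (locW Q).valuation (r - r') = 1)
  {V : ValuationSubring (kbar k K)} (hVn : V.valuation (n : kbar k K) = 1)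
  (hV1 : ∀ r ∈ R, ∀ r' ∈ R, r ≠ r' → V.valuation (r - r') = 1)
  {γ : Gk k K} (hγD : InD Q γ) (hγR : ∀ r ∈ R, γ r = r)
  (hγζ : ∀ ζ : kbar k K, ζ ^ n = 1 → γ ζ = ζ) {q : ℕ} (hq : 1 < q)
  (hγ : ∀ z, V.valuation z ≤ 1 → Cg V.valuation (γ z) (z ^ q))

omit [CharZero k] in
theorem goodAt_aux {V : ValuationSubring (kbar k K)} (hVn : V.valuation (n : kbar k K) = 1)
    {t : ℕ} {r : Fin (t + 1) → kbar k K}
    (hr : ∀ i j, i ≠ j → V.valuation (r i - r j) = 1) :
    GoodAt n (fun i : Fin t => 1 / (r i.succ - r 0)) V := by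
  have h0 : ∀ i j, i ≠ j → r i - r j ≠ 0 := by
    intro i j hij h0
    have := hr i j hij
    rw [h0, map_zero] at this
    exact zero_ne_one this
  have hne : ∀ i : Fin t, i.succ ≠ 0 := fun i => Fin.succ_ne_zero i
  refine ⟨hVn, fun i => ?_, fun i j hij => ?_⟩
  · rw [← V.valuation_le_one_iff, map_div₀, map_one, hr _ _ (hne i), div_one]
  · have h1 : 1 / (r i.succ - r 0) - 1 / (r j.succ - r 0) =
        (r j.succ - r i.succ) / ((r i.succ - r 0) * (r j.succ - r 0)) := by
      have h2 := h0 _ _ (hne i)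
      have h3 := h0 _ _ (hne j)
      field_simp
      ring
    rw [h1, map_div₀, map_mul, hr _ _ (hne i), hr _ _ (hne j),
      hr _ _ (fun h => hij (Fin.succ_injective _ h).symm), one_mul, div_one]

include hn hp hpn hres hx ha₀ hc₀ heq hv hv0 hτ hξ hzn hz hIR hQ1 hVn hV1 hγD hγR hγζ hq hγ

theorem core {t : ℕ} (r : Fin (t + 1) → kbar k K) (hinj : Function.Injective r)
    (hr : ∀ i, r i ∈ R) (m : Fin (t + 1) → ℕ) (hpos : ∀ i, 0 < m i) (hlt : ∀ i, m i < n)
    (hsum : n ∣ ∑ i, m i) (hprod : ∏ i, z (r i) ^ m i = 1) (i : Fin t) :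
    z (r i.succ) = z (r 0) := by
  classical
  have hn0 : n ≠ 0 := hn.ne_zero
  have halgC : ∀ z : kbar k K, IsAlgebraic k (z : AlgebraicClosure K) := fun z =>
    (mem_algebraicClosure_iff).1 z.2
  have hneZ : NeZero ((n : ℕ) : kbar k K) := ⟨by exact_mod_cast hn0⟩
  have hrr : ∀ i j, i ≠ j → r i - r j ≠ 0 := fun i j hij => sub_ne_zero.2 fun h => hij (hinj h)
  have hne : ∀ i : Fin t, i.succ ≠ 0 := fun i => Fin.succ_ne_zero i
  obtain ⟨e, he⟩ : ∃ e : Fin t → kbar k K, e = fun i => 1 / (r i.succ - r 0) := ⟨_, rfl⟩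
  have he0 : ∀ i, e i ≠ 0 := by
    intro i
    rw [he]
    exact one_div_ne_zero (hrr _ _ (hne i))
  have heinj : Function.Injective e := by
    intro i j hij
    rw [he] at hij
    have h1 : r i.succ - r 0 = r j.succ - r 0 := by
      have h2 : (1 : kbar k K) / (r i.succ - r 0) = 1 / (r j.succ - r 0) := hij
      rwa [one_div, one_div, inv_inj] at h2
    exact Fin.succ_injective _ (hinj (sub_left_inj.1 h1))
  have hgoodV : GoodAt n e V := by
    rw [he]
    exact goodAt_aux hVn fun i j hij => hV1 _ (hr i) _ (hr j) fun h => hij (hinj h)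
  have hgoodQ : GoodAt n e (locW Q) := by
    rw [he]
    exact goodAt_aux (hres n hn0 hpn) fun i j hij => hQ1 _ (hr i) _ (hr j) fun h => hij (hinj h)
  have heQ : ∀ i, (locW Q).valuation (e i) = 1 := by
    intro i
    rw [he]
    change (locW Q).valuation (1 / (r i.succ - r 0)) = 1
    rw [map_div₀, map_one, hQ1 _ (hr _) _ (hr _) fun h => hne i (hinj h), div_one]
  -- the abstract cyclic cover
  have htot : ¬ n ∣ ∑ i : Fin t, m i.succ := by
    intro h1
    rw [Fin.sum_univ_succ] at hsum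
    have h2 : n ∣ m 0 := (Nat.dvd_add_left h1).1 hsum
    exact absurd (Nat.le_of_dvd (hpos 0) h2) (not_le.2 (hlt 0))
  obtain ⟨L, _, _, _, _, w, hcyc⟩ := exists_cyc (K := kbar k K) hn (by exact_mod_cast hn0) heinj
    (m := fun i => m i.succ) (fun i => hpos _) (fun i => hlt _) htot
  -- the functions in the algebraic closure
  set X₀ := algebraMap K (AlgebraicClosure K) x with hX₀
  have hXr : ∀ r : kbar k K, X₀ - (r : AlgebraicClosure K) ≠ 0 := by
    intro r
    rw [← hv]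
    exact pow_ne_zero _ (hv0 _)
  set X : AlgebraicClosure K := 1 / (X₀ - (r 0 : AlgebraicClosure K)) with hXdef
  have hXe : ∀ i, X - (e i : AlgebraicClosure K) =
      ((-(e i) : kbar k K) : AlgebraicClosure K) * (v (r i.succ) / v (r 0)) ^ n := by
    intro i
    have h1 : (r i.succ : AlgebraicClosure K) - (r 0 : AlgebraicClosure K) ≠ 0 := fun h2 =>
      hrr _ _ (hne i) (Subtype.ext h2)
    have h2 := hXr (r 0)
    have h3 : (e i : AlgebraicClosure K) =
        1 / ((r i.succ : AlgebraicClosure K) - (r 0 : AlgebraicClosure K)) := by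
      rw [he]; rfl
    have h4 : ((-(e i) : kbar k K) : AlgebraicClosure K) = -(e i : AlgebraicClosure K) := rfl
    rw [h4, h3, div_pow, hv, hv, hXdef]
    field_simp
    ring
  obtain ⟨κ₀, hκ₀⟩ := IsAlgClosed.exists_pow_nat_eq
    (∏ i : Fin t, (-(e i)) ^ m i.succ) (Nat.pos_of_ne_zero hn0)
  set W : AlgebraicClosure K := (κ₀ : AlgebraicClosure K) *
    ∏ i : Fin t, (v (r i.succ) / v (r 0)) ^ m i.succ with hWdef
  have hWn : W ^ n = ∏ i : Fin t, (X - (e i : AlgebraicClosure K)) ^ m i.succ := by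
    have h1 : (κ₀ : AlgebraicClosure K) ^ n =
        ∏ i : Fin t, ((-(e i) : kbar k K) : AlgebraicClosure K) ^ m i.succ := by
      have h2 := congrArg (algebraMap (kbar k K) (AlgebraicClosure K)) hκ₀
      rw [map_pow, map_prod] at h2
      simp only [map_pow] at h2
      exact h2
    rw [hWdef, mul_pow, h1, ← Finset.prod_pow, ← Finset.prod_mul_distrib]
    refine Finset.prod_congr rfl fun i _ => ?_
    rw [hXe, mul_pow, ← pow_mul, ← pow_mul, mul_comm n]
  have htr : Transcendental (kbar k K) X := by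
    intro halg
    have h5 : IsAlgebraic k X := halg.restrictScalars k
    have h6 : X₀ = (r 0 : AlgebraicClosure K) + 1 / X := by
      rw [hXdef, one_div_one_div]; ring
    have h8 : IsAlgebraic k X₀ := by
      rw [h6, one_div]
      exact (halgC _).add h5.inv
    exact hx ((isAlgebraic_algebraMap_iff (algebraMap K (AlgebraicClosure K)).injective).1 h8)
  obtain ⟨ι, hιp, hιw⟩ := hcyc.exists_hom (A := AlgebraicClosure K)
    (eval₂RingHom (algebraMap (kbar k K) (AlgebraicClosure K)) X) (by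
      rw [injective_iff_map_eq_zero]
      intro p hp
      by_contra hp0
      exact htr ⟨p, hp0, hp⟩) (w' := W) (by
      rw [hWn, gpoly, map_prod]
      refine Finset.prod_congr rfl fun i _ => ?_
      rw [map_pow, map_sub, coe_eval₂RingHom, eval₂_X, eval₂_C]
      rfl)
  have hι : ∀ c : kbar k K, ι (algebraMap (kbar k K)[X] L (C c)) = c := by
    intro c
    rw [hιp, coe_eval₂RingHom, eval₂_C]; rfl
  have hιX : ι (algebraMap (kbar k K)[X] L Polynomial.X) = X := by
    rw [hιp, coe_eval₂RingHom, eval₂_X]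
  -- membership in `Kur`
  have hX₀K : X₀ ∈ Kur k K := (Kur k K).algebraMap_mem x
  have hXK : X ∈ Kur k K := div_mem (one_mem _) (sub_mem hX₀K (kbar_mem_Kur _))
  have hpairK : ∀ i j, v (r i) / v (r j) ∈ Kur k K := fun i j =>
    pairn_mem_Kur hn0 ha₀ hc₀ heq hv (hr i) (hr j)
  have hWK : W ∈ Kur k K :=
    mul_mem (kbar_mem_Kur _) (prod_mem fun i _ => pow_mem (hpairK _ _) _)
  obtain ⟨WK, hWKcoe⟩ : ∃ WK : Kur k K, (WK : AlgebraicClosure K) = W := ⟨⟨W, hWK⟩, rfl⟩
  have hW0 : W ≠ 0 := by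
    intro h0
    rw [h0, zero_pow hn0, eq_comm, Finset.prod_eq_zero_iff] at hWn
    obtain ⟨i, -, h1⟩ := hWn
    rw [hXe] at h1
    have h2 : ((-(e i) : kbar k K) : AlgebraicClosure K) ≠ 0 := fun h3 =>
      neg_ne_zero.2 (he0 i) (Subtype.ext h3)
    exact pow_ne_zero _ (mul_ne_zero h2 (pow_ne_zero _ (div_ne_zero (hv0 _) (hv0 _)))) h1
  have hWK0 : WK ≠ 0 := fun h0 => hW0 (by rw [← hWKcoe, h0]; rfl)
  -- the action of automorphisms fixing the points on `X` and `W ^ n`
  have hfixe : ∀ σ : Gk k K, (∀ i, σ (r i) = r i) → ∀ i, σ (e i) = e i := by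
    intro σ hσ i
    rw [he]
    change σ (1 / (r i.succ - r 0)) = 1 / (r i.succ - r 0)
    rw [map_div₀, map_one, map_sub, hσ, hσ]
  have hactX : ∀ (σ : Gk k K) (ξ' : AlgebraicClosure K ≃ₐ[K] AlgebraicClosure K),
      (∀ w : Kur k K, ξ' w = s.toHom σ w) → (∀ i, σ (r i) = r i) → ξ' X = X := by
    intro σ ξ' hξ' hσ
    rw [hXdef, map_div₀, map_one, map_sub, ext_const s hξ', hσ]
    congr 2
    exact ξ'.commutes x
  have hactWn : ∀ (σ : Gk k K), (∀ i, σ (r i) = r i) → s.toHom σ (WK ^ n) = WK ^ n := by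
    intro σ hσ
    obtain ⟨ξ', hξ'⟩ := exists_ext s σ
    apply Subtype.ext
    rw [← hξ']
    change ξ' ((WK : AlgebraicClosure K) ^ n) = (WK : AlgebraicClosure K) ^ n
    rw [hWKcoe, hWn, map_prod]
    refine Finset.prod_congr rfl fun i _ => ?_
    rw [map_pow, map_sub, hactX σ ξ' hξ' hσ, ext_const s hξ', hfixe σ hσ]
  have hτr : ∀ i, τ (r i) = r i := fun i => hIR τ hτ _ (hr i)
  have hγr : ∀ i, γ (r i) = r i := fun i => hγR _ (hr i)
  -- `ξ` fixes `W`
  have hτκ₀ : τ κ₀ = κ₀ := by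
    refine inertia_nth Q hres hn0 hpn hτ ?_ ?_
    · have h1 : (locW Q).valuation (κ₀ ^ n) = 1 := by
        rw [hκ₀, map_prod, Finset.prod_eq_one]
        intro i _
        rw [map_pow, Valuation.map_neg, heQ, one_pow]
      rw [map_pow] at h1
      exact (pow_eq_one_iff_of_nonneg zero_le hn0).1 h1
    · rw [hκ₀, map_prod]
      refine Finset.prod_congr rfl fun i _ => ?_
      rw [map_pow, map_neg, hfixe τ hτr]
  have hz0 : ∀ i, z (r i) ≠ 0 := by
    intro i h0
    have h1 := hzn _ (hr i)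
    rw [h0, zero_pow hn0] at h1
    exact zero_ne_one h1
  have hξW : ξ W = W := by
    have h1 : ξ (∏ i : Fin t, (v (r i.succ) / v (r 0)) ^ m i.succ) =
        ((∏ i : Fin t, (z (r i.succ) / z (r 0)) ^ m i.succ : kbar k K) : AlgebraicClosure K) *
        ∏ i : Fin t, (v (r i.succ) / v (r 0)) ^ m i.succ := by
      have h2 : ((∏ i : Fin t, (z (r i.succ) / z (r 0)) ^ m i.succ : kbar k K) :
          AlgebraicClosure K) = ∏ i : Fin t, ((z (r i.succ) : AlgebraicClosure K) /
            (z (r 0) : AlgebraicClosure K)) ^ m i.succ := by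
        have h3 := map_prod (algebraMap (kbar k K) (AlgebraicClosure K))
          (fun i : Fin t => (z (r i.succ) / z (r 0)) ^ m i.succ) Finset.univ
        refine Eq.trans h3 (Finset.prod_congr rfl fun i _ => ?_)
        rw [map_pow, map_div₀]; rfl
      rw [h2, map_prod, ← Finset.prod_mul_distrib]
      refine Finset.prod_congr rfl fun i _ => ?_
      rw [map_pow, map_div₀, hz _ (hr _), hz _ (hr _), mul_div_mul_comm, mul_pow]
    have h2 : ∏ i : Fin t, (z (r i.succ) / z (r 0)) ^ m i.succ = 1 := by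
      have h3 : ∏ i : Fin t, (z (r i.succ) / z (r 0)) ^ m i.succ =
          (∏ i : Fin t, z (r i.succ) ^ m i.succ) / z (r 0) ^ (∑ i : Fin t, m i.succ) := by
        rw [← Finset.prod_pow_eq_pow_sum, ← Finset.prod_div_distrib]
        exact Finset.prod_congr rfl fun i _ => div_pow _ _ _
      have h4 : (∏ i : Fin t, z (r i.succ) ^ m i.succ) * z (r 0) ^ m 0 = 1 := by
        rw [Fin.prod_univ_succ] at hprod
        rw [mul_comm]; exact hprod
      have h5 : z (r 0) ^ (∑ i : Fin t, m i.succ) * z (r 0) ^ m 0 = 1 := by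
        have h6 : (∑ i : Fin t, m i.succ) + m 0 = ∑ i, m i := by
          rw [Fin.sum_univ_succ]; exact Nat.add_comm _ _
        obtain ⟨d, hd⟩ := hsum
        rw [← pow_add, h6, hd, pow_mul, hzn _ (hr 0), one_pow]
      rw [h3, div_eq_one_iff_eq (pow_ne_zero _ (hz0 0))]
      exact mul_right_cancel₀ (pow_ne_zero _ (hz0 0)) (h4.trans h5.symm)
    rw [hWdef, map_mul, ext_const s hξ, hτκ₀, h1, h2]
    change (κ₀ : AlgebraicClosure K) * (1 * _) = _
    rw [one_mul]
  -- `γ ^ n` fixes `W`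
  have hγnr : ∀ i, (γ ^ n) (r i) = r i := fun i => Subgroup.pow_mem
    (MulAction.stabilizer (Gk k K) (r i)) (hγr i) n
  have hγW : s.toHom (γ ^ n) WK = WK := by
    obtain ⟨ρ', hρ'⟩ := exists_ext s γ
    have h1 : (ρ' W / W) ^ n = 1 := by
      have h2 : ρ' (W ^ n) = W ^ n := by
        have h3 := hρ' (WK ^ n)
        rw [hactWn γ hγr] at h3
        have h4 : ((WK ^ n : Kur k K) : AlgebraicClosure K) = W ^ n := by rw [← hWKcoe]; rfl
        rw [h4] at h3
        exact h3
      rw [div_pow, ← map_pow, h2]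
      exact div_self (pow_ne_zero _ hW0)
    have hζalg : IsAlgebraic k (ρ' W / W) :=
      (IsIntegral.of_pow (Nat.pos_of_ne_zero hn0) (by rw [h1]; exact isIntegral_one)).isAlgebraic
    set ζ : kbar k K := ⟨ρ' W / W, mem_algebraicClosure_iff.2 hζalg⟩ with hζ
    have hζn : ζ ^ n = 1 := Subtype.ext h1
    have hact : s.toHom γ WK = toKur k K ζ * WK := by
      apply Subtype.ext
      rw [← hρ']
      change ρ' (WK : AlgebraicClosure K) = ρ' W / W * (WK : AlgebraicClosure K)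
      rw [hWKcoe, div_mul_cancel₀ _ hW0]
    rw [section_pow_char s (hγζ ζ hζn) hact, hζn, map_one, one_mul]
  obtain ⟨ρ, hρ⟩ := exists_ext s (γ ^ n)
  have hρX : ρ X = X := hactX (γ ^ n) ρ hρ hγnr
  have hρW : ρ W = W := by
    have h1 := hρ WK
    rw [hγW, hWKcoe] at h1
    exact h1
  have hξX : ξ X = X := hactX τ ξ hξ hτr
  -- the semilinear automorphisms
  obtain ⟨φ, hφ⟩ := hcyc.exists_semi (τ : kbar k K ≃+* kbar k K) (hfixe τ hτr)
  obtain ⟨ψ, hψ⟩ := hcyc.exists_semi ((γ ^ n : Gk k K) : kbar k K ≃+* kbar k K)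
    (hfixe (γ ^ n) hγnr)
  have hξι : ∀ z, ξ (ι z) = ι (φ z) := eq_semi_of_gen hcyc hι hφ
    (σ := (ξ : AlgebraicClosure K →+* AlgebraicClosure K)) (fun c => ext_const s hξ c)
    (by rw [hιX]; exact hξX) (by rw [hιw]; exact hξW)
  have hρι : ∀ z, ρ (ι z) = ι (ψ z) := eq_semi_of_gen hcyc hι hψ
    (σ := (ρ : AlgebraicClosure K →+* AlgebraicClosure K)) (fun c => ext_const s hρ c)
    (by rw [hιX]; exact hρX) (by rw [hιw]; exact hρW)
  -- inertia at `Q`
  have hIval : ∀ σ : Gk k K, InI Q σ → ∀ z ∈ locW Q, (locW Q).valuation (σ z - z) < 1 :=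
    fun σ hσ z hz => val_inertia Q hσ (((locW Q).valuation_le_one_iff _).2 hz)
  have hNp : ∀ j, (n ^ j).Coprime p := fun j => hpn.pow_left j
  have hroot : ∀ (N : ℕ) (ζ : AlgebraicClosure K), ζ ^ n ^ N = 1 → ξ ζ = ζ := by
    intro N ζ hζ
    have hζalg : IsAlgebraic k ζ :=
      (IsIntegral.of_pow (pow_pos hn.pos N) (by rw [hζ]; exact isIntegral_one)).isAlgebraic
    have h4 := ext_const s hξ ⟨ζ, mem_algebraicClosure_iff.2 hζalg⟩
    rw [inertia_root Q hres hτ (pow_ne_zero N hn0) (hNp N) (Subtype.ext hζ)] at h4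
    exact h4
  have hγnD : InD Q (γ ^ n) := InD.pow hγD n
  have hfinal := kummer_rigid hcyc hgoodV (γ := ((γ ^ n : Gk k K) : kbar k K ≃+* kbar k K))
    (q := q ^ n) (Nat.one_lt_pow hn0 hq)
    (fun z hz => (frob_pow hγ n z ((V.valuation_le_one_iff _).2 hz)).2.2)
    (hfixe (γ ^ n) hγnr)
    (fun ζ hζ => Subgroup.pow_mem (MulAction.stabilizer (Gk k K) ζ) (hγζ ζ hζ) n)
    hgoodQ (τ := (τ : kbar k K ≃+* kbar k K)) (hIval τ hτ) (hfixe τ hτr) hφ hψ
    (ξ := (ξ : AlgebraicClosure K →+* AlgebraicClosure K))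
    (ρ := (ρ : AlgebraicClosure K →+* AlgebraicClosure K)) hξι hρι hroot
    (by
      intro I g hI hg
      have hgK : g ∈ Kur k K := kRoot_mem_Kur hcyc hι (by rw [hιX]; exact hXK)
        (by rw [hιw]; exact hWK) hg
      have hg0 : g ≠ 0 := hg.ne_zero hcyc
      set w' : Kur k K := ⟨g, hgK⟩ with hw'
      have hw'0 : w' ≠ 0 := fun h4 => hg0 (congrArg Subtype.val h4)
      -- the action of inertia elements fixing `W`
      have hpow : ∀ σ : Gk k K, InI Q σ → s.toHom σ WK = WK →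
          ∃ j : ℕ, s.toHom σ (w' ^ n ^ j) = w' ^ n ^ j := by
        intro σ hσ hσW
        have hσr : ∀ i, σ (r i) = r i := fun i => hIR σ hσ _ (hr i)
        obtain ⟨ξ', hξ'⟩ := exists_ext s σ
        obtain ⟨φ', hφ'⟩ := hcyc.exists_semi (σ : kbar k K ≃+* kbar k K) (hfixe σ hσr)
        have hξW' : ξ' W = W := by
          have h1 := hξ' WK
          rw [hσW, hWKcoe] at h1
          exact h1
        have h1 : ∀ z, ξ' (ι z) = ι (φ' z) := eq_semi_of_gen hcyc hι hφ'
          (σ := (ξ' : AlgebraicClosure K →+* AlgebraicClosure K)) (fun c => ext_const s hξ' c)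
          (by rw [hιX]; exact hactX σ ξ' hξ' hσr) (by rw [hιw]; exact hξW')
        obtain ⟨j, hj⟩ := hg.fix_pow hcyc hφ'
          (ξ := (ξ' : AlgebraicClosure K →+* AlgebraicClosure K)) h1
          (hI _ φ' hφ' (hIval σ hσ) (hfixe σ hσr))
        refine ⟨j, Subtype.ext ?_⟩
        rw [← hξ']
        exact hj
      obtain ⟨j, hj⟩ := hpow τ hτ (by
        apply Subtype.ext
        rw [← hξ, hWKcoe]; exact hξW)
      have hζn : (ξ g / g) ^ (n ^ j) = 1 := by
        have h1 : ξ (g ^ n ^ j) = g ^ n ^ j := by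
          have h2 := hξ (w' ^ n ^ j)
          rw [hj] at h2
          exact h2
        rw [div_pow, ← map_pow, h1]
        exact div_self (pow_ne_zero _ hg0)
      have hζalg : IsAlgebraic k (ξ g / g) :=
        (IsIntegral.of_pow (pow_pos hn.pos j) (by rw [hζn]; exact isIntegral_one)).isAlgebraic
      set ζ : kbar k K := ⟨ξ g / g, mem_algebraicClosure_iff.2 hζalg⟩ with hζ
      have hζn' : ζ ^ (n ^ j) = 1 := Subtype.ext hζn
      have hactw : s.toHom τ w' = toKur k K ζ * w' := by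
        apply Subtype.ext
        rw [← hξ]
        change ξ g = ξ g / g * g
        rw [div_mul_cancel₀ _ hg0]
      have hτζ : τ ζ = ζ := inertia_root Q hres hτ (pow_ne_zero j hn0) (hNp j) hζn'
      have h4 := section_inv_wild s Q hp hres hγnD hτ (pow_ne_zero j hn0) hζn' hτζ
        hactw {w', WK} (by
          intro σ i hσ hfix
          have hσr : ∀ i, σ (r i) = r i := fun i => hIR σ hσ _ (hr i)
          have hσW : s.toHom σ WK = WK := section_fix_coprime Q hres s hσ hWK0 hn0 hpn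
            (hactWn σ hσr) (hfix WK (by simp))
          obtain ⟨l, hl⟩ := hpow σ hσ hσW
          exact section_fix_coprime Q hres s hσ hw'0 (pow_ne_zero l hn0) (hNp l) hl
            (hfix w' (by simp)))
      have h5 := congrArg Subtype.val h4
      have h6 : ρ g = ((s.toHom (γ ^ n) w' : Kur k K) : AlgebraicClosure K) := hρ w'
      change ξ (ρ g) = ξ g / g * ρ g
      rw [h6, hξ]
      exact h5)
  -- the ramified primes
  obtain ⟨P, hP⟩ := hcyc.exists_ram
  obtain ⟨κ, hκ⟩ := IsAlgClosed.exists_pow_nat_eq (-(e i)) (Nat.pos_of_ne_zero hn0)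
  have hτκ : τ κ = κ := by
    refine inertia_nth Q hres hn0 hpn hτ ?_ ?_
    · have h1 : (locW Q).valuation (κ ^ n) = 1 := by rw [hκ, Valuation.map_neg, heQ]
      rw [map_pow] at h1
      exact (pow_eq_one_iff_of_nonneg zero_le hn0).1 h1
    · rw [hκ, map_neg, hfixe τ hτr]
  have hκ0 : (κ : AlgebraicClosure K) ≠ 0 := by
    intro h0
    have h1 : κ = 0 := Subtype.ext h0
    rw [h1, zero_pow hn0] at hκ
    exact neg_ne_zero.2 (he0 i) hκ.symm
  set g : AlgebraicClosure K := (κ : AlgebraicClosure K) * (v (r i.succ) / v (r 0)) with hg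
  have hgn : g ^ n = X - (e i : AlgebraicClosure K) := by
    have h1 : (κ : AlgebraicClosure K) ^ n = ((-(e i) : kbar k K) : AlgebraicClosure K) :=
      congrArg (algebraMap (kbar k K) (AlgebraicClosure K)) hκ
    rw [hg, mul_pow, h1, hXe]
  have hKR : KRoot n (∑ i : Fin t, m i.succ) w ι (P i) g := by
    refine ⟨hcyc.ram_ne_bot (hP i), 1, algebraMap (kbar k K)[X]
      (integralClosure (kbar k K)[X] L) (Polynomial.X - C (e i)), ?_, ?_, ?_⟩
    · rw [pow_one]; exact hP i
    · exact mon_X_sub_C hcyc (e i)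
    · rw [pow_one, hgn]
      change _ = ι (algebraMap (kbar k K)[X] L (Polynomial.X - C (e i)))
      rw [map_sub, map_sub, hιX, hι]
  have hξg : ξ g = g := hfinal (P i) g (inertFix_ram hcyc (hP i)) hKR
  have h1 : ξ g = (z (r i.succ) : AlgebraicClosure K) / (z (r 0) : AlgebraicClosure K) * g := by
    rw [hg, map_mul, ext_const s hξ, hτκ, map_div₀, hz _ (hr _), hz _ (hr _)]
    ring
  have hg0 : g ≠ 0 := mul_ne_zero hκ0 (div_ne_zero (hv0 _) (hv0 _))
  rw [h1] at hξg
  have h2 : (z (r i.succ) : AlgebraicClosure K) / (z (r 0) : AlgebraicClosure K) = 1 :=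
    mul_right_cancel₀ hg0 (by rw [hξg, one_mul])
  have h3 : (z (r 0) : AlgebraicClosure K) ≠ 0 := fun h4 => hz0 0 (Subtype.ext h4)
  rw [div_eq_one_iff_eq h3] at h2
  exact Subtype.ext h2

end

end Pool.Agent.Helper91.SE
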