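import Mathlib

/-!
# Cyclic covers of the projective line of prime degree, totally ramified at infinity

`K` is a field, `L` an extension of the rational function field `K(x)`, generated by an element
`w` with `w ^ n = ∏ (x - e i) ^ m i`, `n` prime and invertible in `K`, `K` containing the `n`-th
roots of unity, `0 < m i < n`, and `n` not dividing `∑ m i`.
The ring of functions regular away from infinity is `integralClosure K[X] L`.
-/

universe u

namespace Pool.Agent.Helper91.SE

open Polynomial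

/-- cyclic cover `w ^ n = ∏ (x - e i) ^ m i` of prime degree `n` of the line, totally ramified at
infinity -/
structure IsCyc (K L : Type u) [Field K] [Field L] [Algebra K[X] L] [Algebra (RatFunc K) L]
    [IsScalarTower K[X] (RatFunc K) L] (n : ℕ) {s : ℕ} (e : Fin s → K) (m : Fin s → ℕ) (w : L) :
    Prop where
  prime : n.Prime
  ne : (n : K) ≠ 0
  root : ∃ ζ : K, IsPrimitiveRoot ζ n
  inj : Function.Injective e
  pos : ∀ i, 0 < m i
  lt : ∀ i, m i < n
  tot : ¬ n ∣ ∑ i, m i
  eqn : w ^ n = algebraMap K[X] L (∏ i, (X - C (e i)) ^ m i)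
  gen : Algebra.adjoin (RatFunc K) {w} = ⊤

section Basic

variable {K L : Type u} [Field K] [Field L] [Algebra K[X] L] [Algebra (RatFunc K) L]
    [IsScalarTower K[X] (RatFunc K) L] {n : ℕ} {s : ℕ} {e : Fin s → K} {m : Fin s → ℕ} {w : L}

/-- the polynomial `∏ (X - e i) ^ m i` -/
noncomputable def gpoly (e : Fin s → K) (m : Fin s → ℕ) : K[X] := ∏ i, (X - C (e i)) ^ m i

theorem gpoly_monic : (gpoly e m).Monic :=
  monic_prod_of_monic _ _ fun i _ => (monic_X_sub_C (e i)).pow (m i)

theorem gpoly_natDegree : (gpoly e m).natDegree = ∑ i, m i := by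
  rw [gpoly, natDegree_prod_of_monic _ _ fun i _ => (monic_X_sub_C (e i)).pow (m i)]
  refine Finset.sum_congr rfl fun i _ => ?_
  rw [natDegree_pow, natDegree_X_sub_C, mul_one]

theorem algebraMap_eq (p : K[X]) :
    algebraMap K[X] L p = algebraMap (RatFunc K) L (algebraMap K[X] (RatFunc K) p) :=
  IsScalarTower.algebraMap_apply K[X] (RatFunc K) L p

theorem algebraMap_inj : Function.Injective (algebraMap K[X] L) := by
  intro p q hpq
  rw [algebraMap_eq (K := K) (L := L) p, algebraMap_eq (K := K) (L := L) q] at hpq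
  exact RatFunc.algebraMap_injective K ((algebraMap (RatFunc K) L).injective hpq)

theorem not_pow (hn : n.Prime) (htot : ¬ n ∣ ∑ i, m i) (b : RatFunc K) :
    b ^ n ≠ algebraMap K[X] (RatFunc K) (gpoly e m) := by
  intro h
  apply htot
  have h0 : algebraMap K[X] (RatFunc K) (gpoly e m) ≠ 0 := by
    rw [Ne, map_eq_zero_iff _ (RatFunc.algebraMap_injective K)]
    exact gpoly_monic.ne_zero
  have hb : b ≠ 0 := by
    rintro rfl
    rw [zero_pow hn.ne_zero] at h
    exact h0 h.symm
  have h1 : ∀ j : ℕ, (b ^ j).intDegree = j * b.intDegree := by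
    intro j
    induction j with
    | zero => simp
    | succ j ih =>
      rw [pow_succ, RatFunc.intDegree_mul (pow_ne_zero j hb) hb, ih]; push_cast; ring
  have h2 := h1 n
  rw [h, RatFunc.intDegree_polynomial, gpoly_natDegree] at h2
  exact Int.natCast_dvd_natCast.1 ⟨_, h2⟩

variable (h : IsCyc K L n e m w)

include h

theorem IsCyc.eqn' : w ^ n = algebraMap (RatFunc K) L (algebraMap K[X] (RatFunc K) (gpoly e m)) := by
  rw [h.eqn, algebraMap_eq]; rfl

theorem IsCyc.w_ne : w ≠ 0 := by
  intro h0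
  have h1 := h.eqn
  rw [h0, zero_pow h.prime.ne_zero, eq_comm,
    map_eq_zero_iff _ (algebraMap_inj (K := K) (L := L))] at h1
  exact gpoly_monic.ne_zero h1

theorem IsCyc.minpoly_eq : minpoly (RatFunc K) w =
    X ^ n - C (algebraMap K[X] (RatFunc K) (gpoly e m)) := by
  symm
  refine minpoly.eq_of_irreducible_of_monic ?_ ?_ (monic_X_pow_sub_C _ h.prime.ne_zero)
  · exact X_pow_sub_C_irreducible_of_prime h.prime (not_pow h.prime h.tot)
  · rw [map_sub, map_pow, aeval_X, aeval_C, h.eqn', sub_self]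

theorem IsCyc.isIntegral : IsIntegral (RatFunc K) w := by
  refine ⟨X ^ n - C (algebraMap K[X] (RatFunc K) (gpoly e m)),
    monic_X_pow_sub_C _ h.prime.ne_zero, ?_⟩
  rw [← aeval_def, map_sub, map_pow, aeval_X, aeval_C, h.eqn', sub_self]

/-- the power basis given by `w` -/
noncomputable def IsCyc.pb : PowerBasis (RatFunc K) L :=
  PowerBasis.ofAdjoinEqTop h.isIntegral h.gen

theorem IsCyc.pb_gen : h.pb.gen = w := PowerBasis.ofAdjoinEqTop_gen _ _

theorem IsCyc.pb_dim : h.pb.dim = n := by
  rw [← h.pb.natDegree_minpoly, h.pb_gen, h.minpoly_eq, natDegree_X_pow_sub_C]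

theorem IsCyc.finiteDimensional : FiniteDimensional (RatFunc K) L := h.pb.finite

theorem IsCyc.finrank : Module.finrank (RatFunc K) L = n := by
  rw [h.pb.finrank, h.pb_dim]

/-- the components of `z` with respect to the powers of `w` -/
theorem IsCyc.exists_rep (z : L) : ∃ q : Fin n → RatFunc K,
    z = ∑ j : Fin n, algebraMap (RatFunc K) L (q j) * w ^ (j : ℕ) := by
  have h1 := h.pb.basis.sum_repr z
  refine ⟨fun j => h.pb.basis.repr z (Fin.cast h.pb_dim.symm j), ?_⟩
  refine h1.symm.trans ?_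
  refine Fintype.sum_equiv (finCongr h.pb_dim) _ _ fun j => ?_
  rw [PowerBasis.basis_eq_pow, h.pb_gen, Algebra.smul_def]
  rfl

theorem IsCyc.rep_unique {q q' : Fin n → RatFunc K}
    (hq : ∑ j : Fin n, algebraMap (RatFunc K) L (q j) * w ^ (j : ℕ) =
      ∑ j : Fin n, algebraMap (RatFunc K) L (q' j) * w ^ (j : ℕ)) : q = q' := by
  have hli : LinearIndependent (RatFunc K) fun j : Fin n => w ^ (j : ℕ) := by
    have h1 := h.pb.basis.linearIndependent
    have h2 := h1.comp (Fin.cast h.pb_dim.symm) (Fin.cast_injective _)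
    have h3 : (fun j : Fin n => w ^ (j : ℕ)) = ⇑h.pb.basis ∘ Fin.cast h.pb_dim.symm := by
      funext j
      rw [Function.comp_apply, PowerBasis.basis_eq_pow, h.pb_gen]
      rfl
    rw [h3]
    exact h2
  have h3 : ∑ j : Fin n, (q j - q' j) • w ^ (j : ℕ) = 0 := by
    simp_rw [sub_smul, Finset.sum_sub_distrib, Algebra.smul_def]
    rw [hq, sub_self]
  have h4 := Fintype.linearIndependent_iff.1 hli _ h3
  funext j
  exact sub_eq_zero.1 (h4 j)

/-- the automorphism multiplying `w` by a root of unity -/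
theorem IsCyc.exists_aut {ζ : K} (hζ : ζ ^ n = 1) : ∃ σ : L ≃ₐ[RatFunc K] L,
    σ w = algebraMap K[X] L (C ζ) * w := by
  have hfd := h.finiteDimensional
  have h1 : aeval (algebraMap K[X] L (C ζ) * w) (minpoly (RatFunc K) h.pb.gen) = 0 := by
    rw [h.pb_gen, h.minpoly_eq, map_sub, map_pow, aeval_X, aeval_C, mul_pow, ← map_pow, ← C_pow, hζ,
      C_1, map_one, one_mul, h.eqn', sub_self]
  refine ⟨AlgEquiv.ofBijective (h.pb.lift _ h1) (AlgHom.bijective _), ?_⟩
  have h2 := h.pb.lift_gen _ h1
  rw [h.pb_gen] at h2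
  exact h2

theorem IsCyc.isGalois : IsGalois (RatFunc K) L := by
  have hfd := h.finiteDimensional
  obtain ⟨ζ, hζ⟩ := h.root
  have hn0 := h.prime.ne_zero
  have : NeZero n := ⟨hn0⟩
  choose σ hσ using fun j : Fin n => h.exists_aut (ζ := ζ ^ (j : ℕ))
    (by rw [← pow_mul, mul_comm, pow_mul, hζ.pow_eq_one, one_pow])
  have hinj : Function.Injective σ := by
    intro i j hij
    have h1 : algebraMap K[X] L (C (ζ ^ (i : ℕ))) * w = algebraMap K[X] L (C (ζ ^ (j : ℕ))) * w := by
      rw [← hσ, ← hσ, hij]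
    have h2 := C_injective (algebraMap_inj (K := K) (L := L) (mul_right_cancel₀ h.w_ne h1))
    exact Fin.ext (hζ.pow_inj i.2 j.2 h2)
  apply IsGalois.of_card_aut_eq_finrank
  apply le_antisymm
  · rw [Nat.card_eq_fintype_card]
    exact AlgEquiv.card_le
  · rw [h.finrank]
    have h3 := Nat.card_le_card_of_injective σ hinj
    rwa [Nat.card_eq_fintype_card, Fintype.card_fin] at h3

end Basic

end Pool.Agent.Helper91.SE
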