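import Pool.Agent.Helper91.Section.SE.IntRed

/-!
# The reduction of ideals of the ring of regular functions
-/

universe u

namespace Pool.Agent.Helper91.SE

open Polynomial nonZeroDivisors UniqueFactorizationMonoid

section OneDim

variable {K L : Type u} [Field K] [Field L] [Algebra K[X] L] [Algebra (RatFunc K) L]
    [IsScalarTower K[X] (RatFunc K) L] [IsAlgClosed K]
    {n : ℕ} {s : ℕ} {e : Fin s → K} {m : Fin s → ℕ} {w : L} (h : IsCyc K L n e m w)

include h

/-- if `B / A` has dimension at most one, then the degree of `A` is at most that of `B` plus one -/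
theorem IsCyc.gdeg_le_succ {A B : Ideal (integralClosure K[X] L)} (hA : A ≠ ⊥) (hAB : A ≤ B)
    (h1 : ∀ y₁ ∈ B, ∀ y₂ ∈ B, ∃ c₁ c₂ : K, (c₁ ≠ 0 ∨ c₂ ≠ 0) ∧
      Cst K L c₁ * y₁ + Cst K L c₂ * y₂ ∈ A) : h.gdeg A ≤ h.gdeg B + 1 := by
  have := h.isDedekindDomain
  have hB : B ≠ ⊥ := by
    rintro rfl
    exact hA (le_bot_iff.1 hAB)
  obtain ⟨C', hC'⟩ := Ideal.dvd_iff_le.2 hAB
  have hC'0 : C' ≠ ⊥ := by
    rintro rfl
    rw [Ideal.mul_bot] at hC'
    exact hA hC'
  rw [hC', h.gdeg_mul hB hC'0]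
  by_contra hlt
  have h2 : 2 ≤ h.gdeg C' := by omega
  rw [h.gdeg_card hC'0] at h2
  -- two prime factors
  obtain ⟨Q, hQ⟩ := Multiset.card_pos_iff_exists_mem.1 (lt_of_lt_of_le two_pos h2)
  obtain ⟨t, ht⟩ := Multiset.exists_cons_of_mem hQ
  rw [ht, Multiset.card_cons] at h2
  obtain ⟨Q', hQ'⟩ := Multiset.card_pos_iff_exists_mem.1 (by omega : 0 < Multiset.card t)
  obtain ⟨t', ht'⟩ := Multiset.exists_cons_of_mem hQ'
  have hQp : Prime Q := prime_of_normalized_factor Q hQ
  have hQ'p : Prime Q' := prime_of_normalized_factor Q' (by rw [ht]; exact Multiset.mem_cons_of_mem hQ')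
  have hfac : C' = Q * (Q' * t'.prod) := by
    have h3 := prod_normalizedFactors_eq (a := C') hC'0
    rw [ht, ht', Multiset.prod_cons, Multiset.prod_cons] at h3
    rw [h3]
    exact (normalize_eq C').symm
  have hle : A ≤ B * Q * Q' := by
    rw [hC', hfac, ← mul_assoc, ← mul_assoc]
    exact Ideal.mul_le_left
  have hBQ : B * Q ≠ ⊥ := mul_ne_zero hB hQp.ne_zero
  have hlt1 : B * Q < B := by
    refine lt_of_le_of_ne Ideal.mul_le_left fun heq => ?_
    have h4 : B * Q = B * 1 := by rw [mul_one]; exact heq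
    have h5 := mul_left_cancel₀ hB h4
    exact hQp.not_isUnit (h5 ▸ isUnit_one)
  have hlt2 : B * Q * Q' < B * Q := by
    refine lt_of_le_of_ne Ideal.mul_le_left fun heq => ?_
    have h4 : B * Q * Q' = B * Q * 1 := by rw [mul_one]; exact heq
    have h5 := mul_left_cancel₀ hBQ h4
    exact hQ'p.not_isUnit (h5 ▸ isUnit_one)
  obtain ⟨y₁, hy₁, hy₁'⟩ := SetLike.exists_of_lt hlt1
  obtain ⟨y₂, hy₂, hy₂'⟩ := SetLike.exists_of_lt hlt2
  obtain ⟨c₁, c₂, hc, hmem⟩ := h1 y₁ hy₁ y₂ (hlt1.le hy₂)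
  have hinv : ∀ (I : Ideal (integralClosure K[X] L)) (c : K) (y : integralClosure K[X] L), c ≠ 0 →
      Cst K L c * y ∈ I → y ∈ I := by
    intro I c y hc hy
    have h6 := I.mul_mem_left (Cst K L c⁻¹) hy
    rwa [← mul_assoc, ← map_mul, inv_mul_cancel₀ hc, map_one, one_mul] at h6
  have h6 : c₁ = 0 := by
    by_contra hc₁
    apply hy₁'
    apply hinv _ c₁ _ hc₁
    have h7 := hlt2.le (hle hmem)
    have h8 : Cst K L c₂ * y₂ ∈ B * Q := Ideal.mul_mem_left _ _ hy₂
    have h9 := Ideal.sub_mem _ h7 h8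
    rwa [add_sub_cancel_right] at h9
  have h7 : c₂ ≠ 0 := hc.resolve_left (not_not.2 h6)
  apply hy₂'
  apply hinv _ c₂ _ h7
  have h8 := hle hmem
  rwa [h6, map_zero, zero_mul, zero_add] at h8

end OneDim

section

variable {E L κ Lb : Type u} [Field E] [Field L] [Field κ] [Field Lb] [Algebra E[X] L]
    [Algebra (RatFunc E) L] [IsScalarTower E[X] (RatFunc E) L]
    [Algebra κ[X] Lb] [Algebra (RatFunc κ) Lb] [IsScalarTower κ[X] (RatFunc κ) Lb]
    {O : ValuationSubring E} {VL : ValuationSubring L} {π : O →+* κ} {ρ : VL →+* Lb}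
    (hr : IsRed O VL π ρ)
    {n : ℕ} {s : ℕ} {e : Fin s → E} {m : Fin s → ℕ} {w : L} (h : IsCyc E L n e m w)
    (he : ∀ i, e i ∈ O) (hw : w ∈ VL)
    (hb : IsCyc κ Lb n (fun i => π ⟨e i, he i⟩) m (ρ ⟨w, hw⟩))

/-- `y` is the reduction of an element of `I` -/
def RedMem (ρ : VL →+* Lb) (I : Ideal (integralClosure E[X] L))
    (y : integralClosure κ[X] Lb) : Prop :=
  ∃ z ∈ I, ∃ hz : (z : L) ∈ VL, (y : Lb) = ρ ⟨z, hz⟩

include hr h he hw hb

/-- the reduction of an ideal -/
def IsRed.red (I : Ideal (integralClosure E[X] L)) : Ideal (integralClosure κ[X] Lb) where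
  carrier := {y | RedMem ρ I y}
  add_mem' := by
    rintro a b ⟨z, hzI, hz, h1⟩ ⟨z', hzI', hz', h1'⟩
    refine ⟨z + z', I.add_mem hzI hzI', add_mem hz hz', ?_⟩
    have h2 : (⟨((z + z' : integralClosure E[X] L) : L), add_mem hz hz'⟩ : VL) =
        ⟨z, hz⟩ + ⟨z', hz'⟩ := rfl
    rw [h2, map_add, ← h1, ← h1']
    rfl
  zero_mem' := by
    refine ⟨0, I.zero_mem, VL.zero_mem, ?_⟩
    have h2 : (⟨((0 : integralClosure E[X] L) : L), VL.zero_mem⟩ : VL) = 0 := rfl
    rw [h2, map_zero]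
    rfl
  smul_mem' := by
    rintro c y ⟨z, hzI, hz, h1⟩
    obtain ⟨c', hc', hc⟩ := hr.exists_lift h he hw hb c
    refine ⟨c' * z, I.mul_mem_left _ hzI, mul_mem hc' hz, ?_⟩
    have h2 : (⟨((c' * z : integralClosure E[X] L) : L), mul_mem hc' hz⟩ : VL) =
        ⟨c', hc'⟩ * ⟨z, hz⟩ := rfl
    rw [h2, map_mul, ← h1, ← hc]
    rfl

theorem IsRed.mem_red {I : Ideal (integralClosure E[X] L)} {y : integralClosure κ[X] Lb} :
    y ∈ hr.red h he hw hb I ↔ RedMem ρ I y := Iff.rfl

theorem IsRed.red_top : hr.red h he hw hb ⊤ = ⊤ := by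
  rw [Ideal.eq_top_iff_one, IsRed.mem_red]
  refine ⟨1, trivial, VL.one_mem, ?_⟩
  have h2 : (⟨((1 : integralClosure E[X] L) : L), VL.one_mem⟩ : VL) = 1 := rfl
  rw [h2, map_one]
  rfl

theorem IsRed.red_mono {I J : Ideal (integralClosure E[X] L)} (hIJ : I ≤ J) :
    hr.red h he hw hb I ≤ hr.red h he hw hb J := by
  rintro y ⟨z, hzI, hz, h1⟩
  exact ⟨z, hIJ hzI, hz, h1⟩

/-- elements of `VL` integral over `E[X]` reduce to regular functions -/
theorem IsRed.exists_red_elt (z : integralClosure E[X] L) (hz : (z : L) ∈ VL) :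
    ∃ y : integralClosure κ[X] Lb, (y : Lb) = ρ ⟨z, hz⟩ :=
  ⟨⟨_, integral_red hr h he hw hb z z.2 hz⟩, rfl⟩

theorem IsRed.red_mul_le (I J : Ideal (integralClosure E[X] L)) :
    hr.red h he hw hb I * hr.red h he hw hb J ≤ hr.red h he hw hb (I * J) := by
  rw [Ideal.mul_le]
  rintro y ⟨z, hzI, hz, h1⟩ y' ⟨z', hzJ, hz', h1'⟩
  refine ⟨z * z', Ideal.mul_mem_mul hzI hzJ, mul_mem hz hz', ?_⟩
  have h2 : (⟨((z * z' : integralClosure E[X] L) : L), mul_mem hz hz'⟩ : VL) =
      ⟨z, hz⟩ * ⟨z', hz'⟩ := rfl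
  rw [h2, map_mul, ← h1, ← h1']
  rfl

theorem IsRed.red_span {f : integralClosure E[X] L} (hf : (f : L) ∈ VL)
    (hv : VL.valuation (f : L) = 1) {fb : integralClosure κ[X] Lb} (hfb : (fb : Lb) = ρ ⟨f, hf⟩) :
    hr.red h he hw hb (Ideal.span {f}) = Ideal.span {fb} := by
  apply le_antisymm
  · rintro y ⟨z, hzI, hz, h1⟩
    obtain ⟨g, rfl⟩ := Ideal.mem_span_singleton'.1 hzI
    have hg : (g : L) ∈ VL := by
      rw [← VL.valuation_le_one_iff] at hz ⊢
      have h2 : ((g * f : integralClosure E[X] L) : L) = (g : L) * (f : L) := rfl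
      rwa [h2, map_mul, hv, mul_one] at hz
    obtain ⟨gb, hgb⟩ := hr.exists_red_elt h he hw hb g hg
    have h2 : (⟨((g * f : integralClosure E[X] L) : L), hz⟩ : VL) = ⟨g, hg⟩ * ⟨f, hf⟩ := rfl
    rw [h2, map_mul, ← hgb, ← hfb] at h1
    rw [Ideal.mem_span_singleton']
    exact ⟨gb, (Subtype.ext h1).symm⟩
  · rw [Ideal.span_singleton_le_iff_mem]
    exact ⟨f, Ideal.mem_span_singleton_self f, hf, hfb⟩

theorem IsRed.red_ne_bot {I : Ideal (integralClosure E[X] L)} (hI : I ≠ ⊥) :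
    hr.red h he hw hb I ≠ ⊥ := by
  obtain ⟨z, hz, hz0⟩ := Submodule.exists_mem_ne_zero_of_ne_bot hI
  have hz0' : (z : L) ≠ 0 := fun h0 => hz0 (Subtype.ext h0)
  obtain ⟨c, hc, h1⟩ := hr.exists_scale h he hw hb hz0'
  have h2 : ((Cst E L c * z : integralClosure E[X] L) : L) = algebraMap E[X] L (C c) * (z : L) := rfl
  have h3 : ((Cst E L c * z : integralClosure E[X] L) : L) ∈ VL := by
    rw [h2, ← VL.valuation_le_one_iff, h1]
  obtain ⟨y, hy⟩ := hr.exists_red_elt h he hw hb _ h3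
  intro h0
  have h4 : y ∈ hr.red h he hw hb I := ⟨_, I.mul_mem_left _ hz, h3, hy⟩
  rw [h0, Ideal.mem_bot] at h4
  have h5 : ρ ⟨_, h3⟩ ≠ 0 := by
    rw [← hr.val_eq_one]
    rw [← h2] at h1
    exact h1
  apply h5
  rw [← hy, h4]
  rfl

section

variable [IsAlgClosed E]

omit [IsAlgClosed E] in
/-- a prime at a point outside the unit disc does not change the reduction -/
theorem IsRed.red_mul_far {I : Ideal (integralClosure E[X] L)} {φ : integralClosure E[X] L →+* E}
    (hφ : IsPt φ) (hX : φ (algebraMap E[X] (integralClosure E[X] L) X) ∉ O) :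
    hr.red h he hw hb (RingHom.ker φ * I) = hr.red h he hw hb I := by
  apply le_antisymm (hr.red_mono h he hw hb Ideal.mul_le_right)
  rintro y ⟨z, hzI, hz, h1⟩
  set a := φ (algebraMap E[X] (integralClosure E[X] L) X) with ha
  have ha0 : a ≠ 0 := fun h0 => hX (by rw [h0]; exact O.zero_mem)
  have hainv : O.valuation a⁻¹ < 1 := by
    rw [map_inv₀]
    have h2 : 1 < O.valuation a := by
      rw [← not_le, O.valuation_le_one_iff]; exact hX
    exact inv_lt_one_of_one_lt₀ h2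
  have haO : a⁻¹ ∈ O := (O.valuation_le_one_iff _).1 hainv.le
  have hπ : π ⟨a⁻¹, haO⟩ = 0 := (hr.π_ker _).2 hainv
  set u : O[X] := 1 - C ⟨a⁻¹, haO⟩ * X with hu
  have hu1 : u.map π = 1 := by
    rw [hu, Polynomial.map_sub, Polynomial.map_mul, map_C, hπ, C_0, zero_mul, sub_zero,
      Polynomial.map_one]
  have hu2 : u.map O.subtype = 1 - C a⁻¹ * X := by
    rw [hu, Polynomial.map_sub, Polynomial.map_mul, map_C, Polynomial.map_one, map_X]
    rfl
  have hmem : algebraMap E[X] (integralClosure E[X] L) (u.map O.subtype) ∈ RingHom.ker φ := by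
    rw [RingHom.mem_ker, hφ.poly, hu2, ← ha]
    simp [ha0]
  refine ⟨algebraMap E[X] (integralClosure E[X] L) (u.map O.subtype) * z,
    Ideal.mul_mem_mul hmem hzI, mul_mem (hr.map_mem u) hz, ?_⟩
  have h2 : (⟨((algebraMap E[X] (integralClosure E[X] L) (u.map O.subtype) * z :
      integralClosure E[X] L) : L), mul_mem (hr.map_mem u) hz⟩ : VL) =
      ⟨_, hr.map_mem u⟩ * ⟨z, hz⟩ := rfl
  rw [h2, map_mul, hr.ρ_poly, hu1, map_one, one_mul]
  exact h1

variable [IsAlgClosed κ]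

/-- multiplying by a prime increases the degree of the reduction by at most one -/
theorem IsRed.gdeg_red_succ {P I : Ideal (integralClosure E[X] L)} (hP : Prime P) (hI : I ≠ ⊥) :
    hb.gdeg (hr.red h he hw hb (P * I)) ≤ hb.gdeg (hr.red h he hw hb I) + 1 := by
  refine hb.gdeg_le_succ (hr.red_ne_bot h he hw hb (mul_ne_zero hP.ne_zero hI))
    (hr.red_mono h he hw hb Ideal.mul_le_right) ?_
  rintro y₁ ⟨z₁, hz₁I, hz₁, h1⟩ y₂ ⟨z₂, hz₂I, hz₂, h2⟩
  -- it is enough to find constants in `O`, not both in the maximal ideal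
  have key : ∀ c₁ c₂ : O, (π c₁ ≠ 0 ∨ π c₂ ≠ 0) →
      Cst E L c₁ * z₁ + Cst E L c₂ * z₂ ∈ P * I → ∃ c₁ c₂ : κ, (c₁ ≠ 0 ∨ c₂ ≠ 0) ∧
        Cst κ Lb c₁ * y₁ + Cst κ Lb c₂ * y₂ ∈ hr.red h he hw hb (P * I) := by
    intro c₁ c₂ hc hmem
    have hC : ∀ c : O, (Cst E L (c : E) : L) ∈ VL := fun c => hr.C_mem.2 c.2
    have hρC : ∀ c : O, ρ ⟨_, hC c⟩ = (Cst κ Lb (π c) : Lb) := by
      intro c
      have h3 := hr.ρ_poly (C c) (hr.map_mem _)
      have h4 : (⟨_, hr.map_mem (C c)⟩ : VL) = ⟨_, hC c⟩ := by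
        apply Subtype.ext
        change algebraMap E[X] L ((C c).map O.subtype) = algebraMap E[X] L (C (c : E))
        rw [map_C]; rfl
      rw [h4] at h3
      rw [h3, map_C]; rfl
    refine ⟨π c₁, π c₂, hc, _, hmem, add_mem (mul_mem (hC c₁) hz₁) (mul_mem (hC c₂) hz₂), ?_⟩
    have h3 : (⟨((Cst E L c₁ * z₁ + Cst E L c₂ * z₂ : integralClosure E[X] L) : L),
        add_mem (mul_mem (hC c₁) hz₁) (mul_mem (hC c₂) hz₂)⟩ : VL) =
        ⟨_, hC c₁⟩ * ⟨z₁, hz₁⟩ + ⟨_, hC c₂⟩ * ⟨z₂, hz₂⟩ := rfl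
    rw [h3, map_add, map_mul, map_mul, hρC, hρC, ← h1, ← h2]
    rfl
  by_cases hmem : z₂ ∈ P * I
  · refine key 0 1 (Or.inr ?_) ?_
    · rw [map_one]; exact one_ne_zero
    · change Cst E L (0 : E) * z₁ + Cst E L (1 : E) * z₂ ∈ P * I
      rw [map_zero, map_one, zero_mul, zero_add, one_mul]
      exact hmem
  · obtain ⟨c, hc⟩ := h.exists_const_mul hP hI hz₂I hmem hz₁I
    by_cases hcO : c ∈ O
    · refine key 1 ⟨-c, neg_mem hcO⟩ (Or.inl ?_) ?_
      · rw [map_one]; exact one_ne_zero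
      · change Cst E L (1 : E) * z₁ + Cst E L (-c) * z₂ ∈ P * I
        have h4 : Cst E L (1 : E) * z₁ + Cst E L (-c) * z₂ = z₁ - Cst E L c * z₂ := by
          rw [map_neg, map_one]; ring
        rw [h4]
        exact hc
    · have hc0 : c ≠ 0 := fun h0 => hcO (by rw [h0]; exact O.zero_mem)
      have hcinv : c⁻¹ ∈ O := (O.mem_or_inv_mem c).resolve_left hcO
      refine key ⟨c⁻¹, hcinv⟩ (-1) (Or.inr ?_) ?_
      · rw [map_neg, map_one]; exact neg_ne_zero.2 one_ne_zero
      · change Cst E L c⁻¹ * z₁ + Cst E L (-1 : E) * z₂ ∈ P * I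
        have h3 := (P * I).mul_mem_left (Cst E L c⁻¹) hc
        rw [mul_sub, ← mul_assoc, ← map_mul, inv_mul_cancel₀ hc0, map_one, one_mul] at h3
        have h4 : Cst E L c⁻¹ * z₁ + Cst E L (-1 : E) * z₂ = Cst E L c⁻¹ * z₁ - z₂ := by
          rw [map_neg, map_one]; ring
        rw [h4]
        exact h3

end

end

section Count

variable {E L : Type u} [Field E] [Field L] [Algebra E[X] L]
    [Algebra (RatFunc E) L] [IsScalarTower E[X] (RatFunc E) L] (O : ValuationSubring E)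
    {n : ℕ} {s : ℕ} {e : Fin s → E} {m : Fin s → ℕ} {w : L} (h : IsCyc E L n e m w)

/-- the prime is at a point of the unit disc -/
def Near (P : Ideal (integralClosure E[X] L)) : Prop :=
  ∃ φ : integralClosure E[X] L →+* E, IsPt φ ∧ RingHom.ker φ = P ∧
    φ (algebraMap E[X] (integralClosure E[X] L) X) ∈ O

include h

open Classical in
/-- the number of prime factors in the unit disc -/
noncomputable def IsCyc.cnt (I : Ideal (integralClosure E[X] L)) : ℕ :=
  haveI := h.isDedekindDomain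
  (normalizedFactors I).countP (fun P => Near O P)

theorem IsCyc.cnt_mul {I J : Ideal (integralClosure E[X] L)} (hI : I ≠ ⊥) (hJ : J ≠ ⊥) :
    h.cnt O (I * J) = h.cnt O I + h.cnt O J := by
  have := h.isDedekindDomain
  rw [IsCyc.cnt, normalizedFactors_mul hI hJ, Multiset.countP_add]
  rfl

theorem IsCyc.cnt_top : h.cnt O ⊤ = 0 := by
  have := h.isDedekindDomain
  rw [IsCyc.cnt, ← Ideal.one_eq_top, normalizedFactors_one, Multiset.countP_zero]

theorem IsCyc.cnt_near {P : Ideal (integralClosure E[X] L)} (hP : Prime P) (hn : Near O P) :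
    h.cnt O P = 1 := by
  classical
  have := h.isDedekindDomain
  rw [IsCyc.cnt, normalizedFactors_irreducible hP.irreducible, normalize_eq,
    ← Multiset.cons_zero, Multiset.countP_cons_of_pos _ hn, Multiset.countP_zero]

theorem IsCyc.cnt_far {P : Ideal (integralClosure E[X] L)} (hP : Prime P) (hn : ¬ Near O P) :
    h.cnt O P = 0 := by
  classical
  have := h.isDedekindDomain
  rw [IsCyc.cnt, normalizedFactors_irreducible hP.irreducible, normalize_eq,
    ← Multiset.cons_zero, Multiset.countP_cons_of_neg _ hn, Multiset.countP_zero]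

variable [IsAlgClosed E]

theorem IsCyc.cnt_sub_C (a : E) :
    (a ∈ O → h.cnt O (Ideal.span {algebraMap E[X] (integralClosure E[X] L) (X - C a)}) = n) ∧
    (a ∉ O → h.cnt O (Ideal.span {algebraMap E[X] (integralClosure E[X] L) (X - C a)}) = 0) := by
  classical
  have := h.isDedekindDomain
  have hne : Ideal.span {algebraMap E[X] (integralClosure E[X] L) (X - C a)} ≠ ⊥ := by
    rw [Ne, Ideal.span_singleton_eq_bot]
    intro h3
    have h5 : algebraMap E[X] L (X - C a) = 0 := congrArg Subtype.val h3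
    rw [map_eq_zero_iff _ (algebraMap_inj (K := E) (L := L))] at h5
    exact X_sub_C_ne_zero _ h5
  have hval : ∀ P ∈ normalizedFactors (Ideal.span
      {algebraMap E[X] (integralClosure E[X] L) (X - C a)}), ∀ φ : integralClosure E[X] L →+* E,
      IsPt φ → RingHom.ker φ = P → φ (algebraMap E[X] (integralClosure E[X] L) X) = a := by
    intro P hP φ hφ hker
    have h1 := dvd_of_mem_normalizedFactors hP
    rw [Ideal.dvd_span_singleton, ← hker, RingHom.mem_ker, hφ.poly, eval_sub, eval_X, eval_C,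
      sub_eq_zero] at h1
    exact h1
  constructor
  · intro ha
    have h1 := h.gdeg_card hne
    rw [h.gdeg_sub_C] at h1
    rw [IsCyc.cnt]
    refine (Multiset.countP_eq_card.2 ?_).trans h1.symm
    intro P hP
    have hPp := prime_of_normalized_factor P hP
    have hPp' : P.IsPrime := Ideal.isPrime_of_prime hPp
    obtain ⟨φ, hφ, hker⟩ := h.exists_pt P hPp.ne_zero
    exact ⟨φ, hφ, hker, by rw [hval P hP φ hφ hker]; exact ha⟩
  · intro ha
    rw [IsCyc.cnt, Multiset.countP_eq_zero]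
    rintro P hP ⟨φ, hφ, hker, hX⟩
    rw [hval P hP φ hφ hker] at hX
    exact ha hX

omit O in
/-- every nonzero ideal contains a product of `x - a` -/
theorem IsCyc.exists_prod_mem {I : Ideal (integralClosure E[X] L)} (hI : I ≠ ⊥) : ∃ t : Multiset E,
    algebraMap E[X] (integralClosure E[X] L) (t.map fun a => X - C a).prod ∈ I := by
  have h1 : h.nrm I ≠ ⊥ := by rw [Ne, h.nrm_eq_bot]; exact hI
  obtain ⟨p, hp, hp0⟩ := Submodule.exists_mem_ne_zero_of_ne_bot h1
  have h2 : algebraMap E[X] (integralClosure E[X] L) p ∈ I := h.nrm_le I hp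
  refine ⟨p.roots, ?_⟩
  have h3 := (IsAlgClosed.splits p).eq_prod_roots
  have hlc : p.leadingCoeff ≠ 0 := leadingCoeff_ne_zero.2 hp0
  have h4 : (p.roots.map fun a => X - C a).prod = C p.leadingCoeff⁻¹ * p := by
    have h5 : C p.leadingCoeff⁻¹ * (C p.leadingCoeff * (p.roots.map fun a => X - C a).prod) =
        (p.roots.map fun a => X - C a).prod := by
      rw [← mul_assoc, ← C_mul, inv_mul_cancel₀ hlc, C_1, one_mul]
    rw [← h3] at h5
    exact h5.symm
  rw [h4, map_mul]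
  exact I.mul_mem_left _ h2

end Count

section Final

variable {E L κ Lb : Type u} [Field E] [Field L] [Field κ] [Field Lb] [Algebra E[X] L]
    [Algebra (RatFunc E) L] [IsScalarTower E[X] (RatFunc E) L] [IsAlgClosed E]
    [Algebra κ[X] Lb] [Algebra (RatFunc κ) Lb] [IsScalarTower κ[X] (RatFunc κ) Lb] [IsAlgClosed κ]
    {O : ValuationSubring E} {VL : ValuationSubring L} {π : O →+* κ} {ρ : VL →+* Lb}
    (hr : IsRed O VL π ρ)
    {n : ℕ} {s : ℕ} {e : Fin s → E} {m : Fin s → ℕ} {w : L} (h : IsCyc E L n e m w)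
    (he : ∀ i, e i ∈ O) (hw : w ∈ VL)
    (hb : IsCyc κ Lb n (fun i => π ⟨e i, he i⟩) m (ρ ⟨w, hw⟩))

include hr h he hw hb

theorem IsRed.gdeg_red_mul_le {I J : Ideal (integralClosure E[X] L)} (hI : I ≠ ⊥) (hJ : J ≠ ⊥) :
    hb.gdeg (hr.red h he hw hb (J * I)) ≤ hb.gdeg (hr.red h he hw hb I) + h.cnt O J := by
  have := h.isDedekindDomain
  revert hJ
  refine induction_on_prime (P := fun J : Ideal (integralClosure E[X] L) =>
    J ≠ ⊥ → hb.gdeg (hr.red h he hw hb (J * I)) ≤ hb.gdeg (hr.red h he hw hb I) + h.cnt O J)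
    J ?_ ?_ ?_
  · intro h0; exact absurd rfl h0
  · intro J hJ _
    rw [Ideal.isUnit_iff] at hJ
    rw [hJ, Ideal.top_mul]
    exact Nat.le_add_right _ _
  · intro J P hJ hP ih _
    have hJI : J * I ≠ ⊥ := mul_ne_zero hJ hI
    rw [mul_assoc, h.cnt_mul O hP.ne_zero hJ]
    have hPp : P.IsPrime := Ideal.isPrime_of_prime hP
    by_cases hn : Near O P
    · have h1 := hr.gdeg_red_succ h he hw hb hP hJI
      have h2 := ih hJ
      rw [h.cnt_near O hP hn]
      omega
    · obtain ⟨φ, hφ, hker⟩ := h.exists_pt P hP.ne_zero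
      have hX : φ (algebraMap E[X] (integralClosure E[X] L) X) ∉ O :=
        fun hX => hn ⟨φ, hφ, hker, hX⟩
      rw [← hker, hr.red_mul_far h he hw hb hφ hX, hker, h.cnt_far O hP hn, zero_add]
      exact ih hJ

omit [IsAlgClosed κ] in
theorem IsRed.gdeg_red_sub_C (a : E) :
    hb.gdeg (hr.red h he hw hb (Ideal.span
      {algebraMap E[X] (integralClosure E[X] L) (X - C a)})) =
    h.cnt O (Ideal.span {algebraMap E[X] (integralClosure E[X] L) (X - C a)}) := by
  by_cases ha : a ∈ O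
  · rw [(h.cnt_sub_C O a).1 ha]
    obtain ⟨u, hu⟩ : ∃ u : O[X], u = X - C ⟨a, ha⟩ := ⟨_, rfl⟩
    have h1 : u.map O.subtype = X - C a := by
      rw [hu, Polynomial.map_sub, map_X, map_C]; rfl
    have h2 : u.map π = X - C (π ⟨a, ha⟩) := by
      rw [hu, Polynomial.map_sub, map_X, map_C]
    have hV := hr.map_mem u
    have hρ := hr.ρ_poly u hV
    have hv := hr.val_poly_eq_one (p := u) (by rw [h2]; exact X_sub_C_ne_zero _)
    have h3 := hr.red_span h he hw hb (f := algebraMap E[X] (integralClosure E[X] L)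
      (u.map O.subtype))
      (fb := algebraMap κ[X] (integralClosure κ[X] Lb) (X - C (π ⟨a, ha⟩))) hV hv
      (by rw [← h2]; exact hρ.symm)
    rw [h1] at h3
    rw [h3, hb.gdeg_sub_C]
  · rw [(h.cnt_sub_C O a).2 ha]
    have ha0 : a ≠ 0 := fun h0 => ha (by rw [h0]; exact O.zero_mem)
    have hainv : O.valuation a⁻¹ < 1 := by
      rw [map_inv₀]
      have h2 : 1 < O.valuation a := by
        rw [← not_le, O.valuation_le_one_iff]; exact ha
      exact inv_lt_one_of_one_lt₀ h2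
    have haO : a⁻¹ ∈ O := (O.valuation_le_one_iff _).1 hainv.le
    have hπ : π ⟨a⁻¹, haO⟩ = 0 := (hr.π_ker _).2 hainv
    set u : O[X] := 1 - C ⟨a⁻¹, haO⟩ * X with hu
    have hu1 : u.map π = 1 := by
      rw [hu, Polynomial.map_sub, Polynomial.map_mul, map_C, hπ, C_0, zero_mul, sub_zero,
        Polynomial.map_one]
    have hu2 : u.map O.subtype = C (-a⁻¹) * (X - C a) := by
      rw [hu, Polynomial.map_sub, Polynomial.map_mul, map_C, Polynomial.map_one, map_X]
      change 1 - C a⁻¹ * X = C (-a⁻¹) * (X - C a)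
      have h3 : (C a⁻¹ : E[X]) * C a = 1 := by rw [← C_mul, inv_mul_cancel₀ ha0, C_1]
      rw [C_neg, mul_sub, neg_mul, neg_mul, h3]
      ring
    have hspan : Ideal.span {algebraMap E[X] (integralClosure E[X] L) (X - C a)} =
        Ideal.span {algebraMap E[X] (integralClosure E[X] L) (u.map O.subtype)} := by
      rw [hu2, map_mul, eq_comm, Ideal.span_singleton_eq_span_singleton, mul_comm]
      exact associated_mul_unit_left _ _ ((isUnit_iff_ne_zero.2
        (neg_ne_zero.2 (inv_ne_zero ha0))).map (Cst E L))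
    have hV := hr.map_mem u
    have hρ := hr.ρ_poly u hV
    have hv := hr.val_poly_eq_one (p := u) (by rw [hu1]; exact one_ne_zero)
    rw [hu1, map_one] at hρ
    have h3 := hr.red_span h he hw hb (f := algebraMap E[X] (integralClosure E[X] L)
      (u.map O.subtype)) (fb := 1) hV hv hρ.symm
    rw [hspan, h3, Ideal.span_singleton_one, hb.gdeg_top]

omit [IsAlgClosed E] [IsAlgClosed κ] in
theorem IsRed.exists_span {f : integralClosure E[X] L} (hf : f ≠ 0) :
    ∃ (f' : integralClosure E[X] L) (hf' : (f' : L) ∈ VL) (fb : integralClosure κ[X] Lb),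
      Ideal.span {f'} = Ideal.span {f} ∧ VL.valuation (f' : L) = 1 ∧ (fb : Lb) = ρ ⟨f', hf'⟩ ∧
      fb ≠ 0 := by
  have hf0 : (f : L) ≠ 0 := fun h0 => hf (Subtype.ext h0)
  obtain ⟨c, hc, h1⟩ := hr.exists_scale h he hw hb hf0
  have hspan : Ideal.span {Cst E L c * f} = Ideal.span {f} := by
    rw [Ideal.span_singleton_eq_span_singleton, mul_comm]
    exact associated_mul_unit_left f (Cst E L c) ((isUnit_iff_ne_zero.2 hc).map (Cst E L))
  have hmem : ((Cst E L c * f : integralClosure E[X] L) : L) ∈ VL := by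
    rw [← VL.valuation_le_one_iff]
    exact h1.le
  obtain ⟨y, hy⟩ := hr.exists_red_elt h he hw hb _ hmem
  refine ⟨_, hmem, y, hspan, h1, hy, ?_⟩
  rintro rfl
  have h5 := (hr.val_eq_one ⟨_, hmem⟩).1 h1
  exact h5 hy.symm

omit [IsAlgClosed E] [IsAlgClosed κ] in
theorem IsRed.gdeg_red_span_mul {f g : integralClosure E[X] L} (hf : f ≠ 0) (hg : g ≠ 0) :
    hb.gdeg (hr.red h he hw hb (Ideal.span {f * g})) =
      hb.gdeg (hr.red h he hw hb (Ideal.span {f})) +
      hb.gdeg (hr.red h he hw hb (Ideal.span {g})) := by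
  obtain ⟨f', hf', fb, h1, h2, h3, h4⟩ := hr.exists_span h he hw hb hf
  obtain ⟨g', hg', gb, h1', h2', h3', h4'⟩ := hr.exists_span h he hw hb hg
  rw [← Ideal.span_singleton_mul_span_singleton, ← h1, ← h1',
    Ideal.span_singleton_mul_span_singleton, hr.red_span h he hw hb hf' h2 h3,
    hr.red_span h he hw hb hg' h2' h3']
  have hfg : ((f' * g' : integralClosure E[X] L) : L) ∈ VL := mul_mem hf' hg'
  have hv : VL.valuation ((f' * g' : integralClosure E[X] L) : L) = 1 := by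
    have h5 : ((f' * g' : integralClosure E[X] L) : L) = (f' : L) * (g' : L) := rfl
    rw [h5, map_mul, h2, h2', one_mul]
  have h6 : ((fb * gb : integralClosure κ[X] Lb) : Lb) = ρ ⟨_, hfg⟩ := by
    have h7 : (⟨_, hfg⟩ : VL) = ⟨f', hf'⟩ * ⟨g', hg'⟩ := rfl
    rw [h7, map_mul, ← h3, ← h3']
    rfl
  rw [hr.red_span h he hw hb hfg hv h6, ← Ideal.span_singleton_mul_span_singleton,
    hb.gdeg_mul (hb.span_ne_bot h4) (hb.span_ne_bot h4')]

/-- the degree of the reduction of the ideal of a product of `x - a` -/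
theorem IsRed.gdeg_red_prod (t : Multiset E) :
    hb.gdeg (hr.red h he hw hb (Ideal.span
      {algebraMap E[X] (integralClosure E[X] L) (t.map fun a => X - C a).prod})) =
    h.cnt O (Ideal.span {algebraMap E[X] (integralClosure E[X] L)
      (t.map fun a => X - C a).prod}) := by
  have hne : ∀ t : Multiset E, algebraMap E[X] (integralClosure E[X] L)
      (t.map fun a => X - C a).prod ≠ 0 := by
    intro t h0
    have h5 : algebraMap E[X] L (t.map fun a => X - C a).prod = 0 := congrArg Subtype.val h0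
    rw [map_eq_zero_iff _ (algebraMap_inj (K := E) (L := L))] at h5
    exact (monic_multiset_prod_of_monic _ _ fun a _ => monic_X_sub_C a).ne_zero h5
  have hne1 : ∀ a : E, algebraMap E[X] (integralClosure E[X] L) (X - C a) ≠ 0 := by
    intro a h0
    have h5 : algebraMap E[X] L (X - C a) = 0 := congrArg Subtype.val h0
    rw [map_eq_zero_iff _ (algebraMap_inj (K := E) (L := L))] at h5
    exact X_sub_C_ne_zero a h5
  induction t using Multiset.induction_on with
  | empty =>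
    rw [Multiset.map_zero, Multiset.prod_zero, map_one, Ideal.span_singleton_one,
      hr.red_top h he hw hb, hb.gdeg_top, h.cnt_top]
  | cons a t ih =>
    rw [Multiset.map_cons, Multiset.prod_cons, map_mul,
      hr.gdeg_red_span_mul h he hw hb (hne1 a) (hne t), ih, hr.gdeg_red_sub_C h he hw hb,
      ← Ideal.span_singleton_mul_span_singleton,
      h.cnt_mul O (h.span_ne_bot (hne1 a)) (h.span_ne_bot (hne t))]

/-- the degree of the reduction of an ideal is the number of its prime factors in the unit disc -/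
theorem IsRed.gdeg_red {I : Ideal (integralClosure E[X] L)} (hI : I ≠ ⊥) :
    hb.gdeg (hr.red h he hw hb I) = h.cnt O I := by
  have := h.isDedekindDomain
  obtain ⟨t, ht⟩ := h.exists_prod_mem hI
  obtain ⟨J, hJ⟩ := (Ideal.dvd_span_singleton).2 ht
  have h0 : I * J ≠ ⊥ := by
    rw [← hJ]
    refine h.span_ne_bot fun h0 => ?_
    have h5 : algebraMap E[X] L (t.map fun a => X - C a).prod = 0 := congrArg Subtype.val h0
    rw [map_eq_zero_iff _ (algebraMap_inj (K := E) (L := L))] at h5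
    exact (monic_multiset_prod_of_monic _ _ fun a _ => monic_X_sub_C a).ne_zero h5
  have hJ0 : J ≠ ⊥ := by
    rintro rfl
    exact h0 (Ideal.mul_bot I)
  have h1 := hr.gdeg_red_prod h he hw hb t
  rw [hJ, h.cnt_mul O hI hJ0, mul_comm I J] at h1
  have h2 := hr.gdeg_red_mul_le h he hw hb hI hJ0
  have h3 := hr.gdeg_red_mul_le h he hw hb (I := ⊤) (J := I) top_ne_bot hI
  rw [Ideal.mul_top, hr.red_top h he hw hb, hb.gdeg_top, zero_add] at h3
  omega

/-- reduction is multiplicative -/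
theorem IsRed.red_mul {I J : Ideal (integralClosure E[X] L)} (hI : I ≠ ⊥) (hJ : J ≠ ⊥) :
    hr.red h he hw hb (I * J) = hr.red h he hw hb I * hr.red h he hw hb J := by
  have := h.isDedekindDomain
  have := hb.isDedekindDomain
  have hIJ : I * J ≠ ⊥ := mul_ne_zero hI hJ
  obtain ⟨C', hC'⟩ := Ideal.dvd_iff_le.2 (hr.red_mul_le h he hw hb I J)
  have h1 := hr.red_ne_bot h he hw hb hI
  have h2 := hr.red_ne_bot h he hw hb hJ
  have h3 := hr.red_ne_bot h he hw hb hIJ
  have hC'0 : C' ≠ ⊥ := by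
    rintro rfl
    rw [Ideal.mul_bot] at hC'
    exact mul_ne_zero h1 h2 hC'
  have h4 := congrArg hb.gdeg hC'
  rw [hb.gdeg_mul h1 h2, hb.gdeg_mul h3 hC'0, hr.gdeg_red h he hw hb hI, hr.gdeg_red h he hw hb hJ,
    hr.gdeg_red h he hw hb hIJ, h.cnt_mul O hI hJ] at h4
  have h5 : hb.gdeg C' = 0 := by omega
  rw [hC', hb.eq_top_of_gdeg hC'0 h5, Ideal.mul_top]

theorem IsRed.red_pow {I : Ideal (integralClosure E[X] L)} (hI : I ≠ ⊥) (N : ℕ) :
    hr.red h he hw hb (I ^ N) = hr.red h he hw hb I ^ N := by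
  have := h.isDedekindDomain
  induction N with
  | zero => rw [pow_zero, pow_zero, Ideal.one_eq_top, Ideal.one_eq_top, hr.red_top h he hw hb]
  | succ N ih => rw [pow_succ, pow_succ, hr.red_mul h he hw hb (pow_ne_zero N hI) hI, ih]

/-- the reduction of an `N`-th power -/
theorem div_red {I : Ideal (integralClosure E[X] L)} (hI : I ≠ ⊥) {N : ℕ}
    {f : integralClosure E[X] L} (hf : I ^ N = Ideal.span {f})
    (hv : VL.valuation (f : L) = 1) (hfV : (f : L) ∈ VL) :
    ∃ (fb : integralClosure κ[X] Lb), (fb : Lb) = ρ ⟨f, hfV⟩ ∧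
      ∃ J : Ideal (integralClosure κ[X] Lb), J ^ N = Ideal.span {fb} := by
  obtain ⟨fb, hfb⟩ := hr.exists_red_elt h he hw hb f hfV
  refine ⟨fb, hfb, hr.red h he hw hb I, ?_⟩
  rw [← hr.red_pow h he hw hb hI, hf, hr.red_span h he hw hb hfV hv hfb]

end Final

end Pool.Agent.Helper91.SE
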