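import Pool.Agent.Helper91.Section.SE.Canon

/-!
# Finiteness of the Frobenius-invariant classes
-/

universe u

namespace Pool.Agent.Helper91.SE

open Polynomial nonZeroDivisors UniqueFactorizationMonoid

section Fin

variable {K L : Type u} [Field K] [Field L] [Algebra K[X] L] [Algebra (RatFunc K) L]
    [IsScalarTower K[X] (RatFunc K) L] [IsAlgClosed K]
    {n : ℕ} {s : ℕ} {e : Fin s → K} {m : Fin s → ℕ} {w : L} (h : IsCyc K L n e m w)

omit [IsAlgClosed K] in
theorem Cst_injective : Function.Injective (Cst K L) := by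
  have h1 : FaithfulSMul K[X] L := by
    rw [faithfulSMul_iff_algebraMap_injective]
    exact algebraMap_inj
  intro a b hab
  have h2 := congrArg Subtype.val hab
  have h3 : algebraMap K[X] L (C a) = algebraMap K[X] L (C b) := h2
  exact C_injective (algebraMap_inj (K := K) (L := L) h3)

include h

/-- an ideal of degree at most `B` divides the `B`-th power of any ideal divisible by all its prime
factors -/
theorem IsCyc.dvd_pow_of_factors {J G : Ideal (integralClosure K[X] L)} (hJ : J ≠ ⊥)
    (hG : ∀ P : Ideal (integralClosure K[X] L), Prime P → P ∣ J → P ∣ G) :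
    J ∣ G ^ h.gdeg J := by
  have := h.isDedekindDomain
  revert hJ hG
  refine induction_on_prime (P := fun J : Ideal (integralClosure K[X] L) =>
    J ≠ ⊥ → (∀ P : Ideal (integralClosure K[X] L), Prime P → P ∣ J → P ∣ G) →
      J ∣ G ^ h.gdeg J) J ?_ ?_ ?_
  · intro h0; exact absurd rfl h0
  · intro J hJ _ _
    exact hJ.dvd
  · intro J P hJ hP ih _ hG
    rw [h.gdeg_mul hP.ne_zero hJ, h.gdeg_prime hP, pow_add, pow_one]
    exact mul_dvd_mul (hG P hP (dvd_mul_right _ _))
      (ih hJ fun Q hQ hQJ => hG Q hQ (hQJ.mul_left P))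

/-- the points of a Frobenius-invariant ideal of bounded degree are defined over a finite field -/
theorem IsCyc.finite_invariant (φ : integralClosure K[X] L ≃+* integralClosure K[X] L) {q : ℕ}
    (hq : 1 < q) (hφ : ∀ c, φ (Cst K L c) = Cst K L (c ^ q))
    (hx : φ (algebraMap K[X] (integralClosure K[X] L) X) =
      algebraMap K[X] (integralClosure K[X] L) X) (B : ℕ) :
    {J : Ideal (integralClosure K[X] L) | J ≠ ⊥ ∧ h.gdeg J ≤ B ∧ J.map φ = J}.Finite := by
  classical
  have := h.isDedekindDomain
  have hqinj : Function.Injective fun c : K => c ^ q := by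
    intro a b hab
    have h1 : φ (Cst K L a) = φ (Cst K L b) := by
      rw [hφ, hφ]; exact congrArg _ hab
    exact Cst_injective (φ.injective h1)
  have hqkinj : ∀ k : ℕ, Function.Injective fun c : K => c ^ (q ^ k) := by
    intro k
    induction k with
    | zero => intro a b hab; simpa using hab
    | succ k ih =>
      intro a b hab
      simp only [pow_succ, pow_mul] at hab
      exact ih (hqinj hab)
  set F : K[X] := ∏ r ∈ Finset.range B, (X ^ (q ^ (r + 1)) - X) with hF
  have hF0 : F ≠ 0 := by
    rw [hF, Finset.prod_ne_zero_iff]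
    intro r _
    have h1 : (X ^ (q ^ (r + 1)) - X : K[X]).Monic := by
      apply monic_X_pow_sub
      rw [degree_X]
      exact_mod_cast Nat.one_lt_pow (by omega) hq
    exact h1.ne_zero
  set G : Ideal (integralClosure K[X] L) :=
    Ideal.span {algebraMap K[X] (integralClosure K[X] L) F} with hG
  have hG0 : G ≠ ⊥ := by
    rw [hG, Ne, Ideal.span_singleton_eq_bot]
    intro h0
    have h1 : algebraMap K[X] L F = 0 := congrArg Subtype.val h0
    rw [map_eq_zero_iff _ (algebraMap_inj (K := K) (L := L))] at h1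
    exact hF0 h1
  have hfin : {J : Ideal (integralClosure K[X] L) | J ∣ G ^ B}.Finite := by
    have h1 := UniqueFactorizationMonoid.fintypeSubtypeDvd (G ^ B) (pow_ne_zero B hG0)
    have h2 : Finite {J // J ∣ G ^ B} := @Finite.of_fintype _ h1
    exact Set.finite_coe_iff.1 h2
  refine hfin.subset ?_
  rintro J ⟨hJ0, hJB, hJφ⟩
  refine dvd_trans (h.dvd_pow_of_factors hJ0 ?_) (pow_dvd_pow G hJB)
  intro P hP hPJ
  have hPp : P.IsPrime := Ideal.isPrime_of_prime hP
  obtain ⟨ψ, hψ, hker⟩ := h.exists_pt P hP.ne_zero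
  set a := ψ (algebraMap K[X] (integralClosure K[X] L) X) with ha
  let Pk : ℕ → Ideal (integralClosure K[X] L) := fun k => (Ideal.map φ)^[k] P
  have hPk1 : ∀ k, Pk (k + 1) = (Pk k).map φ := fun k => Function.iterate_succ_apply' _ _ _
  have hPkprime : ∀ k, Prime (Pk k) := by
    intro k
    induction k with
    | zero => exact hP
    | succ k ih => rw [hPk1]; exact map_prime h ih φ
  have hPkdvd : ∀ k, Pk k ∣ J := by
    intro k
    induction k with
    | zero => exact hPJ
    | succ k ih =>
      rw [hPk1]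
      obtain ⟨I, hI⟩ := ih
      exact ⟨I.map φ, by rw [← Ideal.map_mul, ← hI, hJφ]⟩
  have hmem : ∀ k, algebraMap K[X] (integralClosure K[X] L) (X - C (a ^ q ^ k)) ∈ Pk k := by
    intro k
    induction k with
    | zero =>
      change _ ∈ P
      rw [pow_zero, pow_one, ← hker]
      exact hψ.sub_C_mem h
    | succ k ih =>
      rw [hPk1]
      have h1 := Ideal.mem_map_of_mem φ ih
      rw [map_sub, map_sub, hx] at h1
      have h2 := hφ (a ^ q ^ k)
      rw [Cst_apply, Cst_apply, ← pow_mul, ← pow_succ] at h2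
      rw [h2] at h1
      rw [map_sub]
      exact h1
  obtain ⟨i, j, hij, hjB, hPij⟩ : ∃ i j : ℕ, i < j ∧ j ≤ B ∧ Pk i = Pk j := by
    by_contra hcon
    push Not at hcon
    have hinj : Set.InjOn Pk (Finset.range (B + 1) : Finset ℕ) := by
      intro i hi j hj hij
      have hi' : i < B + 1 := by simpa using hi
      have hj' : j < B + 1 := by simpa using hj
      rcases lt_trichotomy i j with h1 | h1 | h1
      · exact absurd hij (hcon i j h1 (by omega))
      · exact h1
      · exact absurd hij.symm (hcon j i h1 (by omega))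
    have h1 : ∏ Q ∈ (Finset.range (B + 1)).image Pk, Q ∣ J := by
      refine Finset.prod_primes_dvd _ ?_ ?_
      · intro Q hQ
        obtain ⟨k, -, rfl⟩ := Finset.mem_image.1 hQ
        exact hPkprime k
      · intro Q hQ
        obtain ⟨k, -, rfl⟩ := Finset.mem_image.1 hQ
        exact hPkdvd k
    rw [Finset.prod_image hinj] at h1
    obtain ⟨I, hI⟩ := h1
    have hI0 : I ≠ ⊥ := by
      rintro rfl
      rw [Ideal.mul_bot] at hI
      exact hJ0 hI
    have hprod0 : ∏ k ∈ Finset.range (B + 1), Pk k ≠ ⊥ := by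
      intro h0
      rw [h0, Ideal.bot_mul] at hI
      exact hJ0 hI
    have h2 := congrArg h.gdeg hI
    rw [h.gdeg_mul hprod0 hI0, h.gdeg_prod _ _ fun k _ => (hPkprime k).ne_zero,
      Finset.sum_congr rfl fun k _ => h.gdeg_prime (hPkprime k)] at h2
    simp at h2
    omega
  have haij : a ^ q ^ i = a ^ q ^ j := by
    by_contra hne
    have h1 := hmem i
    have h2 := hmem j
    rw [← hPij] at h2
    have h3 := (Pk i).sub_mem h1 h2
    rw [← map_sub] at h3
    have h4 : (X - C (a ^ q ^ i) - (X - C (a ^ q ^ j)) : K[X]) = C (a ^ q ^ j - a ^ q ^ i) := by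
      rw [C_sub]; ring
    rw [h4] at h3
    have h5 : IsUnit (Cst K L (a ^ q ^ j - a ^ q ^ i)) :=
      (isUnit_iff_ne_zero.2 (sub_ne_zero.2 (Ne.symm hne))).map (Cst K L)
    have h6 : (Pk i).IsPrime := Ideal.isPrime_of_prime (hPkprime i)
    exact h6.ne_top (Ideal.eq_top_of_isUnit_mem _ h3 h5)
  have haq : a ^ q ^ (j - i) = a := by
    apply hqkinj i
    change (a ^ q ^ (j - i)) ^ q ^ i = a ^ q ^ i
    rw [← pow_mul, ← pow_add, Nat.sub_add_cancel hij.le, haij]
  -- hence `P` divides `G`
  rw [hG, Ideal.dvd_span_singleton, ← hker, RingHom.mem_ker, hψ.poly, ← ha, hF, eval_prod,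
    Finset.prod_eq_zero (i := j - i - 1)]
  · rw [Finset.mem_range]; omega
  · rw [eval_sub, eval_pow, eval_X]
    have h1 : j - i - 1 + 1 = j - i := by omega
    rw [h1, haq, sub_self]

end Fin

end Pool.Agent.Helper91.SE
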