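import Mathlib

/-!
# A group lemma
-/

universe u

namespace Pool.Agent.Helper91.SE

open Polynomial

/-- `(X - 1) ^ n ≡ X ^ n - 1` modulo the prime `n`. -/
theorem exists_poly_U {n : ℕ} (hn : n.Prime) :
    ∃ U : ℤ[X], (X - 1) ^ n = X ^ n - 1 + C (n : ℤ) * U := by
  have : Fact n.Prime := ⟨hn⟩
  have h1 : C (n : ℤ) ∣ (X - 1) ^ n - (X ^ n - 1 : ℤ[X]) := by
    rw [C_dvd_iff_dvd_coeff]
    intro i
    rw [← ZMod.intCast_zmod_eq_zero_iff_dvd _ n]
    have h2 : ((X - 1) ^ n - (X ^ n - 1 : ℤ[X])).map (Int.castRingHom (ZMod n)) = 0 := by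
      simp only [Polynomial.map_sub, Polynomial.map_pow, map_X, Polynomial.map_one]
      rw [sub_pow_char, one_pow, sub_self]
    have h3 := congrArg (fun p => p.coeff i) h2
    simp only [coeff_map, coeff_zero] at h3
    exact h3
  obtain ⟨U, hU⟩ := h1
  exact ⟨U, by rw [← hU]; ring⟩

theorem exists_fixed_of_torsion {M : Type*} [CommGroup M] {n : ℕ} (hn : n.Prime) (S : M ≃* M)
    (hS : ∀ c, (⇑S)^[n] c = c) (H : Subgroup M) (hHS : ∀ c ∈ H, S c ∈ H) {c : M} (hc : c ∈ H)
    (hc1 : c ≠ 1) {k : ℕ} (hk : c ^ n ^ k = 1) : ∃ d ∈ H, d ≠ 1 ∧ S d = d := by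
  obtain ⟨U, hU⟩ := exists_poly_U hn
  let A : AddMonoid.End (Additive M) := MonoidHom.toAdditive (S : M →* M)
  have hA : ∀ (j : ℕ) (x : M), (A ^ j) (Additive.ofMul x) = Additive.ofMul ((⇑S)^[j] x) := by
    intro j
    induction j with
    | zero => intro x; rfl
    | succ j ih =>
      intro x
      rw [pow_succ, Function.iterate_succ_apply, ← ih]
      rfl
  have hAn : A ^ n = 1 := by
    refine AddMonoidHom.ext fun x => ?_
    exact (hA n x.toMul).trans (congrArg Additive.ofMul (hS x.toMul))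
  -- `T = S - 1`
  have h1 : (A - 1) ^ n = (n : AddMonoid.End (Additive M)) * aeval A U := by
    have h2 := congrArg (aeval A) hU
    rw [map_pow, map_sub, aeval_X, map_one, map_add, map_sub, map_pow, aeval_X, map_one, map_mul,
      aeval_C, hAn, sub_self, zero_add] at h2
    rw [h2]
    simp
  have h2 : ((A - 1) ^ (n * k)) (Additive.ofMul c) = 0 := by
    rw [pow_mul, h1, (Nat.cast_commute n (aeval A U)).mul_pow, ((Nat.cast_commute n _).pow_pow _ _).eq]
    rw [← Nat.cast_pow]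
    change (aeval A U ^ k) (((n ^ k : ℕ) : AddMonoid.End (Additive M)) (Additive.ofMul c)) = 0
    have h3 : ((n ^ k : ℕ) : AddMonoid.End (Additive M)) (Additive.ofMul c) = 0 := by
      rw [AddMonoid.End.natCast_apply, ← ofMul_pow, hk]; rfl
    rw [h3, map_zero]
  -- the last nonzero one
  classical
  have hex : ∃ j : ℕ, ((A - 1) ^ j) (Additive.ofMul c) = 0 := ⟨_, h2⟩
  set j := Nat.find hex with hj
  have hj0 : j ≠ 0 := by
    intro h0
    have h3 := Nat.find_spec hex
    rw [← hj, h0, pow_zero] at h3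
    exact hc1 h3
  obtain ⟨i, hi⟩ := Nat.exists_eq_succ_of_ne_zero hj0
  have h3 : ((A - 1) ^ i) (Additive.ofMul c) ≠ 0 := Nat.find_min hex (by omega)
  have h4 : (A - 1) (((A - 1) ^ i) (Additive.ofMul c)) = 0 := by
    change ((A - 1) * (A - 1) ^ i) (Additive.ofMul c) = 0
    rw [← pow_succ']
    have h5 := Nat.find_spec hex
    rw [← hj, hi] at h5
    exact h5
  have hmem : ∀ i : ℕ, (((A - 1) ^ i) (Additive.ofMul c)).toMul ∈ H := by
    intro i
    induction i with
    | zero => exact hc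
    | succ i ih =>
      rw [pow_succ']
      change (A (((A - 1) ^ i) (Additive.ofMul c)) - ((A - 1) ^ i) (Additive.ofMul c)).toMul ∈ H
      rw [toMul_sub]
      exact div_mem (hHS _ ih) ih
  refine ⟨(((A - 1) ^ i) (Additive.ofMul c)).toMul, hmem i, h3, ?_⟩
  have h6 : A (((A - 1) ^ i) (Additive.ofMul c)) - ((A - 1) ^ i) (Additive.ofMul c) = 0 := h4
  have h7 : A (((A - 1) ^ i) (Additive.ofMul c)) = ((A - 1) ^ i) (Additive.ofMul c) :=
    sub_eq_zero.1 h6
  exact congrArg Additive.toMul h7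

end Pool.Agent.Helper91.SE
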