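import Pool.Agent.Helper91.Section.SE.Cyc
import Pool.Agent.Helper91.Section.Monic

/-!
# The place at infinity of a cyclic cover
-/

universe u

namespace Pool.Agent.Helper91.SE

open Polynomial

section Inf

variable {K L : Type u} [Field K] [Field L] [Algebra K[X] L] [Algebra (RatFunc K) L]
    [IsScalarTower K[X] (RatFunc K) L]

/-- a place at infinity -/
structure IsInf (K : Type u) {L : Type u} [Field K] [Field L] [Algebra K[X] L]
    (V : ValuationSubring L) : Prop where
  const : ∀ c : K, c ≠ 0 → V.valuation (algebraMap K[X] L (C c)) = 1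
  big : 1 < V.valuation (algebraMap K[X] L X)

theorem exists_isInf : ∃ V : ValuationSubring L, IsInf K V := by
  let _ : Algebra K L := ((algebraMap K[X] L).comp C).toAlgebra
  have hx : Transcendental K (algebraMap K[X] L X) := by
    rw [transcendental_iff]
    intro p hp
    have h1 : aeval (algebraMap K[X] L X) p = algebraMap K[X] L p := by
      have h2 : (aeval (algebraMap K[X] L X) : K[X] →ₐ[K] L).toRingHom = algebraMap K[X] L := by
        apply Polynomial.ringHom_ext
        · intro a
          simp only [AlgHom.toRingHom_eq_coe, RingHom.coe_coe, aeval_C]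
          rfl
        · simp
      exact congrArg (fun f : K[X] →+* L => f p) h2
    rw [h1, map_eq_zero_iff _ (algebraMap_inj (K := K) (L := L))] at hp
    exact hp
  obtain ⟨V, hV1, hV2⟩ := Sect.exists_inf_place hx
  exact ⟨V, fun c hc => hV1 c hc, hV2⟩

variable {V : ValuationSubring L} (hV : IsInf K V)

include hV

omit [Algebra (RatFunc K) L] [IsScalarTower K[X] (RatFunc K) L] in
theorem IsInf.val_C_le (c : K) : V.valuation (algebraMap K[X] L (C c)) ≤ 1 := by
  by_cases hc : c = 0
  · simp [hc]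
  · exact (hV.const c hc).le

omit [Algebra (RatFunc K) L] [IsScalarTower K[X] (RatFunc K) L] in
theorem IsInf.val_le_of_natDegree_le {p : K[X]} {d : ℕ} (hp : p.natDegree ≤ d) :
    V.valuation (algebraMap K[X] L p) ≤ V.valuation (algebraMap K[X] L X) ^ d := by
  rw [p.as_sum_range, map_sum]
  refine Valuation.map_sum_le _ fun i hi => ?_
  have hid : i ≤ d := by
    have := Finset.mem_range.1 hi
    omega
  rw [← C_mul_X_pow_eq_monomial, map_mul, map_mul, map_pow, map_pow]
  calc V.valuation (algebraMap K[X] L (C (p.coeff i))) * V.valuation (algebraMap K[X] L X) ^ i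
      ≤ 1 * V.valuation (algebraMap K[X] L X) ^ i := mul_le_mul_left (hV.val_C_le _) _
    _ = V.valuation (algebraMap K[X] L X) ^ i := one_mul _
    _ ≤ _ := pow_le_pow_right₀ hV.big.le hid

omit [Algebra (RatFunc K) L] [IsScalarTower K[X] (RatFunc K) L] in
/-- the leading term of a polynomial dominates -/
theorem IsInf.val_sub_lead (p : K[X]) :
    V.valuation (algebraMap K[X] L (p - C p.leadingCoeff * X ^ p.natDegree)) <
      V.valuation (algebraMap K[X] L X) ^ p.natDegree := by
  have h1 : p - C p.leadingCoeff * X ^ p.natDegree = p.eraseLead := by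
    rw [← self_sub_C_mul_X_pow]
  rw [h1]
  by_cases h0 : p.eraseLead = 0
  · rw [h0, map_zero, map_zero]
    exact pow_pos (zero_lt_one.trans hV.big) _
  · have h2 : p.eraseLead.natDegree < p.natDegree := by
      have h3 : p.natDegree ≠ 0 := by
        intro h3
        apply h0
        rw [eq_C_of_natDegree_eq_zero h3]
        simp
      rcases p.eraseLead_natDegree_lt_or_eraseLead_eq_zero with h | h
      · exact h
      · exact absurd h h0
    exact (hV.val_le_of_natDegree_le le_rfl).trans_lt (pow_lt_pow_right₀ hV.big h2)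

omit [Algebra (RatFunc K) L] [IsScalarTower K[X] (RatFunc K) L] in
theorem IsInf.val_poly {p : K[X]} (hp : p ≠ 0) :
    V.valuation (algebraMap K[X] L p) = V.valuation (algebraMap K[X] L X) ^ p.natDegree := by
  have h1 : p = (p - C p.leadingCoeff * X ^ p.natDegree) + C p.leadingCoeff * X ^ p.natDegree := by
    ring
  have h2 : V.valuation (algebraMap K[X] L (C p.leadingCoeff * X ^ p.natDegree)) =
      V.valuation (algebraMap K[X] L X) ^ p.natDegree := by
    rw [map_mul, map_mul, map_pow, map_pow, hV.const _ (leadingCoeff_ne_zero.2 hp), one_mul]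
  conv_lhs => rw [h1, map_add]
  rw [Valuation.map_add_eq_of_lt_right _ (by rw [h2]; exact hV.val_sub_lead p), h2]

theorem IsInf.val_ratFunc {q : RatFunc K} (hq : q ≠ 0) :
    V.valuation (algebraMap (RatFunc K) L q) =
      V.valuation (algebraMap K[X] L X) ^ q.intDegree := by
  have hx0 : V.valuation (algebraMap K[X] L X) ≠ 0 := (zero_lt_one.trans hV.big).ne'
  have h1 : algebraMap (RatFunc K) L q =
      algebraMap K[X] L q.num / algebraMap K[X] L q.denom := by
    conv_lhs => rw [← RatFunc.num_div_denom q]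
    rw [map_div₀, ← algebraMap_eq, ← algebraMap_eq]
  rw [h1, map_div₀, hV.val_poly (RatFunc.num_ne_zero hq), hV.val_poly q.denom_ne_zero,
    RatFunc.intDegree, zpow_sub₀ hx0, zpow_natCast, zpow_natCast]

end Inf

section InfW

variable {K L : Type u} [Field K] [Field L] [Algebra K[X] L] [Algebra (RatFunc K) L]
    [IsScalarTower K[X] (RatFunc K) L] {V : ValuationSubring L} (hV : IsInf K V)
    {n : ℕ} {s : ℕ} {e : Fin s → K} {m : Fin s → ℕ} {w : L} (h : IsCyc K L n e m w)

include hV

omit [Algebra (RatFunc K) L] [IsScalarTower K[X] (RatFunc K) L] in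
theorem IsInf.val_x_ne : V.valuation (algebraMap K[X] L X) ≠ 0 := (zero_lt_one.trans hV.big).ne'

omit [Algebra (RatFunc K) L] [IsScalarTower K[X] (RatFunc K) L] in
theorem IsInf.zpow_inj {a b : ℤ}
    (hab : V.valuation (algebraMap K[X] L X) ^ a = V.valuation (algebraMap K[X] L X) ^ b) :
    a = b := zpow_right_injective₀ (zero_lt_one.trans hV.big) hV.big.ne' hab

include h

theorem IsInf.val_w : V.valuation w ^ n = V.valuation (algebraMap K[X] L X) ^ (∑ i, m i) := by
  rw [← map_pow, h.eqn, ← gpoly_natDegree (K := K) (e := e) (m := m)]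
  exact hV.val_poly gpoly_monic.ne_zero

theorem IsInf.val_term_pow {q : RatFunc K} (hq : q ≠ 0) (j : ℕ) :
    V.valuation (algebraMap (RatFunc K) L q * w ^ j) ^ n =
      V.valuation (algebraMap K[X] L X) ^ (n * q.intDegree + (∑ i, m i : ℕ) * j : ℤ) := by
  rw [map_mul, mul_pow, hV.val_ratFunc hq, map_pow, ← pow_mul, mul_comm j n, pow_mul, hV.val_w h,
    zpow_add₀ hV.val_x_ne, ← zpow_natCast, ← zpow_mul, mul_comm (n : ℤ) q.intDegree, ← pow_mul]
  congr 1

/-- the values of the components are distinct -/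
theorem IsInf.val_term_ne {q q' : RatFunc K} (hq : q ≠ 0) (hq' : q' ≠ 0) {i j : Fin n}
    (hij : i ≠ j) : V.valuation (algebraMap (RatFunc K) L q * w ^ (i : ℕ)) ≠
      V.valuation (algebraMap (RatFunc K) L q' * w ^ (j : ℕ)) := by
  intro heq
  have h1 := congrArg (fun z => z ^ n) heq
  rw [hV.val_term_pow h hq, hV.val_term_pow h hq'] at h1
  have h2 := hV.zpow_inj h1
  have h3 : (n : ℤ) ∣ (∑ i, m i : ℕ) * ((i : ℕ) - (j : ℕ) : ℤ) := by
    refine ⟨q'.intDegree - q.intDegree, ?_⟩
    linarith
  have hp := Nat.prime_iff_prime_int.1 h.prime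
  rcases hp.dvd_or_dvd h3 with h4 | h4
  · exact h.tot (Int.natCast_dvd_natCast.1 h4)
  · apply hij
    apply Fin.ext
    have h5 := i.2
    have h6 := j.2
    obtain ⟨c, hc⟩ := h4
    have hc0 : c = 0 := by
      by_contra hne
      rcases lt_or_gt_of_ne hne with hlt | hlt
      · have : (n : ℤ) * c ≤ -n := by nlinarith
        omega
      · have : (n : ℤ) ≤ n * c := by nlinarith
        omega
    rw [hc0] at hc
    omega

theorem IsInf.exists_lead {q : Fin n → RatFunc K} (hq : q ≠ 0) : ∃ j₀ : Fin n, q j₀ ≠ 0 ∧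
    ∀ w' : L, V.valuation w' = V.valuation w →
      V.valuation (∑ j : Fin n, algebraMap (RatFunc K) L (q j) * w' ^ (j : ℕ) -
        algebraMap (RatFunc K) L (q j₀) * w' ^ (j₀ : ℕ)) <
        V.valuation (algebraMap (RatFunc K) L (q j₀) * w ^ (j₀ : ℕ)) ∧
      V.valuation (∑ j : Fin n, algebraMap (RatFunc K) L (q j) * w' ^ (j : ℕ)) =
        V.valuation (algebraMap (RatFunc K) L (q j₀) * w ^ (j₀ : ℕ)) := by
  classical
  obtain ⟨j₁, hj₁⟩ := Function.ne_iff.1 hq
  obtain ⟨j₀, hj₀, hmax⟩ := (Finset.univ.filter fun j => q j ≠ 0).exists_max_image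
    (fun j => V.valuation (algebraMap (RatFunc K) L (q j) * w ^ (j : ℕ)))
    ⟨j₁, Finset.mem_filter.2 ⟨Finset.mem_univ _, hj₁⟩⟩
  have hq0 : q j₀ ≠ 0 := (Finset.mem_filter.1 hj₀).2
  refine ⟨j₀, hq0, fun w' hw' => ?_⟩
  have hval : ∀ j : Fin n, V.valuation (algebraMap (RatFunc K) L (q j) * w' ^ (j : ℕ)) =
      V.valuation (algebraMap (RatFunc K) L (q j) * w ^ (j : ℕ)) := by
    intro j
    rw [map_mul, map_mul, map_pow, map_pow, hw']
  have hpos : V.valuation (algebraMap (RatFunc K) L (q j₀) * w ^ (j₀ : ℕ)) ≠ 0 := by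
    rw [Ne, Valuation.zero_iff]
    exact mul_ne_zero ((_root_.map_ne_zero _).2 hq0) (pow_ne_zero _ h.w_ne)
  have h1 : V.valuation (∑ j : Fin n, algebraMap (RatFunc K) L (q j) * w' ^ (j : ℕ) -
        algebraMap (RatFunc K) L (q j₀) * w' ^ (j₀ : ℕ)) <
        V.valuation (algebraMap (RatFunc K) L (q j₀) * w ^ (j₀ : ℕ)) := by
    rw [← Finset.add_sum_erase _ _ (Finset.mem_univ j₀), add_sub_cancel_left]
    refine Valuation.map_sum_lt _ hpos fun j hj => ?_
    rw [hval]
    by_cases hqj : q j = 0
    · rw [hqj, map_zero, zero_mul, map_zero]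
      exact zero_lt_iff.2 hpos
    · refine lt_of_le_of_ne (hmax j (Finset.mem_filter.2 ⟨Finset.mem_univ _, hqj⟩)) ?_
      exact hV.val_term_ne h hqj hq0 (Finset.ne_of_mem_erase hj)
  refine ⟨h1, ?_⟩
  have h2 : ∑ j : Fin n, algebraMap (RatFunc K) L (q j) * w' ^ (j : ℕ) =
      (∑ j : Fin n, algebraMap (RatFunc K) L (q j) * w' ^ (j : ℕ) -
        algebraMap (RatFunc K) L (q j₀) * w' ^ (j₀ : ℕ)) +
        algebraMap (RatFunc K) L (q j₀) * w' ^ (j₀ : ℕ) := by ring
  rw [h2, Valuation.map_add_eq_of_lt_right _ (by rw [hval]; exact h1), hval]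

omit hV in
theorem IsCyc.val_w_root {V : ValuationSubring L} {w' : L} (hw' : w' ^ n = w ^ n) :
    V.valuation w' = V.valuation w := by
  have h1 : V.valuation (w' / w) ^ n = 1 := by
    rw [← map_pow, div_pow, hw', div_self (pow_ne_zero n h.w_ne), map_one]
  have h2 : V.valuation (w' / w) = 1 := (pow_eq_one_iff_of_nonneg zero_le h.prime.ne_zero).1 h1
  rw [map_div₀, div_eq_one_iff_eq] at h2
  · exact h2
  · rw [Ne, Valuation.zero_iff]; exact h.w_ne

theorem IsInf.val_aut (z : L) (σ : L ≃ₐ[RatFunc K] L) : V.valuation (σ z) = V.valuation z := by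
  obtain ⟨q, rfl⟩ := h.exists_rep z
  by_cases hq : q = 0
  · simp [hq]
  obtain ⟨j₀, hj₀, hlead⟩ := hV.exists_lead h hq
  have hw' : V.valuation (σ w) = V.valuation w := by
    refine h.val_w_root ?_
    rw [← map_pow, h.eqn', AlgEquiv.commutes]
  rw [(hlead w rfl).2, map_sum, ← (hlead (σ w) hw').2]
  congr 1
  refine Finset.sum_congr rfl fun j _ => ?_
  rw [map_mul, map_pow, AlgEquiv.commutes]

/-- the value at infinity in terms of the degree of the norm -/
theorem IsInf.val_norm {z : L} (hz : z ≠ 0) : V.valuation z ^ n =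
    V.valuation (algebraMap K[X] L X) ^ (Algebra.norm (RatFunc K) z).intDegree := by
  have hfd := h.finiteDimensional
  have hgal := h.isGalois
  rw [← hV.val_ratFunc (Algebra.norm_ne_zero_iff.2 hz), Algebra.norm_eq_prod_automorphisms,
    map_prod]
  simp_rw [hV.val_aut h z]
  rw [Finset.prod_const, Finset.card_univ, ← Nat.card_eq_fintype_card,
    IsGalois.card_aut_eq_finrank, h.finrank]

end InfW

end Pool.Agent.Helper91.SE
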