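import Pool.Agent.Helper91.Section.SE.IntRep

/-!
# The reduction of regular functions
-/

universe u

namespace Pool.Agent.Helper91.SE

open Polynomial

section

variable {E L κ Lb : Type u} [Field E] [Field L] [Field κ] [Field Lb] [Algebra E[X] L]
    [Algebra (RatFunc E) L] [IsScalarTower E[X] (RatFunc E) L]
    [Algebra κ[X] Lb] [Algebra (RatFunc κ) Lb] [IsScalarTower κ[X] (RatFunc κ) Lb]
    {O : ValuationSubring E} {VL : ValuationSubring L} {π : O →+* κ} {ρ : VL →+* Lb}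
    (hr : IsRed O VL π ρ)
    {n : ℕ} {s : ℕ} {e : Fin s → E} {m : Fin s → ℕ} {w : L} (h : IsCyc E L n e m w)
    (he : ∀ i, e i ∈ O) (hw : w ∈ VL)
    (hb : IsCyc κ Lb n (fun i => π ⟨e i, he i⟩) m (ρ ⟨w, hw⟩))

include hr

omit [Algebra (RatFunc E) L] [IsScalarTower E[X] (RatFunc E) L] [Algebra (RatFunc κ) Lb]
  [IsScalarTower κ[X] (RatFunc κ) Lb] in
theorem IsRed.map_mem (p : O[X]) : algebraMap E[X] L (p.map O.subtype) ∈ VL := by
  rw [hr.mem_poly]
  intro i
  rw [coeff_map]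
  exact (p.coeff i).2

omit [Algebra (RatFunc E) L] [IsScalarTower E[X] (RatFunc E) L] [Algebra (RatFunc κ) Lb]
  [IsScalarTower κ[X] (RatFunc κ) Lb] in
/-- lift of a polynomial in `VL` -/
theorem IsRed.exists_lift_poly {p : E[X]} (hp : algebraMap E[X] L p ∈ VL) :
    ∃ p' : O[X], p = p'.map O.subtype := by
  rw [hr.mem_poly] at hp
  have h1 : p ∈ lifts O.subtype := by
    rw [lifts_iff_coeff_lifts]
    exact fun i => ⟨⟨_, hp i⟩, rfl⟩
  rw [mem_lifts] at h1
  obtain ⟨q, hq⟩ := h1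
  exact ⟨q, hq.symm⟩

omit hr in
/-- the polynomial `A j` over `O` -/
theorem exists_Apoly (j : ℕ) : ∃ A : O[X], A.map O.subtype = Apoly n e m j ∧
    A.map π = Apoly n (fun i => π ⟨e i, he i⟩) m j := by
  refine ⟨∏ l, (X - C ⟨e l, he l⟩) ^ (j * m l / n), ?_, ?_⟩
  · rw [Polynomial.map_prod]
    refine Finset.prod_congr rfl fun l _ => ?_
    rw [Polynomial.map_pow, Polynomial.map_sub, map_X, map_C]
    rfl
  · rw [Polynomial.map_prod]
    refine Finset.prod_congr rfl fun l _ => ?_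
    rw [Polynomial.map_pow, Polynomial.map_sub, map_X, map_C]

include h hb

theorem IsRed.val_A (j : ℕ) : VL.valuation (algebraMap E[X] L (Apoly n e m j)) = 1 := by
  obtain ⟨A, hA, hA'⟩ := exists_Apoly (π := π) (n := n) (m := m) he j
  rw [← hA]
  refine hr.val_poly_eq_one ?_
  rw [hA']
  exact (Apoly_monic j).ne_zero

theorem IsRed.bas_mem (j : ℕ) : (h.bas j : L) ∈ VL := by
  rw [← VL.valuation_le_one_iff]
  have h1 := congrArg VL.valuation (h.A_mul_bas j)
  rw [map_mul, hr.val_A h he hw hb, one_mul] at h1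
  rw [h1, map_pow]
  exact pow_le_one' ((VL.valuation_le_one_iff _).2 hw) j

theorem IsRed.ρ_bas (j : ℕ) : ρ ⟨_, hr.bas_mem h he hw hb j⟩ = (hb.bas j : Lb) := by
  obtain ⟨A, hA, hA'⟩ := exists_Apoly (π := π) (n := n) (m := m) he j
  have h1 : (⟨_, hr.map_mem A⟩ : VL) * ⟨_, hr.bas_mem h he hw hb j⟩ = ⟨w, hw⟩ ^ j :=
    Subtype.ext (by
      change algebraMap E[X] L (A.map O.subtype) * (h.bas j : L) = w ^ j
      rw [hA]
      exact h.A_mul_bas j)
  have h2 := congrArg ρ h1
  rw [map_mul, map_pow, hr.ρ_poly A, hA', ← hb.A_mul_bas j] at h2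
  exact mul_left_cancel₀ (A_ne j) h2

/-- a regular function in `VL` is a combination of the standard basis with coefficients in `O` -/
theorem IsRed.int_rep {z : L} (hz : IsIntegral E[X] z) (hzV : z ∈ VL) :
    ∃ p : Fin n → O[X], z = ∑ j : Fin n, algebraMap E[X] L ((p j).map O.subtype) * (h.bas j : L) := by
  obtain ⟨p, hp1, hp2⟩ := h.int_rep hz
  have h1 := hr.rep_mem he hw hb (q := fun j => algebraMap E[X] (RatFunc E) (p j) /
    algebraMap E[X] (RatFunc E) (Apoly n e m j)) (by rw [← hp2]; exact hzV)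
  have h2 : ∀ j, algebraMap E[X] L (p j) ∈ VL := by
    intro j
    have h3 := h1 j
    rw [map_div₀, ← algebraMap_eq, ← algebraMap_eq, ← VL.valuation_le_one_iff, map_div₀,
      hr.val_A h he hw hb, div_one, VL.valuation_le_one_iff] at h3
    exact h3
  choose p' hp' using fun j => hr.exists_lift_poly (h2 j)
  refine ⟨p', ?_⟩
  simp_rw [← hp']
  exact hp1

/-- the value of `ρ` on such a combination -/
theorem IsRed.ρ_comb (p : Fin n → O[X]) (hmem : ∑ j : Fin n, algebraMap E[X] L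
    ((p j).map O.subtype) * (h.bas j : L) ∈ VL) :
    ρ ⟨_, hmem⟩ = ∑ j : Fin n, algebraMap κ[X] Lb ((p j).map π) * (hb.bas j : Lb) := by
  have h1 : (⟨_, hmem⟩ : VL) = ∑ j : Fin n, (⟨_, hr.map_mem (p j)⟩ : VL) *
      ⟨_, hr.bas_mem h he hw hb j⟩ := by
    apply Subtype.ext
    rw [AddSubmonoidClass.coe_finsetSum]
    rfl
  rw [h1, map_sum]
  refine Finset.sum_congr rfl fun j _ => ?_
  rw [map_mul, hr.ρ_poly, hr.ρ_bas h he hw hb]

theorem IsRed.comb_mem (p : Fin n → O[X]) : ∑ j : Fin n, algebraMap E[X] L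
    ((p j).map O.subtype) * (h.bas j : L) ∈ VL :=
  sum_mem fun j _ => mul_mem (hr.map_mem (p j)) (hr.bas_mem h he hw hb j)

theorem integral_red (z : L) (hz : IsIntegral E[X] z) (hzV : z ∈ VL) :
    IsIntegral κ[X] (ρ ⟨z, hzV⟩) := by
  obtain ⟨p, hp⟩ := hr.int_rep h he hw hb hz hzV
  subst hp
  rw [hr.ρ_comb h he hw hb]
  exact IsIntegral.sum _ fun j _ => isIntegral_algebraMap.mul (hb.bas j).2

/-- every regular function over `κ` is the reduction of a regular function -/
theorem IsRed.exists_lift (y : integralClosure κ[X] Lb) :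
    ∃ (z : integralClosure E[X] L) (hz : (z : L) ∈ VL), (y : Lb) = ρ ⟨z, hz⟩ := by
  obtain ⟨p, hp, -⟩ := hb.int_rep y.2
  choose p' hp' using fun j => Polynomial.map_surjective π hr.π_surj (p j)
  refine ⟨∑ j : Fin n, algebraMap E[X] (integralClosure E[X] L) ((p' j).map O.subtype) * h.bas j,
    ?_, ?_⟩
  · rw [AddSubmonoidClass.coe_finsetSum]
    exact hr.comb_mem h he hw hb p'
  · have h1 : ((∑ j : Fin n, algebraMap E[X] (integralClosure E[X] L) ((p' j).map O.subtype) *
        h.bas j : integralClosure E[X] L) : L) =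
        ∑ j : Fin n, algebraMap E[X] L ((p' j).map O.subtype) * (h.bas j : L) := by
      rw [AddSubmonoidClass.coe_finsetSum]
      rfl
    have h2 : ∀ (z : L) (hz : z ∈ VL), z = ∑ j : Fin n, algebraMap E[X] L ((p' j).map O.subtype) *
        (h.bas j : L) → (y : Lb) = ρ ⟨z, hz⟩ := by
      rintro z hz rfl
      rw [hr.ρ_comb h he hw hb, hp]
      simp_rw [hp']
    exact h2 _ _ h1

end

end Pool.Agent.Helper91.SE
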