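import Pool.Agent.Helper91.Section.SE.Scale

/-!
# Integral elements of a cyclic cover in terms of the standard basis
-/

universe u

namespace Pool.Agent.Helper91.SE

open Polynomial

section

variable {K : Type u} [Field K] {s : ℕ} {e : Fin s → K}

/-- a rational function `p` with `p ^ n * ∏ (X - e l) ^ r l` a polynomial, `r l < n`, is a
polynomial -/
theorem poly_of_pow (he : Function.Injective e) {n : ℕ} (hn0 : n ≠ 0) {r : Fin s → ℕ} (hr : ∀ l, r l < n)
    (p : RatFunc K) (u : K[X])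
    (hp : p ^ n * algebraMap K[X] (RatFunc K) (∏ l, (X - C (e l)) ^ r l) =
      algebraMap K[X] (RatFunc K) u) : ∃ p₀ : K[X], p = algebraMap K[X] (RatFunc K) p₀ := by
  classical
  have hd0 : algebraMap K[X] (RatFunc K) p.denom ≠ 0 := by
    rw [Ne, map_eq_zero_iff _ (RatFunc.algebraMap_injective K)]
    exact p.denom_ne_zero
  have h1 : p.num ^ n * (∏ l, (X - C (e l)) ^ r l) = p.denom ^ n * u := by
    apply RatFunc.algebraMap_injective K
    have h0 : algebraMap K[X] (RatFunc K) p.num = p * algebraMap K[X] (RatFunc K) p.denom :=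
      (div_eq_iff hd0).1 (RatFunc.num_div_denom p)
    rw [map_mul, map_mul, ← hp, map_pow, map_pow, h0, mul_pow]
    ring
  have h2 : p.denom ^ n ∣ ∏ l, (X - C (e l)) ^ r l := by
    have h3 : IsCoprime (p.denom ^ n) (p.num ^ n) := (RatFunc.isCoprime_num_denom p).symm.pow
    exact h3.dvd_of_dvd_mul_left ⟨u, h1⟩
  have h4 : IsUnit p.denom := by
    by_contra hu
    obtain ⟨q, hq, hqd⟩ := WfDvdMonoid.exists_irreducible_factor hu p.denom_ne_zero
    have h5 : q ^ n ∣ ∏ l, (X - C (e l)) ^ r l := (pow_dvd_pow_of_dvd hqd n).trans h2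
    have h6 : q ∣ ∏ l, (X - C (e l)) ^ r l := (dvd_pow_self q hn0).trans h5
    rw [hq.prime.dvd_finsetProd_iff] at h6
    obtain ⟨l, -, hl⟩ := h6
    have h7 : q ∣ X - C (e l) := hq.prime.dvd_of_dvd_pow hl
    have h8 : X - C (e l) ∣ q := by
      obtain ⟨c, hc⟩ := h7
      have h9 := (irreducible_X_sub_C (e l)).isUnit_or_isUnit hc
      rcases h9 with h9 | h9
      · exact absurd h9 hq.not_isUnit
      · rw [hc]
        exact (IsUnit.mul_right_dvd h9).2 dvd_rfl
    have h9 : (X - C (e l)) ^ n ∣ ∏ l, (X - C (e l)) ^ r l := (pow_dvd_pow_of_dvd h8 n).trans h5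
    rw [← Finset.mul_prod_erase _ _ (Finset.mem_univ l)] at h9
    have h10 : (X - C (e l)) ^ (n - r l) ∣ ∏ i ∈ Finset.univ.erase l, (X - C (e i)) ^ r i := by
      have h11 : (X - C (e l)) ^ n = (X - C (e l)) ^ r l * (X - C (e l)) ^ (n - r l) := by
        rw [← pow_add, Nat.add_sub_cancel' (hr l).le]
      rw [h11] at h9
      exact (mul_dvd_mul_iff_left (pow_ne_zero _ (X_sub_C_ne_zero _))).1 h9
    have h11 : X - C (e l) ∣ ∏ i ∈ Finset.univ.erase l, (X - C (e i)) ^ r i :=
      (dvd_pow_self _ (Nat.sub_pos_of_lt (hr l)).ne').trans h10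
    rw [dvd_iff_isRoot, IsRoot.def, eval_prod, Finset.prod_eq_zero_iff] at h11
    obtain ⟨i, hi, h12⟩ := h11
    rw [eval_pow, eval_sub, eval_X, eval_C] at h12
    have h13 := pow_eq_zero_iff (M₀ := K) (n := r i) (a := e l - e i) (by
      intro h0
      rw [h0, pow_zero] at h12
      exact one_ne_zero h12) |>.1 h12
    exact (Finset.ne_of_mem_erase hi) (he (sub_eq_zero.1 h13)).symm
  obtain ⟨c, hc, hc'⟩ := isUnit_iff.1 h4
  refine ⟨C c⁻¹ * p.num, ?_⟩
  have h0 : algebraMap K[X] (RatFunc K) p.num = p * algebraMap K[X] (RatFunc K) p.denom :=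
    (div_eq_iff hd0).1 (RatFunc.num_div_denom p)
  rw [map_mul, h0, ← hc', mul_left_comm, ← map_mul, ← C_mul,
    inv_mul_cancel₀ hc.ne_zero, C_1, map_one, mul_one]

end

section

variable {K L : Type u} [Field K] [Field L] [Algebra K[X] L] [Algebra (RatFunc K) L]
    [IsScalarTower K[X] (RatFunc K) L]
    {n : ℕ} {s : ℕ} {e : Fin s → K} {m : Fin s → ℕ} {w : L}

/-- the denominators of the standard basis -/
noncomputable def Apoly (n : ℕ) (e : Fin s → K) (m : Fin s → ℕ) (j : ℕ) : K[X] :=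
  ∏ l, (X - C (e l)) ^ (j * m l / n)

/-- the `n`-th powers of the standard basis -/
noncomputable def Bpoly (n : ℕ) (e : Fin s → K) (m : Fin s → ℕ) (j : ℕ) : K[X] :=
  ∏ l, (X - C (e l)) ^ (j * m l % n)

theorem Apoly_monic (j : ℕ) : (Apoly n e m j).Monic :=
  monic_prod_of_monic _ _ fun i _ => (monic_X_sub_C (e i)).pow _

variable (h : IsCyc K L n e m w)

include h

/-- the standard basis -/
noncomputable def IsCyc.bas (j : ℕ) : integralClosure K[X] L := (h.exists_basis_elt j).choose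

theorem IsCyc.A_mul_bas (j : ℕ) :
    algebraMap K[X] L (Apoly n e m j) * (h.bas j : L) = w ^ j :=
  congrArg Subtype.val (h.exists_basis_elt j).choose_spec.1

theorem IsCyc.bas_pow (j : ℕ) : (h.bas j : L) ^ n = algebraMap K[X] L (Bpoly n e m j) :=
  congrArg Subtype.val (h.exists_basis_elt j).choose_spec.2

omit h in
theorem A_ne (j : ℕ) : algebraMap K[X] L (Apoly n e m j) ≠ 0 := by
  rw [Ne, map_eq_zero_iff _ (algebraMap_inj (K := K) (L := L))]
  exact (Apoly_monic j).ne_zero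

/-- the components of an integral element are integral -/
theorem IsCyc.comp_integral {q : Fin n → RatFunc K}
    (hz : IsIntegral K[X] (∑ k : Fin n, algebraMap (RatFunc K) L (q k) * w ^ (k : ℕ)))
    (j : Fin n) : IsIntegral K[X] (algebraMap (RatFunc K) L (q j) * w ^ (j : ℕ)) := by
  obtain ⟨ζ, hζ⟩ := h.root
  have hζ0 : ζ ≠ 0 := hζ.ne_zero h.prime.ne_zero
  choose σ hσ using fun i : ℕ => h.exists_aut (ζ := ζ ^ i)
    (by rw [← pow_mul, mul_comm, pow_mul, hζ.pow_eq_one, one_pow])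
  set z := ∑ k : Fin n, algebraMap (RatFunc K) L (q k) * w ^ (k : ℕ) with hzdef
  have hσz : ∀ i, σ i z = ∑ k : Fin n, algebraMap K[X] L (C (ζ ^ (i * k))) *
      (algebraMap (RatFunc K) L (q k) * w ^ (k : ℕ)) := by
    intro i
    rw [hzdef, map_sum]
    refine Finset.sum_congr rfl fun k _ => ?_
    rw [map_mul, AlgEquiv.commutes, map_pow, hσ, mul_pow, ← map_pow, ← C_pow, ← pow_mul]
    ring
  have hint : ∀ i, IsIntegral K[X] (σ i z) := fun i =>
    hz.map ((σ i : L →ₐ[RatFunc K] L).restrictScalars K[X])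
  -- the average
  have h1 : ∑ i ∈ Finset.range n, algebraMap K[X] L (C ((ζ ^ (i * j))⁻¹)) * σ i z =
      algebraMap K[X] L (C (n : K)) * (algebraMap (RatFunc K) L (q j) * w ^ (j : ℕ)) := by
    simp_rw [hσz, Finset.mul_sum]
    rw [Finset.sum_comm]
    have h2 : ∀ k : Fin n, ∑ i ∈ Finset.range n, algebraMap K[X] L (C ((ζ ^ (i * (j : ℕ)))⁻¹)) *
        (algebraMap K[X] L (C (ζ ^ (i * (k : ℕ)))) *
          (algebraMap (RatFunc K) L (q k) * w ^ (k : ℕ))) =
        algebraMap K[X] L (C (∑ i ∈ Finset.range n, (ζ ^ (k : ℕ) * (ζ ^ (j : ℕ))⁻¹) ^ i)) *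
          (algebraMap (RatFunc K) L (q k) * w ^ (k : ℕ)) := by
      intro k
      rw [map_sum, map_sum, Finset.sum_mul]
      refine Finset.sum_congr rfl fun i _ => ?_
      rw [← mul_assoc, ← map_mul, ← C_mul]
      congr 3
      rw [mul_pow, inv_pow, ← pow_mul, ← pow_mul, mul_comm (k : ℕ) i, mul_comm (j : ℕ) i,
        mul_comm]
    simp_rw [h2]
    rw [Finset.sum_eq_single j]
    · rw [mul_inv_cancel₀ (pow_ne_zero _ hζ0)]
      simp
    · intro k _ hkj
      have h3 : ζ ^ (k : ℕ) * (ζ ^ (j : ℕ))⁻¹ ≠ 1 := by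
        intro h4
        rw [mul_inv_eq_one₀ (pow_ne_zero _ hζ0)] at h4
        exact hkj (Fin.ext (hζ.pow_inj k.2 j.2 h4))
      have h4 : (ζ ^ (k : ℕ) * (ζ ^ (j : ℕ))⁻¹) ^ n = 1 := by
        rw [mul_pow, inv_pow, ← pow_mul, ← pow_mul, mul_comm (k : ℕ) n, mul_comm (j : ℕ) n,
          pow_mul, pow_mul, hζ.pow_eq_one, one_pow, one_pow, inv_one, mul_one]
      have h5 := mul_geom_sum (ζ ^ (k : ℕ) * (ζ ^ (j : ℕ))⁻¹) n
      rw [h4, sub_self] at h5
      rw [(mul_eq_zero.1 h5).resolve_left (sub_ne_zero.2 h3)]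
      simp
    · intro hj; exact absurd (Finset.mem_univ _) hj
  have h6 : algebraMap (RatFunc K) L (q j) * w ^ (j : ℕ) =
      algebraMap K[X] L (C (n : K)⁻¹) *
      ∑ i ∈ Finset.range n, algebraMap K[X] L (C ((ζ ^ (i * j))⁻¹)) * σ i z := by
    rw [h1, ← mul_assoc, ← map_mul, ← C_mul, inv_mul_cancel₀ h.ne, C_1, map_one, one_mul]
  rw [h6]
  exact isIntegral_algebraMap.mul (IsIntegral.sum _ fun i _ => isIntegral_algebraMap.mul (hint i))

/-- integral elements are combinations of the standard basis with polynomial coefficients -/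
theorem IsCyc.int_rep {z : L} (hz : IsIntegral K[X] z) :
    ∃ p : Fin n → K[X], z = ∑ j : Fin n, algebraMap K[X] L (p j) * (h.bas j : L) ∧
      z = ∑ j : Fin n, algebraMap (RatFunc K) L (algebraMap K[X] (RatFunc K) (p j) /
        algebraMap K[X] (RatFunc K) (Apoly n e m j)) * w ^ (j : ℕ) := by
  obtain ⟨q, hq⟩ := h.exists_rep z
  have hA0 : ∀ j, algebraMap K[X] (RatFunc K) (Apoly n e m j) ≠ 0 := by
    intro j
    rw [Ne, map_eq_zero_iff _ (RatFunc.algebraMap_injective K)]
    exact (Apoly_monic j).ne_zero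
  have hint := h.comp_integral (q := q) (by rw [← hq]; exact hz)
  have hterm : ∀ j : Fin n, algebraMap (RatFunc K) L (q j) * w ^ (j : ℕ) =
      algebraMap (RatFunc K) L (q j * algebraMap K[X] (RatFunc K) (Apoly n e m j)) *
        (h.bas j : L) := by
    intro j
    rw [map_mul, ← algebraMap_eq, mul_assoc, h.A_mul_bas]
  have hpoly : ∀ j : Fin n, ∃ p : K[X],
      q j * algebraMap K[X] (RatFunc K) (Apoly n e m j) = algebraMap K[X] (RatFunc K) p := by
    intro j
    have h1 := (hint j).pow n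
    rw [hterm, mul_pow, h.bas_pow, algebraMap_eq (K := K) (L := L) (Bpoly n e m j), ← map_pow,
      ← map_mul] at h1
    have h2 : IsIntegral K[X] ((q j * algebraMap K[X] (RatFunc K) (Apoly n e m j)) ^ n *
        algebraMap K[X] (RatFunc K) (Bpoly n e m j)) := by
      exact (isIntegral_algHom_iff (Algebra.ofId (RatFunc K) L |>.restrictScalars K[X])
        (algebraMap (RatFunc K) L).injective).1 h1
    obtain ⟨u, hu⟩ := IsIntegrallyClosed.isIntegral_iff.1 h2
    exact poly_of_pow h.inj h.prime.ne_zero (r := fun l => (j : ℕ) * m l % n)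
      (fun l => Nat.mod_lt _ h.prime.pos) _ u hu.symm
  choose p hp using hpoly
  refine ⟨p, ?_, ?_⟩
  · rw [hq]
    refine Finset.sum_congr rfl fun j _ => ?_
    rw [hterm, hp, ← algebraMap_eq]
  · rw [hq]
    refine Finset.sum_congr rfl fun j _ => ?_
    rw [← hp, mul_div_cancel_right₀ _ (hA0 j)]

end

end Pool.Agent.Helper91.SE
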