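import Pool.Agent.Helper91.Section.SE.Pic

/-!
# Kummer roots attached to ideal classes of `n`-power order
-/

universe u

namespace Pool.Agent.Helper91.SE

open Polynomial nonZeroDivisors

section

variable {K L : Type u} [Field K] [Field L] [Algebra K[X] L] [Algebra (RatFunc K) L]
    [IsScalarTower K[X] (RatFunc K) L]
    {n : ℕ} {s : ℕ} {e : Fin s → K} {m : Fin s → ℕ} {w : L} (h : IsCyc K L n e m w)

section Mon

include h

/-- a monic element, some power of which is one, is one -/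
theorem Mon.eq_one {z : L} (hz : Mon K n (∑ i, m i) w z) {N : ℕ} (hN : 0 < N) (hzN : z ^ N = 1) :
    z = 1 := by
  have h0 := Mon.ne h hz
  have h1 : IsIntegral K[X] z := IsIntegral.of_pow hN (by rw [hzN]; exact isIntegral_one)
  have h2 : D K z = 0 := by
    have h3 := D_pow h h0 N
    rw [hzN, D_one] at h3
    have h4 : (N : ℤ) ≠ 0 := by exact_mod_cast hN.ne'
    exact (mul_eq_zero.1 h3.symm).resolve_left h4
  obtain ⟨c, hc, rfl⟩ := h.const_of_D h1 h0 h2
  rw [Mon.const h hz, C_1, map_one]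

/-- a monic generator of an ideal is unique -/
theorem Mon.gen_unique {r r' : integralClosure K[X] L} (hr : Mon K n (∑ i, m i) w (r : L))
    (hr' : Mon K n (∑ i, m i) w (r' : L)) (hrr : Ideal.span {r} = Ideal.span {r'}) : r = r' := by
  rw [Ideal.span_singleton_eq_span_singleton] at hrr
  obtain ⟨ε, hε⟩ := hrr
  obtain ⟨c, hc, hcε⟩ := h.unit_const ε.isUnit
  have h1 : (r : L) * algebraMap K[X] L (C c) = r' := by
    rw [← hcε]; exact congrArg Subtype.val hε
  have h0 := Mon.ne h hr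
  have h2 : algebraMap K[X] L (C c) = r' / r := by
    rw [eq_div_iff h0, mul_comm]; exact h1
  have h3 : Mon K n (∑ i, m i) w (algebraMap K[X] L (C c)) := by
    rw [h2]; exact Mon.div h hr' hr
  have h4 := Mon.const h h3
  rw [h4, C_1, map_one, mul_one] at h1
  exact Subtype.ext h1

theorem Mon.exists_gen {r : integralClosure K[X] L} (hr : r ≠ 0) :
    ∃ r' : integralClosure K[X] L, Mon K n (∑ i, m i) w (r' : L) ∧
      Ideal.span {r'} = Ideal.span {r} := by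
  have hr' : (r : L) ≠ 0 := fun h0 => hr (Subtype.ext h0)
  obtain ⟨c, hc, hmon⟩ := Mon.exists_mul h hr'
  refine ⟨Cst K L c * r, hmon, ?_⟩
  rw [Ideal.span_singleton_eq_span_singleton, mul_comm]
  exact associated_mul_unit_left r (Cst K L c) ((isUnit_iff_ne_zero.2 hc).map (Cst K L))

/-- `x - c` is monic -/
theorem mon_X_sub_C (c : K) : Mon K n (∑ i, m i) w (algebraMap K[X] L (X - C c)) := by
  obtain ⟨V, hV⟩ := exists_isInf (K := K) (L := L)
  rw [mon_iff h hV, D_algebraMap h (X_sub_C_ne_zero c), natDegree_X_sub_C, Nat.cast_one, mul_one]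
  have hx0 := h.x_ne
  have hbig := hV.big
  -- `x * T ^ n` is congruent to one
  have h1 : V.valuation (algebraMap K[X] L X * T K n (∑ i, m i) w ^ (n : ℤ) - 1) < 1 := by
    have h2 : algebraMap K[X] L X * T K n (∑ i, m i) w ^ (n : ℤ) =
        algebraMap K[X] L X ^ (1 + -Int.gcdA n (∑ i, m i : ℕ) * n) *
          w ^ (-Int.gcdB n (∑ i, m i : ℕ) * n) := by
      rw [T, mul_zpow, ← zpow_mul, ← zpow_mul, zpow_add₀ hx0, zpow_one, mul_assoc]
    rw [h2]
    refine hV.mono_small h ?_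
    have h3 := h.gcd_eq
    linear_combination (-(n : ℤ)) * h3
  have h4 : algebraMap K[X] L (X - C c) * T K n (∑ i, m i) w ^ (n : ℤ) - 1 =
      (algebraMap K[X] L X * T K n (∑ i, m i) w ^ (n : ℤ) - 1) -
      algebraMap K[X] L (C c) * T K n (∑ i, m i) w ^ (n : ℤ) := by
    rw [map_sub]; ring
  rw [h4]
  refine (Valuation.map_sub _ _ _).trans_lt (max_lt h1 ?_)
  rw [map_mul, map_zpow₀]
  have h5 : V.valuation (T K n (∑ i, m i) w) ^ (n : ℤ) < 1 := by
    rw [zpow_natCast]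
    exact pow_lt_one₀ zero_le (hV.val_T_lt h) h.prime.ne_zero
  calc V.valuation (algebraMap K[X] L (C c)) * V.valuation (T K n (∑ i, m i) w) ^ (n : ℤ)
      ≤ 1 * V.valuation (T K n (∑ i, m i) w) ^ (n : ℤ) := mul_le_mul_left (hV.val_C_le c) _
    _ < 1 := by rw [one_mul]; exact h5

end Mon

variable {Ω : Type u} [Field Ω]

/-- `g` is an `n`-power root of a monic generator of a power of `I` -/
def KRoot (n d : ℕ) (w : L) (ι : L →+* Ω) (I : Ideal (integralClosure K[X] L)) (g : Ω) : Prop :=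
  I ≠ ⊥ ∧ ∃ (k : ℕ) (r : integralClosure K[X] L), I ^ n ^ k = Ideal.span {r} ∧
    Mon K n d w (r : L) ∧ g ^ n ^ k = ι r

variable {ι : L →+* Ω} {I : Ideal (integralClosure K[X] L)} {g : Ω}

include h

theorem KRoot.ne_zero (hg : KRoot n (∑ i, m i) w ι I g) : g ≠ 0 := by
  obtain ⟨hI, k, r, h1, h2, h3⟩ := hg
  rintro rfl
  rw [zero_pow (pow_ne_zero _ h.prime.ne_zero)] at h3
  exact (map_ne_zero ι).2 (Mon.ne h h2) h3.symm

theorem exists_kRoot [IsAlgClosed Ω] (hI : I ≠ ⊥) {k : ℕ} {r₀ : integralClosure K[X] L}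
    (hr₀ : I ^ n ^ k = Ideal.span {r₀}) : ∃ g, KRoot n (∑ i, m i) w ι I g := by
  have := h.isDedekindDomain
  have hn0 : n ^ k ≠ 0 := pow_ne_zero _ h.prime.ne_zero
  have hr₀0 : r₀ ≠ 0 := by
    rintro rfl
    rw [Ideal.span_singleton_eq_bot.2 rfl] at hr₀
    exact pow_ne_zero _ hI hr₀
  obtain ⟨r, hr, hrr⟩ := Mon.exists_gen h hr₀0
  obtain ⟨g, hg⟩ := IsAlgClosed.exists_pow_nat_eq (ι r) (Nat.pos_of_ne_zero hn0)
  exact ⟨g, hI, k, r, by rw [hrr, hr₀], hr, hg⟩

omit h in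
/-- raising the exponent -/
theorem KRoot.lift (h : IsCyc K L n e m w) {k : ℕ} {r : integralClosure K[X] L}
    (h1 : I ^ n ^ k = Ideal.span {r}) (h2 : Mon K n (∑ i, m i) w (r : L))
    (h3 : g ^ n ^ k = ι r) (l : ℕ) : ∃ r' : integralClosure K[X] L,
      I ^ n ^ (k + l) = Ideal.span {r'} ∧ Mon K n (∑ i, m i) w (r' : L) ∧
        g ^ n ^ (k + l) = ι r' := by
  refine ⟨r ^ n ^ l, ?_, ?_, ?_⟩
  · rw [pow_add, pow_mul, h1, Ideal.span_singleton_pow]
  · exact Mon.pow h h2 _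
  · rw [pow_add, pow_mul, h3, ← map_pow]; rfl

/-- compatibility with automorphisms -/
theorem KRoot.map (hg : KRoot n (∑ i, m i) w ι I g) {τ : K ≃+* K} {φ : L ≃+* L}
    (hφ : IsSemi τ w φ) {ρ : Ω →+* Ω} (hρ : ∀ z, ρ (ι z) = ι (φ z)) :
    KRoot n (∑ i, m i) w ι (I.map hφ.R) (ρ g) := by
  obtain ⟨hI, k, r, h1, h2, h3⟩ := hg
  refine ⟨fun h0 => hI ((Ideal.map_eq_bot_iff_of_injective hφ.R.injective).1 h0), k, hφ.R r, ?_,
    hφ.mon h h2, ?_⟩
  · rw [← Ideal.map_pow, h1, Ideal.map_span, Set.image_singleton]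
  · rw [← map_pow, h3, hρ]; rfl

/-- a power of the root is fixed -/
theorem KRoot.fix_pow (hg : KRoot n (∑ i, m i) w ι I g) {τ : K ≃+* K} {φ : L ≃+* L}
    (hφ : IsSemi τ w φ) {ξ : Ω →+* Ω} (hξ : ∀ z, ξ (ι z) = ι (φ z)) (hI : I.map hφ.R = I) :
    ∃ k : ℕ, ξ (g ^ n ^ k) = g ^ n ^ k := by
  obtain ⟨hI0, k, r, h1, h2, h3⟩ := hg
  refine ⟨k, ?_⟩
  have h4 : hφ.R r = r := by
    refine Mon.gen_unique h (hφ.mon h h2) h2 ?_
    have h5 : (I ^ n ^ k).map hφ.R = Ideal.span {hφ.R r} := by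
      rw [h1, Ideal.map_span, Set.image_singleton]
    rw [← h5, Ideal.map_pow, hI, h1]
  rw [h3, hξ]
  have h5 : φ (r : L) = r := congrArg Subtype.val h4
  rw [h5]

/-- the relation between the roots of a product -/
theorem KRoot.mul_rel {I' I'' : Ideal (integralClosure K[X] L)} {g' g'' : Ω}
    (hg : KRoot n (∑ i, m i) w ι I g) (hg' : KRoot n (∑ i, m i) w ι I' g')
    (hg'' : KRoot n (∑ i, m i) w ι I'' g'') {x y : integralClosure K[X] L} (hx : x ≠ 0)
    (hy : y ≠ 0) (hxy : Ideal.span {x} * (I * I') = Ideal.span {y} * I'')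
    {τ : K ≃+* K} {φ : L ≃+* L} (hφ : IsSemi τ w φ) {ξ : Ω →+* Ω}
    (hξ : ∀ z, ξ (ι z) = ι (φ z)) (hI : I.map hφ.R = I) (hI' : I'.map hφ.R = I')
    (hI'' : I''.map hφ.R = I'') (hroot : ∀ (N : ℕ) (ζ : Ω), ζ ^ n ^ N = 1 → ξ ζ = ζ) :
    ξ g / g * (ξ g' / g') = ξ g'' / g'' := by
  have hg0 := hg.ne_zero h
  have hg0' := hg'.ne_zero h
  have hg0'' := hg''.ne_zero h
  obtain ⟨hI0, k₁, r₁, a1, a2, a3⟩ := hg
  obtain ⟨hI0', k₂, r₂, b1, b2, b3⟩ := hg'
  obtain ⟨hI0'', k₃, r₃, c1, c2, c3⟩ := hg''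
  obtain ⟨r, a1, a2, a3⟩ := KRoot.lift h a1 a2 a3 (k₂ + k₃)
  obtain ⟨r', b1, b2, b3⟩ := KRoot.lift h b1 b2 b3 (k₁ + k₃)
  obtain ⟨r'', c1, c2, c3⟩ := KRoot.lift h c1 c2 c3 (k₁ + k₂)
  set k := k₁ + (k₂ + k₃) with hk
  rw [show k₂ + (k₁ + k₃) = k by omega] at b1 b3
  rw [show k₃ + (k₁ + k₂) = k by omega] at c1 c3
  have hN0 : 0 < n ^ k := pow_pos h.prime.pos _
  -- the monic quotient
  have hx' : (x : L) ≠ 0 := fun h0 => hx (Subtype.ext h0)
  have hy' : (y : L) ≠ 0 := fun h0 => hy (Subtype.ext h0)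
  obtain ⟨c, hc, hu⟩ := Mon.exists_mul h (div_ne_zero hy' hx')
  set u : L := algebraMap K[X] L (C c) * ((y : L) / x) with hudef
  have hu0 := Mon.ne h hu
  -- `r * r' = u ^ N * r''`
  have hrel : (r : L) * r' = u ^ n ^ k * r'' := by
    have h1 := congrArg (fun I => I ^ n ^ k) hxy
    simp only [mul_pow] at h1
    rw [a1, b1, c1, Ideal.span_singleton_pow, Ideal.span_singleton_pow,
      Ideal.span_singleton_mul_span_singleton, Ideal.span_singleton_mul_span_singleton,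
      Ideal.span_singleton_mul_span_singleton, Ideal.span_singleton_eq_span_singleton] at h1
    obtain ⟨ε, hε⟩ := h1
    obtain ⟨d, hd, hdε⟩ := h.unit_const ε.isUnit
    have h2 : (x : L) ^ n ^ k * (r * r') * algebraMap K[X] L (C d) = (y : L) ^ n ^ k * r'' := by
      rw [← hdε]; exact congrArg Subtype.val hε
    have hCc : algebraMap K[X] L (C c) ≠ 0 := by
      rwa [Ne, map_eq_zero_iff _ (algebraMap_inj (K := K) (L := L)), C_eq_zero]
    have h3 : u ^ n ^ k * r'' = (r : L) * r' *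
        (algebraMap K[X] L (C d) * algebraMap K[X] L (C c) ^ n ^ k) := by
      have h4 : u ^ n ^ k = algebraMap K[X] L (C c) ^ n ^ k * ((y : L) ^ n ^ k / x ^ n ^ k) := by
        rw [hudef, mul_pow, div_pow]
      rw [h4, mul_assoc, div_mul_eq_mul_div, ← h2]
      field_simp
    have h5 : algebraMap K[X] L (C d) * algebraMap K[X] L (C c) ^ n ^ k =
        algebraMap K[X] L (C (d * c ^ n ^ k)) := by
      rw [C_mul, C_pow, map_mul, map_pow]
    rw [h5] at h3
    have hrr := Mon.mul h a2 b2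
    have h6 : algebraMap K[X] L (C (d * c ^ n ^ k)) = u ^ n ^ k * r'' / (r * r') := by
      rw [h3, mul_div_cancel_left₀ _ (Mon.ne h hrr)]
    have h7 : Mon K n (∑ i, m i) w (algebraMap K[X] L (C (d * c ^ n ^ k))) := by
      rw [h6]
      exact Mon.div h (Mon.mul h (Mon.pow h hu _) c2) hrr
    rw [h3, Mon.const h h7, C_1, map_one, mul_one]
  -- `φ` fixes `r`, `r'`, `r''` and `u`
  have hfix : ∀ {I : Ideal (integralClosure K[X] L)} {r : integralClosure K[X] L},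
      I ^ n ^ k = Ideal.span {r} → Mon K n (∑ i, m i) w (r : L) → I.map hφ.R = I →
      φ (r : L) = r := by
    intro I r h1 h2 hI
    have h4 : hφ.R r = r := by
      refine Mon.gen_unique h (hφ.mon h h2) h2 ?_
      have h5 : (I ^ n ^ k).map hφ.R = Ideal.span {hφ.R r} := by
        rw [h1, Ideal.map_span, Set.image_singleton]
      rw [← h5, Ideal.map_pow, hI, h1]
    exact congrArg Subtype.val h4
  have hφu : φ u = u := by
    have h1 : φ u / u = 1 := by
      refine Mon.eq_one h (Mon.div h (hφ.mon h hu) hu) hN0 ?_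
      rw [div_pow, div_eq_one_iff_eq (pow_ne_zero _ hu0), ← map_pow]
      have h2 := congrArg φ hrel
      rw [map_mul, map_mul, hfix a1 a2 hI, hfix b1 b2 hI', hfix c1 c2 hI'', hrel] at h2
      exact (mul_right_cancel₀ (Mon.ne h c2) h2).symm
    rwa [div_eq_one_iff_eq hu0] at h1
  -- conclusion
  have hιu : ι u ≠ 0 := (map_ne_zero ι).2 hu0
  have hζ : (g * g' / (ι u * g'')) ^ n ^ k = 1 := by
    rw [div_pow, mul_pow, mul_pow, a3, b3, c3, ← map_pow, ← map_mul, ← map_mul, hrel]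
    refine div_self ((map_ne_zero ι).2 ?_)
    exact mul_ne_zero (pow_ne_zero _ hu0) (Mon.ne h c2)
  have h1 := hroot k _ hζ
  rw [map_div₀, map_mul, map_mul, hξ, hφu] at h1
  have hξ0 : ξ g'' ≠ 0 := (map_ne_zero ξ).2 hg0''
  rw [div_eq_div_iff (mul_ne_zero hιu hξ0) (mul_ne_zero hιu hg0'')] at h1
  rw [div_mul_div_comm, div_eq_div_iff (mul_ne_zero hg0 hg0') hg0'']
  have h2 : ι u * (ξ g * ξ g' * g'') = ι u * (ξ g'' * (g * g')) := by
    linear_combination h1
  exact mul_left_cancel₀ hιu h2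

/-- independence of the root -/
theorem KRoot.indep {I' : Ideal (integralClosure K[X] L)} {g' : Ω}
    (hg : KRoot n (∑ i, m i) w ι I g) (hg' : KRoot n (∑ i, m i) w ι I' g')
    {x y : integralClosure K[X] L} (hx : x ≠ 0)
    (hy : y ≠ 0) (hxy : Ideal.span {x} * I = Ideal.span {y} * I')
    {τ : K ≃+* K} {φ : L ≃+* L} (hφ : IsSemi τ w φ) {ξ : Ω →+* Ω}
    (hξ : ∀ z, ξ (ι z) = ι (φ z)) (hI : I.map hφ.R = I) (hI' : I'.map hφ.R = I')
    (hroot : ∀ (N : ℕ) (ζ : Ω), ζ ^ n ^ N = 1 → ξ ζ = ζ) :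
    ξ g / g = ξ g' / g' := by
  have := h.isDedekindDomain
  have h1 : KRoot n (∑ i, m i) w ι ⊤ (1 : Ω) :=
    ⟨top_ne_bot, 0, 1, by rw [pow_zero, pow_one, Ideal.span_singleton_one], Mon.one h, by
      rw [one_pow]; exact (map_one ι).symm⟩
  have h2 := hg.mul_rel h h1 hg' hx hy (by rw [Ideal.mul_top]; exact hxy) hφ hξ hI
    (Ideal.map_top _) hI' hroot
  rwa [map_one, div_one, mul_one] at h2

end

end Pool.Agent.Helper91.SE
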