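import Pool.Agent.Helper91.Section.SE.Inf

/-!
# Degrees and leading coefficients at infinity
-/

universe u

namespace Pool.Agent.Helper91.SE

open Polynomial

section Deg

variable {K L : Type u} [Field K] [Field L] [Algebra K[X] L] [Algebra (RatFunc K) L]
    [IsScalarTower K[X] (RatFunc K) L]

/-- the degree of a function: `n` times its pole order at infinity in terms of `x` -/
noncomputable def D (K : Type u) {L : Type u} [Field K] [Field L] [Algebra (RatFunc K) L]
    (z : L) : ℤ := (Algebra.norm (RatFunc K) z).intDegree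

variable {V : ValuationSubring L} (hV : IsInf K V)
    {n : ℕ} {s : ℕ} {e : Fin s → K} {m : Fin s → ℕ} {w : L} (h : IsCyc K L n e m w)

omit [Algebra K[X] L] [IsScalarTower K[X] (RatFunc K) L] in
theorem D_one : D K (1 : L) = 0 := by
  rw [D, map_one, RatFunc.intDegree_one]

include h in
theorem norm_ne {z : L} (hz : z ≠ 0) : Algebra.norm (RatFunc K) z ≠ 0 := by
  have hfd := h.finiteDimensional
  exact Algebra.norm_ne_zero_iff.2 hz

include h in
theorem D_mul {z z' : L} (hz : z ≠ 0) (hz' : z' ≠ 0) : D K (z * z') = D K z + D K z' := by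
  rw [D, map_mul, RatFunc.intDegree_mul (norm_ne h hz) (norm_ne h hz')]
  rfl

include h in
theorem D_inv {z : L} (hz : z ≠ 0) : D K z⁻¹ = -D K z := by
  have h1 := D_mul h hz (inv_ne_zero hz)
  rw [mul_inv_cancel₀ hz, D_one] at h1
  linarith

include h in
theorem D_pow {z : L} (hz : z ≠ 0) (k : ℕ) : D K (z ^ k) = k * D K z := by
  induction k with
  | zero => simp [D_one]
  | succ k ih => rw [pow_succ, D_mul h (pow_ne_zero k hz) hz, ih]; push_cast; ring

include h in
theorem D_zpow {z : L} (hz : z ≠ 0) (k : ℤ) : D K (z ^ k) = k * D K z := by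
  obtain ⟨k, rfl | rfl⟩ := k.eq_nat_or_neg
  · rw [zpow_natCast, D_pow h hz]
  · rw [zpow_neg, zpow_natCast, D_inv h (pow_ne_zero k hz), D_pow h hz]; ring

include h in
theorem D_algebraMap {p : K[X]} (hp : p ≠ 0) : D K (algebraMap K[X] L p) = n * p.natDegree := by
  have hfd := h.finiteDimensional
  have hp' : algebraMap K[X] (RatFunc K) p ≠ 0 := by
    rwa [Ne, map_eq_zero_iff _ (RatFunc.algebraMap_injective K)]
  rw [D, algebraMap_eq, Algebra.norm_algebraMap, h.finrank, ← map_pow,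
    RatFunc.intDegree_polynomial, natDegree_pow]
  push_cast
  rfl

include h in
theorem D_C {c : K} (hc : c ≠ 0) : D K (algebraMap K[X] L (C c)) = 0 := by
  rw [D_algebraMap h (by rwa [Ne, C_eq_zero]), natDegree_C]; simp

include h in
theorem D_X : D K (algebraMap K[X] L X) = n := by
  rw [D_algebraMap h X_ne_zero, natDegree_X]; simp

include h in
theorem D_w : D K w = (∑ i, m i : ℕ) := by
  have h1 := D_pow h h.w_ne n
  rw [h.eqn] at h1
  have h2 := D_algebraMap h (gpoly_monic (e := e) (m := m)).ne_zero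
  rw [gpoly_natDegree] at h2
  have h3 := h2.symm.trans h1
  have hn : (n : ℤ) ≠ 0 := by exact_mod_cast h.prime.ne_zero
  exact (mul_left_cancel₀ hn h3).symm

include hV h

theorem IsInf.val_pow_eq {z : L} (hz : z ≠ 0) : V.valuation z ^ n =
    V.valuation (algebraMap K[X] L X) ^ D K z := hV.val_norm h hz

theorem IsInf.val_lt_one_iff {z : L} (hz : z ≠ 0) : V.valuation z < 1 ↔ D K z < 0 := by
  rw [← pow_lt_one_iff_of_nonneg zero_le h.prime.ne_zero, hV.val_pow_eq h hz]
  constructor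
  · intro h1
    by_contra hcon
    exact absurd h1 (not_lt.2 (one_le_zpow₀ hV.big.le (not_lt.1 hcon)))
  · intro h1
    exact zpow_lt_one_of_neg₀ hV.big h1

theorem IsInf.val_eq_one_iff {z : L} (hz : z ≠ 0) : V.valuation z = 1 ↔ D K z = 0 := by
  rw [← pow_eq_one_iff_of_nonneg zero_le h.prime.ne_zero, hV.val_pow_eq h hz]
  constructor
  · intro h1
    exact hV.zpow_inj (by rw [h1, zpow_zero])
  · intro h1
    rw [h1, zpow_zero]

theorem IsInf.val_le_one_iff {z : L} (hz : z ≠ 0) : V.valuation z ≤ 1 ↔ D K z ≤ 0 := by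
  rw [le_iff_lt_or_eq, hV.val_lt_one_iff h hz, hV.val_eq_one_iff h hz, le_iff_lt_or_eq]

/-- the place at infinity is unique -/
theorem IsInf.unique {V' : ValuationSubring L} (hV' : IsInf K V') : V' = V := by
  ext z
  by_cases hz : z = 0
  · rw [hz]; exact ⟨fun _ => V.zero_mem, fun _ => V'.zero_mem⟩
  · rw [← V.valuation_le_one_iff, ← V'.valuation_le_one_iff, hV.val_le_one_iff h hz,
      hV'.val_le_one_iff h hz]

end Deg

section T

variable {K L : Type u} [Field K] [Field L] [Algebra K[X] L] [Algebra (RatFunc K) L]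
    [IsScalarTower K[X] (RatFunc K) L]

/-- a uniformizer at infinity -/
noncomputable def T (K : Type u) {L : Type u} [Field K] [Field L] [Algebra K[X] L]
    (n d : ℕ) (w : L) : L :=
  algebraMap K[X] L X ^ (-Int.gcdA n d) * w ^ (-Int.gcdB n d)

variable {V : ValuationSubring L} (hV : IsInf K V)
    {n : ℕ} {s : ℕ} {e : Fin s → K} {m : Fin s → ℕ} {w : L} (h : IsCyc K L n e m w)

include h

theorem IsCyc.x_ne : algebraMap K[X] L X ≠ 0 := by
  rw [Ne, map_eq_zero_iff _ (algebraMap_inj (K := K) (L := L))]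
  exact X_ne_zero

theorem IsCyc.T_ne : T K n (∑ i, m i) w ≠ 0 :=
  mul_ne_zero (zpow_ne_zero _ h.x_ne) (zpow_ne_zero _ h.w_ne)

theorem IsCyc.gcd_eq : (n : ℤ) * Int.gcdA n (∑ i, m i : ℕ) +
    (∑ i, m i : ℕ) * Int.gcdB n (∑ i, m i : ℕ) = 1 := by
  have h1 := Int.gcd_eq_gcd_ab n (∑ i, m i : ℕ)
  have h2 : Int.gcd (n : ℤ) (∑ i, m i : ℕ) = 1 := by
    rw [Int.gcd_natCast_natCast]
    exact (Nat.Prime.coprime_iff_not_dvd h.prime).2 h.tot
  rw [h2] at h1
  exact_mod_cast h1.symm

theorem D_T : D K (T K n (∑ i, m i) w) = -1 := by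
  rw [T, D_mul h (zpow_ne_zero _ h.x_ne) (zpow_ne_zero _ h.w_ne), D_zpow h h.x_ne,
    D_zpow h h.w_ne, D_X h, D_w h]
  have := h.gcd_eq
  linarith

include hV

theorem IsInf.val_T_lt : V.valuation (T K n (∑ i, m i) w) < 1 := by
  rw [hV.val_lt_one_iff h h.T_ne, D_T h]; norm_num

omit h in
omit [Algebra (RatFunc K) L] [IsScalarTower K[X] (RatFunc K) L] hV in
theorem small_inv {a : L} (ha : V.valuation (a - 1) < 1) : V.valuation (a⁻¹ - 1) < 1 := by
  have h1 := Sect.val_eq_one_of_small ha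
  have h0 : a ≠ 0 := by
    rintro rfl
    rw [map_zero] at h1
    exact zero_ne_one h1
  have h2 : a⁻¹ - 1 = -(a - 1) * a⁻¹ := by field_simp; ring
  rw [h2, map_mul, Valuation.map_neg, map_inv₀, h1, inv_one, mul_one]
  exact ha

omit h in
omit [Algebra (RatFunc K) L] [IsScalarTower K[X] (RatFunc K) L] hV in
theorem small_zpow {a : L} (ha : V.valuation (a - 1) < 1) (k : ℤ) :
    V.valuation (a ^ k - 1) < 1 := by
  obtain ⟨k, rfl | rfl⟩ := k.eq_nat_or_neg
  · rw [zpow_natCast]; exact Sect.one_pow_small ha k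
  · rw [zpow_neg, zpow_natCast]; exact small_inv (Sect.one_pow_small ha k)

/-- a monomial in `x` and `w` of value one is congruent to one -/
theorem IsInf.mono_small {A B : ℤ} (hAB : n * A + (∑ i, m i : ℕ) * B = 0) :
    V.valuation (algebraMap K[X] L X ^ A * w ^ B - 1) < 1 := by
  have h1 : (n : ℤ) ∣ (∑ i, m i : ℕ) * B := ⟨-A, by linarith⟩
  have hp := Nat.prime_iff_prime_int.1 h.prime
  have h2 : (n : ℤ) ∣ B := (hp.dvd_or_dvd h1).resolve_left
    fun h3 => h.tot (Int.natCast_dvd_natCast.1 h3)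
  obtain ⟨B', rfl⟩ := h2
  have hn : (n : ℤ) ≠ 0 := by exact_mod_cast h.prime.ne_zero
  have hA : A = -(∑ i, m i : ℕ) * B' := by
    apply mul_left_cancel₀ hn
    linarith
  have h3 : algebraMap K[X] L X ^ A * w ^ (n * B') =
      (algebraMap K[X] L (gpoly e m) / algebraMap K[X] L X ^ (∑ i, m i)) ^ B' := by
    rw [hA, zpow_mul, zpow_mul w, zpow_natCast w, h.eqn, div_zpow, zpow_neg, zpow_natCast,
      inv_zpow, div_eq_mul_inv, mul_comm]
    rfl
  rw [h3]
  refine small_zpow ?_ B'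
  have h4 := hV.val_sub_lead (gpoly e m)
  have h5 : algebraMap K[X] L X ^ (∑ i, m i) ≠ 0 := pow_ne_zero _ h.x_ne
  rw [gpoly_monic, C_1, one_mul, gpoly_natDegree, map_sub, map_pow] at h4
  have h6 : algebraMap K[X] L (gpoly e m) / algebraMap K[X] L X ^ (∑ i, m i) - 1 =
      (algebraMap K[X] L (gpoly e m) - algebraMap K[X] L X ^ (∑ i, m i)) /
        algebraMap K[X] L X ^ (∑ i, m i) := by
    field_simp
  rw [h6, map_div₀, map_pow, div_lt_one₀ (pow_pos (zero_lt_one.trans hV.big) _)]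
  exact h4

omit h in
/-- a rational function, up to its leading term -/
theorem IsInf.ratFunc_lead {q : RatFunc K} (hq : q ≠ 0) : ∃ c : K, c ≠ 0 ∧
    V.valuation (algebraMap (RatFunc K) L q -
      algebraMap K[X] L (C c) * algebraMap K[X] L X ^ q.intDegree) <
      V.valuation (algebraMap (RatFunc K) L q) := by
  have hx0 : algebraMap K[X] L X ≠ 0 := by
    rw [Ne, map_eq_zero_iff _ (algebraMap_inj (K := K) (L := L))]
    exact X_ne_zero
  have hvx0 := hV.val_x_ne
  -- a polynomial divided by its leading monomial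
  have key : ∀ p : K[X], p ≠ 0 → V.valuation (algebraMap K[X] L p /
      (algebraMap K[X] L (C p.leadingCoeff) * algebraMap K[X] L X ^ p.natDegree) - 1) < 1 := by
    intro p hp
    have hlc : algebraMap K[X] L (C p.leadingCoeff) ≠ 0 := by
      rw [Ne, map_eq_zero_iff _ (algebraMap_inj (K := K) (L := L)), C_eq_zero]
      exact leadingCoeff_ne_zero.2 hp
    have h4 := hV.val_sub_lead p
    rw [map_sub, map_mul, map_pow] at h4
    have h6 : algebraMap K[X] L p /
        (algebraMap K[X] L (C p.leadingCoeff) * algebraMap K[X] L X ^ p.natDegree) - 1 =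
        (algebraMap K[X] L p - algebraMap K[X] L (C p.leadingCoeff) *
          algebraMap K[X] L X ^ p.natDegree) /
        (algebraMap K[X] L (C p.leadingCoeff) * algebraMap K[X] L X ^ p.natDegree) := by
      have : algebraMap K[X] L X ^ p.natDegree ≠ 0 := pow_ne_zero _ hx0
      field_simp
    rw [h6, map_div₀, map_mul, map_pow, hV.const _ (leadingCoeff_ne_zero.2 hp), one_mul,
      div_lt_one₀ (pow_pos (zero_lt_one.trans hV.big) _)]
    exact h4
  set a := q.num.leadingCoeff with ha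
  set b := q.denom.leadingCoeff with hb
  have hnum : q.num ≠ 0 := RatFunc.num_ne_zero hq
  have hden : q.denom ≠ 0 := q.denom_ne_zero
  have ha0 : a ≠ 0 := leadingCoeff_ne_zero.2 hnum
  have hb0 : b ≠ 0 := leadingCoeff_ne_zero.2 hden
  have hCa : algebraMap K[X] L (C a) ≠ 0 := by
    rwa [Ne, map_eq_zero_iff _ (algebraMap_inj (K := K) (L := L)), C_eq_zero]
  have hCb : algebraMap K[X] L (C b) ≠ 0 := by
    rwa [Ne, map_eq_zero_iff _ (algebraMap_inj (K := K) (L := L)), C_eq_zero]
  refine ⟨a / b, div_ne_zero ha0 hb0, ?_⟩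
  have hCab : algebraMap K[X] L (C (a / b)) = algebraMap K[X] L (C a) / algebraMap K[X] L (C b) := by
    rw [eq_div_iff hCb, ← map_mul, ← C_mul, div_mul_cancel₀ _ hb0]
  have h1 : algebraMap (RatFunc K) L q =
      algebraMap K[X] L q.num / algebraMap K[X] L q.denom := by
    conv_lhs => rw [← RatFunc.num_div_denom q]
    rw [map_div₀, ← algebraMap_eq, ← algebraMap_eq]
  have hM : algebraMap K[X] L (C (a / b)) * algebraMap K[X] L X ^ q.intDegree ≠ 0 := by
    rw [hCab]
    exact mul_ne_zero (div_ne_zero hCa hCb) (zpow_ne_zero _ hx0)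
  have h2 : algebraMap (RatFunc K) L q /
      (algebraMap K[X] L (C (a / b)) * algebraMap K[X] L X ^ q.intDegree) =
      algebraMap K[X] L q.num / (algebraMap K[X] L (C a) * algebraMap K[X] L X ^ q.num.natDegree) *
      (algebraMap K[X] L q.denom /
        (algebraMap K[X] L (C b) * algebraMap K[X] L X ^ q.denom.natDegree))⁻¹ := by
    rw [h1, hCab, RatFunc.intDegree, zpow_sub₀ hx0, zpow_natCast, zpow_natCast]
    have e1 : algebraMap K[X] L q.denom ≠ 0 := by
      rwa [Ne, map_eq_zero_iff _ (algebraMap_inj (K := K) (L := L))]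
    have e2 : algebraMap K[X] L X ^ q.denom.natDegree ≠ 0 := pow_ne_zero _ hx0
    have e3 : algebraMap K[X] L X ^ q.num.natDegree ≠ 0 := pow_ne_zero _ hx0
    field_simp
  have h3 := Sect.one_mul_small (key _ hnum) (small_inv (key _ hden))
  rw [← h2] at h3
  have h4 : algebraMap (RatFunc K) L q -
      algebraMap K[X] L (C (a / b)) * algebraMap K[X] L X ^ q.intDegree =
      (algebraMap (RatFunc K) L q /
      (algebraMap K[X] L (C (a / b)) * algebraMap K[X] L X ^ q.intDegree) - 1) *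
      (algebraMap K[X] L (C (a / b)) * algebraMap K[X] L X ^ q.intDegree) := by
    rw [sub_mul, div_mul_cancel₀ _ hM, one_mul]
  have h5 : V.valuation (algebraMap K[X] L (C (a / b)) * algebraMap K[X] L X ^ q.intDegree) =
      V.valuation (algebraMap (RatFunc K) L q) := by
    rw [map_mul, hV.const _ (div_ne_zero ha0 hb0), one_mul, map_zpow₀, hV.val_ratFunc hq]
  rw [h4, map_mul, h5]
  have h6 : 0 < V.valuation (algebraMap (RatFunc K) L q) := by
    rw [hV.val_ratFunc hq]
    exact zpow_pos (zero_lt_one.trans hV.big) _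
  calc _ < 1 * V.valuation (algebraMap (RatFunc K) L q) := mul_lt_mul_of_pos_right h3 h6
    _ = _ := one_mul _

/-- every nonzero function has a leading coefficient -/
theorem IsInf.exists_lc {z : L} (hz : z ≠ 0) : ∃ c : K, c ≠ 0 ∧
    V.valuation (z * T K n (∑ i, m i) w ^ D K z - algebraMap K[X] L (C c)) < 1 := by
  obtain ⟨q, hzq⟩ := h.exists_rep z
  have hq : q ≠ 0 := by
    rintro rfl
    apply hz
    rw [hzq]; simp
  obtain ⟨j₀, hj₀, hlead⟩ := hV.exists_lead h hq
  obtain ⟨h1, h2⟩ := hlead w rfl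
  rw [← hzq] at h1 h2
  obtain ⟨c, hc, h3⟩ := hV.ratFunc_lead hj₀
  refine ⟨c, hc, ?_⟩
  set x := algebraMap K[X] L X with hx
  set M := algebraMap K[X] L (C c) * x ^ (q j₀).intDegree * w ^ (j₀ : ℕ) with hM
  have hvw : 0 < V.valuation (w ^ (j₀ : ℕ)) :=
    zero_lt_iff.2 (by rw [Ne, Valuation.zero_iff]; exact pow_ne_zero _ h.w_ne)
  have h4 : V.valuation (z - M) < V.valuation z := by
    have h5 : z - M = (z - algebraMap (RatFunc K) L (q j₀) * w ^ (j₀ : ℕ)) +
        (algebraMap (RatFunc K) L (q j₀) - algebraMap K[X] L (C c) * x ^ (q j₀).intDegree) *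
          w ^ (j₀ : ℕ) := by
      rw [hM]; ring
    rw [h5]
    refine Valuation.map_add_lt _ (by rw [h2]; exact h1) ?_
    rw [map_mul, h2, map_mul]
    exact mul_lt_mul_of_pos_right h3 hvw
  set k := D K z with hk
  have hvz : V.valuation (z * T K n (∑ i, m i) w ^ k) = 1 := by
    rw [hV.val_eq_one_iff h (mul_ne_zero hz (zpow_ne_zero _ h.T_ne)),
      D_mul h hz (zpow_ne_zero _ h.T_ne), D_zpow h h.T_ne, D_T h]
    ring
  have hM0 : M ≠ 0 := by
    intro h0
    rw [h0, sub_zero] at h4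
    exact lt_irrefl _ h4
  have h6 : V.valuation ((z - M) * T K n (∑ i, m i) w ^ k) < 1 := by
    rw [← hvz, map_mul, map_mul]
    refine mul_lt_mul_of_pos_right h4 (zero_lt_iff.2 ?_)
    rw [Ne, Valuation.zero_iff]
    exact zpow_ne_zero _ h.T_ne
  have hvM : V.valuation (M * T K n (∑ i, m i) w ^ k) = 1 := by
    have h7 : M * T K n (∑ i, m i) w ^ k = -((z - M) * T K n (∑ i, m i) w ^ k) +
      z * T K n (∑ i, m i) w ^ k := by ring
    rw [h7, Valuation.map_add_eq_of_lt_right, hvz]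
    rw [Valuation.map_neg, hvz]
    exact h6
  have hDM : D K (M * T K n (∑ i, m i) w ^ k) = 0 := by
    rw [← hV.val_eq_one_iff h (mul_ne_zero hM0 (zpow_ne_zero _ h.T_ne))]
    exact hvM
  have hCc : algebraMap K[X] L (C c) ≠ 0 := by
    rwa [Ne, map_eq_zero_iff _ (algebraMap_inj (K := K) (L := L)), C_eq_zero]
  have h8 : M * T K n (∑ i, m i) w ^ k = algebraMap K[X] L (C c) *
      (x ^ ((q j₀).intDegree + -Int.gcdA n (∑ i, m i : ℕ) * k) *
        w ^ ((j₀ : ℕ) + -Int.gcdB n (∑ i, m i : ℕ) * k : ℤ)) := by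
    rw [hM, T, mul_zpow, ← zpow_mul, ← zpow_mul, zpow_add₀ h.x_ne, zpow_add₀ h.w_ne, zpow_natCast]
    ring
  rw [h8, D_mul h hCc (mul_ne_zero (zpow_ne_zero _ h.x_ne) (zpow_ne_zero _ h.w_ne)), D_C h hc,
    zero_add, D_mul h (zpow_ne_zero _ h.x_ne) (zpow_ne_zero _ h.w_ne), D_zpow h h.x_ne,
    D_zpow h h.w_ne, D_X h, D_w h] at hDM
  have h9 := hV.mono_small h (A := (q j₀).intDegree + -Int.gcdA n (∑ i, m i : ℕ) * k)
    (B := (j₀ : ℕ) + -Int.gcdB n (∑ i, m i : ℕ) * k) (by linarith)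
  have h10 : z * T K n (∑ i, m i) w ^ k - algebraMap K[X] L (C c) =
      (z - M) * T K n (∑ i, m i) w ^ k + algebraMap K[X] L (C c) *
      (x ^ ((q j₀).intDegree + -Int.gcdA n (∑ i, m i : ℕ) * k) *
        w ^ ((j₀ : ℕ) + -Int.gcdB n (∑ i, m i : ℕ) * k : ℤ) - 1) := by
    have := h8
    linear_combination h8
  rw [h10]
  refine Valuation.map_add_lt _ h6 ?_
  rw [map_mul, hV.const c hc, one_mul]
  exact h9

end T

end Pool.Agent.Helper91.SE
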