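import Pool.Agent.Helper91.Section.SE.RedCls
import Pool.Agent.Helper91.Section.SE.C1

/-!
# Inertia acts trivially on the classes of `n`-power order, and Frobenius fixes only finitely many
-/

universe u

namespace Pool.Agent.Helper91.SE

open Polynomial nonZeroDivisors

theorem isAlgClosed_residue {E : Type u} [Field E] [IsAlgClosed E] (O : ValuationSubring E) :
    IsAlgClosed (IsLocalRing.ResidueField O) := by
  refine IsAlgClosed.of_exists_root _ fun p hp hirr => ?_
  have h1 : p ∈ lifts (IsLocalRing.residue O) := by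
    rw [lifts_iff_coeff_lifts]
    intro n
    exact IsLocalRing.residue_surjective _
  obtain ⟨q, hq, hdeg, hqm⟩ := lifts_and_natDegree_eq_and_monic h1 hp
  have hdeg0 : p.natDegree ≠ 0 := hirr.natDegree_pos.ne'
  obtain ⟨z, hz⟩ := IsAlgClosed.exists_root (q.map O.subtype) (by
    rw [degree_eq_natDegree (hqm.map _).ne_zero, hqm.natDegree_map, hdeg]
    exact_mod_cast hdeg0)
  have hzint : IsIntegral O z := by
    refine ⟨q, hqm, ?_⟩
    rw [IsRoot.def, eval_map] at hz
    exact hz
  obtain ⟨z', hz'⟩ := IsIntegrallyClosed.algebraMap_eq_of_integral hzint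
  refine ⟨IsLocalRing.residue O z', ?_⟩
  rw [← hq, eval_map, eval₂_at_apply]
  have h3 : eval z' q = 0 := by
    apply O.subtype_injective
    rw [map_zero]
    rw [IsRoot.def, eval_map] at hz
    have h4 : O.subtype z' = z := hz'
    rw [← h4, eval₂_at_apply] at hz
    exact hz
  rw [h3, map_zero]

section

variable {E L : Type u} [Field E] [Field L] [Algebra E[X] L] [Algebra (RatFunc E) L]
    [IsScalarTower E[X] (RatFunc E) L] [IsAlgClosed E]
    {n : ℕ} {s : ℕ} {e : Fin s → E} {m : Fin s → ℕ} {w : L} (h : IsCyc E L n e m w)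
    (O : ValuationSubring E) (hn : O.valuation (n : E) = 1) (he : ∀ i, e i ∈ O)
    (hee : ∀ i j, i ≠ j → O.valuation (e i - e j) = 1)

include h hn he hee

/-- inertia acts trivially on the classes of `n`-power order -/
theorem inertia_cls {τ : E ≃+* E} (hτ : ∀ z ∈ O, O.valuation (τ z - z) < 1)
    {φ : L ≃+* L} (hφ : IsSemi τ w φ) {c : ClassGroup (integralClosure E[X] L)}
    (hc : ∃ k : ℕ, c ^ n ^ k = 1) : ClassGroup.mulEquiv hφ.R c = c := by
  obtain ⟨VL, hw, _, _, _, hr, hb⟩ := exists_red h O hn he hee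
  have := isAlgClosed_residue O
  have := h.isDedekindDomain
  have := hb.isDedekindDomain
  have hτO : ∀ c : O, ∃ hc : τ c ∈ O, IsLocalRing.residue O ⟨τ c, hc⟩ =
      RingHom.id _ (IsLocalRing.residue O c) := by
    intro c
    have h1 := hτ c c.2
    have h2 : τ c - c ∈ O := (O.valuation_le_one_iff _).1 h1.le
    have h3 : τ c ∈ O := by
      have h4 := add_mem h2 c.2
      rwa [sub_add_cancel] at h4
    refine ⟨h3, ?_⟩
    rw [RingHom.id_apply, ← sub_eq_zero, ← map_sub, IsLocalRing.residue_eq_zero_iff,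
      O.valuation_lt_one_iff]
    exact h1
  have hcomp : ∀ z, Compat (IsLocalRing.residue VL) (φ : L →+* L)
      (RingHom.id (IsLocalRing.ResidueField VL)) z := by
    refine compat_all hr h he hw hb hτO hφ.poly (fun p => ?_) ?_
    · rw [Polynomial.map_id, RingHom.id_apply]
    · intro hw'
      have h1 : (φ : L →+* L) w = w := hφ.w
      refine ⟨by rw [h1]; exact hw, ?_⟩
      rw [RingHom.id_apply]
      congr 1
      exact Subtype.ext h1
  obtain ⟨d, hd⟩ := RR.exists h hr he hw hb hc
  have h1 := RR.map hr hcomp hφ.R (RingEquiv.refl _) (fun z => rfl) (fun z => rfl) hd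
  have h2 : ClassGroup.mulEquiv (RingEquiv.refl
      (integralClosure (IsLocalRing.ResidueField O)[X] (IsLocalRing.ResidueField VL))) d = d := by
    obtain ⟨J, hJ, rfl⟩ := exists_ideal_rep d
    rw [mulEquiv_mk0 (RingEquiv.refl _) ⟨J, hJ⟩ (map_mem_nzd _ (nonZeroDivisors.ne_zero hJ))]
    congr 1
    apply Subtype.ext
    change J.map (RingEquiv.refl _) = J
    ext z
    rw [Ideal.mem_map_of_equiv]
    constructor
    · rintro ⟨y, hy, rfl⟩; exact hy
    · intro hz; exact ⟨z, hz, rfl⟩
  rw [h2] at h1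
  exact RR.inj h hr he hw hb h1 hd

/-- Frobenius fixes only finitely many classes of `n`-power order -/
theorem frob_finite {γ : E ≃+* E} {q : ℕ} (hq : 1 < q)
    (hγ : ∀ z ∈ O, O.valuation (γ z - z ^ q) < 1) (hγe : ∀ i, γ (e i) = e i)
    {φ : L ≃+* L} (hφ : IsSemi γ w φ) :
    {c : ClassGroup (integralClosure E[X] L) |
      (∃ k : ℕ, c ^ n ^ k = 1) ∧ ClassGroup.mulEquiv hφ.R c = c}.Finite := by
  obtain ⟨VL, hw, _, _, _, hr, hb⟩ := exists_red h O hn he hee
  have hac := isAlgClosed_residue O
  have := h.isDedekindDomain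
  have := hb.isDedekindDomain
  have hγO : ∀ c : O, ∃ hc : γ c ∈ O, IsLocalRing.residue O ⟨γ c, hc⟩ =
      (IsLocalRing.residue O c) ^ q := by
    intro c
    have h1 := hγ c c.2
    have h2 : γ c - (c : E) ^ q ∈ O := (O.valuation_le_one_iff _).1 h1.le
    have h3 : γ c ∈ O := by
      have h4 := add_mem h2 (pow_mem c.2 q)
      rwa [sub_add_cancel] at h4
    refine ⟨h3, ?_⟩
    rw [← map_pow, ← sub_eq_zero, ← map_sub, IsLocalRing.residue_eq_zero_iff,
      O.valuation_lt_one_iff]
    exact h1
  -- the Frobenius automorphism of the residue field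
  let F : IsLocalRing.ResidueField O →+* IsLocalRing.ResidueField O :=
    { toFun := fun x => x ^ q
      map_one' := one_pow q
      map_mul' := fun x y => mul_pow x y q
      map_zero' := zero_pow (by omega)
      map_add' := fun x y => by
        obtain ⟨a, rfl⟩ := IsLocalRing.residue_surjective x
        obtain ⟨b, rfl⟩ := IsLocalRing.residue_surjective y
        obtain ⟨ha, ha'⟩ := hγO a
        obtain ⟨hb, hb'⟩ := hγO b
        obtain ⟨hab, hab'⟩ := hγO (a + b)
        rw [← map_add, ← hab', ← ha', ← hb', ← map_add]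
        congr 1
        exact Subtype.ext (map_add γ _ _) }
  have hFbij : Function.Bijective F := by
    refine ⟨F.injective, fun x => ?_⟩
    obtain ⟨y, hy⟩ := IsAlgClosed.exists_pow_nat_eq x (show 0 < q by omega)
    exact ⟨y, hy⟩
  let Fe := RingEquiv.ofBijective F hFbij
  have hFe : ∀ x, Fe x = x ^ q := fun x => rfl
  obtain ⟨φb, hφb⟩ := hb.exists_semi Fe (fun i => by
    rw [hFe]
    obtain ⟨h1, h2⟩ := hγO ⟨e i, he i⟩
    rw [← h2]
    congr 1
    exact Subtype.ext (hγe i))
  have hcomp : ∀ z, Compat (IsLocalRing.residue VL) (φ : L →+* L)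
      (φb : IsLocalRing.ResidueField VL →+* IsLocalRing.ResidueField VL) z := by
    refine compat_all hr h he hw hb (τb := (Fe : IsLocalRing.ResidueField O →+*
      IsLocalRing.ResidueField O)) hγO hφ.poly hφb.poly ?_
    intro hw'
    have h1 : (φ : L →+* L) w = w := hφ.w
    refine ⟨by rw [h1]; exact hw, ?_⟩
    refine Eq.trans ?_ hφb.w.symm
    congr 1
    exact Subtype.ext h1
  have hfin := hb.finite_fixed hφb.R hq (fun c => by rw [hφb.R_C, hFe]) hφb.R_x
  choose! d hd using fun (c : ClassGroup (integralClosure E[X] L))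
    (hc : ∃ k : ℕ, c ^ n ^ k = 1) => RR.exists h hr he hw hb hc
  refine Set.Finite.of_finite_image (f := d) (hfin.subset ?_) ?_
  · rintro _ ⟨c, ⟨hc, hcfix⟩, rfl⟩
    have h1 := RR.map hr hcomp hφ.R hφb.R (fun z => rfl) (fun z => rfl) (hd c hc)
    rw [hcfix] at h1
    exact RR.unique h hr he hw hb h1 (hd c hc)
  · rintro c ⟨hc, -⟩ c' ⟨hc', -⟩ hcc
    have h1 := hd c hc
    have h2 := hd c' hc'
    change d c = d c' at hcc
    rw [hcc] at h1
    exact RR.inj h hr he hw hb h1 h2

end

end Pool.Agent.Helper91.SE
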