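import Pool.Agent.Helper91.Section.SE.Ring

/-!
# The primes of the ring of functions, over an algebraically closed field
-/

universe u

namespace Pool.Agent.Helper91.SE

open Polynomial nonZeroDivisors

section Elements

variable {K L : Type u} [Field K] [Field L] [Algebra K[X] L] [Algebra (RatFunc K) L]
    [IsScalarTower K[X] (RatFunc K) L]
    {n : ℕ} {s : ℕ} {e : Fin s → K} {m : Fin s → ℕ} {w : L} (h : IsCyc K L n e m w)

/-- the constants -/
noncomputable def Cst (K L : Type u) [Field K] [Field L] [Algebra K[X] L] :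
    K →+* integralClosure K[X] L :=
  (algebraMap K[X] (integralClosure K[X] L)).comp C

omit [Algebra (RatFunc K) L] [IsScalarTower K[X] (RatFunc K) L] in
theorem Cst_apply (c : K) : Cst K L c = algebraMap K[X] (integralClosure K[X] L) (C c) := rfl

include h

theorem IsCyc.isIntegral_w : IsIntegral K[X] w := by
  refine IsIntegral.of_pow h.prime.pos ?_
  rw [h.eqn]
  exact isIntegral_algebraMap

/-- the regular function `w` -/
def IsCyc.wR : integralClosure K[X] L := ⟨w, h.isIntegral_w⟩

theorem IsCyc.wR_pow : h.wR ^ n = algebraMap K[X] (integralClosure K[X] L) (gpoly e m) :=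
  Subtype.ext h.eqn

/-- the regular functions `w ^ j / ∏ (x - e l) ^ (j m l / n)` -/
theorem IsCyc.exists_basis_elt (j : ℕ) : ∃ b : integralClosure K[X] L,
    algebraMap K[X] (integralClosure K[X] L) (∏ l, (X - C (e l)) ^ (j * m l / n)) * b =
      h.wR ^ j ∧
    b ^ n = algebraMap K[X] (integralClosure K[X] L) (∏ l, (X - C (e l)) ^ (j * m l % n)) := by
  set A : K[X] := ∏ l, (X - C (e l)) ^ (j * m l / n) with hA
  have hA0 : algebraMap K[X] L A ≠ 0 := by
    rw [Ne, map_eq_zero_iff _ (algebraMap_inj (K := K) (L := L))]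
    exact (monic_prod_of_monic _ _ fun i _ => (monic_X_sub_C (e i)).pow _).ne_zero
  have h1 : (w ^ j / algebraMap K[X] L A) ^ n =
      algebraMap K[X] L (∏ l, (X - C (e l)) ^ (j * m l % n)) := by
    rw [div_pow, ← pow_mul, mul_comm j n, pow_mul, h.eqn, div_eq_iff (pow_ne_zero n hA0),
      ← map_pow, ← map_pow, ← map_mul, hA, ← Finset.prod_pow, ← Finset.prod_pow,
      ← Finset.prod_mul_distrib]
    congr 1
    refine Finset.prod_congr rfl fun l _ => ?_
    rw [← pow_mul, ← pow_mul, ← pow_add]
    congr 1
    rw [mul_comm (m l) j, mul_comm (j * m l / n) n]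
    exact (Nat.mod_add_div _ _).symm
  have h2 : IsIntegral K[X] (w ^ j / algebraMap K[X] L A) := by
    refine IsIntegral.of_pow h.prime.pos ?_
    rw [h1]
    exact isIntegral_algebraMap
  refine ⟨⟨_, h2⟩, Subtype.ext ?_, Subtype.ext h1⟩
  change algebraMap K[X] L A * (w ^ j / algebraMap K[X] L A) = w ^ j
  field_simp

/-- the local parameter at the `i`-th branch point -/
theorem IsCyc.exists_param (i : Fin s) : ∃ (t : integralClosure K[X] L) (r : Fin s → ℕ) (j : ℕ),
    algebraMap K[X] (integralClosure K[X] L) (∏ l, (X - C (e l)) ^ (j * m l / n)) * t =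
      h.wR ^ j ∧
    t ^ n = algebraMap K[X] (integralClosure K[X] L)
      ((X - C (e i)) * ∏ l ∈ Finset.univ.erase i, (X - C (e l)) ^ r l) := by
  classical
  have hcop : Nat.Coprime (m i) n :=
    ((Nat.Prime.coprime_iff_not_dvd h.prime).2 fun hd =>
      absurd (Nat.le_of_dvd (h.pos i) hd) (not_le.2 (h.lt i))).symm
  obtain ⟨j, hj⟩ := Nat.exists_mul_mod_eq_one_of_coprime hcop h.prime.one_lt
  obtain ⟨b, hb1, hb⟩ := h.exists_basis_elt j
  refine ⟨b, fun l => j * m l % n, j, hb1, ?_⟩
  rw [hb, ← Finset.mul_prod_erase _ _ (Finset.mem_univ i), mul_comm j (m i), hj.2, pow_one]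

end Elements

section AlgClosed

variable {K L : Type u} [Field K] [Field L] [Algebra K[X] L] [Algebra (RatFunc K) L]
    [IsScalarTower K[X] (RatFunc K) L] [IsAlgClosed K]
    {n : ℕ} {s : ℕ} {e : Fin s → K} {m : Fin s → ℕ} {w : L} (h : IsCyc K L n e m w)

/-- a point: a homomorphism of the ring of functions to `K` which is the identity on `K` -/
structure IsPt (φ : integralClosure K[X] L →+* K) : Prop where
  const : ∀ c : K, φ (Cst K L c) = c

omit [Algebra (RatFunc K) L] [IsScalarTower K[X] (RatFunc K) L] [IsAlgClosed K] in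
theorem IsPt.poly {φ : integralClosure K[X] L →+* K} (hφ : IsPt φ) (p : K[X]) :
    φ (algebraMap K[X] (integralClosure K[X] L) p) =
      p.eval (φ (algebraMap K[X] (integralClosure K[X] L) X)) := by
  have h1 : φ.comp (algebraMap K[X] (integralClosure K[X] L)) =
      evalRingHom (φ (algebraMap K[X] (integralClosure K[X] L) X)) := by
    apply Polynomial.ringHom_ext
    · intro a
      rw [RingHom.comp_apply, coe_evalRingHom, eval_C]
      exact hφ.const a
    · simp
  exact congrArg (fun f : K[X] →+* K => f p) h1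

include h

/-- every nonzero prime is the kernel of a point -/
theorem IsCyc.exists_pt (P : Ideal (integralClosure K[X] L)) [hP : P.IsPrime] (hP0 : P ≠ ⊥) :
    ∃ φ : integralClosure K[X] L →+* K, IsPt φ ∧ RingHom.ker φ = P := by
  have hD := h.isDedekindDomain
  have hmax : P.IsMaximal := hP.isMaximal hP0
  have hfin := h.moduleFinite
  let _ : Field (integralClosure K[X] L ⧸ P) := Ideal.Quotient.field P
  let ψ : K →+* integralClosure K[X] L ⧸ P := (Ideal.Quotient.mk P).comp (Cst K L)
  have hft : ψ.FiniteType := by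
    refine RingHom.FiniteType.comp ?_ (RingHom.FiniteType.comp ?_ ?_)
    · exact RingHom.FiniteType.of_surjective _ Ideal.Quotient.mk_surjective
    · exact RingHom.Finite.finiteType ((RingHom.finite_algebraMap).2 hfin)
    · have h1 : (algebraMap K K[X]).FiniteType :=
        (RingHom.finiteType_algebraMap (A := K) (B := K[X])).2 inferInstance
      exact h1
  let _ : Algebra K (integralClosure K[X] L ⧸ P) := ψ.toAlgebra
  have hft' : Algebra.FiniteType K (integralClosure K[X] L ⧸ P) := hft
  have hfin' : Module.Finite K (integralClosure K[X] L ⧸ P) :=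
    finite_of_finite_type_of_isJacobsonRing _ _
  have hbij : Function.Bijective (algebraMap K (integralClosure K[X] L ⧸ P)) :=
    IsAlgClosed.algebraMap_bijective_of_isIntegral
  let ε : K ≃+* integralClosure K[X] L ⧸ P := RingEquiv.ofBijective ψ hbij
  refine ⟨(ε.symm : integralClosure K[X] L ⧸ P →+* K).comp (Ideal.Quotient.mk P), ⟨fun c => ?_⟩, ?_⟩
  · exact ε.symm_apply_apply c
  · ext z
    rw [RingHom.mem_ker, RingHom.comp_apply]
    change ε.symm _ = 0 ↔ _
    rw [map_eq_zero_iff _ ε.symm.injective, Ideal.Quotient.eq_zero_iff_mem]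

end AlgClosed

end Pool.Agent.Helper91.SE
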