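import Pool.Agent.Helper91.Section.SE.Semi

/-!
# The ramified primes, and Galois automorphisms
-/

universe u

namespace Pool.Agent.Helper91.SE

open Polynomial nonZeroDivisors

section

variable {K L : Type u} [Field K] [Field L] [Algebra K[X] L] [Algebra (RatFunc K) L]
    [IsScalarTower K[X] (RatFunc K) L]
    {n : ℕ} {s : ℕ} {e : Fin s → K} {m : Fin s → ℕ} {w : L} (h : IsCyc K L n e m w)

include h

/-- the ramified primes -/
theorem IsCyc.exists_ram [IsAlgClosed K] : ∃ P : Fin s → Ideal (integralClosure K[X] L),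
    ∀ i, P i ^ n = Ideal.span {algebraMap K[X] (integralClosure K[X] L) (X - C (e i))} := by
  have key : ∀ i, ∃ P : Ideal (integralClosure K[X] L),
      P ^ n = Ideal.span {algebraMap K[X] (integralClosure K[X] L) (X - C (e i))} := by
    intro i
    have h1 : Ideal.span {algebraMap K[X] (integralClosure K[X] L) (X - C (e i))} ≠ ⊤ := by
      rw [Ne, Ideal.span_singleton_eq_top]
      intro hu
      obtain ⟨c, hc, h2⟩ := h.unit_const hu
      have h3 : algebraMap K[X] L (X - C (e i)) = algebraMap K[X] L (C c) := h2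
      have h4 := congrArg natDegree (algebraMap_inj h3)
      rw [natDegree_X_sub_C, natDegree_C] at h4
      exact one_ne_zero h4
    obtain ⟨M, hM, hle⟩ := Ideal.exists_le_maximal _ h1
    have hmem : algebraMap K[X] (integralClosure K[X] L) (X - C (e i)) ∈ M :=
      hle (Ideal.mem_span_singleton_self _)
    have hM0 : M ≠ ⊥ := by
      rintro rfl
      rw [Ideal.mem_bot] at hmem
      have h3 : algebraMap K[X] L (X - C (e i)) = 0 := congrArg Subtype.val hmem
      rw [map_eq_zero_iff _ (algebraMap_inj (K := K) (L := L))] at h3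
      exact X_sub_C_ne_zero _ h3
    have := hM.isPrime
    obtain ⟨φ, hφ, hker⟩ := h.exists_pt M hM0
    have h2 : φ (algebraMap K[X] (integralClosure K[X] L) (X - C (e i))) = 0 := by
      rw [← RingHom.mem_ker, hker]; exact hmem
    rw [hφ.poly, eval_sub, eval_X, eval_C, sub_eq_zero] at h2
    exact ⟨_, (h.fac_ram hφ h2).1.symm⟩
  choose P hP using key
  exact ⟨P, hP⟩

theorem IsCyc.ram_ne_bot {i : Fin s} {P : Ideal (integralClosure K[X] L)}
    (hP : P ^ n = Ideal.span {algebraMap K[X] (integralClosure K[X] L) (X - C (e i))}) :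
    P ≠ ⊥ := by
  rintro rfl
  rw [← Ideal.zero_eq_bot, zero_pow h.prime.ne_zero, Ideal.zero_eq_bot, eq_comm,
    Ideal.span_singleton_eq_bot] at hP
  have h3 : algebraMap K[X] L (X - C (e i)) = 0 := congrArg Subtype.val hP
  rw [map_eq_zero_iff _ (algebraMap_inj (K := K) (L := L))] at h3
  exact X_sub_C_ne_zero _ h3

omit h in
/-- iterates of the standard automorphism -/
theorem IsCyc.iterate_aut {ζ : K} {σ : L ≃ₐ[RatFunc K] L}
    (hσ : σ w = algebraMap K[X] L (C ζ) * w) (j : ℕ) :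
    (σ ^ j) w = algebraMap K[X] L (C (ζ ^ j)) * w := by
  induction j with
  | zero => rw [pow_zero, pow_zero, C_1, map_one, one_mul]; rfl
  | succ j ih =>
    rw [pow_succ', AlgEquiv.mul_apply, ih, map_mul, hσ, pow_succ, C_mul, map_mul]
    have h1 : σ (algebraMap K[X] L (C (ζ ^ j))) = algebraMap K[X] L (C (ζ ^ j)) := by
      rw [algebraMap_eq, AlgEquiv.commutes]
    rw [h1, mul_assoc]

/-- the standard automorphism has order dividing `n` -/
theorem IsCyc.pow_aut {ζ : K} (hζ : ζ ^ n = 1) {σ : L ≃ₐ[RatFunc K] L}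
    (hσ : σ w = algebraMap K[X] L (C ζ) * w) : σ ^ n = 1 := by
  have h1 := IsCyc.iterate_aut hσ n
  rw [hζ, C_1, map_one, one_mul] at h1
  have h2 : ((σ ^ n : L ≃ₐ[RatFunc K] L) : L →+* L) = RingHom.id L := by
    refine h.hom_ext (fun p => ?_) h1
    rw [RingHom.id_apply, algebraMap_eq]
    exact (σ ^ n).commutes _
  exact AlgEquiv.ext fun z => RingHom.congr_fun h2 z

omit h in
theorem map_galR_one (I : Ideal (integralClosure K[X] L)) :
    I.map (galR (1 : L ≃ₐ[RatFunc K] L)) = I := by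
  ext z
  rw [Ideal.mem_map_of_equiv]
  constructor
  · rintro ⟨y, hy, rfl⟩
    exact (show galR (1 : L ≃ₐ[RatFunc K] L) y = y from Subtype.ext rfl) ▸ hy
  · intro hz
    exact ⟨z, hz, Subtype.ext rfl⟩

omit h in
theorem map_galR_mul (σ τ : L ≃ₐ[RatFunc K] L) (I : Ideal (integralClosure K[X] L)) :
    I.map (galR (σ * τ)) = (I.map (galR τ)).map (galR σ) := by
  ext z
  rw [Ideal.mem_map_of_equiv, Ideal.mem_map_of_equiv]
  constructor
  · rintro ⟨y, hy, rfl⟩
    exact ⟨galR τ y, Ideal.mem_map_of_mem _ hy, Subtype.ext rfl⟩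
  · rintro ⟨y, hy, rfl⟩
    rw [Ideal.mem_map_of_equiv] at hy
    obtain ⟨x, hx, rfl⟩ := hy
    exact ⟨x, hx, Subtype.ext rfl⟩

theorem IsCyc.iterate_cls {ζ : K} (hζ : ζ ^ n = 1) {σ : L ≃ₐ[RatFunc K] L}
    (hσ : σ w = algebraMap K[X] L (C ζ) * w) (c : ClassGroup (integralClosure K[X] L)) :
    (ClassGroup.mulEquiv (galR σ))^[n] c = c := by
  have := h.isDedekindDomain
  obtain ⟨I, hI, rfl⟩ := exists_ideal_rep c
  have hI0 : I ≠ ⊥ := nonZeroDivisors.ne_zero hI
  have h1 : ∀ j : ℕ, ∃ hj : I.map (galR (σ ^ j)) ∈ (Ideal (integralClosure K[X] L))⁰,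
      (ClassGroup.mulEquiv (galR σ))^[j] (ClassGroup.mk0 ⟨I, hI⟩) =
      ClassGroup.mk0 ⟨I.map (galR (σ ^ j)), hj⟩ := by
    intro j
    induction j with
    | zero =>
      have h2 : I.map (galR (σ ^ 0)) = I := by
        rw [pow_zero]; exact map_galR_one I
      exact ⟨map_mem_nzd _ hI0, congrArg ClassGroup.mk0 (Subtype.ext h2.symm)⟩
    | succ j ih =>
      obtain ⟨hj, h2⟩ := ih
      refine ⟨map_mem_nzd _ hI0, ?_⟩
      rw [Function.iterate_succ_apply', h2, mulEquiv_mk0 (galR σ) ⟨I.map (galR (σ ^ j)), hj⟩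
        (map_mem_nzd _ (nonZeroDivisors.ne_zero hj))]
      congr 1
      apply Subtype.ext
      change (I.map (galR (σ ^ j))).map (galR σ) = I.map (galR (σ ^ (j + 1)))
      rw [pow_succ', map_galR_mul]
  obtain ⟨hj, h2⟩ := h1 n
  rw [h2]
  congr 1
  apply Subtype.ext
  change I.map (galR (σ ^ n)) = I
  rw [h.pow_aut hζ hσ]
  exact map_galR_one I

end

end Pool.Agent.Helper91.SE
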