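import Pool.Agent.Helper91.Section.SE.Scale
import Pool.Agent.Helper91.Section.SE.Cls
import Pool.Agent.Helper91.Section.SE.DivRed

/-!
# The reduction of torsion ideal classes
-/

universe u

namespace Pool.Agent.Helper91.SE

open Polynomial nonZeroDivisors UniqueFactorizationMonoid

theorem ideal_pow_inj {R : Type*} [CommRing R] [IsDedekindDomain R] {I J : Ideal R} {n : ℕ}
    (hn : n ≠ 0) (hI : I ≠ ⊥) (hJ : J ≠ ⊥) (h : I ^ n = J ^ n) : I = J := by
  classical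
  have h1 := congrArg normalizedFactors h
  rw [normalizedFactors_pow, normalizedFactors_pow] at h1
  have h2 : normalizedFactors I = normalizedFactors J := by
    ext a
    have h3 := congrArg (Multiset.count a) h1
    rw [Multiset.count_nsmul, Multiset.count_nsmul] at h3
    exact Nat.eq_of_mul_eq_mul_left (Nat.pos_of_ne_zero hn) h3
  exact associated_iff_eq.1 ((associated_iff_normalizedFactors_eq_normalizedFactors hI hJ).2 h2)

section

variable {E L κ Lb : Type u} [Field E] [Field L] [Field κ] [Field Lb] [Algebra E[X] L]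
    [Algebra (RatFunc E) L] [IsScalarTower E[X] (RatFunc E) L] [IsAlgClosed E]
    [Algebra κ[X] Lb] [Algebra (RatFunc κ) Lb] [IsScalarTower κ[X] (RatFunc κ) Lb] [IsAlgClosed κ]
    {n : ℕ} {s : ℕ} {e : Fin s → E} {m : Fin s → ℕ} {w : L} (h : IsCyc E L n e m w)
    {O : ValuationSubring E} {VL : ValuationSubring L} {π : O →+* κ} {ρ : VL →+* Lb}
    (hr : IsRed O VL π ρ) (he : ∀ i, e i ∈ O) (hw : w ∈ VL)
    (hb : IsCyc κ Lb n (fun i => π ⟨e i, he i⟩) m (ρ ⟨w, hw⟩))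

/-- `J` is the reduction of the ideal `I`, whose class is of `n`-power order. -/
def RedRel (n : ℕ) (ρ : VL →+* Lb) (I : Ideal (integralClosure E[X] L))
    (J : Ideal (integralClosure κ[X] Lb)) : Prop :=
  I ≠ ⊥ ∧ J ≠ ⊥ ∧ ∃ (k : ℕ) (f : integralClosure E[X] L) (fb : integralClosure κ[X] Lb)
    (hf : (f : L) ∈ VL), I ^ n ^ k = Ideal.span {f} ∧ VL.valuation (f : L) = 1 ∧
      (fb : Lb) = ρ ⟨f, hf⟩ ∧ J ^ n ^ k = Ideal.span {fb}

include h hr hb

theorem exists_redRel {I : Ideal (integralClosure E[X] L)} (hI : I ≠ ⊥) {k : ℕ}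
    {f₀ : integralClosure E[X] L} (hf₀ : I ^ n ^ k = Ideal.span {f₀}) :
    ∃ J : Ideal (integralClosure κ[X] Lb), RedRel n ρ I J := by
  have := h.isDedekindDomain
  have hn0 : n ^ k ≠ 0 := pow_ne_zero k h.prime.ne_zero
  have hf₀0 : f₀ ≠ 0 := by
    rintro rfl
    rw [Ideal.span_singleton_eq_bot.2 rfl] at hf₀
    exact pow_ne_zero _ hI hf₀
  have hf₀0' : (f₀ : L) ≠ 0 := fun h0 => hf₀0 (Subtype.ext h0)
  obtain ⟨c, hc, h1⟩ := hr.exists_scale h he hw hb hf₀0'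
  have hspan : Ideal.span {Cst E L c * f₀} = Ideal.span {f₀} := by
    rw [Ideal.span_singleton_eq_span_singleton, mul_comm]
    exact associated_mul_unit_left f₀ (Cst E L c) ((isUnit_iff_ne_zero.2 hc).map (Cst E L))
  have hmem : ((Cst E L c * f₀ : integralClosure E[X] L) : L) ∈ VL :=
    (VL.valuation_le_one_iff _).1 h1.le
  obtain ⟨fb, hfb, J, hJ⟩ := div_red hr h he hw hb hI (f := Cst E L c * f₀)
    (by rw [hspan, hf₀]) h1 hmem
  refine ⟨J, hI, ?_, k, Cst E L c * f₀, fb, hmem, by rw [hspan, hf₀], h1, hfb, hJ⟩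
  rintro rfl
  rw [← Ideal.zero_eq_bot, zero_pow hn0, Ideal.zero_eq_bot, eq_comm,
    Ideal.span_singleton_eq_bot] at hJ
  rw [hJ] at hfb
  have h2 := (hr.val_eq_one ⟨_, hmem⟩).1 h1
  exact h2 hfb.symm

omit [IsAlgClosed E] [IsAlgClosed κ] h hr hb in
omit [Algebra (RatFunc E) L] [IsScalarTower E[X] (RatFunc E) L] [Algebra (RatFunc κ) Lb] [IsScalarTower κ[X] (RatFunc κ) Lb] in
/-- raising to a power of `n` the relation defining the reduction -/
theorem RedRel.lift_pow {I : Ideal (integralClosure E[X] L)}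
    {J : Ideal (integralClosure κ[X] Lb)} {k : ℕ} {f : integralClosure E[X] L}
    {fb : integralClosure κ[X] Lb} {hf : (f : L) ∈ VL} (h1 : I ^ n ^ k = Ideal.span {f})
    (h2 : VL.valuation (f : L) = 1) (h3 : (fb : Lb) = ρ ⟨f, hf⟩)
    (h4 : J ^ n ^ k = Ideal.span {fb}) (l : ℕ) :
    ∃ (f' : integralClosure E[X] L) (fb' : integralClosure κ[X] Lb) (hf' : (f' : L) ∈ VL),
      I ^ n ^ (k + l) = Ideal.span {f'} ∧ VL.valuation (f' : L) = 1 ∧
      (fb' : Lb) = ρ ⟨f', hf'⟩ ∧ J ^ n ^ (k + l) = Ideal.span {fb'} := by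
  refine ⟨f ^ n ^ l, fb ^ n ^ l, pow_mem hf _, ?_, ?_, ?_, ?_⟩
  · rw [pow_add, pow_mul, h1, Ideal.span_singleton_pow]
  · change VL.valuation ((f : L) ^ n ^ l) = 1
    rw [map_pow, h2, one_pow]
  · change (fb : Lb) ^ n ^ l = _
    rw [h3, ← map_pow]
    rfl
  · rw [pow_add, pow_mul, h4, Ideal.span_singleton_pow]

omit [IsAlgClosed E] [IsAlgClosed κ] h hr hb in
omit [Algebra (RatFunc E) L] [IsScalarTower E[X] (RatFunc E) L] [Algebra (RatFunc κ) Lb] [IsScalarTower κ[X] (RatFunc κ) Lb] in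
/-- two instances of the relation with the same exponent -/
theorem RedRel.common {I I' : Ideal (integralClosure E[X] L)}
    {J J' : Ideal (integralClosure κ[X] Lb)} (hIJ : RedRel n ρ I J) (hIJ' : RedRel n ρ I' J') :
    ∃ (k : ℕ) (f f' : integralClosure E[X] L) (fb fb' : integralClosure κ[X] Lb)
      (hf : (f : L) ∈ VL) (hf' : (f' : L) ∈ VL),
      (I ^ n ^ k = Ideal.span {f} ∧ VL.valuation (f : L) = 1 ∧
        (fb : Lb) = ρ ⟨f, hf⟩ ∧ J ^ n ^ k = Ideal.span {fb}) ∧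
      (I' ^ n ^ k = Ideal.span {f'} ∧ VL.valuation (f' : L) = 1 ∧
        (fb' : Lb) = ρ ⟨f', hf'⟩ ∧ J' ^ n ^ k = Ideal.span {fb'}) := by
  obtain ⟨-, -, k, f, fb, hf, a1, a2, a3, a4⟩ := hIJ
  obtain ⟨-, -, k', f', fb', hf', b1, b2, b3, b4⟩ := hIJ'
  obtain ⟨g, gb, hg, c1⟩ := RedRel.lift_pow a1 a2 a3 a4 k'
  obtain ⟨g', gb', hg', d1⟩ := RedRel.lift_pow b1 b2 b3 b4 k
  refine ⟨k + k', g, g', gb, gb', hg, hg', c1, ?_⟩
  rw [add_comm k k']
  exact d1

omit [IsAlgClosed E] [IsAlgClosed κ] hr in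
theorem RedRel.mul {I I' : Ideal (integralClosure E[X] L)}
    {J J' : Ideal (integralClosure κ[X] Lb)}
    (hIJ : RedRel n ρ I J) (hIJ' : RedRel n ρ I' J') : RedRel n ρ (I * I') (J * J') := by
  have := h.isDedekindDomain
  have := hb.isDedekindDomain
  obtain ⟨k, f, f', fb, fb', hf, hf', ⟨a1, a2, a3, a4⟩, ⟨b1, b2, b3, b4⟩⟩ := hIJ.common hIJ'
  refine ⟨mul_ne_zero hIJ.1 hIJ'.1, mul_ne_zero hIJ.2.1 hIJ'.2.1, k, f * f', fb * fb',
    mul_mem hf hf', ?_, ?_, ?_, ?_⟩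
  · rw [mul_pow, a1, b1, Ideal.span_singleton_mul_span_singleton]
  · change VL.valuation ((f : L) * (f' : L)) = 1
    rw [map_mul, a2, b2, one_mul]
  · change (fb : Lb) * (fb' : Lb) = _
    rw [a3, b3, ← map_mul]
    rfl
  · rw [mul_pow, a4, b4, Ideal.span_singleton_mul_span_singleton]

omit [IsAlgClosed κ] in
/-- equivalent ideals have equivalent reductions -/
theorem RedRel.equiv {I I' : Ideal (integralClosure E[X] L)}
    {J J' : Ideal (integralClosure κ[X] Lb)}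
    (hIJ : RedRel n ρ I J) (hIJ' : RedRel n ρ I' J') {x y : integralClosure E[X] L} (hx : x ≠ 0)
    (hy : y ≠ 0) (hxy : Ideal.span {x} * I = Ideal.span {y} * I') :
    ∃ xb yb : integralClosure κ[X] Lb, xb ≠ 0 ∧ yb ≠ 0 ∧
      Ideal.span {xb} * J = Ideal.span {yb} * J' := by
  have := h.isDedekindDomain
  have := hb.isDedekindDomain
  -- scale `x` and `y`
  have hscale : ∀ x : integralClosure E[X] L, x ≠ 0 → ∃ (x' : integralClosure E[X] L)
      (xb : integralClosure κ[X] Lb) (hx' : (x' : L) ∈ VL), Ideal.span {x'} = Ideal.span {x} ∧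
      VL.valuation (x' : L) = 1 ∧ (xb : Lb) = ρ ⟨x', hx'⟩ := by
    intro x hx
    have hx0' : (x : L) ≠ 0 := fun h0 => hx (Subtype.ext h0)
    obtain ⟨c, hc, h1⟩ := hr.exists_scale h he hw hb hx0'
    have hmem : ((Cst E L c * x : integralClosure E[X] L) : L) ∈ VL :=
      (VL.valuation_le_one_iff _).1 h1.le
    refine ⟨Cst E L c * x, ⟨ρ ⟨_, hmem⟩, integral_red hr h he hw hb _
      (Cst E L c * x).2 hmem⟩, hmem, ?_, h1, rfl⟩
    rw [Ideal.span_singleton_eq_span_singleton, mul_comm]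
    exact associated_mul_unit_left x (Cst E L c) ((isUnit_iff_ne_zero.2 hc).map (Cst E L))
  obtain ⟨x', xb, hx', hxs, hxv, hxb⟩ := hscale x hx
  obtain ⟨y', yb, hy', hys, hyv, hyb⟩ := hscale y hy
  have hxb0 : xb ≠ 0 := by
    rintro rfl
    exact (hr.val_eq_one ⟨_, hx'⟩).1 hxv hxb.symm
  have hyb0 : yb ≠ 0 := by
    rintro rfl
    exact (hr.val_eq_one ⟨_, hy'⟩).1 hyv hyb.symm
  refine ⟨xb, yb, hxb0, hyb0, ?_⟩
  obtain ⟨k, f, f', fb, fb', hf, hf', ⟨a1, a2, a3, a4⟩, ⟨b1, b2, b3, b4⟩⟩ := hIJ.common hIJ'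
  have hn0 : n ^ k ≠ 0 := pow_ne_zero k h.prime.ne_zero
  rw [← hxs, ← hys] at hxy
  have h1 := congrArg (fun I => I ^ n ^ k) hxy
  simp only [mul_pow] at h1
  rw [a1, b1, Ideal.span_singleton_pow, Ideal.span_singleton_pow,
    Ideal.span_singleton_mul_span_singleton, Ideal.span_singleton_mul_span_singleton,
    Ideal.span_singleton_eq_span_singleton] at h1
  obtain ⟨ε, hε⟩ := h1
  obtain ⟨c, hc, hcε⟩ := h.unit_const ε.isUnit
  have hcε' : (ε : integralClosure E[X] L) = Cst E L c := Subtype.ext hcε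
  rw [hcε'] at hε
  have hεL : (x' : L) ^ n ^ k * (f : L) * algebraMap E[X] L (C c) = (y' : L) ^ n ^ k * (f' : L) :=
    congrArg Subtype.val hε
  have hvc : VL.valuation (algebraMap E[X] L (C c)) = 1 := by
    have h2 := congrArg VL.valuation hεL
    simpa only [map_mul, map_pow, hxv, hyv, a2, b2, one_pow, one_mul, mul_one] using h2
  have hcV : algebraMap E[X] L (C c) ∈ VL := (VL.valuation_le_one_iff _).1 hvc.le
  have hcO : c ∈ O := hr.C_mem.1 hcV
  have hcV' : algebraMap E[X] L ((C (⟨c, hcO⟩ : O)).map O.subtype) ∈ VL := by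
    rw [Polynomial.map_C]; exact hcV
  have h3 : (⟨x', hx'⟩ : VL) ^ n ^ k * ⟨f, hf⟩ * ⟨_, hcV'⟩ = ⟨y', hy'⟩ ^ n ^ k * ⟨f', hf'⟩ := by
    apply Subtype.ext
    change (x' : L) ^ n ^ k * (f : L) * algebraMap E[X] L ((C (⟨c, hcO⟩ : O)).map O.subtype) =
      (y' : L) ^ n ^ k * (f' : L)
    rw [Polynomial.map_C]
    exact hεL
  have h4 := congrArg ρ h3
  rw [map_mul, map_mul, map_mul, map_pow, map_pow, ← hxb, ← hyb, ← a3, ← b3, hr.ρ_poly,
    Polynomial.map_C] at h4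
  have hπc : π ⟨c, hcO⟩ ≠ 0 := by
    rw [Ne, hr.π_ker]
    intro h5
    have h6 := (hr.ρ_ker ⟨_, hcV'⟩).1 (by
      rw [hr.ρ_poly, Polynomial.map_C, (hr.π_ker ⟨c, hcO⟩).2 h5, C_0, map_zero])
    have h7 : VL.valuation (algebraMap E[X] L (C c)) < 1 := by
      have h8 : (((⟨_, hcV'⟩ : VL)) : L) = algebraMap E[X] L (C c) := by
        change algebraMap E[X] L ((C (⟨c, hcO⟩ : O)).map O.subtype) = _
        rw [Polynomial.map_C]; rfl
      rw [← h8]; exact h6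
    rw [hvc] at h7
    exact lt_irrefl _ h7
  have h5 : xb ^ n ^ k * fb * Cst κ Lb (π ⟨c, hcO⟩) = yb ^ n ^ k * fb' := Subtype.ext h4
  have h6 : (Ideal.span {xb} * J) ^ n ^ k = (Ideal.span {yb} * J') ^ n ^ k := by
    rw [mul_pow, mul_pow, a4, b4, Ideal.span_singleton_pow, Ideal.span_singleton_pow,
      Ideal.span_singleton_mul_span_singleton, Ideal.span_singleton_mul_span_singleton, ← h5,
      Ideal.span_singleton_eq_span_singleton]
    exact (associated_mul_unit_left _ _ ((isUnit_iff_ne_zero.2 hπc).map (Cst κ Lb))).symm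
  refine ideal_pow_inj hn0 ?_ ?_ h6
  · exact mul_ne_zero (by rwa [Ne, Ideal.zero_eq_bot, Ideal.span_singleton_eq_bot]) hIJ.2.1
  · exact mul_ne_zero (by rwa [Ne, Ideal.zero_eq_bot, Ideal.span_singleton_eq_bot]) hIJ'.2.1

omit [IsAlgClosed E] [IsAlgClosed κ] h hr hb in
omit [Algebra (RatFunc E) L] [IsScalarTower E[X] (RatFunc E) L] [Algebra (RatFunc κ) Lb]
  [IsScalarTower κ[X] (RatFunc κ) Lb] in
/-- functoriality -/
theorem RedRel.map {I : Ideal (integralClosure E[X] L)}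
    {J : Ideal (integralClosure κ[X] Lb)} (hIJ : RedRel n ρ I J)
    (φ : integralClosure E[X] L ≃+* integralClosure E[X] L)
    (φb : integralClosure κ[X] Lb ≃+* integralClosure κ[X] Lb)
    (hφ : ∀ (z : integralClosure E[X] L) (hz : (z : L) ∈ VL), ∃ hz' : (φ z : L) ∈ VL,
      ∀ zb : integralClosure κ[X] Lb, (zb : Lb) = ρ ⟨z, hz⟩ → (φb zb : Lb) = ρ ⟨φ z, hz'⟩)
    (hv : ∀ z : integralClosure E[X] L, VL.valuation (z : L) = 1 →
      VL.valuation (φ z : L) = 1) :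
    RedRel n ρ (I.map φ) (J.map φb) := by
  obtain ⟨hI, hJ, k, f, fb, hf, h1, h2, h3, h4⟩ := hIJ
  obtain ⟨hf', h5⟩ := hφ f hf
  refine ⟨?_, ?_, k, φ f, φb fb, hf', ?_, hv f h2, h5 fb h3, ?_⟩
  · exact fun h0 => hI ((Ideal.map_eq_bot_iff_of_injective φ.injective).1 h0)
  · exact fun h0 => hJ ((Ideal.map_eq_bot_iff_of_injective φb.injective).1 h0)
  · rw [← Ideal.map_pow, h1, Ideal.map_span, Set.image_singleton]
  · rw [← Ideal.map_pow, h4, Ideal.map_span, Set.image_singleton]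

end

end Pool.Agent.Helper91.SE
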