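import Pool.Agent.Helper91.Section.SE.Semi
import Pool.Agent.Helper91.Section.SE.Scale

/-!
# Automorphisms and reduction
-/

universe u

namespace Pool.Agent.Helper91.SE

open Polynomial

section

variable {E L κ Lb : Type u} [Field E] [Field L] [Field κ] [Field Lb] [Algebra E[X] L]
    [Algebra (RatFunc E) L] [IsScalarTower E[X] (RatFunc E) L]
    [Algebra κ[X] Lb] [Algebra (RatFunc κ) Lb] [IsScalarTower κ[X] (RatFunc κ) Lb]
    {O : ValuationSubring E} {VL : ValuationSubring L} {π : O →+* κ} {ρ : VL →+* Lb}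
    (hr : IsRed O VL π ρ)
    {n : ℕ} {s : ℕ} {e : Fin s → E} {m : Fin s → ℕ} {w : L} (h : IsCyc E L n e m w)
    (he : ∀ i, e i ∈ O) (hw : w ∈ VL)
    (hb : IsCyc κ Lb n (fun i => π ⟨e i, he i⟩) m (ρ ⟨w, hw⟩))

/-- `φ` is compatible with `φb` at `z` -/
def Compat (ρ : VL →+* Lb) (φ : L →+* L) (φb : Lb →+* Lb) (z : L) : Prop :=
  ∀ hz : z ∈ VL, ∃ hz' : φ z ∈ VL, ρ ⟨φ z, hz'⟩ = φb (ρ ⟨z, hz⟩)

omit [Algebra (RatFunc E) L] [IsScalarTower E[X] (RatFunc E) L] [Algebra (RatFunc κ) Lb]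
  [IsScalarTower κ[X] (RatFunc κ) Lb] [Algebra E[X] L] [Algebra κ[X] Lb] in
theorem Compat.add' {φ : L →+* L} {φb : Lb →+* Lb} {z z' : L} (hz : z ∈ VL) (hz' : z' ∈ VL)
    (h1 : Compat ρ φ φb z) (h2 : Compat ρ φ φb z') : Compat ρ φ φb (z + z') := by
  intro _
  obtain ⟨a, ha⟩ := h1 hz
  obtain ⟨b, hb⟩ := h2 hz'
  refine ⟨by rw [map_add]; exact add_mem a b, ?_⟩
  have h3 : (⟨φ (z + z'), by rw [map_add]; exact add_mem a b⟩ : VL) = ⟨φ z, a⟩ + ⟨φ z', b⟩ :=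
    Subtype.ext (map_add _ _ _)
  have h4 : (⟨z + z', add_mem hz hz'⟩ : VL) = ⟨z, hz⟩ + ⟨z', hz'⟩ := rfl
  rw [h3, h4, map_add, map_add, ha, hb, map_add]

omit [Algebra (RatFunc E) L] [IsScalarTower E[X] (RatFunc E) L] [Algebra (RatFunc κ) Lb]
  [IsScalarTower κ[X] (RatFunc κ) Lb] [Algebra E[X] L] [Algebra κ[X] Lb] in
theorem Compat.mul' {φ : L →+* L} {φb : Lb →+* Lb} {z z' : L} (hz : z ∈ VL) (hz' : z' ∈ VL)
    (h1 : Compat ρ φ φb z) (h2 : Compat ρ φ φb z') : Compat ρ φ φb (z * z') := by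
  intro _
  obtain ⟨a, ha⟩ := h1 hz
  obtain ⟨b, hb⟩ := h2 hz'
  refine ⟨by rw [map_mul]; exact mul_mem a b, ?_⟩
  have h3 : (⟨φ (z * z'), by rw [map_mul]; exact mul_mem a b⟩ : VL) = ⟨φ z, a⟩ * ⟨φ z', b⟩ :=
    Subtype.ext (map_mul _ _ _)
  have h4 : (⟨z * z', mul_mem hz hz'⟩ : VL) = ⟨z, hz⟩ * ⟨z', hz'⟩ := rfl
  rw [h3, h4, map_mul, map_mul, ha, hb, map_mul]

omit [Algebra (RatFunc E) L] [IsScalarTower E[X] (RatFunc E) L] [Algebra (RatFunc κ) Lb]
  [IsScalarTower κ[X] (RatFunc κ) Lb] [Algebra E[X] L] [Algebra κ[X] Lb] in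
theorem Compat.one' {φ : L →+* L} {φb : Lb →+* Lb} : Compat ρ φ φb 1 := by
  intro _
  refine ⟨by rw [map_one]; exact one_mem _, ?_⟩
  have h3 : (⟨φ 1, by rw [map_one]; exact one_mem _⟩ : VL) = 1 := Subtype.ext (map_one _)
  have h4 : (⟨1, one_mem _⟩ : VL) = 1 := rfl
  rw [h3, h4, map_one, map_one]

omit [Algebra (RatFunc E) L] [IsScalarTower E[X] (RatFunc E) L] [Algebra (RatFunc κ) Lb]
  [IsScalarTower κ[X] (RatFunc κ) Lb] [Algebra E[X] L] [Algebra κ[X] Lb] in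
theorem Compat.pow' {φ : L →+* L} {φb : Lb →+* Lb} {z : L} (hz : z ∈ VL)
    (h1 : Compat ρ φ φb z) (j : ℕ) : Compat ρ φ φb (z ^ j) := by
  induction j with
  | zero => rw [pow_zero]; exact Compat.one'
  | succ j ih => rw [pow_succ]; exact ih.mul' (pow_mem hz j) hz h1

omit [Algebra (RatFunc E) L] [IsScalarTower E[X] (RatFunc E) L] [Algebra (RatFunc κ) Lb]
  [IsScalarTower κ[X] (RatFunc κ) Lb] [Algebra E[X] L] [Algebra κ[X] Lb] in
theorem Compat.zero' {φ : L →+* L} {φb : Lb →+* Lb} : Compat ρ φ φb 0 := by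
  intro _
  refine ⟨by rw [map_zero]; exact zero_mem _, ?_⟩
  have h3 : (⟨φ 0, by rw [map_zero]; exact zero_mem _⟩ : VL) = 0 := Subtype.ext (map_zero _)
  have h4 : (⟨0, zero_mem _⟩ : VL) = 0 := rfl
  rw [h3, h4, map_zero, map_zero]

include hr

omit [Algebra (RatFunc E) L] [IsScalarTower E[X] (RatFunc E) L] [Algebra (RatFunc κ) Lb]
  [IsScalarTower κ[X] (RatFunc κ) Lb] in
/-- the values one are preserved -/
theorem Compat.val_one {φ : L →+* L} {φb : Lb →+* Lb} {z : L} (hc : Compat ρ φ φb z)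
    (hz : VL.valuation z = 1) : VL.valuation (φ z) = 1 := by
  have hzV : z ∈ VL := (VL.valuation_le_one_iff _).1 hz.le
  obtain ⟨hz', h1⟩ := hc hzV
  have h2 : ρ ⟨z, hzV⟩ ≠ 0 := (hr.val_eq_one ⟨z, hzV⟩).1 hz
  refine (hr.val_eq_one ⟨φ z, hz'⟩).2 ?_
  rw [h1]
  exact (map_ne_zero φb).2 h2

variable {τ : E ≃+* E} {τb : κ →+* κ}
  (hτO : ∀ c : O, ∃ hc : τ c ∈ O, π ⟨τ c, hc⟩ = τb (π c))
  {φ : L →+* L} (hφ : ∀ p : E[X], φ (algebraMap E[X] L p) = algebraMap E[X] L (p.map (τ : E →+* E)))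
  {φb : Lb →+* Lb} (hφb : ∀ p : κ[X], φb (algebraMap κ[X] Lb p) = algebraMap κ[X] Lb (p.map τb))

include hτO hφ hφb

omit [Algebra (RatFunc E) L] [IsScalarTower E[X] (RatFunc E) L] [Algebra (RatFunc κ) Lb]
  [IsScalarTower κ[X] (RatFunc κ) Lb] in
theorem compat_poly (p : O[X]) : Compat ρ φ φb (algebraMap E[X] L (p.map O.subtype)) := by
  intro hp
  let τO : O →+* O := ((τ : E →+* E).comp O.subtype).codRestrict O fun c => (hτO c).choose
  have h1 : (p.map O.subtype).map (τ : E →+* E) = (p.map τO).map O.subtype := by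
    rw [Polynomial.map_map, Polynomial.map_map]; rfl
  have h2 : (p.map τO).map π = (p.map π).map τb := by
    rw [Polynomial.map_map, Polynomial.map_map]
    congr 1
    refine RingHom.ext fun c => ?_
    exact (hτO c).choose_spec
  have h3 : φ (algebraMap E[X] L (p.map O.subtype)) = algebraMap E[X] L ((p.map τO).map O.subtype) := by
    rw [hφ, h1]
  have h4 : algebraMap E[X] L ((p.map τO).map O.subtype) ∈ VL := by
    rw [hr.mem_poly]; intro i; rw [coeff_map]; exact ((p.map τO).coeff i).2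
  refine ⟨by rw [h3]; exact h4, ?_⟩
  have h5 : (⟨φ (algebraMap E[X] L (p.map O.subtype)), by rw [h3]; exact h4⟩ : VL) = ⟨_, h4⟩ :=
    Subtype.ext h3
  rw [h5, hr.ρ_poly, h2, hr.ρ_poly, hφb]

theorem compat_ratFunc (q : RatFunc E) : Compat ρ φ φb (algebraMap (RatFunc E) L q) := by
  intro hq
  obtain ⟨p, r, hr', h4⟩ := hr.exists_frac hq
  have hrV : algebraMap E[X] L (r.map O.subtype) ∈ VL := by
    rw [hr.mem_poly]; intro i; rw [coeff_map]; exact (r.coeff i).2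
  have hpV : algebraMap E[X] L (p.map O.subtype) ∈ VL := by
    rw [hr.mem_poly]; intro i; rw [coeff_map]; exact (p.coeff i).2
  have hcr := compat_poly hr hτO hφ hφb r
  have hcp := compat_poly hr hτO hφ hφb p
  have hv1 : VL.valuation (φ (algebraMap E[X] L (r.map O.subtype))) = 1 :=
    hcr.val_one hr (hr.val_poly_eq_one hr')
  obtain ⟨hrV', hr1⟩ := hcr hrV
  obtain ⟨hpV', hp1⟩ := hcp hpV
  have h5 : φ (algebraMap (RatFunc E) L q) * φ (algebraMap E[X] L (r.map O.subtype)) =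
      φ (algebraMap E[X] L (p.map O.subtype)) := by rw [← map_mul, h4]
  have hqV' : φ (algebraMap (RatFunc E) L q) ∈ VL := by
    have h6 := congrArg VL.valuation h5
    rw [map_mul, hv1, mul_one] at h6
    rw [← VL.valuation_le_one_iff, h6]
    exact (VL.valuation_le_one_iff _).2 hpV'
  refine ⟨hqV', ?_⟩
  have h6 : (⟨_, hq⟩ : VL) * ⟨_, hrV⟩ = ⟨_, hpV⟩ := Subtype.ext h4
  have h7 : (⟨_, hqV'⟩ : VL) * ⟨_, hrV'⟩ = ⟨_, hpV'⟩ := Subtype.ext h5
  have h8 := congrArg ρ h6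
  have h9 := congrArg ρ h7
  rw [map_mul] at h8 h9
  rw [hr1, hp1, ← h8, map_mul φb] at h9
  refine mul_right_cancel₀ ?_ h9
  rw [Ne, map_eq_zero]
  exact (hr.val_eq_one ⟨_, hrV⟩).1 (hr.val_poly_eq_one hr')

include h hb

/-- Automorphisms of `L` preserving the constants of the valuation ring are compatible with the
reduction. -/
theorem compat_all (hφw : Compat ρ φ φb w) (z : L) : Compat ρ φ φb z := by
  intro hz
  obtain ⟨q, hq⟩ := h.exists_rep z
  have hqV : ∀ j, algebraMap (RatFunc E) L (q j) ∈ VL := hr.rep_mem he hw hb (hq ▸ hz)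
  have key : ∀ S : Finset (Fin n), (∑ j ∈ S, algebraMap (RatFunc E) L (q j) * w ^ (j : ℕ)) ∈ VL ∧
      Compat ρ φ φb (∑ j ∈ S, algebraMap (RatFunc E) L (q j) * w ^ (j : ℕ)) := by
    classical
    intro S
    induction S using Finset.induction_on with
    | empty =>
      rw [Finset.sum_empty]
      exact ⟨zero_mem _, Compat.zero'⟩
    | insert a S ha ih =>
      rw [Finset.sum_insert ha]
      have h1 : algebraMap (RatFunc E) L (q a) * w ^ (a : ℕ) ∈ VL :=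
        mul_mem (hqV a) (pow_mem hw _)
      refine ⟨add_mem h1 ih.1, Compat.add' h1 ih.1 ?_ ih.2⟩
      exact (compat_ratFunc hr hτO hφ hφb (q a)).mul' (hqV a) (pow_mem hw _)
        (hφw.pow' hw _)
  have h1 := (key Finset.univ).2
  rw [← hq] at h1
  exact h1 hz

end

end Pool.Agent.Helper91.SE
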