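import Pool.Agent.Helper91.Section.SE.Red
import Pool.Agent.Helper91.Section.SE.RedSemi
import Pool.Agent.Helper91.Section.SE.Ram
import Pool.Agent.Helper91.Section.SE.Grp
import Pool.Agent.Helper71.SE.Char

/-!
# Injectivity of the reduction on classes of `n`-power order
-/

universe u

namespace Pool.Agent.Helper91.SE

open Polynomial nonZeroDivisors

theorem mem_nzd {R : Type*} [CommRing R] [IsDedekindDomain R] {I : Ideal R} (hI : I ≠ ⊥) :
    I ∈ (Ideal R)⁰ := mem_nonZeroDivisors_iff_ne_zero.2 hI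

theorem mk0_mul {R : Type*} [CommRing R] [IsDedekindDomain R] {I J : Ideal R}
    (hI : I ∈ (Ideal R)⁰) (hJ : J ∈ (Ideal R)⁰) :
    ClassGroup.mk0 ⟨I * J, mul_mem hI hJ⟩ = ClassGroup.mk0 ⟨I, hI⟩ * ClassGroup.mk0 ⟨J, hJ⟩ := by
  rw [← map_mul]
  congr 1

theorem mk0_top {R : Type*} [CommRing R] [IsDedekindDomain R]
    (h : (⊤ : Ideal R) ∈ (Ideal R)⁰) : ClassGroup.mk0 ⟨⊤, h⟩ = 1 :=
  (ClassGroup.mk0_eq_one_iff h).2 ⟨⟨1, Ideal.span_singleton_one.symm⟩⟩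

theorem prod_mk0_pow {R : Type*} [CommRing R] [IsDedekindDomain R] {ι : Type*} [Fintype ι]
    {P : ι → Ideal R} (hP : ∀ i, P i ∈ (Ideal R)⁰) (a : ι → ℕ)
    (hPa : ∏ i, P i ^ a i ∈ (Ideal R)⁰) :
    ∏ i, ClassGroup.mk0 ⟨P i, hP i⟩ ^ a i = ClassGroup.mk0 ⟨∏ i, P i ^ a i, hPa⟩ := by
  simp_rw [← map_pow, ← map_prod]
  congr 1
  apply Subtype.ext
  rw [Submonoid.coe_finsetProd]
  rfl

section

variable {E L κ Lb : Type u} [Field E] [Field L] [Field κ] [Field Lb] [Algebra E[X] L]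
    [Algebra (RatFunc E) L] [IsScalarTower E[X] (RatFunc E) L] [IsAlgClosed E]
    [Algebra κ[X] Lb] [Algebra (RatFunc κ) Lb] [IsScalarTower κ[X] (RatFunc κ) Lb] [IsAlgClosed κ]
    {n : ℕ} {s : ℕ} {e : Fin s → E} {m : Fin s → ℕ} {w : L} (h : IsCyc E L n e m w)
    {O : ValuationSubring E} {VL : ValuationSubring L} {π : O →+* κ} {ρ : VL →+* Lb}
    (hr : IsRed O VL π ρ) (he : ∀ i, e i ∈ O) (hw : w ∈ VL)
    (hb : IsCyc κ Lb n (fun i => π ⟨e i, he i⟩) m (ρ ⟨w, hw⟩))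

/-- the reduction of classes, as a relation -/
def RR (n : ℕ) (ρ : VL →+* Lb) [IsDedekindDomain (integralClosure E[X] L)]
    [IsDedekindDomain (integralClosure κ[X] Lb)] (c : ClassGroup (integralClosure E[X] L))
    (d : ClassGroup (integralClosure κ[X] Lb)) : Prop :=
  ∃ (I : Ideal (integralClosure E[X] L)) (hI : I ∈ (Ideal (integralClosure E[X] L))⁰)
    (J : Ideal (integralClosure κ[X] Lb)) (hJ : J ∈ (Ideal (integralClosure κ[X] Lb))⁰),
    RedRel n ρ I J ∧ ClassGroup.mk0 ⟨I, hI⟩ = c ∧ ClassGroup.mk0 ⟨J, hJ⟩ = d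

variable [IsDedekindDomain (integralClosure E[X] L)] [IsDedekindDomain (integralClosure κ[X] Lb)]

omit [Algebra (RatFunc E) L] [IsScalarTower E[X] (RatFunc E) L] [Algebra (RatFunc κ) Lb]
  [IsScalarTower κ[X] (RatFunc κ) Lb] [IsAlgClosed E] [IsAlgClosed κ] in
theorem RR.one : RR n ρ (1 : ClassGroup (integralClosure E[X] L))
    (1 : ClassGroup (integralClosure κ[X] Lb)) := by
  have h1 : (⊤ : Ideal (integralClosure E[X] L)) ≠ ⊥ := top_ne_bot
  have h2 : (⊤ : Ideal (integralClosure κ[X] Lb)) ≠ ⊥ := top_ne_bot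
  refine ⟨⊤, mem_nzd h1, ⊤, mem_nzd h2, ⟨h1, h2, 0, 1, 1, VL.one_mem, ?_, ?_, ?_, ?_⟩, ?_, ?_⟩
  · rw [pow_zero, pow_one, Ideal.span_singleton_one]
  · exact map_one _
  · exact (map_one ρ).symm
  · rw [pow_zero, pow_one, Ideal.span_singleton_one]
  · exact mk0_top _
  · exact mk0_top _

omit [IsAlgClosed E] [IsAlgClosed κ] in
include h hb in
theorem RR.mul {c c' : ClassGroup (integralClosure E[X] L)}
    {d d' : ClassGroup (integralClosure κ[X] Lb)} (h1 : RR n ρ c d) (h2 : RR n ρ c' d') :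
    RR n ρ (c * c') (d * d') := by
  obtain ⟨I, hI, J, hJ, h1, rfl, rfl⟩ := h1
  obtain ⟨I', hI', J', hJ', h2, rfl, rfl⟩ := h2
  exact ⟨I * I', mul_mem hI hI', J * J', mul_mem hJ hJ', RedRel.mul h he hw hb h1 h2,
    mk0_mul hI hI', mk0_mul hJ hJ'⟩

include h hr hb

omit [IsAlgClosed κ] in
theorem RR.unique {c : ClassGroup (integralClosure E[X] L)}
    {d d' : ClassGroup (integralClosure κ[X] Lb)} (h1 : RR n ρ c d) (h2 : RR n ρ c d') :
    d = d' := by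
  obtain ⟨I, hI, J, hJ, h1, rfl, rfl⟩ := h1
  obtain ⟨I', hI', J', hJ', h2, h3, rfl⟩ := h2
  obtain ⟨x, y, hx, hy, hxy⟩ := ClassGroup.mk0_eq_mk0_iff.1 h3.symm
  obtain ⟨xb, yb, hxb, hyb, hxyb⟩ := h1.equiv h hr he hw hb h2 hx hy hxy
  exact ClassGroup.mk0_eq_mk0_iff.2 ⟨xb, yb, hxb, hyb, hxyb⟩

theorem RR.exists {c : ClassGroup (integralClosure E[X] L)} (hc : ∃ k : ℕ, c ^ n ^ k = 1) :
    ∃ d : ClassGroup (integralClosure κ[X] Lb), RR n ρ c d := by
  obtain ⟨k, hk⟩ := hc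
  obtain ⟨I, hI, rfl⟩ := exists_ideal_rep c
  have hI0 : I ≠ ⊥ := nonZeroDivisors.ne_zero hI
  rw [← map_pow, ClassGroup.mk0_eq_one_iff] at hk
  obtain ⟨⟨f₀, hf₀⟩⟩ := hk
  have hf₀' : I ^ n ^ k = Ideal.span {f₀} := hf₀
  obtain ⟨J, hJ⟩ := exists_redRel h hr he hw hb hI0 hf₀'
  exact ⟨ClassGroup.mk0 ⟨J, mem_nzd hJ.2.1⟩, I, hI, J, mem_nzd hJ.2.1, hJ, rfl, rfl⟩

omit h hr hb [IsAlgClosed κ] [IsAlgClosed E] in
set_option linter.unusedSectionVars false in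
theorem RR.torsion {c : ClassGroup (integralClosure E[X] L)}
    {d : ClassGroup (integralClosure κ[X] Lb)} (h1 : RR n ρ c d) : ∃ k : ℕ, c ^ n ^ k = 1 := by
  obtain ⟨I, hI, J, hJ, ⟨-, -, k, f, fb, hf, h1, -⟩, rfl, rfl⟩ := h1
  refine ⟨k, ?_⟩
  rw [← map_pow, ClassGroup.mk0_eq_one_iff]
  exact ⟨⟨f, h1⟩⟩

omit [IsAlgClosed κ] [IsAlgClosed E] [Algebra (RatFunc E) L] [IsScalarTower E[X] (RatFunc E) L]
  [Algebra (RatFunc κ) Lb] [IsScalarTower κ[X] (RatFunc κ) Lb] h hb in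
/-- functoriality for compatible automorphisms -/
theorem RR.map {φ : L →+* L} {φb : Lb →+* Lb} (hφ : ∀ z, Compat ρ φ φb z)
    (φR : integralClosure E[X] L ≃+* integralClosure E[X] L)
    (φbR : integralClosure κ[X] Lb ≃+* integralClosure κ[X] Lb)
    (hφR : ∀ z, (φR z : L) = φ z) (hφbR : ∀ z, (φbR z : Lb) = φb z)
    {c : ClassGroup (integralClosure E[X] L)}
    {d : ClassGroup (integralClosure κ[X] Lb)} (h1 : RR n ρ c d) :
    RR n ρ (ClassGroup.mulEquiv φR c) (ClassGroup.mulEquiv φbR d) := by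
  obtain ⟨I, hI, J, hJ, h1, rfl, rfl⟩ := h1
  rw [mulEquiv_mk0 φR ⟨I, hI⟩ (map_mem_nzd _ h1.1), mulEquiv_mk0 φbR ⟨J, hJ⟩ (map_mem_nzd _ h1.2.1)]
  refine ⟨_, _, _, _, h1.map φR φbR ?_ ?_, rfl, rfl⟩
  · intro z hz
    obtain ⟨hz', h2⟩ := hφ z hz
    refine ⟨by rw [hφR]; exact hz', fun zb hzb => ?_⟩
    rw [hφbR, hzb, ← h2]
    congr 1
    exact Subtype.ext (hφR z).symm
  · intro z hz
    rw [hφR]
    exact (hφ z).val_one hr hz

theorem RR.inv {c : ClassGroup (integralClosure E[X] L)}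
    {d : ClassGroup (integralClosure κ[X] Lb)} (h1 : RR n ρ c d) : RR n ρ c⁻¹ d⁻¹ := by
  obtain ⟨k, hk⟩ := h1.torsion
  obtain ⟨d', h2⟩ := RR.exists h hr he hw hb (c := c⁻¹) ⟨k, by rw [inv_pow, hk, inv_one]⟩
  have h3 := h1.mul h he hw hb h2
  rw [mul_inv_cancel] at h3
  have h4 := RR.unique h hr he hw hb RR.one h3
  rw [← inv_eq_of_mul_eq_one_right h4.symm] at h2
  exact h2

omit [IsAlgClosed E] [IsAlgClosed κ] [IsDedekindDomain (integralClosure E[X] L)]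
  [IsDedekindDomain (integralClosure κ[X] Lb)] in
/-- the ramified primes reduce to the ramified primes -/
theorem redRel_ram {i : Fin s} {P : Ideal (integralClosure E[X] L)}
    (hP : P ^ n = Ideal.span {algebraMap E[X] (integralClosure E[X] L) (X - C (e i))})
    {Pb : Ideal (integralClosure κ[X] Lb)}
    (hPb : Pb ^ n = Ideal.span {algebraMap κ[X] (integralClosure κ[X] Lb)
      (X - C (π ⟨e i, he i⟩))}) : RedRel n ρ P Pb := by
  have h1 : (X - C (⟨e i, he i⟩ : O)).map O.subtype = X - C (e i) := by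
    rw [Polynomial.map_sub, map_X, map_C]; rfl
  have h2 : (X - C (⟨e i, he i⟩ : O)).map π = X - C (π ⟨e i, he i⟩) := by
    rw [Polynomial.map_sub, map_X, map_C]
  have h3 := hr.val_poly_eq_one (p := X - C (⟨e i, he i⟩ : O)) (by
    rw [h2]; exact X_sub_C_ne_zero _)
  have h4 : algebraMap E[X] L ((X - C (⟨e i, he i⟩ : O)).map O.subtype) ∈ VL :=
    (VL.valuation_le_one_iff _).1 h3.le
  have h5 := hr.ρ_poly (X - C (⟨e i, he i⟩ : O)) h4
  refine ⟨h.ram_ne_bot hP, hb.ram_ne_bot hPb, 1,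
    algebraMap E[X] (integralClosure E[X] L) (X - C (e i)),
    algebraMap κ[X] (integralClosure κ[X] Lb) (X - C (π ⟨e i, he i⟩)), ?_, ?_, ?_, ?_, ?_⟩
  · rw [h1] at h4; exact h4
  · rw [pow_one]; exact hP
  · rw [h1] at h3; exact h3
  · rw [h2] at h5
    refine h5.symm.trans ?_
    congr 1
    exact Subtype.ext (congrArg (algebraMap E[X] L) h1)
  · rw [pow_one]; exact hPb

omit [IsAlgClosed E] [IsAlgClosed κ] in
theorem rr_prod_ram {P : Fin s → Ideal (integralClosure E[X] L)}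
    (hP : ∀ i, P i ^ n = Ideal.span {algebraMap E[X] (integralClosure E[X] L) (X - C (e i))})
    {Pb : Fin s → Ideal (integralClosure κ[X] Lb)}
    (hPb : ∀ i, Pb i ^ n = Ideal.span {algebraMap κ[X] (integralClosure κ[X] Lb)
      (X - C (π ⟨e i, he i⟩))}) (a : Fin s → ℕ) :
    RR n ρ (ClassGroup.mk0 ⟨∏ i, P i ^ a i, mem_nzd (Finset.prod_ne_zero_iff.2 fun i _ =>
        pow_ne_zero _ (h.ram_ne_bot (hP i)))⟩)
      (ClassGroup.mk0 ⟨∏ i, Pb i ^ a i, mem_nzd (Finset.prod_ne_zero_iff.2 fun i _ =>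
        pow_ne_zero _ (hb.ram_ne_bot (hPb i)))⟩) := by
  classical
  have key : ∀ S : Finset (Fin s), RR n ρ (∏ i ∈ S, ClassGroup.mk0 ⟨P i, mem_nzd
      (h.ram_ne_bot (hP i))⟩ ^ a i) (∏ i ∈ S, ClassGroup.mk0 ⟨Pb i, mem_nzd
      (hb.ram_ne_bot (hPb i))⟩ ^ a i) := by
    intro S
    induction S using Finset.induction_on with
    | empty => rw [Finset.prod_empty, Finset.prod_empty]; exact RR.one
    | insert i S hi ih =>
      rw [Finset.prod_insert hi, Finset.prod_insert hi]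
      refine RR.mul h he hw hb ?_ ih
      have h1 : RR n ρ (ClassGroup.mk0 ⟨P i, mem_nzd (h.ram_ne_bot (hP i))⟩)
          (ClassGroup.mk0 ⟨Pb i, mem_nzd (hb.ram_ne_bot (hPb i))⟩) :=
        ⟨_, _, _, _, redRel_ram h hr he hw hb (hP i) (hPb i), rfl, rfl⟩
      have h2 : ∀ j : ℕ, RR n ρ (ClassGroup.mk0 ⟨P i, mem_nzd (h.ram_ne_bot (hP i))⟩ ^ j)
          (ClassGroup.mk0 ⟨Pb i, mem_nzd (hb.ram_ne_bot (hPb i))⟩ ^ j) := by
        intro j
        induction j with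
        | zero => rw [pow_zero, pow_zero]; exact RR.one
        | succ j ih => rw [pow_succ, pow_succ]; exact ih.mul h he hw hb h1
      exact h2 _
  have h1 := key Finset.univ
  rw [prod_mk0_pow, prod_mk0_pow] at h1
  exact h1

/-- the kernel of the reduction is trivial -/
theorem RR.ker {c : ClassGroup (integralClosure E[X] L)}
    (hc : RR n ρ c (1 : ClassGroup (integralClosure κ[X] Lb))) : c = 1 := by
  by_contra hc1
  obtain ⟨k, hk⟩ := hc.torsion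
  obtain ⟨ζ, hζ⟩ := h.root
  have hn0 := h.prime.ne_zero
  -- the root of unity and its reduction
  have hζO : ζ ∈ O := by
    rw [← O.valuation_le_one_iff]
    have h1 : O.valuation ζ ^ n = 1 := by rw [← map_pow, hζ.pow_eq_one, map_one]
    exact ((pow_eq_one_iff_of_nonneg zero_le hn0).1 h1).le
  have hζb : (π ⟨ζ, hζO⟩) ^ n = 1 := by
    rw [← map_pow]
    have h1 : (⟨ζ, hζO⟩ : O) ^ n = 1 := Subtype.ext hζ.pow_eq_one
    rw [h1, map_one]
  obtain ⟨σ, hσ⟩ := h.exists_aut hζ.pow_eq_one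
  obtain ⟨σb, hσb⟩ := hb.exists_aut hζb
  have hcomp : ∀ z, Compat ρ (σ : L →+* L) (σb : Lb →+* Lb) z := by
    refine compat_all hr h he hw hb (τ := RingEquiv.refl E) (τb := RingHom.id κ)
      (fun c => ⟨c.2, rfl⟩) (fun p => ?_) (fun p => ?_) ?_
    · have h1 : p.map ((RingEquiv.refl E : E ≃+* E) : E →+* E) = p := Polynomial.map_id
      rw [h1, algebraMap_eq]
      exact σ.commutes _
    · rw [Polynomial.map_id, algebraMap_eq]
      exact σb.commutes _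
    · intro hw'
      have h2 : algebraMap E[X] L ((C (⟨ζ, hζO⟩ : O)).map O.subtype) ∈ VL := by
        rw [map_C]; exact hr.C_mem.2 hζO
      have h3 : (σ : L →+* L) w = algebraMap E[X] L ((C (⟨ζ, hζO⟩ : O)).map O.subtype) * w := by
        rw [map_C]; exact hσ
      refine ⟨by rw [h3]; exact mul_mem h2 hw, ?_⟩
      have h4 : (⟨(σ : L →+* L) w, by rw [h3]; exact mul_mem h2 hw⟩ : VL) = ⟨_, h2⟩ * ⟨w, hw⟩ :=
        Subtype.ext h3
      rw [h4, map_mul, hr.ρ_poly, map_C]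
      exact hσb.symm
  -- the kernel as a subgroup
  let H : Subgroup (ClassGroup (integralClosure E[X] L)) :=
    { carrier := {c | RR n ρ c 1}
      mul_mem' := fun {a b} ha hb' => by
        have h1 := RR.mul h he hw hb ha hb'
        rw [one_mul] at h1
        exact h1
      one_mem' := RR.one
      inv_mem' := fun {a} ha => by
        have h1 := RR.inv h hr he hw hb ha
        rw [inv_one] at h1
        exact h1 }
  obtain ⟨d, hd, hd1, hdfix⟩ := exists_fixed_of_torsion h.prime (ClassGroup.mulEquiv (galR σ))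
    (h.iterate_cls hζ.pow_eq_one hσ) H (fun a ha => by
      have h1 := RR.map hr hcomp (galR σ) (galR σb) (fun z => coe_galR σ z)
        (fun z => coe_galR σb z) (c := a) (d := 1) ha
      rw [map_one] at h1
      exact h1) hc hc1 hk
  -- its class is that of a product of ramified primes
  obtain ⟨P, hP⟩ := h.exists_ram
  obtain ⟨Pb, hPb⟩ := hb.exists_ram
  obtain ⟨I, hI, rfl⟩ := exists_ideal_rep d
  have hI0 : I ≠ ⊥ := nonZeroDivisors.ne_zero hI
  rw [mulEquiv_mk0 (galR σ) ⟨I, hI⟩ (map_mem_nzd _ hI0)] at hdfix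
  obtain ⟨x, y, hx, hy, hxy⟩ := ClassGroup.mk0_eq_mk0_iff.1 hdfix
  obtain ⟨a, x', y', hx', hy', hxy'⟩ := h.fixed_class hζ hσ hP hI0 ⟨x, y, hx, hy, hxy⟩
  have hprod0 : ∏ i, P i ^ a i ≠ ⊥ := Finset.prod_ne_zero_iff.2 fun i _ =>
        pow_ne_zero _ (h.ram_ne_bot (hP i))
  have hprodb0 : ∏ i, Pb i ^ a i ≠ ⊥ := Finset.prod_ne_zero_iff.2 fun i _ =>
        pow_ne_zero _ (hb.ram_ne_bot (hPb i))
  have h1 : ClassGroup.mk0 ⟨I, hI⟩ = ClassGroup.mk0 ⟨∏ i, P i ^ a i, mem_nzd hprod0⟩ :=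
    ClassGroup.mk0_eq_mk0_iff.2 ⟨x', y', hx', hy', hxy'⟩
  have h2 := rr_prod_ram h hr he hw hb hP hPb a
  have hd' : RR n ρ (ClassGroup.mk0 ⟨I, hI⟩) 1 := hd
  rw [h1] at hd'
  have h3 := RR.unique h hr he hw hb h2 hd'
  rw [ClassGroup.mk0_eq_one_iff] at h3
  obtain ⟨⟨f, hf⟩⟩ := h3
  have h4 := (hb.ram_principal hPb a).1 ⟨f, hf⟩
  obtain ⟨g, hg⟩ := (h.ram_principal hP a).2 h4
  apply hd1
  rw [h1, ClassGroup.mk0_eq_one_iff]
  exact ⟨⟨g, hg⟩⟩

/-- the reduction is injective -/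
theorem RR.inj {c c' : ClassGroup (integralClosure E[X] L)}
    {d : ClassGroup (integralClosure κ[X] Lb)} (h1 : RR n ρ c d) (h2 : RR n ρ c' d) : c = c' := by
  have h3 := h1.mul h he hw hb (h2.inv h hr he hw hb)
  rw [mul_inv_cancel] at h3
  have h4 := h3.ker h hr he hw hb
  rwa [mul_inv_eq_one] at h4

end

end Pool.Agent.Helper91.SE
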