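import Pool.Agent.Helper91.Section.SE.Canon

/-!
# Reduction data
-/

universe u

namespace Pool.Agent.Helper91.SE

open Polynomial

/-- `VL` is the Gauss valuation ring of `L` above the valuation ring `O` of `E`; `π : O → κ` and
`ρ : VL → Lb` are the residue maps. -/
structure IsRed {E L κ Lb : Type u} [Field E] [Field L] [Field κ] [Field Lb] [Algebra E[X] L]
    [Algebra κ[X] Lb] (O : ValuationSubring E) (VL : ValuationSubring L) (π : O →+* κ)
    (ρ : VL →+* Lb) : Prop where
  π_surj : Function.Surjective π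
  π_ker : ∀ c : O, π c = 0 ↔ O.valuation (c : E) < 1
  ρ_surj : Function.Surjective ρ
  ρ_ker : ∀ z : VL, ρ z = 0 ↔ VL.valuation (z : L) < 1
  mem_poly : ∀ p : E[X], algebraMap E[X] L p ∈ VL ↔ ∀ i, p.coeff i ∈ O
  ρ_poly : ∀ (p : O[X]) (hp : algebraMap E[X] L (p.map O.subtype) ∈ VL),
    ρ ⟨_, hp⟩ = algebraMap κ[X] Lb (p.map π)

end Pool.Agent.Helper91.SE
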