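import Pool.Agent.Helper91.Section.SE.Kum

/-!
# Rigidity of the Kummer characters
-/

universe u

namespace Pool.Agent.Helper91.SE

open Polynomial nonZeroDivisors

theorem rel_of_mk0_eq {R : Type*} [CommRing R] [IsDedekindDomain R] {I J : Ideal R}
    (hI : I ∈ (Ideal R)⁰) (hJ : J ∈ (Ideal R)⁰)
    (h : ClassGroup.mk0 ⟨I, hI⟩ = ClassGroup.mk0 ⟨J, hJ⟩) :
    ∃ x y : R, x ≠ 0 ∧ y ≠ 0 ∧ Ideal.span {x} * I = Ideal.span {y} * J := by
  obtain ⟨x, y, hx, hy, hxy⟩ := ClassGroup.mk0_eq_mk0_iff.1 h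
  exact ⟨x, y, hx, hy, hxy⟩

theorem rel_of_mk0_mul_eq {R : Type*} [CommRing R] [IsDedekindDomain R] {I I' J : Ideal R}
    (hI : I ∈ (Ideal R)⁰) (hI' : I' ∈ (Ideal R)⁰) (hJ : J ∈ (Ideal R)⁰)
    (h : ClassGroup.mk0 ⟨I, hI⟩ * ClassGroup.mk0 ⟨I', hI'⟩ = ClassGroup.mk0 ⟨J, hJ⟩) :
    ∃ x y : R, x ≠ 0 ∧ y ≠ 0 ∧ Ideal.span {x} * (I * I') = Ideal.span {y} * J := by
  rw [← mk0_mul hI hI'] at h
  exact rel_of_mk0_eq _ _ h

section

variable {K L : Type u} [Field K] [Field L] [Algebra K[X] L] [Algebra (RatFunc K) L]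
    [IsScalarTower K[X] (RatFunc K) L] [IsAlgClosed K]
    {n : ℕ} {s : ℕ} {e : Fin s → K} {m : Fin s → ℕ} {w : L} (h : IsCyc K L n e m w)

/-- good reduction of the branch points -/
structure GoodAt (n : ℕ) {s : ℕ} (e : Fin s → K) (V : ValuationSubring K) : Prop where
  n : V.valuation (n : K) = 1
  mem : ∀ i, e i ∈ V
  sub : ∀ i j, i ≠ j → V.valuation (e i - e j) = 1

/-- the ideal `I` is fixed by the inertia group of `V` -/
def InertFix (V : ValuationSubring K) (e : Fin s → K) (w : L)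
    (I : Ideal (integralClosure K[X] L)) : Prop :=
  ∀ (τ : K ≃+* K) (φ : L ≃+* L) (hφ : IsSemi τ w φ), (∀ z ∈ V, V.valuation (τ z - z) < 1) →
    (∀ i, τ (e i) = e i) → I.map hφ.R = I

omit [IsAlgClosed K] in
include h in
theorem inertFix_ram {V : ValuationSubring K} {i : Fin s} {P : Ideal (integralClosure K[X] L)}
    (hP : P ^ n = Ideal.span {algebraMap K[X] (integralClosure K[X] L) (X - C (e i))}) :
    InertFix V e w P := by
  intro τ φ hφ _ hτe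
  have := h.isDedekindDomain
  have h0 := h.ram_ne_bot hP
  refine ideal_pow_inj h.prime.ne_zero ?_ h0 ?_
  · exact fun h1 => h0 ((Ideal.map_eq_bot_iff_of_injective hφ.R.injective).1 h1)
  · rw [← Ideal.map_pow, hP, Ideal.map_span, Set.image_singleton]
    congr 2
    refine (hφ.R_poly _).trans ?_
    rw [Polynomial.map_sub, map_X, map_C]
    congr 3
    exact hτe i

include h

theorem kummer_rigid {V : ValuationSubring K} (hV : GoodAt n e V)
    {γ : K ≃+* K} {q : ℕ} (hq : 1 < q) (hγ : ∀ z ∈ V, V.valuation (γ z - z ^ q) < 1)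
    (hγe : ∀ i, γ (e i) = e i) (hγζ : ∀ ζ : K, ζ ^ n = 1 → γ ζ = ζ)
    {V' : ValuationSubring K} (hV' : GoodAt n e V')
    {τ : K ≃+* K} (hτ : ∀ z ∈ V', V'.valuation (τ z - z) < 1) (hτe : ∀ i, τ (e i) = e i)
    {φ ψ : L ≃+* L} (hφ : IsSemi τ w φ) (hψ : IsSemi γ w ψ)
    {Ω : Type u} [Field Ω] [IsAlgClosed Ω] {ι : L →+* Ω} {ξ ρ : Ω →+* Ω}
    (hξ : ∀ z, ξ (ι z) = ι (φ z)) (hρ : ∀ z, ρ (ι z) = ι (ψ z))
    (hroot : ∀ (N : ℕ) (ζ : Ω), ζ ^ n ^ N = 1 → ξ ζ = ζ)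
    (hinv : ∀ (I : Ideal (integralClosure K[X] L)) (g : Ω), InertFix V' e w I →
      KRoot n (∑ i, m i) w ι I g → ξ (ρ g) = ξ g / g * ρ g) :
    ∀ (I : Ideal (integralClosure K[X] L)) (g : Ω), InertFix V' e w I →
      KRoot n (∑ i, m i) w ι I g → ξ g = g := by
  classical
  have := h.isDedekindDomain
  -- the least ideals
  have hex : ∀ c : ClassGroup (integralClosure K[X] L), ∃ J : Ideal (integralClosure K[X] L),
      h.IsLeast J ∧ ∃ hJ : J ∈ (Ideal (integralClosure K[X] L))⁰, ClassGroup.mk0 ⟨J, hJ⟩ = c := by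
    intro c
    obtain ⟨I, hI, hc⟩ := exists_ideal_rep c
    have hI0 : I ≠ ⊥ := nonZeroDivisors.ne_zero hI
    obtain ⟨J, hJ, x, y, hx, hy, hxy⟩ := h.exists_isLeast hI0
    refine ⟨J, hJ, mem_nonZeroDivisors_iff_ne_zero.2 hJ.1, ?_⟩
    rw [← hc, eq_comm]
    exact ClassGroup.mk0_eq_mk0_iff.2 ⟨x, y, hx, hy, hxy⟩
  choose J hJ hJ0 hJc using hex
  -- they are fixed
  have hmap : ∀ {τ : K ≃+* K} {φ : L ≃+* L} (hφ : IsSemi τ w φ)
      (c : ClassGroup (integralClosure K[X] L)),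
      (J c).map hφ.R = J (ClassGroup.mulEquiv hφ.R c) := by
    intro τ φ hφ c
    refine h.isLeast_unique (h.isLeast_map hφ.R (hJ c)) (hJ _) ?_
    have h1 : ClassGroup.mk0 ⟨(J c).map hφ.R, map_mem_nzd hφ.R (hJ c).1⟩ =
        ClassGroup.mk0 ⟨J (ClassGroup.mulEquiv hφ.R c), hJ0 _⟩ := by
      rw [← mulEquiv_mk0 hφ.R ⟨J c, hJ0 c⟩, hJc, hJc]
    exact rel_of_mk0_eq _ _ h1
  have hfix' : ∀ c : ClassGroup (integralClosure K[X] L), (∃ k : ℕ, c ^ n ^ k = 1) →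
      InertFix V' e w (J c) := by
    intro c hc τ φ hφ hτ _
    rw [hmap hφ, inertia_cls h V' hV'.n hV'.mem hV'.sub hτ hφ hc]
  have hfix : ∀ c : ClassGroup (integralClosure K[X] L), (∃ k : ℕ, c ^ n ^ k = 1) →
      (J c).map hφ.R = J c := fun c hc => hfix' c hc τ φ hφ hτ hτe
  -- the roots
  have hrootex : ∀ c : ClassGroup (integralClosure K[X] L), ∃ g : Ω,
      (∃ k : ℕ, c ^ n ^ k = 1) → KRoot n (∑ i, m i) w ι (J c) g := by
    intro c
    by_cases hc : ∃ k : ℕ, c ^ n ^ k = 1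
    · obtain ⟨k, hk⟩ := id hc
      have h1 : ClassGroup.mk0 (⟨J c, hJ0 c⟩ ^ n ^ k) = 1 := by rw [map_pow, hJc, hk]
      rw [ClassGroup.mk0_eq_one_iff] at h1
      obtain ⟨⟨r₀, hr₀⟩⟩ := h1
      have hr₀' : (J c) ^ n ^ k = Ideal.span {r₀} := hr₀
      obtain ⟨g, hg⟩ := exists_kRoot (ι := ι) h (hJ c).1 hr₀'
      exact ⟨g, fun _ => hg⟩
    · exact ⟨1, fun h => absurd h hc⟩
  choose G hG using hrootex
  -- the character
  let χ : ClassGroup (integralClosure K[X] L) → Ωˣ := fun c =>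
    if hc : ξ (G c) / G c ≠ 0 then Units.mk0 _ hc else 1
  have hχ : ∀ c, (∃ k : ℕ, c ^ n ^ k = 1) → ((χ c : Ωˣ) : Ω) = ξ (G c) / G c := by
    intro c hc
    have h0 : ξ (G c) / G c ≠ 0 :=
      div_ne_zero ((map_ne_zero ξ).2 ((hG c hc).ne_zero h)) ((hG c hc).ne_zero h)
    have h1 : χ c = Units.mk0 _ h0 := dif_pos h0
    rw [h1, Units.val_mk0]
  obtain ⟨ζ, hζ⟩ := h.root
  obtain ⟨σ, hσ⟩ := h.exists_aut hζ.pow_eq_one
  have hcomm : ∀ z, hψ.R (galR σ z) = galR σ (hψ.R z) := by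
    have h1 : (ψ : L →+* L).comp ((σ : L ≃+* L) : L →+* L) =
        ((σ : L ≃+* L) : L →+* L).comp (ψ : L →+* L) := by
      have hσp : ∀ p : K[X], σ (algebraMap K[X] L p) = algebraMap K[X] L p := by
        intro p
        rw [algebraMap_eq, AlgEquiv.commutes]
      refine h.hom_ext (fun p => ?_) ?_
      · change ψ (σ (algebraMap K[X] L p)) = σ (ψ (algebraMap K[X] L p))
        rw [hσp, hψ.poly, hσp]
      · change ψ (σ w) = σ (ψ w)
        rw [hσ, map_mul, hψ.w, hψ.poly, hσ, map_C]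
        congr 3
        exact hγζ ζ hζ.pow_eq_one
    intro z
    exact Subtype.ext (RingHom.congr_fun h1 (z : L))
  have hfin := frob_finite h V hV.n hV.mem hV.sub hq hγ hγe hψ
  have hres := h.char_trivial hζ hσ hψ.R hcomm hfin χ (by
      intro c d hc hd
      have hcd : ∃ k : ℕ, (c * d) ^ n ^ k = 1 := by
        obtain ⟨k, hk⟩ := hc
        obtain ⟨l, hl⟩ := hd
        refine ⟨k + l, ?_⟩
        rw [mul_pow, pow_add, pow_mul, hk, one_pow, one_mul, mul_comm, pow_mul, hl, one_pow]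
      apply Units.ext
      rw [Units.val_mul, hχ c hc, hχ d hd, hχ _ hcd]
      obtain ⟨x, y, hx, hy, hxy⟩ := rel_of_mk0_mul_eq (hJ0 c) (hJ0 d) (hJ0 (c * d))
        (by rw [hJc, hJc, hJc])
      exact ((hG c hc).mul_rel h (hG d hd) (hG _ hcd) hx hy hxy hφ hξ (hfix c hc) (hfix d hd)
        (hfix _ hcd) hroot).symm)
    (by
      intro c hc
      have hc' : ∃ k : ℕ, (ClassGroup.mulEquiv hψ.R c) ^ n ^ k = 1 := by
        obtain ⟨k, hk⟩ := hc
        exact ⟨k, by rw [← map_pow, hk, map_one]⟩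
      apply Units.ext
      rw [hχ c hc, hχ _ hc']
      have h1 := (hG c hc).map h hψ hρ
      rw [hmap hψ] at h1
      have h2 := (hG _ hc').indep h h1 one_ne_zero one_ne_zero rfl hφ hξ (hfix _ hc') (hfix _ hc')
        hroot
      rw [h2, hinv (J c) (G c) (hfix' c hc) (hG c hc)]
      have h3 : ρ (G c) ≠ 0 := (map_ne_zero ρ).2 ((hG c hc).ne_zero h)
      rw [mul_div_assoc, div_self h3, mul_one])
  -- conclusion
  intro I g hI hg
  obtain ⟨hI0, k, r, h1, h2, h3⟩ := id hg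
  set c := ClassGroup.mk0 ⟨I, mem_nzd hI0⟩ with hcdef
  have hc : ∃ k : ℕ, c ^ n ^ k = 1 := by
    refine ⟨k, ?_⟩
    rw [hcdef, ← map_pow, ClassGroup.mk0_eq_one_iff]
    exact ⟨⟨r, h1⟩⟩
  have h4 : ClassGroup.mk0 ⟨I, mem_nzd hI0⟩ = ClassGroup.mk0 ⟨J c, hJ0 c⟩ := by rw [hJc]
  obtain ⟨x, y, hx, hy, hxy⟩ := rel_of_mk0_eq _ _ h4
  have h5 := hg.indep h (hG c hc) hx hy hxy hφ hξ (hI τ φ hφ hτ hτe) (hfix c hc) hroot
  have h6 := hres c hc
  have h7 := hχ c hc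
  rw [h6, Units.val_one] at h7
  rw [← h7, div_eq_one_iff_eq (hg.ne_zero h)] at h5
  exact h5

end

end Pool.Agent.Helper91.SE
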