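import Pool.Agent.Helper91.Section.SE.Lead

/-!
# The ring of functions regular away from infinity; canonical elements of ideals
-/

universe u

namespace Pool.Agent.Helper91.SE

open Polynomial nonZeroDivisors

section Ring

variable {K L : Type u} [Field K] [Field L] [Algebra K[X] L] [Algebra (RatFunc K) L]
    [IsScalarTower K[X] (RatFunc K) L]
    {n : ℕ} {s : ℕ} {e : Fin s → K} {m : Fin s → ℕ} {w : L} (h : IsCyc K L n e m w)

include h

theorem IsCyc.isSeparable : Algebra.IsSeparable (RatFunc K) L := by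
  have := h.isGalois
  infer_instance

theorem IsCyc.isDedekindDomain : IsDedekindDomain (integralClosure K[X] L) := by
  have h1 := h.finiteDimensional
  have h2 := h.isSeparable
  exact IsIntegralClosure.isDedekindDomain K[X] (RatFunc K) L (integralClosure K[X] L)

theorem IsCyc.isFractionRing : IsFractionRing (integralClosure K[X] L) L := by
  have h1 := h.finiteDimensional
  exact IsIntegralClosure.isFractionRing_of_finite_extension K[X] (RatFunc K) L
    (integralClosure K[X] L)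

theorem IsCyc.moduleFinite : Module.Finite K[X] (integralClosure K[X] L) := by
  have h1 := h.finiteDimensional
  have h2 := h.isSeparable
  exact IsIntegralClosure.finite K[X] (RatFunc K) L (integralClosure K[X] L)

/-- norms of integral elements are polynomials -/
theorem IsCyc.exists_norm {z : L} (hz : IsIntegral K[X] z) :
    ∃ p : K[X], Algebra.norm (RatFunc K) z = algebraMap K[X] (RatFunc K) p := by
  have h1 := h.finiteDimensional
  have h2 : IsIntegral K[X] (Algebra.norm (RatFunc K) z) := Algebra.isIntegral_norm _ hz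
  obtain ⟨p, hp⟩ := IsIntegrallyClosed.isIntegral_iff.1 h2
  exact ⟨p, hp.symm⟩

theorem IsCyc.D_eq_natDegree {z : L} {p : K[X]}
    (hp : Algebra.norm (RatFunc K) z = algebraMap K[X] (RatFunc K) p) :
    D K z = p.natDegree := by
  rw [D, hp, RatFunc.intDegree_polynomial]

theorem IsCyc.D_nonneg {z : L} (hz : IsIntegral K[X] z) : 0 ≤ D K z := by
  obtain ⟨p, hp⟩ := h.exists_norm hz
  rw [h.D_eq_natDegree hp]
  exact Int.natCast_nonneg _

/-- integral elements of degree zero are constant -/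
theorem IsCyc.const_of_D {z : L} (hz : IsIntegral K[X] z) (h0 : z ≠ 0) (hD : D K z = 0) :
    ∃ c : K, c ≠ 0 ∧ z = algebraMap K[X] L (C c) := by
  obtain ⟨V, hV⟩ := exists_isInf (K := K) (L := L)
  obtain ⟨c, hc, h1⟩ := hV.exists_lc h h0
  rw [hD, zpow_zero, mul_one] at h1
  refine ⟨c, hc, ?_⟩
  by_contra hne
  have h2 : z - algebraMap K[X] L (C c) ≠ 0 := sub_ne_zero.2 hne
  have h3 := (hV.val_lt_one_iff h h2).1 h1
  have h4 : IsIntegral K[X] (z - algebraMap K[X] L (C c)) := hz.sub isIntegral_algebraMap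
  exact absurd (h.D_nonneg h4) (not_le.2 h3)

/-- units are constant -/
theorem IsCyc.unit_const {u : integralClosure K[X] L} (hu : IsUnit u) :
    ∃ c : K, c ≠ 0 ∧ (u : L) = algebraMap K[X] L (C c) := by
  obtain ⟨v, huv⟩ := hu.exists_right_inv
  have huv' : (u : L) * (v : L) = 1 := congrArg Subtype.val huv
  have hu0 : (u : L) ≠ 0 := left_ne_zero_of_mul_eq_one huv'
  have hv0 : (v : L) ≠ 0 := right_ne_zero_of_mul_eq_one huv'
  have h1 := D_mul h hu0 hv0
  rw [huv', D_one] at h1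
  have h2 := h.D_nonneg u.2
  have h3 := h.D_nonneg v.2
  exact h.const_of_D u.2 hu0 (by linarith)

/-- leading coefficient one at infinity -/
def Mon (K : Type u) {L : Type u} [Field K] [Field L] [Algebra K[X] L] [Algebra (RatFunc K) L]
    (n d : ℕ) (w z : L) : Prop :=
  ∀ V : ValuationSubring L, IsInf K V → V.valuation (z * T K n d w ^ D K z - 1) < 1

omit h in
theorem mon_iff (h : IsCyc K L n e m w) {V : ValuationSubring L} (hV : IsInf K V) {z : L} :
    Mon K n (∑ i, m i) w z ↔ V.valuation (z * T K n (∑ i, m i) w ^ D K z - 1) < 1 := by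
  constructor
  · intro h1; exact h1 V hV
  · intro h1 V' hV'
    have h2 := hV.unique h hV'
    subst h2
    exact h1

theorem Mon.ne {z : L} (hz : Mon K n (∑ i, m i) w z) : z ≠ 0 := by
  rintro rfl
  obtain ⟨V, hV⟩ := exists_isInf (K := K) (L := L)
  have h1 := hz V hV
  rw [zero_mul, zero_sub, Valuation.map_neg, map_one] at h1
  exact lt_irrefl _ h1

theorem Mon.one : Mon K n (∑ i, m i) w 1 := by
  obtain ⟨V, hV⟩ := exists_isInf (K := K) (L := L)
  rw [mon_iff h hV, D_one]
  simp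

theorem Mon.mul {z z' : L} (hz : Mon K n (∑ i, m i) w z) (hz' : Mon K n (∑ i, m i) w z') :
    Mon K n (∑ i, m i) w (z * z') := by
  obtain ⟨V, hV⟩ := exists_isInf (K := K) (L := L)
  rw [mon_iff h hV]
  have h1 := Sect.one_mul_small (hz V hV) (hz' V hV)
  rw [D_mul h (Mon.ne h hz) (Mon.ne h hz'), zpow_add₀ h.T_ne]
  convert h1 using 3
  ring

theorem Mon.inv {z : L} (hz : Mon K n (∑ i, m i) w z) : Mon K n (∑ i, m i) w z⁻¹ := by
  obtain ⟨V, hV⟩ := exists_isInf (K := K) (L := L)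
  rw [mon_iff h hV]
  have h1 := small_inv (hz V hV)
  rw [D_inv h (Mon.ne h hz), zpow_neg]
  rwa [mul_inv] at h1

theorem Mon.div {z z' : L} (hz : Mon K n (∑ i, m i) w z) (hz' : Mon K n (∑ i, m i) w z') :
    Mon K n (∑ i, m i) w (z / z') := by
  rw [div_eq_mul_inv]
  exact Mon.mul h hz (Mon.inv h hz')

theorem Mon.pow {z : L} (hz : Mon K n (∑ i, m i) w z) (k : ℕ) : Mon K n (∑ i, m i) w (z ^ k) := by
  induction k with
  | zero => rw [pow_zero]; exact Mon.one h
  | succ k ih => rw [pow_succ]; exact Mon.mul h ih hz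

theorem Mon.const {c : K} (hc : Mon K n (∑ i, m i) w (algebraMap K[X] L (C c))) : c = 1 := by
  have h0 := Mon.ne h hc
  obtain ⟨V, hV⟩ := exists_isInf (K := K) (L := L)
  have hc0 : c ≠ 0 := by
    rintro rfl
    apply h0; simp
  have h1 := hc V hV
  rw [D_C h hc0, zpow_zero, mul_one] at h1
  by_contra hne
  have h2 : algebraMap K[X] L (C c) - 1 = algebraMap K[X] L (C (c - 1)) := by
    rw [C_sub, C_1, map_sub, map_one]
  rw [h2, hV.const _ (sub_ne_zero.2 hne)] at h1
  exact lt_irrefl _ h1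

theorem Mon.exists_mul {z : L} (hz : z ≠ 0) :
    ∃ c : K, c ≠ 0 ∧ Mon K n (∑ i, m i) w (algebraMap K[X] L (C c) * z) := by
  obtain ⟨V, hV⟩ := exists_isInf (K := K) (L := L)
  obtain ⟨c, hc, h1⟩ := hV.exists_lc h hz
  have hCc : algebraMap K[X] L (C c) ≠ 0 := by
    rwa [Ne, map_eq_zero_iff _ (algebraMap_inj (K := K) (L := L)), C_eq_zero]
  have hci : algebraMap K[X] L (C c⁻¹) = (algebraMap K[X] L (C c))⁻¹ := by
    rw [eq_comm, inv_eq_iff_eq_inv, eq_comm, inv_eq_iff_eq_inv]
    refine eq_inv_of_mul_eq_one_left ?_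
    rw [← map_mul, ← C_mul, inv_mul_cancel₀ hc, C_1, map_one]
  refine ⟨c⁻¹, inv_ne_zero hc, ?_⟩
  rw [mon_iff h hV]
  have hCc' : algebraMap K[X] L (C c⁻¹) ≠ 0 := by rw [hci]; exact inv_ne_zero hCc
  rw [D_mul h hCc' hz, D_C h (inv_ne_zero hc), zero_add]
  have h2 : algebraMap K[X] L (C c⁻¹) * z * T K n (∑ i, m i) w ^ D K z - 1 =
      algebraMap K[X] L (C c⁻¹) * (z * T K n (∑ i, m i) w ^ D K z - algebraMap K[X] L (C c)) := by
    rw [mul_sub, hci, inv_mul_cancel₀ hCc]; ring
  rw [h2, map_mul, hV.const _ (inv_ne_zero hc), one_mul]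
  exact h1

/-- monic elements of equal degree have difference of smaller degree -/
theorem Mon.sub_lt {z z' : L} (hz : Mon K n (∑ i, m i) w z) (hz' : Mon K n (∑ i, m i) w z')
    (hD : D K z = D K z') (hne : z ≠ z') : D K (z - z') < D K z := by
  obtain ⟨V, hV⟩ := exists_isInf (K := K) (L := L)
  have h1 := hz V hV
  have h2 := hz' V hV
  have h3 : V.valuation ((z - z') * T K n (∑ i, m i) w ^ D K z) < 1 := by
    have h4 : (z - z') * T K n (∑ i, m i) w ^ D K z = (z * T K n (∑ i, m i) w ^ D K z - 1) -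
        (z' * T K n (∑ i, m i) w ^ D K z' - 1) := by
      rw [hD]; ring
    rw [h4]
    exact (Valuation.map_sub _ _ _).trans_lt (max_lt h1 h2)
  have h0 : z - z' ≠ 0 := sub_ne_zero.2 hne
  rw [hV.val_lt_one_iff h (mul_ne_zero h0 (zpow_ne_zero _ h.T_ne)),
    D_mul h h0 (zpow_ne_zero _ h.T_ne), D_zpow h h.T_ne, D_T h] at h3
  linarith

end Ring

section Canon

variable {K L : Type u} [Field K] [Field L] [Algebra K[X] L] [Algebra (RatFunc K) L]
    [IsScalarTower K[X] (RatFunc K) L]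
    {n : ℕ} {s : ℕ} {e : Fin s → K} {m : Fin s → ℕ} {w : L} (h : IsCyc K L n e m w)

/-- `f` is the canonical element of the ideal `I`: it is monic and of least degree -/
def IsCan (K : Type u) {L : Type u} [Field K] [Field L] [Algebra K[X] L] [Algebra (RatFunc K) L]
    (n d : ℕ) (w : L) (I : Ideal (integralClosure K[X] L)) (f : integralClosure K[X] L) : Prop :=
  f ∈ I ∧ Mon K n d w (f : L) ∧ ∀ g ∈ I, g ≠ 0 → D K (f : L) ≤ D K (g : L)

include h

theorem exists_isCan {I : Ideal (integralClosure K[X] L)} (hI : I ≠ ⊥) :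
    ∃ f, IsCan K n (∑ i, m i) w I f := by
  obtain ⟨g₀, hg₀, hg₀0⟩ := Submodule.exists_mem_ne_zero_of_ne_bot hI
  have hex : ∃ k : ℕ, ∃ g ∈ I, g ≠ 0 ∧ D K (g : L) = k :=
    ⟨(D K (g₀ : L)).toNat, g₀, hg₀, hg₀0, (Int.toNat_of_nonneg (h.D_nonneg g₀.2)).symm⟩
  classical
  obtain ⟨g, hg, hg0, hgD⟩ := Nat.find_spec hex
  have hg0' : (g : L) ≠ 0 := fun h0 => hg0 (Subtype.ext h0)
  obtain ⟨c, hc, hmon⟩ := Mon.exists_mul h hg0'
  refine ⟨algebraMap K[X] (integralClosure K[X] L) (C c) * g, I.mul_mem_left _ hg, hmon, ?_⟩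
  intro g' hg' hg'0
  have h1 : D K ((algebraMap K[X] (integralClosure K[X] L) (C c) * g : integralClosure K[X] L) : L) =
      D K (g : L) := by
    have hCc : algebraMap K[X] L (C c) ≠ 0 := by
      rwa [Ne, map_eq_zero_iff _ (algebraMap_inj (K := K) (L := L)), C_eq_zero]
    have h2 := D_mul h hCc hg0'
    rw [D_C h hc, zero_add] at h2
    exact h2
  rw [h1, hgD]
  have h3 := Nat.find_min' hex ⟨g', hg', hg'0,
    (Int.toNat_of_nonneg (h.D_nonneg g'.2)).symm⟩
  have h4 := Int.toNat_of_nonneg (h.D_nonneg g'.2)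
  omega

theorem isCan_unique {I : Ideal (integralClosure K[X] L)} {f f' : integralClosure K[X] L}
    (hf : IsCan K n (∑ i, m i) w I f) (hf' : IsCan K n (∑ i, m i) w I f') : f = f' := by
  by_contra hne
  have hf0 : f ≠ 0 := fun h0 => Mon.ne h hf.2.1 (by rw [h0]; rfl)
  have hf0' : f' ≠ 0 := fun h0 => Mon.ne h hf'.2.1 (by rw [h0]; rfl)
  have h1 : D K (f : L) = D K (f' : L) :=
    le_antisymm (hf.2.2 f' hf'.1 hf0') (hf'.2.2 f hf.1 hf0)
  have hne' : (f : L) ≠ f' := fun h0 => hne (Subtype.ext h0)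
  have h2 := Mon.sub_lt h hf.2.1 hf'.2.1 h1 hne'
  have h3 := hf.2.2 (f - f') (I.sub_mem hf.1 hf'.1) (sub_ne_zero.2 hne)
  exact absurd h2 (not_lt.2 h3)

end Canon

end Pool.Agent.Helper91.SE
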