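import Pool.Agent.Helper91.Section.SE.Cls

/-!
# Semilinear automorphisms of a cyclic cover
-/

universe u

namespace Pool.Agent.Helper91.SE

open Polynomial nonZeroDivisors

section

variable {K L : Type u} [Field K] [Field L] [Algebra K[X] L] [Algebra (RatFunc K) L]
    [IsScalarTower K[X] (RatFunc K) L]

/-- `φ` acts on the coefficients by `τ` and fixes `x` and `w` -/
structure IsSemi (τ : K ≃+* K) (w : L) (φ : L ≃+* L) : Prop where
  poly : ∀ p : K[X], φ (algebraMap K[X] L p) = algebraMap K[X] L (p.map (τ : K →+* K))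
  w : φ w = w

variable {n : ℕ} {s : ℕ} {e : Fin s → K} {m : Fin s → ℕ} {w : L} (h : IsCyc K L n e m w)

omit [Algebra (RatFunc K) L] [IsScalarTower K[X] (RatFunc K) L] in
theorem gpoly_map (τ : K ≃+* K) (hτ : ∀ i, τ (e i) = e i) :
    (gpoly e m).map (τ : K →+* K) = gpoly e m := by
  rw [gpoly, Polynomial.map_prod]
  refine Finset.prod_congr rfl fun i _ => ?_
  rw [Polynomial.map_pow, Polynomial.map_sub, map_X, map_C]
  congr 3
  exact hτ i

include h

/-- ring homomorphisms out of `L` -/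
theorem IsCyc.exists_hom {A : Type*} [Field A] (ψ₀ : K[X] →+* A) (hψ₀ : Function.Injective ψ₀)
    {w' : A} (hw' : w' ^ n = ψ₀ (gpoly e m)) :
    ∃ φ : L →+* A, (∀ p : K[X], φ (algebraMap K[X] L p) = ψ₀ p) ∧ φ w = w' := by
  have hfd := h.finiteDimensional
  let ψ : RatFunc K →+* A := IsFractionRing.lift (A := K[X]) hψ₀
  have hψ : ∀ p : K[X], ψ (algebraMap K[X] (RatFunc K) p) = ψ₀ p := fun p =>
    IsFractionRing.lift_algebraMap hψ₀ p
  let g := minpoly (RatFunc K) h.pb.gen
  have hg : g = X ^ n - C (algebraMap K[X] (RatFunc K) (gpoly e m)) := by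
    simp only [g]
    rw [h.pb_gen, h.minpoly_eq]
  have h1 : aeval (AdjoinRoot.root g) (minpoly (RatFunc K) h.pb.gen) = 0 := by
    rw [AdjoinRoot.aeval_eq, AdjoinRoot.mk_eq_zero]
  have h2 : aeval h.pb.gen g = 0 := minpoly.aeval _ _
  let E := AdjoinRoot.equiv' g h.pb h1 h2
  have h3 : g.eval₂ ψ w' = 0 := by
    rw [hg, eval₂_sub, eval₂_X_pow, eval₂_C, hψ, hw', sub_self]
  refine ⟨(AdjoinRoot.lift ψ w' h3).comp ((E.symm : L ≃+* AdjoinRoot g) : L →+* AdjoinRoot g),
    ?_, ?_⟩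
  · intro p
    rw [RingHom.comp_apply, algebraMap_eq (K := K) (L := L) p]
    have h4 : ((E.symm : L ≃+* AdjoinRoot g) : L →+* AdjoinRoot g)
        (algebraMap (RatFunc K) L (algebraMap K[X] (RatFunc K) p)) =
        AdjoinRoot.of g (algebraMap K[X] (RatFunc K) p) := E.symm.commutes _
    rw [h4, AdjoinRoot.lift_of, hψ]
  · rw [RingHom.comp_apply]
    have h4 : ((E.symm : L ≃+* AdjoinRoot g) : L →+* AdjoinRoot g) w = AdjoinRoot.root g := by
      have h5 : E (AdjoinRoot.root g) = w := by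
        simp only [E, AdjoinRoot.equiv'_apply]
        exact (AdjoinRoot.liftAlgHom_root g (Algebra.ofId (RatFunc K) L) h.pb.gen h2).trans
          h.pb_gen
      have h6 : E.symm w = AdjoinRoot.root g := by rw [← h5, E.symm_apply_apply]
      exact h6
    rw [h4, AdjoinRoot.lift_root]

theorem IsCyc.exists_semi_hom (τ : K ≃+* K) (hτ : ∀ i, τ (e i) = e i) :
    ∃ φ : L →+* L, (∀ p : K[X], φ (algebraMap K[X] L p) =
      algebraMap K[X] L (p.map (τ : K →+* K))) ∧ φ w = w := by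
  refine h.exists_hom ((algebraMap K[X] L).comp (mapRingHom (τ : K →+* K))) ?_ ?_
  · exact (algebraMap_inj (K := K) (L := L)).comp (Polynomial.map_injective _ τ.injective)
  · rw [RingHom.comp_apply, coe_mapRingHom, gpoly_map τ hτ, h.eqn]; rfl

/-- two ring homomorphisms out of `L` agreeing on polynomials and on `w` are equal -/
theorem IsCyc.hom_ext {A : Type*} [Field A] {φ ψ : L →+* A}
    (hp : ∀ p : K[X], φ (algebraMap K[X] L p) = ψ (algebraMap K[X] L p)) (hw : φ w = ψ w) :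
    φ = ψ := by
  have h1 : φ.comp (algebraMap (RatFunc K) L) = ψ.comp (algebraMap (RatFunc K) L) := by
    refine IsFractionRing.ringHom_ext (A := K[X]) fun p => ?_
    rw [RingHom.comp_apply, RingHom.comp_apply, ← algebraMap_eq]
    exact hp p
  refine RingHom.ext fun z => ?_
  obtain ⟨q, rfl⟩ := h.exists_rep z
  rw [map_sum, map_sum]
  refine Finset.sum_congr rfl fun j _ => ?_
  rw [map_mul, map_mul, map_pow, map_pow, hw]
  congr 1
  exact RingHom.congr_fun h1 (q j)

theorem IsCyc.exists_semi (τ : K ≃+* K) (hτ : ∀ i, τ (e i) = e i) :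
    ∃ φ : L ≃+* L, IsSemi τ w φ := by
  obtain ⟨φ, hφ, hφw⟩ := h.exists_semi_hom τ hτ
  obtain ⟨ψ, hψ, hψw⟩ := h.exists_semi_hom τ.symm fun i => by
    rw [RingEquiv.symm_apply_eq, hτ]
  have h1 : φ.comp ψ = RingHom.id L := by
    refine h.hom_ext (fun p => ?_) ?_
    · rw [RingHom.comp_apply, hψ, hφ, Polynomial.map_map, RingHom.id_apply]
      congr 1
      have h2 : ((τ : K →+* K)).comp (τ.symm : K →+* K) = RingHom.id K :=
        RingHom.ext fun c => τ.apply_symm_apply c
      rw [h2, Polynomial.map_id]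
    · rw [RingHom.comp_apply, hψw, hφw, RingHom.id_apply]
  have h2 : ψ.comp φ = RingHom.id L := by
    refine h.hom_ext (fun p => ?_) ?_
    · rw [RingHom.comp_apply, hφ, hψ, Polynomial.map_map, RingHom.id_apply]
      congr 1
      have h2 : ((τ.symm : K →+* K)).comp (τ : K →+* K) = RingHom.id K :=
        RingHom.ext fun c => τ.symm_apply_apply c
      rw [h2, Polynomial.map_id]
    · rw [RingHom.comp_apply, hφw, hψw, RingHom.id_apply]
  exact ⟨RingEquiv.ofRingHom φ ψ h1 h2, hφ, hφw⟩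

theorem IsSemi.ext {τ : K ≃+* K} {φ φ' : L ≃+* L} (hφ : IsSemi τ w φ) (hφ' : IsSemi τ w φ') :
    φ = φ' := by
  have h1 : (φ : L →+* L) = (φ' : L →+* L) := by
    refine h.hom_ext (fun p => ?_) ?_
    · exact (hφ.poly p).trans (hφ'.poly p).symm
    · exact hφ.w.trans hφ'.w.symm
  exact RingEquiv.ext fun z => RingHom.congr_fun h1 z

omit h [Algebra (RatFunc K) L] [IsScalarTower K[X] (RatFunc K) L] in
theorem IsSemi.symm {τ : K ≃+* K} {φ : L ≃+* L} (hφ : IsSemi τ w φ) : IsSemi τ.symm w φ.symm := by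
  refine ⟨fun p => ?_, ?_⟩
  · rw [RingEquiv.symm_apply_eq, hφ.poly, Polynomial.map_map]
    congr 1
    have h2 : ((τ : K →+* K)).comp (τ.symm : K →+* K) = RingHom.id K :=
      RingHom.ext fun c => τ.apply_symm_apply c
    rw [h2, Polynomial.map_id]
  · rw [RingEquiv.symm_apply_eq, hφ.w]

omit h [Algebra (RatFunc K) L] [IsScalarTower K[X] (RatFunc K) L] in
theorem IsSemi.isIntegral_iff {τ : K ≃+* K} {φ : L ≃+* L} (hφ : IsSemi τ w φ) {z : L}
    (hz : IsIntegral K[X] z) : IsIntegral K[X] (φ z) := by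
  obtain ⟨p, hp, hpz⟩ := hz
  refine ⟨p.map (mapRingHom (τ : K →+* K)), hp.map _, ?_⟩
  rw [eval₂_map]
  have h1 : (algebraMap K[X] L).comp (mapRingHom (τ : K →+* K)) =
      (φ : L →+* L).comp (algebraMap K[X] L) := by
    refine RingHom.ext fun p => ?_
    exact (hφ.poly p).symm
  rw [h1]
  exact (Polynomial.hom_eval₂ p (algebraMap K[X] L) (φ : L →+* L) z).symm.trans
    (by rw [hpz, map_zero])

/-- the restriction to the ring of regular functions -/
noncomputable def IsSemi.R {τ : K ≃+* K} {φ : L ≃+* L} (hφ : IsSemi τ w φ) :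
    integralClosure K[X] L ≃+* integralClosure K[X] L where
  toFun z := ⟨φ z, hφ.isIntegral_iff z.2⟩
  invFun z := ⟨φ.symm z, hφ.symm.isIntegral_iff z.2⟩
  left_inv z := Subtype.ext (φ.symm_apply_apply _)
  right_inv z := Subtype.ext (φ.apply_symm_apply _)
  map_add' a b := Subtype.ext (by simp)
  map_mul' a b := Subtype.ext (by simp)

omit h [Algebra (RatFunc K) L] [IsScalarTower K[X] (RatFunc K) L] in
theorem IsSemi.coe_R {τ : K ≃+* K} {φ : L ≃+* L} (hφ : IsSemi τ w φ)
    (z : integralClosure K[X] L) : (hφ.R z : L) = φ z := rfl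

omit h [Algebra (RatFunc K) L] [IsScalarTower K[X] (RatFunc K) L] in
theorem IsSemi.R_poly {τ : K ≃+* K} {φ : L ≃+* L} (hφ : IsSemi τ w φ) (p : K[X]) :
    hφ.R (algebraMap K[X] (integralClosure K[X] L) p) =
      algebraMap K[X] (integralClosure K[X] L) (p.map (τ : K →+* K)) :=
  Subtype.ext (hφ.poly p)

omit h [Algebra (RatFunc K) L] [IsScalarTower K[X] (RatFunc K) L] in
theorem IsSemi.R_C {τ : K ≃+* K} {φ : L ≃+* L} (hφ : IsSemi τ w φ) (c : K) :
    hφ.R (Cst K L c) = Cst K L (τ c) := by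
  rw [Cst_apply, hφ.R_poly, map_C]; rfl

omit h [Algebra (RatFunc K) L] [IsScalarTower K[X] (RatFunc K) L] in
theorem IsSemi.x {τ : K ≃+* K} {φ : L ≃+* L} (hφ : IsSemi τ w φ) :
    φ (algebraMap K[X] L X) = algebraMap K[X] L X := by
  rw [hφ.poly, map_X]

omit h [Algebra (RatFunc K) L] [IsScalarTower K[X] (RatFunc K) L] in
theorem IsSemi.R_x {τ : K ≃+* K} {φ : L ≃+* L} (hφ : IsSemi τ w φ) :
    hφ.R (algebraMap K[X] (integralClosure K[X] L) X) =
      algebraMap K[X] (integralClosure K[X] L) X := by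
  rw [hφ.R_poly, map_X]

omit [Algebra (RatFunc K) L] [IsScalarTower K[X] (RatFunc K) L] h in
theorem val_comap {φ : L ≃+* L} {V : ValuationSubring L} {z z' : L} :
    (V.comap (φ : L →+* L)).valuation z ≤ (V.comap (φ : L →+* L)).valuation z' ↔
      V.valuation (φ z) ≤ V.valuation (φ z') := by
  by_cases h0 : z' = 0
  · subst h0
    simp
  have h1 : ∀ W : ValuationSubring L, ∀ a b : L, b ≠ 0 →
      (W.valuation a ≤ W.valuation b ↔ a / b ∈ W) := by
    intro W a b hb
    have hb' : W.valuation b ≠ 0 := (_root_.map_ne_zero _).2 hb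
    rw [← W.valuation_le_one_iff, map_div₀, div_le_one₀ (zero_lt_iff.2 hb')]
  rw [h1 _ _ _ h0, h1 _ _ _ ((map_ne_zero φ).2 h0), ValuationSubring.mem_comap]
  change φ (z / z') ∈ V ↔ _
  rw [map_div₀]

/-- semilinear automorphisms preserve the place at infinity -/
theorem IsSemi.inf {V : ValuationSubring L} (hV : IsInf K V) {τ : K ≃+* K} {φ : L ≃+* L}
    (hφ : IsSemi τ w φ) : V.comap (φ : L →+* L) = V := by
  refine hV.unique h ⟨fun c hc => ?_, ?_⟩
  · have h1 : φ (algebraMap K[X] L (C c)) = algebraMap K[X] L (C (τ c)) := by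
      rw [hφ.poly, map_C]; rfl
    have h2 : V.valuation (φ (algebraMap K[X] L (C c))) = 1 := by
      rw [h1]; exact hV.const _ ((map_ne_zero τ).2 hc)
    apply le_antisymm
    · rw [← map_one (V.comap (φ : L →+* L)).valuation, val_comap, map_one φ, h2, map_one]
    · rw [← map_one (V.comap (φ : L →+* L)).valuation, val_comap, map_one φ, h2, map_one]
  · rw [← not_le, ← map_one (V.comap (φ : L →+* L)).valuation, val_comap, hφ.x, map_one φ, map_one,
      not_le]
    exact hV.big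

theorem IsSemi.val_le {V : ValuationSubring L} (hV : IsInf K V) {τ : K ≃+* K} {φ : L ≃+* L}
    (hφ : IsSemi τ w φ) (z z' : L) :
    V.valuation (φ z) ≤ V.valuation (φ z') ↔ V.valuation z ≤ V.valuation z' := by
  rw [← val_comap, hφ.inf h hV]

theorem IsSemi.D_eq {τ : K ≃+* K} {φ : L ≃+* L} (hφ : IsSemi τ w φ) (z : L) :
    D K (φ z) = D K z := by
  obtain ⟨V, hV⟩ := exists_isInf (K := K) (L := L)
  by_cases h0 : z = 0
  · rw [h0, map_zero]
  have h1 := hV.val_pow_eq h h0
  have h2 := hV.val_pow_eq h ((map_ne_zero φ).2 h0)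
  apply hV.zpow_inj
  rw [← h2, ← map_pow, ← map_pow φ]
  have h3 : V.valuation (φ (z ^ n)) = V.valuation (φ (algebraMap K[X] L X ^ D K z)) := by
    rw [← map_pow, ← map_zpow₀] at h1
    apply le_antisymm
    · rw [hφ.val_le h hV]; exact h1.le
    · rw [hφ.val_le h hV]; exact h1.ge
  rw [h3, map_zpow₀, hφ.x, map_zpow₀]

theorem IsSemi.mon {τ : K ≃+* K} {φ : L ≃+* L} (hφ : IsSemi τ w φ) {z : L}
    (hz : Mon K n (∑ i, m i) w z) : Mon K n (∑ i, m i) w (φ z) := by
  intro V hV
  have h1 := hz V hV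
  have h2 : φ (T K n (∑ i, m i) w) = T K n (∑ i, m i) w := by
    rw [T, map_mul, map_zpow₀, map_zpow₀, hφ.x, hφ.w]
  rw [hφ.D_eq h]
  have h3 : φ z * T K n (∑ i, m i) w ^ D K z - 1 = φ (z * T K n (∑ i, m i) w ^ D K z - 1) := by
    rw [map_sub, map_mul, map_zpow₀, h2, map_one]
  have h4 := (hφ.val_le h hV 1 (z * T K n (∑ i, m i) w ^ D K z - 1)).not
  rw [map_one, map_one, not_le, not_le] at h4
  rw [h3]
  exact h4.2 h1

end

end Pool.Agent.Helper91.SE
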